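import Pool.Agent.Lib.H56.Picard.Coord

/-!
# Translation of invariant functions to horospherical coordinates
-/

namespace Pool.Agent.Lib.H56.Picard

open Matrix MeasureTheory
open scoped Pointwise ENNReal

noncomputable section

/-- coordinate vector fields -/
def ds (s t : ℝ) : ℂ × ℂ := (⟨-(s - t / 2), 0⟩, ⟨1, 0⟩)
/-- coordinate vector fields -/
def dt (s t : ℝ) : ℂ × ℂ := (⟨-(t - s / 2), 0⟩, ⟨-1 / 2, √3 / 2⟩)
/-- coordinate vector fields -/
def dv : ℂ × ℂ := (⟨0, 1 / 2⟩, 0)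
/-- coordinate vector fields -/
def du : ℂ × ℂ := (⟨-(1 / 2), 0⟩, 0)

lemma Psi_eq (s t v u : ℝ) : Psi s t v u =
    ((((-(s ^ 2 - s * t + t ^ 2) - u) / 2 : ℝ) : ℂ) + ((v / 2 : ℝ) : ℂ) * Complex.I,
      ((s - t / 2 : ℝ) : ℂ) + ((√3 / 2 * t : ℝ) : ℂ) * Complex.I) := by
  refine Prod.ext (Complex.ext ?_ ?_) (Complex.ext ?_ ?_) <;>
    simp only [Psi, Complex.add_re, Complex.add_im, Complex.ofReal_re, Complex.mul_re,
      Complex.mul_im, Complex.I_re, Complex.I_im, Complex.ofReal_im] <;> ring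

lemma hasDerivAt_mk {a b c d : ℝ → ℝ} {a' b' c' d' x : ℝ} (ha : HasDerivAt a a' x)
    (hb : HasDerivAt b b' x) (hc : HasDerivAt c c' x) (hd : HasDerivAt d d' x) :
    HasDerivAt (fun x => ((⟨a x, b x⟩, ⟨c x, d x⟩) : ℂ × ℂ)) (⟨a', b'⟩, ⟨c', d'⟩) x := by
  have h1 : ∀ {a b : ℝ → ℝ} {a' b' : ℝ}, HasDerivAt a a' x → HasDerivAt b b' x →
      HasDerivAt (fun x => (⟨a x, b x⟩ : ℂ)) ⟨a', b'⟩ x := by
    intro a b a' b' ha hb
    have h2 := (ha.ofReal_comp).add ((hb.ofReal_comp).mul_const Complex.I)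
    have e1 : (fun x => (⟨a x, b x⟩ : ℂ)) = fun x => ((a x : ℝ) : ℂ) + ((b x : ℝ) : ℂ) * Complex.I := by
      funext x; apply Complex.ext <;> simp
    have e2 : (⟨a', b'⟩ : ℂ) = (a' : ℂ) + (b' : ℂ) * Complex.I := by
      apply Complex.ext <;> simp
    rw [e1, e2]; exact h2
  exact (h1 ha hb).prodMk (h1 hc hd)

lemma hasDerivAt_Psi_s (s t v u : ℝ) : HasDerivAt (fun x => Psi x t v u) (ds s t) s := by
  unfold Psi ds
  apply hasDerivAt_mk
  · have h := (((((hasDerivAt_id s).pow 2).sub ((hasDerivAt_id s).mul_const t)).add_const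
      (t ^ 2)).neg.sub_const u).div_const 2
    refine h.congr_deriv ?_
    simp; ring
  · exact hasDerivAt_const _ _
  · exact (hasDerivAt_id s).sub_const _
  · exact hasDerivAt_const _ _

lemma hasDerivAt_Psi_t (s t v u : ℝ) : HasDerivAt (fun x => Psi s x v u) (dt s t) t := by
  unfold Psi dt
  apply hasDerivAt_mk
  · have h := (((((hasDerivAt_id t).const_mul s).const_sub (s ^ 2)).add
      ((hasDerivAt_id t).pow 2)).neg.sub_const u).div_const 2
    refine h.congr_deriv ?_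
    simp; ring
  · exact hasDerivAt_const _ _
  · refine (((hasDerivAt_id t).div_const 2).const_sub s).congr_deriv ?_
    simp; norm_num
  · refine ((hasDerivAt_id t).const_mul (√3 / 2)).congr_deriv ?_
    simp

lemma hasDerivAt_Psi_v (s t v u : ℝ) : HasDerivAt (fun x => Psi s t x u) dv v := by
  unfold Psi dv
  have : ((0 : ℂ)) = ⟨0, 0⟩ := rfl
  rw [this]
  apply hasDerivAt_mk
  · exact hasDerivAt_const _ _
  · exact (hasDerivAt_id v).div_const 2
  · exact hasDerivAt_const _ _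
  · exact hasDerivAt_const _ _

lemma hasDerivAt_Psi_u (s t v u : ℝ) : HasDerivAt (fun x => Psi s t v x) du u := by
  unfold Psi du
  have : ((0 : ℂ)) = ⟨0, 0⟩ := rfl
  rw [this]
  apply hasDerivAt_mk
  · refine (((hasDerivAt_id u).const_sub (-(s ^ 2 - s * t + t ^ 2))).div_const 2).congr_deriv ?_
    simp; norm_num
  · exact hasDerivAt_const _ _
  · exact hasDerivAt_const _ _
  · exact hasDerivAt_const _ _

/-- The energy density in coordinates. -/
lemma energy_Psi (f : ℂ × ℂ → ℝ) (s t v u : ℝ) :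
    energy f (Psi s t v u) =
      u ^ 2 * ((fderiv ℝ f (Psi s t v u) du) ^ 2 + (fderiv ℝ f (Psi s t v u) dv) ^ 2) +
      1 / 3 * u * ((fderiv ℝ f (Psi s t v u) (ds s t) + √3 * t * fderiv ℝ f (Psi s t v u) dv) ^ 2 +
        1 * (fderiv ℝ f (Psi s t v u) (ds s t) + √3 * t * fderiv ℝ f (Psi s t v u) dv) *
          (fderiv ℝ f (Psi s t v u) (dt s t) - √3 * s * fderiv ℝ f (Psi s t v u) dv) +
        (fderiv ℝ f (Psi s t v u) (dt s t) - √3 * s * fderiv ℝ f (Psi s t v u) dv) ^ 2) := by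
  unfold energy normL
  rw [height_Psi]
  set L := fderiv ℝ f (Psi s t v u)
  have e1 : L (1 / 2, 0) = -L du := by
    rw [← map_neg]; congr 1
    refine Prod.ext (Complex.ext ?_ ?_) (Complex.ext ?_ ?_) <;> simp [du]
  have e2 : L (Complex.I / 2, 0) = L dv := by
    congr 1
    refine Prod.ext (Complex.ext ?_ ?_) (Complex.ext ?_ ?_) <;> simp [dv]
  have e3 : L (-star (Psi s t v u).2, 1) = L (ds s t) + √3 * t * L dv := by
    have : ((-star (Psi s t v u).2, 1) : ℂ × ℂ) = ds s t + (√3 * t) • dv := by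
      refine Prod.ext (Complex.ext ?_ ?_) (Complex.ext ?_ ?_) <;> simp [ds, dv, Psi]
      ring
    rw [this, map_add, map_smul, smul_eq_mul]
  have e4 : √3 / 2 * L (-(Complex.I * star (Psi s t v u).2), Complex.I) =
      L (dt s t) - √3 * s * L dv + 1 / 2 * (L (ds s t) + √3 * t * L dv) := by
    have : ((√3 / 2) • ((-(Complex.I * star (Psi s t v u).2), Complex.I) : ℂ × ℂ)) =
        dt s t - (√3 * s) • dv + (1 / 2 : ℝ) • (ds s t + (√3 * t) • dv) := by
      refine Prod.ext (Complex.ext ?_ ?_) (Complex.ext ?_ ?_) <;> simp [ds, dt, dv, Psi]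
      · linear_combination (-t / 4) * sq3
      · ring
      · norm_num
    have h2 := congrArg L this
    simp only [map_smul, map_add, map_sub, smul_eq_mul] at h2
    linarith
  rw [e1, e2, e3]
  set A := L (ds s t) + √3 * t * L dv
  set W := L (dt s t) - √3 * s * L dv
  set D := L (-(Complex.I * star (Psi s t v u).2), Complex.I)
  have e5 : 3 / 4 * D ^ 2 = (W + 1 / 2 * A) ^ 2 := by
    rw [← e4, mul_pow, div_pow, sq √3, sq3]; norm_num
  have e6 : D ^ 2 = 4 / 3 * (W + 1 / 2 * A) ^ 2 := by linarith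
  rw [e6]
  ring

lemma om_w : 2 * om.re = -Complex.normSq 1 := by simp [om]; norm_num

lemma om_mem : om ∈ O := ⟨0, 1, by simp [eis]⟩

/-- The data of an invariant real function. -/
structure InvFun (f : ℂ × ℂ → ℝ) : Prop where
  smooth : ContDiffOn ℝ 1 f {z : ℂ × ℂ | 0 < height z}
  inv : ∀ g ∈ Gam, ∀ z : ℂ × ℂ, 0 < height z → f (act (mat g) z) = f z

lemma InvFun.differentiableAt {f : ℂ × ℂ → ℝ} (hf : InvFun f) {z : ℂ × ℂ} (hz : 0 < height z) :
    DifferentiableAt ℝ f z :=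
  ((hf.smooth.differentiableOn one_ne_zero) z hz).differentiableAt (isOpen_siegel.mem_nhds hz)

lemma InvFun.continuousOn_fderiv {f : ℂ × ℂ → ℝ} (hf : InvFun f) :
    ContinuousOn (fderiv ℝ f) {z : ℂ × ℂ | 0 < height z} :=
  hf.smooth.continuousOn_fderiv_of_isOpen isOpen_siegel le_rfl

lemma continuous_Psi4 : Continuous fun p : ℝ × ℝ × ℝ × ℝ => Psi p.1 p.2.1 p.2.2.1 p.2.2.2 := by
  have e : (fun p : ℝ × ℝ × ℝ × ℝ => Psi p.1 p.2.1 p.2.2.1 p.2.2.2) = fun p =>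
      (((((-(p.1 ^ 2 - p.1 * p.2.1 + p.2.1 ^ 2) - p.2.2.2) / 2 : ℝ) : ℂ) +
        ((p.2.2.1 / 2 : ℝ) : ℂ) * Complex.I),
        (((p.1 - p.2.1 / 2 : ℝ) : ℂ) + ((√3 / 2 * p.2.1 : ℝ) : ℂ) * Complex.I)) := by
    funext p
    exact Psi_eq _ _ _ _
  rw [e]
  fun_prop

lemma Psi_mapsTo : Set.MapsTo (fun p : ℝ × ℝ × ℝ × ℝ => Psi p.1 p.2.1 p.2.2.1 p.2.2.2)
    {p | 0 < p.2.2.2} {z : ℂ × ℂ | 0 < height z} := by
  intro p hp
  show 0 < height (Psi p.1 p.2.1 p.2.2.1 p.2.2.2)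
  rw [height_Psi]; exact hp

section

variable {f : ℂ × ℂ → ℝ} (hf : InvFun f)

include hf

lemma InvFun.cont : ContinuousOn (fun p : ℝ × ℝ × ℝ × ℝ => f (Psi p.1 p.2.1 p.2.2.1 p.2.2.2))
    {p | 0 < p.2.2.2} :=
  hf.smooth.continuousOn.comp continuous_Psi4.continuousOn Psi_mapsTo

lemma InvFun.cont_dir {d : ℝ × ℝ × ℝ × ℝ → ℂ × ℂ} (hd : Continuous d) :
    ContinuousOn (fun p : ℝ × ℝ × ℝ × ℝ =>
      fderiv ℝ f (Psi p.1 p.2.1 p.2.2.1 p.2.2.2) (d p)) {p | 0 < p.2.2.2} :=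
  (hf.continuousOn_fderiv.comp continuous_Psi4.continuousOn Psi_mapsTo).clm_apply hd.continuousOn

lemma InvFun.hasDerivAt {c : ℝ → ℂ × ℂ} {c' : ℂ × ℂ} {x : ℝ} (hc : HasDerivAt c c' x)
    (hx : 0 < height (c x)) : HasDerivAt (fun x => f (c x)) (fderiv ℝ f (c x) c') x :=
  (hf.differentiableAt hx).hasFDerivAt.comp_hasDerivAt x hc

lemma InvFun.trans {l w : ℂ} (h : 2 * w.re = -Complex.normSq l) (hl : l ∈ O) (hw : w ∈ O)
    {z : ℂ × ℂ} (hz : 0 < height z) : f (z.1 - star l * z.2 + w, z.2 + l) = f z := by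
  have h1 := hf.inv (T l w h) (T_mem h hl hw) z hz
  rwa [mat_T, act_TM] at h1

lemma InvFun.per_v (s t v u : ℝ) (hu : 0 < u) : f (Psi s t (v + 2 * √3) u) = f (Psi s t v u) := by
  have h0 : 2 * th.re = -Complex.normSq 0 := by simp [th]
  rw [← hf.trans h0 O.zero_mem th_mem (z := Psi s t v u) (by rw [height_Psi]; exact hu)]
  congr 1
  refine Prod.ext (Complex.ext ?_ ?_) (Complex.ext ?_ ?_) <;> simp [Psi, th]
  ring

lemma InvFun.per_s (s t v u : ℝ) (hu : 0 < u) :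
    f (Psi (s + 1) t (v + (√3 - √3 * t)) u) = f (Psi s t v u) := by
  rw [← hf.trans om_w O.one_mem om_mem (z := Psi s t v u) (by rw [height_Psi]; exact hu)]
  congr 1
  refine Prod.ext (Complex.ext ?_ ?_) (Complex.ext ?_ ?_) <;> simp [Psi, om]
  · ring
  · ring
  · ring

lemma InvFun.per_t (s t v u : ℝ) (hu : 0 < u) :
    f (Psi s (t + 1) (v + (√3 + √3 * s)) u) = f (Psi s t v u) := by
  have h0 : 2 * om.re = -Complex.normSq om := by
    simp [om, Complex.normSq_apply]; nlinarith [sq3]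
  rw [← hf.trans h0 om_mem om_mem (z := Psi s t v u) (by rw [height_Psi]; exact hu)]
  congr 1
  refine Prod.ext (Complex.ext ?_ ?_) (Complex.ext ?_ ?_) <;> simp [Psi, om]
  · nlinarith [sq3]
  · ring
  · ring
  · ring

end

end

end Pool.Agent.Lib.H56.Picard
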