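import Pool.Agent.Lib.H56.Picard.Unfold

/-!
# Integration over the cusp box in horospherical coordinates
-/

namespace Pool.Agent.Lib.H56.Picard

open Matrix MeasureTheory
open scoped Pointwise ENNReal

noncomputable section

/-- Horospherical coordinates: `ζ = s + tω`, `z₁ = (-|ζ|² - u + i v)/2`, `z₂ = ζ`. -/
def Psi (s t v u : ℝ) : ℂ × ℂ :=
  (⟨(-(s ^ 2 - s * t + t ^ 2) - u) / 2, v / 2⟩, ⟨s - t / 2, √3 / 2 * t⟩)

lemma height_Psi (s t v u : ℝ) : height (Psi s t v u) = u := by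
  simp only [height, Psi, Complex.normSq_apply]
  nlinarith [sq3]

lemma sc_Psi (s t v u : ℝ) : sc (Psi s t v u) = s := by
  have h3 := sqrt3_pos
  simp only [sc, Psi]
  field_simp
  ring

lemma tc_Psi (s t v u : ℝ) : tc (Psi s t v u) = t := by
  have h3 := sqrt3_pos
  simp only [tc, Psi]
  field_simp

lemma vc_Psi (s t v u : ℝ) : vc (Psi s t v u) = v := by
  simp only [vc, Psi]
  ring

lemma Psi_coords (z : ℂ × ℂ) : Psi (sc z) (tc z) (vc z) (height z) = z := by
  have h3 := sqrt3_pos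
  have hs := sq3
  have e2 : √3 / 2 * tc z = z.2.im := by unfold tc; field_simp
  have e1 : sc z - tc z / 2 = z.2.re := by unfold sc tc; field_simp; ring
  have e3 : sc z ^ 2 - sc z * tc z + tc z ^ 2 = Complex.normSq z.2 := by
    rw [Complex.normSq_apply, ← e1, ← e2]
    nlinarith [hs]
  unfold Psi
  rw [e3, e1, e2]
  refine Prod.ext (Complex.ext ?_ ?_) (Complex.ext ?_ ?_)
  · simp only [height]; ring
  · simp only [vc]; ring
  · rfl
  · rfl

/-- One-dimensional affine substitution. -/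
lemma lintegral_affine (a b : ℝ) (ha : a ≠ 0) (g : ℝ → ℝ≥0∞) :
    ∫⁻ x, g x = ENNReal.ofReal |a| * ∫⁻ x, g (a * x + b) := by
  have h := lintegral_image_eq_lintegral_abs_deriv_mul (s := Set.univ) (f := fun x : ℝ => a * x + b)
    (f' := fun _ => a) MeasurableSet.univ
    (fun x _ => (((hasDerivAt_id x).const_mul a).add_const b |>.congr_deriv (by simp)).hasDerivWithinAt)
    (fun x _ y _ hxy => by
      have : a * x = a * y := by simpa using hxy
      exact mul_left_cancel₀ ha this) g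
  have himg : (fun x : ℝ => a * x + b) '' Set.univ = Set.univ := by
    rw [Set.image_univ, Set.range_eq_univ]
    intro y
    exact ⟨(y - b) / a, by field_simp; ring⟩
  rw [himg, setLIntegral_univ, setLIntegral_univ] at h
  rw [h, lintegral_const_mul' _ _ ENNReal.ofReal_ne_top]

lemma lintegral_complex (g : ℂ → ℝ≥0∞) (hg : Measurable g) :
    ∫⁻ z, g z = ∫⁻ x : ℝ, ∫⁻ y : ℝ, g ⟨x, y⟩ := by
  have h := Complex.volume_preserving_equiv_real_prod.symm.lintegral_comp hg
  rw [← h, Measure.volume_eq_prod, lintegral_prod]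
  · rfl
  · exact (hg.comp Complex.measurableEquivRealProd.symm.measurable).aemeasurable

lemma measurable_Psi4 : Measurable fun p : ℝ × ℝ × ℝ × ℝ => Psi p.1 p.2.1 p.2.2.1 p.2.2.2 := by
  have h1 : Continuous fun p : ℝ × ℝ × ℝ × ℝ => Psi p.1 p.2.1 p.2.2.1 p.2.2.2 := by
    have e : (fun p : ℝ × ℝ × ℝ × ℝ => Psi p.1 p.2.1 p.2.2.1 p.2.2.2) = fun p =>
        (((((-(p.1 ^ 2 - p.1 * p.2.1 + p.2.1 ^ 2) - p.2.2.2) / 2 : ℝ) : ℂ) +
          ((p.2.2.1 / 2 : ℝ) : ℂ) * Complex.I),
          (((p.1 - p.2.1 / 2 : ℝ) : ℂ) + ((√3 / 2 * p.2.1 : ℝ) : ℂ) * Complex.I)) := by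
      funext p
      refine Prod.ext (Complex.ext ?_ ?_) (Complex.ext ?_ ?_) <;>
        simp only [Psi, Complex.add_re, Complex.add_im, Complex.ofReal_re, Complex.mul_re,
          Complex.mul_im, Complex.I_re, Complex.I_im, Complex.ofReal_im] <;> ring
    rw [e]
    fun_prop
  exact h1.measurable

/-- Tonelli for three variables -/
lemma tonelli3 (K : ℝ → ℝ → ℝ → ℝ≥0∞) (hK : Measurable fun p : ℝ × ℝ × ℝ => K p.1 p.2.1 p.2.2) :
    ∫⁻ t : ℝ, ∫⁻ s : ℝ, ∫⁻ u : ℝ, K t s u = ∫⁻ u : ℝ, ∫⁻ s : ℝ, ∫⁻ t : ℝ, K t s u := by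
  have sw1 : ∀ t : ℝ, (∫⁻ s : ℝ, ∫⁻ u : ℝ, K t s u) = ∫⁻ u : ℝ, ∫⁻ s : ℝ, K t s u := by
    intro t
    apply lintegral_lintegral_swap
    exact (hK.comp (measurable_const.prodMk (measurable_fst.prodMk measurable_snd))).aemeasurable
  simp only [sw1]
  have h2 : Measurable fun q : (ℝ × ℝ) × ℝ => K q.1.1 q.2 q.1.2 :=
    hK.comp ((measurable_fst.fst).prodMk (measurable_snd.prodMk measurable_fst.snd))
  have h3 : Measurable fun q : ℝ × ℝ => ∫⁻ s : ℝ, K q.1 s q.2 :=
    Measurable.lintegral_prod_right' h2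
  rw [lintegral_lintegral_swap (f := fun t u : ℝ => ∫⁻ s : ℝ, K t s u) h3.aemeasurable]
  apply lintegral_congr; intro u
  apply lintegral_lintegral_swap (f := fun t s : ℝ => K t s u)
  exact (hK.comp (measurable_fst.prodMk (measurable_snd.prodMk measurable_const))).aemeasurable

lemma inner_Psi (G : ℂ × ℂ → ℝ≥0∞) (s t : ℝ) :
    ∫⁻ a : ℝ, ∫⁻ b : ℝ, G (⟨a, b⟩, ⟨1 * s + -(t / 2), √3 / 2 * t + 0⟩) =
      ENNReal.ofReal (1 / 4) * ∫⁻ u : ℝ, ∫⁻ v : ℝ, G (Psi s t v u) := by
  rw [lintegral_affine (-(1 / 2)) (-(s ^ 2 - s * t + t ^ 2) / 2) (by norm_num)]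
  have h4 : ENNReal.ofReal (1 / 4) =
      ENNReal.ofReal |-(1 / 2 : ℝ)| * ENNReal.ofReal |(1 / 2 : ℝ)| := by
    rw [← ENNReal.ofReal_mul (abs_nonneg _)]; norm_num
  rw [h4, mul_assoc]
  congr 1
  rw [← lintegral_const_mul' _ _ ENNReal.ofReal_ne_top]
  apply lintegral_congr; intro u
  rw [lintegral_affine (1 / 2) 0 (by norm_num)]
  congr 1
  apply lintegral_congr; intro v
  congr 1
  refine Prod.ext (Complex.ext ?_ ?_) (Complex.ext ?_ ?_)
  · simp only [Psi]; ring
  · simp only [Psi]; ring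
  · simp only [Psi]; ring
  · simp only [Psi]; ring

lemma lintegral_CC (G : ℂ × ℂ → ℝ≥0∞) (hG : Measurable G) :
    ∫⁻ z, G z = ∫⁻ x : ℝ, ∫⁻ y : ℝ, ∫⁻ a : ℝ, ∫⁻ b : ℝ, G (⟨a, b⟩, ⟨x, y⟩) := by
  rw [Measure.volume_eq_prod, lintegral_prod_symm _ hG.aemeasurable, lintegral_complex]
  · apply lintegral_congr; intro x
    apply lintegral_congr; intro y
    rw [lintegral_complex]
    exact hG.comp (measurable_id.prodMk measurable_const)
  · exact Measurable.lintegral_prod_left' (f := fun p : ℂ × ℂ => G p) hG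

/-- Change of variables on `ℂ × ℂ`. -/
lemma lintegral_Psi (G : ℂ × ℂ → ℝ≥0∞) (hG : Measurable G) :
    ∫⁻ z, G z = ENNReal.ofReal (√3 / 8) *
      ∫⁻ u : ℝ, ∫⁻ s : ℝ, ∫⁻ t : ℝ, ∫⁻ v : ℝ, G (Psi s t v u) := by
  have h3 := sqrt3_pos
  have step1 := lintegral_CC G hG
  have hmC : Measurable fun p : ℝ × ℝ => (⟨p.1, p.2⟩ : ℂ) :=
    Complex.measurableEquivRealProd.symm.measurable
  have hm4 : Measurable fun p : ((ℝ × ℝ) × ℝ) × ℝ => G (⟨p.1.2, p.2⟩, ⟨p.1.1.1, p.1.1.2⟩) := by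
    apply hG.comp
    exact (hmC.comp ((measurable_fst.snd).prodMk measurable_snd)).prodMk
      (hmC.comp ((measurable_fst.fst.fst).prodMk (measurable_fst.fst.snd)))
  have hm3 : Measurable fun p : (ℝ × ℝ) × ℝ => ∫⁻ b : ℝ, G (⟨p.2, b⟩, ⟨p.1.1, p.1.2⟩) :=
    Measurable.lintegral_prod_right' hm4
  have hm2 : Measurable fun p : ℝ × ℝ => ∫⁻ a : ℝ, ∫⁻ b : ℝ, G (⟨a, b⟩, ⟨p.1, p.2⟩) :=
    Measurable.lintegral_prod_right' hm3
  rw [step1]
  -- swap x and y
  rw [lintegral_lintegral_swap (f := fun x y : ℝ => ∫⁻ a : ℝ, ∫⁻ b : ℝ, G (⟨a, b⟩, ⟨x, y⟩))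
    hm2.aemeasurable]
  -- y = √3/2 t
  rw [lintegral_affine (√3 / 2) 0 (by positivity)]
  have step2 : ∀ t : ℝ, (∫⁻ x : ℝ, ∫⁻ a : ℝ, ∫⁻ b : ℝ, G (⟨a, b⟩, ⟨x, √3 / 2 * t + 0⟩)) =
      ENNReal.ofReal (1 / 4) *
        ∫⁻ s : ℝ, ∫⁻ u : ℝ, ∫⁻ v : ℝ, G (Psi s t v u) := by
    intro t
    rw [lintegral_affine 1 (-(t / 2)) one_ne_zero, abs_one, ENNReal.ofReal_one, one_mul,
      ← lintegral_const_mul' _ _ ENNReal.ofReal_ne_top]
    exact lintegral_congr fun s => inner_Psi G s t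
  rw [lintegral_congr step2]
  rw [lintegral_const_mul' _ _ ENNReal.ofReal_ne_top, ← mul_assoc,
    ← ENNReal.ofReal_mul (abs_nonneg _)]
  have hc : |√3 / 2| * (1 / 4) = √3 / 8 := by rw [abs_of_pos (by positivity)]; ring
  rw [hc]
  congr 1
  have m4 : Measurable fun q : (ℝ × ℝ × ℝ) × ℝ => (q.1.2.1, q.1.1, q.2, q.1.2.2) :=
    (measurable_fst.snd.fst).prodMk
      ((measurable_fst.fst).prodMk (measurable_snd.prodMk (measurable_fst.snd.snd)))
  have m5 : Measurable fun q : (ℝ × ℝ × ℝ) × ℝ => G (Psi q.1.2.1 q.1.1 q.2 q.1.2.2) := by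
    have h := (hG.comp measurable_Psi4).comp m4
    simp only [Function.comp_def] at h
    exact h
  have m6 : Measurable fun q : ℝ × ℝ × ℝ => ∫⁻ v : ℝ, G (Psi q.2.1 q.1 v q.2.2) :=
    Measurable.lintegral_prod_right' m5
  exact tonelli3 (fun t s u => ∫⁻ v : ℝ, G (Psi s t v u)) m6

/-- Integration over the cusp box. -/
theorem lintegral_D1 (φ : ℂ × ℂ → ℝ≥0∞) (hφ : Measurable φ) :
    ∫⁻ z in D1, φ z.1 ∂mu = ENNReal.ofReal (√3 / 8) *
      ∫⁻ u in Set.Ioi (1 : ℝ), ∫⁻ s in Set.Ico (0 : ℝ) 1, ∫⁻ t in Set.Ico (0 : ℝ) 1,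
        ∫⁻ v in Set.Ico (0 : ℝ) (2 * √3), ENNReal.ofReal (u⁻¹ ^ 3) * φ (Psi s t v u) := by
  set S : Set (ℂ × ℂ) := {z | 1 < height z ∧ sc z ∈ Set.Ico (0 : ℝ) 1 ∧ tc z ∈ Set.Ico (0 : ℝ) 1 ∧
    vc z ∈ Set.Ico (0 : ℝ) (2 * √3)} with hS
  have hSm : MeasurableSet S := by
    have h2 : Continuous sc := by unfold sc; fun_prop
    have h3 : Continuous tc := by unfold tc; fun_prop
    have h4 : Continuous vc := by unfold vc; fun_prop
    exact (continuous_height.measurable measurableSet_Ioi).inter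
      ((h2.measurable measurableSet_Ico).inter
      ((h3.measurable measurableSet_Ico).inter (h4.measurable measurableSet_Ico)))
  have e1 : ∫⁻ z in D1, φ z.1 ∂mu = ∫⁻ z, (S.indicator φ) z.1 ∂mu := by
    rw [← lintegral_indicator measurableSet_D1]
    rfl
  rw [e1, lintegral_mu _ (hφ.indicator hSm), ← lintegral_indicator measurableSet_siegel]
  rw [lintegral_Psi]
  · congr 1
    rw [← lintegral_indicator measurableSet_Ioi]
    apply lintegral_congr; intro u
    by_cases hu : 1 < u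
    · rw [Set.indicator_of_mem (show u ∈ Set.Ioi 1 from hu), ← lintegral_indicator measurableSet_Ico]
      apply lintegral_congr; intro s
      by_cases hs : s ∈ Set.Ico (0 : ℝ) 1
      · rw [Set.indicator_of_mem hs, ← lintegral_indicator measurableSet_Ico]
        apply lintegral_congr; intro t
        by_cases ht : t ∈ Set.Ico (0 : ℝ) 1
        · rw [Set.indicator_of_mem ht, ← lintegral_indicator measurableSet_Ico]
          apply lintegral_congr; intro v
          have hu0 : Psi s t v u ∈ {z : ℂ × ℂ | 0 < height z} := by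
            show 0 < height (Psi s t v u)
            rw [height_Psi]; linarith
          rw [Set.indicator_of_mem hu0, height_Psi]
          by_cases hv : v ∈ Set.Ico (0 : ℝ) (2 * √3)
          · rw [Set.indicator_of_mem hv, Set.indicator_of_mem]
            exact ⟨by rw [height_Psi]; exact hu, by rw [sc_Psi]; exact hs,
              by rw [tc_Psi]; exact ht, by rw [vc_Psi]; exact hv⟩
          · rw [Set.indicator_of_notMem hv, Set.indicator_of_notMem, mul_zero]
            rintro ⟨-, -, -, h⟩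
            rw [vc_Psi] at h; exact hv h
        · rw [Set.indicator_of_notMem ht]
          rw [lintegral_eq_zero_of_ae_eq_zero]
          apply Filter.Eventually.of_forall; intro v
          have : Psi s t v u ∉ S := by
            rintro ⟨-, -, h, -⟩; rw [tc_Psi] at h; exact ht h
          simp only [Set.indicator_apply, if_neg this, mul_zero, ite_self, Pi.zero_apply]
      · rw [Set.indicator_of_notMem hs]
        rw [lintegral_eq_zero_of_ae_eq_zero]
        apply Filter.Eventually.of_forall; intro t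
        simp only [Pi.zero_apply]
        rw [lintegral_eq_zero_of_ae_eq_zero]
        apply Filter.Eventually.of_forall; intro v
        have : Psi s t v u ∉ S := by
          rintro ⟨-, h, -, -⟩; rw [sc_Psi] at h; exact hs h
        simp only [Set.indicator_apply, if_neg this, mul_zero, ite_self, Pi.zero_apply]
    · rw [Set.indicator_of_notMem (show u ∉ Set.Ioi 1 from hu)]
      rw [lintegral_eq_zero_of_ae_eq_zero]
      apply Filter.Eventually.of_forall; intro s
      simp only [Pi.zero_apply]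
      rw [lintegral_eq_zero_of_ae_eq_zero]
      apply Filter.Eventually.of_forall; intro t
      simp only [Pi.zero_apply]
      rw [lintegral_eq_zero_of_ae_eq_zero]
      apply Filter.Eventually.of_forall; intro v
      have : Psi s t v u ∉ S := by
        rintro ⟨h, -, -, -⟩; rw [height_Psi] at h; exact hu h
      simp only [Set.indicator_apply, if_neg this, mul_zero, ite_self, Pi.zero_apply]
  · exact (measurable_dens.mul (hφ.indicator hSm)).indicator measurableSet_siegel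

end

end Pool.Agent.Lib.H56.Picard
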