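import Pool.Agent.Lib.H56.Picard.Cover

/-!
# Counting the cusps of height larger than one
-/

namespace Pool.Agent.Lib.H56.Picard

open Matrix MeasureTheory

noncomputable section

/-- residue class modulo `2` -/
def cls (x : ℂ) : ZMod 2 × ZMod 2 :=
  (((⌊x.re + x.im / √3⌋ : ℤ) : ZMod 2), ((⌊2 * x.im / √3⌋ : ℤ) : ZMod 2))

lemma cls_eis (a b : ℤ) : cls (eis a b) = ((a : ZMod 2), (b : ZMod 2)) := by
  have h3 := sqrt3_pos
  have h1 : (eis a b).re + (eis a b).im / √3 = (a : ℝ) := by
    rw [eis_re, eis_im]; field_simp; ring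
  have h2 : 2 * (eis a b).im / √3 = (b : ℝ) := by
    rw [eis_im]; field_simp
  rw [cls, h1, h2, Int.floor_intCast, Int.floor_intCast]

lemma eq_of_cls {x y : ℂ} (hx : x ∈ O) (hy : y ∈ O) (h : cls x = cls y)
    (hd : Complex.normSq (x - y) < 4) : x = y := by
  obtain ⟨a, b, rfl⟩ := hx
  obtain ⟨c, d, rfl⟩ := hy
  rw [cls_eis, cls_eis, Prod.mk.injEq, ZMod.intCast_eq_intCast_iff, ZMod.intCast_eq_intCast_iff]
    at h
  apply eq_of_cong_two _ _ hd
  · exact Int.emod_eq_zero_of_dvd (Int.modEq_iff_dvd.mp h.1.symm)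
  · exact Int.emod_eq_zero_of_dvd (Int.modEq_iff_dvd.mp h.2.symm)

/-- `q = j/c` -/
def qq (g : SU21) (z : ℂ × ℂ) : ℂ := jf (mat g) z / mat g 2 0

/-- the centre `β` of the horoball -/
def bet (g : SU21) : ℂ := star (mat g 2 1 / mat g 2 0)

/-- `√3` times the vertical coordinate -/
def tt (g : SU21) (z : ℂ × ℂ) : ℝ := √3 * (2 * (qq g z).im)

lemma qq_eq (g : SU21) (z : ℂ × ℂ) (hc : mat g 2 0 ≠ 0) :
    qq g z = z.1 + star (bet g) * z.2 + mat g 2 2 / mat g 2 0 := by
  rw [qq, jf_apply, bet, star_star]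
  field_simp

lemma qq_re (g : SU21) (z : ℂ × ℂ) (hc : mat g 2 0 ≠ 0) :
    2 * (qq g z).re = -(height z + Complex.normSq (z.2 - bet g)) := by
  have h := key_identity g z
  have hn : Complex.normSq (mat g 2 0) ≠ 0 := by simpa using hc
  have hpos : 0 < Complex.normSq (mat g 2 0) := Complex.normSq_pos.mpr hc
  have h1 : (star (mat g 2 0) * jf (mat g) z).re = Complex.normSq (mat g 2 0) * (qq g z).re := by
    have : jf (mat g) z = mat g 2 0 * qq g z := by rw [qq]; field_simp
    rw [this, Complex.star_def, ← mul_assoc, ← Complex.normSq_eq_conj_mul_self]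
    simp
  have h2 : Complex.normSq (mat g 2 1 - mat g 2 0 * star z.2) =
      Complex.normSq (mat g 2 0) * Complex.normSq (z.2 - bet g) := by
    have : mat g 2 1 - mat g 2 0 * star z.2 = -(mat g 2 0 * star (z.2 - bet g)) := by
      rw [star_sub, bet, star_star]; field_simp; ring
    rw [this, Complex.normSq_neg, map_mul, Complex.star_def, Complex.normSq_conj]
  rw [h1, h2] at h
  have h3 : Complex.normSq (mat g 2 0) *
      (2 * (qq g z).re + (height z + Complex.normSq (z.2 - bet g))) = 0 := by linarith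
  rcases mul_eq_zero.mp h3 with h4 | h4
  · exact absurd h4 hn
  · linarith

lemma normSq_jf (g : SU21) (z : ℂ × ℂ) (hc : mat g 2 0 ≠ 0) :
    12 * Complex.normSq (jf (mat g) z) = Complex.normSq (mat g 2 0) *
      (3 * (height z + Complex.normSq (z.2 - bet g)) ^ 2 + tt g z ^ 2) := by
  have h1 : jf (mat g) z = mat g 2 0 * qq g z := by rw [qq]; field_simp
  have h2 := qq_re g z hc
  have h3 : height z + Complex.normSq (z.2 - bet g) = -(2 * (qq g z).re) := by linarith
  rw [h3, h1, map_mul, tt, mul_pow √3, sq √3, sq3, Complex.normSq_apply (qq g z)]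
  ring

lemma star_th : star th = -th := by
  apply Complex.ext <;> simp [th]

lemma th_sq : th * th = -3 := by
  apply Complex.ext
  · simp [th]
  · simp [th]

lemma th_ne_zero : th ≠ 0 := by
  intro h
  have := congrArg Complex.normSq h
  rw [normSq_th] at this
  simp at this

/-- inverse of unit -/
lemma unit_inv {e : ℂ} (he : e ∈ O) (h1 : Complex.normSq e = 1) : e ≠ 0 ∧ e⁻¹ ∈ O := by
  have hne : e ≠ 0 := by intro h; rw [h] at h1; simp at h1
  refine ⟨hne, ?_⟩
  have : e⁻¹ = star e := by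
    rw [Complex.star_def, Complex.inv_def, h1]; simp
  rw [this]
  exact star_mem_O e he

lemma th_dvd {b : ℂ} (hb : b ∈ O) {n : ℤ} (hn : Complex.normSq b = 3 * n) :
    ∃ b' ∈ O, b = th * b' := by
  obtain ⟨p, q, rfl⟩ := hb
  rw [normSq_eis] at hn
  have hn' : p ^ 2 - p * q + q ^ 2 = 3 * n := by exact_mod_cast hn
  have h3 : (3 : ℤ) ∣ (p + q) ^ 2 := ⟨n + p * q, by linear_combination hn'⟩
  have h4 : (3 : ℤ) ∣ p + q := Int.prime_three.dvd_of_dvd_pow h3
  obtain ⟨k, hk⟩ := h4
  -- b / θ = -θ b / 3 = -((p - 2 q) + (2 p - q) ω)/3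
  refine ⟨eis (q - k) (k - p), eis_mem _ _, ?_⟩
  have ht : th = eis 1 2 := by rw [th_eq]; simp [eis]
  rw [ht, eis_mul, eis_inj]
  constructor <;> linarith

/-- For `B ∈ O` with `Re (B/θ) = 0`, `B` is an integer. -/
lemma div_th {B : ℂ} (hB : B ∈ O) (hre : (B / th).re = 0) :
    ∃ m : ℤ, B = m ∧ √3 * (2 * (B / th).im) = -(2 * m) := by
  obtain ⟨a, b, rfl⟩ := hB
  have h3 := sqrt3_pos
  have h1 : eis a b / th = -(th * eis a b) / 3 := by
    rw [div_eq_div_iff th_ne_zero (by norm_num)]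
    linear_combination (eis a b) * th_sq
  have hre' : (eis a b / th).re = √3 * (eis a b).im / 3 := by
    rw [h1]; simp [th]
  have him' : (eis a b / th).im = -(√3 * (eis a b).re) / 3 := by
    rw [h1]; simp [th]
  rw [hre', eis_im] at hre
  have hb : (b : ℝ) = 0 := by
    have : √3 * √3 * b = 0 := by linarith
    rw [sq3] at this
    linarith
  have hb' : b = 0 := by exact_mod_cast hb
  subst hb'
  refine ⟨a, by simp [eis], ?_⟩
  rw [him', eis_re]
  push_cast
  have : √3 * (2 * (-(√3 * (↑a - 0 / 2)) / 3)) = -(2 * (√3 * √3) * a / 3) := by ring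
  rw [this, sq3]; ring

/-- For `B ∈ O` with `Re B = 0`, `B ∈ ℤθ`. -/
lemma re_zero {B : ℂ} (hB : B ∈ O) (hre : B.re = 0) : ∃ m : ℤ, B = m * th ∧
    √3 * (2 * B.im) = 6 * m := by
  obtain ⟨a, b, rfl⟩ := hB
  rw [eis_re] at hre
  have hab : b = 2 * a := by
    have : (b : ℝ) = 2 * a := by linarith
    exact_mod_cast this
  refine ⟨a, ?_, ?_⟩
  · rw [hab, th_eq]; simp [eis]; ring
  · rw [eis_im, hab]; push_cast
    have : √3 * (2 * (√3 / 2 * (2 * a))) = 2 * (√3 * √3) * a := by ring
    rw [this, sq3]; ring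

/-- The label of a group element. -/
def label (g : SU21) (z : ℂ × ℂ) : Option (Option (ZMod 2 × ZMod 2)) × Bool := by
  classical
  exact
  if mat g 2 0 = 0 then (none, decide (mat g 2 2 ^ 3 = 1))
  else if Complex.normSq (mat g 2 0) = 1 then
    (if -3 ≤ tt g z ∧ tt g z < 3 then some (some (cls (bet g))) else some none,
      decide (mat g 2 0 ^ 3 = 1))
  else (some none, decide ((mat g 2 0 / th) ^ 3 = 1))

lemma cube_div {x y : ℂ} (hx : x ∈ O) (hy : y ∈ O) (h1 : Complex.normSq x = 1)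
    (h2 : Complex.normSq y = 1) (h : x ^ 3 = 1 ↔ y ^ 3 = 1) : (x / y) ^ 3 = 1 := by
  rw [div_pow]
  rcases unit_cube hx h1 with h3 | h3 <;> rcases unit_cube hy h2 with h4 | h4
  · rw [h3, h4]; norm_num
  · have := h.mp h3; rw [this] at h4; norm_num at h4
  · have := h.mpr h4; rw [this] at h3; norm_num at h3
  · rw [h3, h4]; norm_num

section facts

variable {g h : SU21} {z : X}

lemma height_gt_one_iff (g : SU21) (z : X) :
    1 < height (g • z : X).1 ↔ Complex.normSq (jf (mat g) z.1) < height z.1 := by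
  rw [height_smul, lt_div_iff₀ (Complex.normSq_pos.mpr (jf_ne_zero (mat_unitary g) z.2)), one_mul]

lemma norm_c_cases (hg : g ∈ Gam) (hz : 1 < height z.1) (h1 : 1 < height (g • z : X).1)
    (hc : mat g 2 0 ≠ 0) : Complex.normSq (mat g 2 0) = 1 ∨ Complex.normSq (mat g 2 0) = 3 := by
  rw [height_gt_one_iff] at h1
  have h2 := normSq_jf g z.1 hc
  apply normSq_lt_four (hg 2 0) hc
  set N := Complex.normSq (mat g 2 0)
  set ρ := Complex.normSq (z.1.2 - bet g)
  have hρ : 0 ≤ ρ := Complex.normSq_nonneg _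
  have hN : 0 ≤ N := Complex.normSq_nonneg _
  have h3 : N * (3 * height z.1 ^ 2) ≤ N * (3 * (height z.1 + ρ) ^ 2 + tt g z.1 ^ 2) := by
    gcongr
    nlinarith [sq_nonneg (tt g z.1)]
  by_contra hcon
  push Not at hcon
  nlinarith

/-- numerical facts for a row with `|c|² = 1` -/
lemma num_one {u ρ T : ℝ} (hu : 1 < u) (hρ : 0 ≤ ρ) (h : 3 * (u + ρ) ^ 2 + T ^ 2 < 12 * u) :
    ρ < 1 ∧ T ^ 2 < 12 := by
  constructor
  · by_contra hcon
    push Not at hcon
    nlinarith [sq_nonneg T, sq_nonneg (u - 1)]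
  · nlinarith [sq_nonneg (u - 2)]

lemma num_one' {u ρ T : ℝ} (hu : 1 < u) (h : 3 * (u + ρ) ^ 2 + T ^ 2 < 12 * u)
    (hT : 9 ≤ T ^ 2) : ρ < 1 / 4 := by
  by_contra hcon
  push Not at hcon
  nlinarith [sq_nonneg (u - 7 / 4)]

lemma num_three {u ρ T : ℝ} (hu : 1 < u) (hρ : 0 ≤ ρ) (h : 3 * (u + ρ) ^ 2 + T ^ 2 < 4 * u) :
    ρ < 1 / 4 ∧ T ^ 2 < 1 := by
  constructor
  · by_contra hcon
    push Not at hcon
    nlinarith [sq_nonneg T]
  · nlinarith

lemma num_excl {u ρ T T' : ℝ} (hu : 1 < u) (hρ : 0 ≤ ρ) (h : 3 * (u + ρ) ^ 2 + T ^ 2 < 12 * u)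
    (h' : 3 * (u + ρ) ^ 2 + T' ^ 2 < 4 * u) (hT : 9 ≤ T ^ 2) {m : ℤ}
    (hm : T - T' = 2 * m) : False := by
  have hT2 : T ^ 2 < 12 := (num_one hu hρ h).2
  have hsum : T ^ 2 + 3 * T' ^ 2 < 12 := by nlinarith
  wlog hpos : 0 ≤ T generalizing T T' m
  · exact this (T := -T) (T' := -T') (by simpa using h) (by simpa using h') (by simpa using hT)
      (m := -m) (by push_cast; linarith) (by simpa using hT2) (by simpa using hsum)
      (by linarith)
  have hT3 : 3 ≤ T := by nlinarith
  have hT4 : T < 4 := by nlinarith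
  rcases le_or_gt m 1 with h1 | h1
  · have : (m : ℝ) ≤ 1 := by exact_mod_cast h1
    have : 1 ≤ T' := by linarith
    nlinarith
  · have : (2 : ℝ) ≤ m := by exact_mod_cast h1
    have h5 : 4 - T ≤ -T' := by linarith
    have h6 : (4 - T) ^ 2 ≤ T' ^ 2 := by nlinarith
    nlinarith [sq_nonneg (T - 3)]

lemma dist_facts {x y z : ℂ} {a b : ℝ} (ha : 0 ≤ a) (hb : 0 ≤ b)
    (h1 : Complex.normSq (z - x) < a ^ 2)
    (h2 : Complex.normSq (z - y) < b ^ 2) : Complex.normSq (x - y) < (a + b) ^ 2 := by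
  rw [Complex.normSq_eq_norm_sq] at *
  have h3 : ‖z - x‖ < a := lt_of_pow_lt_pow_left₀ 2 ha h1
  have h4 : ‖z - y‖ < b := lt_of_pow_lt_pow_left₀ 2 hb h2
  have h5 : ‖x - y‖ ≤ ‖z - x‖ + ‖z - y‖ := by
    have : x - y = (z - y) - (z - x) := by ring
    rw [this]
    exact (norm_sub_le _ _).trans (by rw [add_comm])
  exact pow_lt_pow_left₀ (by linarith) (norm_nonneg _) two_ne_zero

/-- data of a row with `|c|² = 1` -/
lemma data_one (hg : g ∈ Gam) (h1 : 1 < height (g • z : X).1)
    (hc : Complex.normSq (mat g 2 0) = 1) :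
    mat g 2 0 ≠ 0 ∧ bet g ∈ O ∧ mat g 2 2 / mat g 2 0 ∈ O ∧
    3 * (height z.1 + Complex.normSq (z.1.2 - bet g)) ^ 2 + tt g z.1 ^ 2 < 12 * height z.1 := by
  obtain ⟨hne, hinv⟩ := unit_inv (hg 2 0) hc
  refine ⟨hne, ?_, ?_, ?_⟩
  · rw [bet, div_eq_mul_inv]
    exact star_mem_O _ (O.mul_mem (hg 2 1) hinv)
  · rw [div_eq_mul_inv]
    exact O.mul_mem (hg 2 2) hinv
  · rw [height_gt_one_iff] at h1
    have h2 := normSq_jf g z.1 hne
    rw [hc] at h2
    linarith

/-- data of a row with `|c|² = 3` -/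
lemma data_three (hg : g ∈ Gam) (h1 : 1 < height (g • z : X).1)
    (hc : Complex.normSq (mat g 2 0) = 3) :
    mat g 2 0 ≠ 0 ∧ bet g ∈ O ∧
    (mat g 2 0 / th ∈ O ∧ Complex.normSq (mat g 2 0 / th) = 1) ∧
    mat g 2 2 / (mat g 2 0 / th) ∈ O ∧
    3 * (height z.1 + Complex.normSq (z.1.2 - bet g)) ^ 2 + tt g z.1 ^ 2 < 4 * height z.1 := by
  have hne : mat g 2 0 ≠ 0 := by intro h; rw [h] at hc; simp at hc
  obtain ⟨e, he, hen, hce⟩ := normSq_three (hg 2 0) hc
  have hdiv : mat g 2 0 / th = e := by rw [hce]; field_simp [th_ne_zero]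
  obtain ⟨hene, heinv⟩ := unit_inv he hen
  refine ⟨hne, ?_, ⟨by rw [hdiv]; exact he, by rw [hdiv]; exact hen⟩, ?_, ?_⟩
  · -- θ divides b
    have hnull := row_null g
    rw [hce] at hnull
    have hx : e * star (mat g 2 2) ∈ O := O.mul_mem he (star_mem_O _ (hg 2 2))
    obtain ⟨m, n, hmn⟩ := hx
    have hb : Complex.normSq (mat g 2 1) = 3 * (n : ℤ) := by
      have h2 : (mat g 2 1 * star (mat g 2 1)) = -(th * (e * star (mat g 2 2)) +
          star (th * (e * star (mat g 2 2)))) := by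
        simp only [star_mul', star_star] at hnull ⊢
        linear_combination hnull
      rw [hmn] at h2
      have h3 := congrArg Complex.re h2
      rw [Complex.normSq_apply]
      have h4 : (th * eis m n).re = -(3 / 2 * n) := by
        rw [Complex.mul_re, eis_im]; simp [th]
        have : √3 * (√3 / 2 * (n : ℝ)) = (√3 * √3) / 2 * n := by ring
        rw [this, sq3]
      simp only [Complex.neg_re, Complex.add_re, Complex.star_def, Complex.conj_re, h4] at h3
      simp at h3
      linarith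
    obtain ⟨b', hb', hbb⟩ := th_dvd (hg 2 1) hb
    rw [bet, hbb, hce]
    have : th * b' / (e * th) = b' * e⁻¹ := by field_simp [th_ne_zero]
    rw [this]
    exact star_mem_O _ (O.mul_mem hb' heinv)
  · rw [hdiv, div_eq_mul_inv]
    exact O.mul_mem (hg 2 2) heinv
  · rw [height_gt_one_iff] at h1
    have h2 := normSq_jf g z.1 hne
    rw [hc] at h2
    linarith

lemma row_eq_of_div {ν : ℂ} (hν : mat g 2 0 = ν * mat h 2 0) (hh : mat h 2 0 ≠ 0)
    (hg' : mat g 2 0 ≠ 0)
    (hb : bet g = bet h) (ha : mat g 2 2 / mat g 2 0 = mat h 2 2 / mat h 2 0) :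
    ∀ i, mat g 2 i = ν * mat h 2 i := by
  have hb' : mat g 2 1 / mat g 2 0 = mat h 2 1 / mat h 2 0 := star_injective hb
  have hν0 : ν ≠ 0 := by rintro rfl; rw [zero_mul] at hν; exact hg' hν
  intro i
  fin_cases i
  · exact hν
  · show mat g 2 1 = ν * mat h 2 1
    rw [div_eq_div_iff hg' hh, hν] at hb'
    have : mat h 2 0 * (mat g 2 1 - ν * mat h 2 1) = 0 := by linear_combination hb'
    rcases mul_eq_zero.mp this with h5 | h5
    · exact absurd h5 hh
    · linear_combination h5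
  · show mat g 2 2 = ν * mat h 2 2
    rw [div_eq_div_iff hg' hh, hν] at ha
    have : mat h 2 0 * (mat g 2 2 - ν * mat h 2 2) = 0 := by linear_combination ha
    rcases mul_eq_zero.mp this with h5 | h5
    · exact absurd h5 hh
    · linear_combination h5

/-- two rows with the same centre -/
lemma qq_sub (hcg : mat g 2 0 ≠ 0) (hch : mat h 2 0 ≠ 0) (hb : bet g = bet h) :
    qq g z.1 - qq h z.1 = mat g 2 2 / mat g 2 0 - mat h 2 2 / mat h 2 0 ∧
    (mat g 2 2 / mat g 2 0 - mat h 2 2 / mat h 2 0).re = 0 := by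
  have h1 : qq g z.1 - qq h z.1 = mat g 2 2 / mat g 2 0 - mat h 2 2 / mat h 2 0 := by
    rw [qq_eq g z.1 hcg, qq_eq h z.1 hch, hb]; ring
  refine ⟨h1, ?_⟩
  rw [← h1, Complex.sub_re]
  have h2 := qq_re g z.1 hcg
  have h3 := qq_re h z.1 hch
  rw [hb] at h2
  linarith

/-- case `|c|² = 1` for both -/
lemma case_one_one (hg : g ∈ Gam) (hh : h ∈ Gam) (hz : 1 < height z.1)
    (h1 : 1 < height (g • z : X).1) (h2 : 1 < height (h • z : X).1)
    (hcg : Complex.normSq (mat g 2 0) = 1) (hch : Complex.normSq (mat h 2 0) = 1)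
    (hlab : (-3 ≤ tt g z.1 ∧ tt g z.1 < 3 ∧ -3 ≤ tt h z.1 ∧ tt h z.1 < 3 ∧
        cls (bet g) = cls (bet h)) ∨
      (¬(-3 ≤ tt g z.1 ∧ tt g z.1 < 3) ∧ ¬(-3 ≤ tt h z.1 ∧ tt h z.1 < 3))) :
    bet g = bet h ∧ mat g 2 2 / mat g 2 0 = mat h 2 2 / mat h 2 0 := by
  obtain ⟨g0, gb, ga, gn⟩ := data_one hg h1 hcg
  obtain ⟨h0, hb, ha, hn⟩ := data_one hh h2 hch
  have gρ := num_one hz (Complex.normSq_nonneg _) gn
  have hρ := num_one hz (Complex.normSq_nonneg _) hn
  have hbet : bet g = bet h := by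
    rcases hlab with ⟨-, -, -, -, hcl⟩ | ⟨hg3, hh3⟩
    · apply eq_of_cls gb hb hcl
      have := dist_facts (x := bet g) (y := bet h) (z := z.1.2) (a := 1) (b := 1)
        (by norm_num) (by norm_num) (by simpa using gρ.1) (by simpa using hρ.1)
      norm_num at this
      exact this
    · have g9 : 9 ≤ tt g z.1 ^ 2 := by
        by_contra hcon
        push Not at hcon
        apply hg3
        constructor <;> nlinarith
      have h9 : 9 ≤ tt h z.1 ^ 2 := by
        by_contra hcon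
        push Not at hcon
        apply hh3
        constructor <;> nlinarith
      have g4 := num_one' hz gn g9
      have h4 := num_one' hz hn h9
      apply eq_of_dist_lt_one gb hb
      have := dist_facts (x := bet g) (y := bet h) (z := z.1.2) (a := 1 / 2) (b := 1 / 2)
        (by norm_num) (by norm_num) (by norm_num; linarith) (by norm_num; linarith)
      norm_num at this
      exact this
  refine ⟨hbet, ?_⟩
  obtain ⟨hq, hre⟩ := qq_sub (z := z) g0 h0 hbet
  obtain ⟨m, hm, hm6⟩ := re_zero (O.sub_mem ga ha) hre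
  have hT : tt g z.1 - tt h z.1 = 6 * m := by
    rw [← hm6, ← hq, Complex.sub_im, tt, tt]; ring
  have hm0 : m = 0 := by
    have gT := gρ.2
    have hT2 := hρ.2
    have gT4 : tt g z.1 < 4 := by nlinarith
    have gT4' : -4 < tt g z.1 := by nlinarith
    have hT4 : tt h z.1 < 4 := by nlinarith
    have hT4' : -4 < tt h z.1 := by nlinarith
    have m1 : m < 2 := by
      have : (m : ℝ) < 2 := by linarith
      exact_mod_cast this
    have m2 : -2 < m := by
      have : (-2 : ℝ) < m := by linarith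
      exact_mod_cast this
    by_contra hmne
    have hcase : m = 1 ∨ m = -1 := by omega
    rcases hcase with rfl | rfl
    · push_cast at hT
      rcases hlab with ⟨a1, a2, a3, a4, -⟩ | ⟨hg3, hh3⟩
      · linarith
      · by_cases hh4 : -3 ≤ tt h z.1
        · have : 3 ≤ tt h z.1 := by
            by_contra hcon; push Not at hcon; exact hh3 ⟨hh4, hcon⟩
          linarith
        · push Not at hh4
          apply hg3
          constructor <;> linarith
    · push_cast at hT
      rcases hlab with ⟨a1, a2, a3, a4, -⟩ | ⟨hg3, hh3⟩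
      · linarith
      · by_cases hg4 : -3 ≤ tt g z.1
        · have : 3 ≤ tt g z.1 := by
            by_contra hcon; push Not at hcon; exact hg3 ⟨hg4, hcon⟩
          linarith
        · push Not at hg4
          apply hh3
          constructor <;> linarith
  rw [hm0] at hm
  simp at hm
  linear_combination hm

/-- case `|c|² = 3` for both -/
lemma case_three_three (hg : g ∈ Gam) (hh : h ∈ Gam) (hz : 1 < height z.1)
    (h1 : 1 < height (g • z : X).1) (h2 : 1 < height (h • z : X).1)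
    (hcg : Complex.normSq (mat g 2 0) = 3) (hch : Complex.normSq (mat h 2 0) = 3) :
    bet g = bet h ∧ mat g 2 2 / mat g 2 0 = mat h 2 2 / mat h 2 0 := by
  obtain ⟨g0, gb, ⟨ge, gen⟩, ga, gn⟩ := data_three hg h1 hcg
  obtain ⟨h0, hb, ⟨he, hen⟩, ha, hn⟩ := data_three hh h2 hch
  have gρ := num_three hz (Complex.normSq_nonneg _) gn
  have hρ := num_three hz (Complex.normSq_nonneg _) hn
  have hbet : bet g = bet h := by
    apply eq_of_dist_lt_one gb hb
    have := dist_facts (x := bet g) (y := bet h) (z := z.1.2) (a := 1 / 2) (b := 1 / 2)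
      (by norm_num) (by norm_num) (by norm_num; linarith) (by norm_num; linarith)
    norm_num at this
    exact this
  refine ⟨hbet, ?_⟩
  obtain ⟨hq, hre⟩ := qq_sub (z := z) g0 h0 hbet
  have hB : mat g 2 2 / mat g 2 0 - mat h 2 2 / mat h 2 0 =
      (mat g 2 2 / (mat g 2 0 / th) - mat h 2 2 / (mat h 2 0 / th)) / th := by
    field_simp [th_ne_zero]
  obtain ⟨m, hm, hm2⟩ := div_th (O.sub_mem ga ha) (by rw [← hB]; exact hre)
  have hT : tt g z.1 - tt h z.1 = -(2 * m) := by
    rw [← hm2, ← hB, ← hq, Complex.sub_im, tt, tt]; ring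
  have hm0 : m = 0 := by
    have gT : tt g z.1 < 1 := by nlinarith [gρ.2]
    have gT' : -1 < tt g z.1 := by nlinarith [gρ.2]
    have hT1 : tt h z.1 < 1 := by nlinarith [hρ.2]
    have hT1' : -1 < tt h z.1 := by nlinarith [hρ.2]
    have m1 : m < 1 := by
      have : (m : ℝ) < 1 := by linarith
      exact_mod_cast this
    have m2 : -1 < m := by
      have : (-1 : ℝ) < m := by linarith
      exact_mod_cast this
    omega
  rw [hm0] at hm
  rw [hm] at hB
  simp at hB
  linear_combination hB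

/-- case `|c|² = 1` and `|c|² = 3` -/
lemma case_one_three (hg : g ∈ Gam) (hh : h ∈ Gam) (hz : 1 < height z.1)
    (h1 : 1 < height (g • z : X).1) (h2 : 1 < height (h • z : X).1)
    (hcg : Complex.normSq (mat g 2 0) = 1) (hch : Complex.normSq (mat h 2 0) = 3)
    (hg3 : ¬(-3 ≤ tt g z.1 ∧ tt g z.1 < 3)) : False := by
  obtain ⟨g0, gb, ga, gn⟩ := data_one hg h1 hcg
  obtain ⟨h0, hb, ⟨he, hen⟩, ha, hn⟩ := data_three hh h2 hch
  have gρ := num_one hz (Complex.normSq_nonneg _) gn
  have hρ := num_three hz (Complex.normSq_nonneg _) hn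
  have g9 : 9 ≤ tt g z.1 ^ 2 := by
    by_contra hcon
    push Not at hcon
    apply hg3
    constructor <;> nlinarith
  have g4 := num_one' hz gn g9
  have hbet : bet g = bet h := by
    apply eq_of_dist_lt_one gb hb
    have := dist_facts (x := bet g) (y := bet h) (z := z.1.2) (a := 1 / 2) (b := 1 / 2)
      (by norm_num) (by norm_num) (by norm_num; linarith) (by norm_num; linarith)
    norm_num at this
    exact this
  obtain ⟨hq, hre⟩ := qq_sub (z := z) g0 h0 hbet
  have hB : mat g 2 2 / mat g 2 0 - mat h 2 2 / mat h 2 0 =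
      (th * (mat g 2 2 / mat g 2 0) - mat h 2 2 / (mat h 2 0 / th)) / th := by
    field_simp [th_ne_zero]
  obtain ⟨m, hm, hm2⟩ := div_th (O.sub_mem (O.mul_mem th_mem ga) ha) (by rw [← hB]; exact hre)
  have hT : tt g z.1 - tt h z.1 = -(2 * m) := by
    rw [← hm2, ← hB, ← hq, Complex.sub_im, tt, tt]; ring
  rw [hbet] at gn
  exact num_excl hz (Complex.normSq_nonneg _) gn hn g9 (m := -m) (by push_cast; linarith)

/-- Equal labels force proportional third rows. -/
theorem label_inj (hg : g ∈ Gam) (hh : h ∈ Gam) (hz : 1 < height z.1)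
    (h1 : 1 < height (g • z : X).1) (h2 : 1 < height (h • z : X).1)
    (hl : label g z.1 = label h z.1) :
    ∃ ν : ℂ, ν ^ 3 = 1 ∧ ∀ i, mat g 2 i = ν * mat h 2 i := by
  unfold label at hl
  by_cases cg : mat g 2 0 = 0
  · by_cases ch : mat h 2 0 = 0
    · rw [if_pos cg, if_pos ch, Prod.mk.injEq, decide_eq_decide] at hl
      obtain ⟨gb, -, gn, -⟩ := upper g hg cg
      obtain ⟨hb, -, hn, -⟩ := upper h hh ch
      have hne : mat h 2 2 ≠ 0 := by intro h; rw [h] at hn; simp at hn
      refine ⟨mat g 2 2 / mat h 2 2, cube_div (hg 2 2) (hh 2 2) gn hn hl.2, ?_⟩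
      intro i
      fin_cases i
      · show mat g 2 0 = _ * mat h 2 0
        rw [cg, ch, mul_zero]
      · show mat g 2 1 = _ * mat h 2 1
        rw [gb, hb, mul_zero]
      · show mat g 2 2 = _ * mat h 2 2
        field_simp
    · exfalso
      rw [if_pos cg, if_neg ch] at hl
      split_ifs at hl <;> simp at hl
  · by_cases ch : mat h 2 0 = 0
    · exfalso
      rw [if_neg cg, if_pos ch] at hl
      split_ifs at hl <;> simp at hl
    · rw [if_neg cg, if_neg ch] at hl
      rcases norm_c_cases hg hz h1 cg with ng | ng <;> rcases norm_c_cases hh hz h2 ch with nh | nh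
      · rw [if_pos ng, if_pos nh, Prod.mk.injEq, decide_eq_decide] at hl
        have hcase : bet g = bet h ∧ mat g 2 2 / mat g 2 0 = mat h 2 2 / mat h 2 0 := by
          apply case_one_one hg hh hz h1 h2 ng nh
          by_cases wg : -3 ≤ tt g z.1 ∧ tt g z.1 < 3 <;> by_cases wh : -3 ≤ tt h z.1 ∧ tt h z.1 < 3
          · left
            rw [if_pos wg, if_pos wh] at hl
            exact ⟨wg.1, wg.2, wh.1, wh.2, by simpa using hl.1⟩
          · rw [if_pos wg, if_neg wh] at hl
            simp at hl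
          · rw [if_neg wg, if_pos wh] at hl
            simp at hl
          · right; exact ⟨wg, wh⟩
        refine ⟨mat g 2 0 / mat h 2 0, cube_div (hg 2 0) (hh 2 0) ng nh hl.2, ?_⟩
        exact row_eq_of_div (by field_simp) ch cg hcase.1 hcase.2
      · exfalso
        have nh1 : ¬ Complex.normSq (mat h 2 0) = 1 := by rw [nh]; norm_num
        rw [if_pos ng, if_neg nh1, Prod.mk.injEq] at hl
        by_cases wg : -3 ≤ tt g z.1 ∧ tt g z.1 < 3
        · rw [if_pos wg] at hl; simp at hl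
        · exact case_one_three hg hh hz h1 h2 ng nh wg
      · exfalso
        have ng1 : ¬ Complex.normSq (mat g 2 0) = 1 := by rw [ng]; norm_num
        rw [if_neg ng1, if_pos nh, Prod.mk.injEq] at hl
        by_cases wh : -3 ≤ tt h z.1 ∧ tt h z.1 < 3
        · rw [if_pos wh] at hl; simp at hl
        · exact case_one_three hh hg hz h2 h1 nh ng wh
      · have ng1 : ¬ Complex.normSq (mat g 2 0) = 1 := by rw [ng]; norm_num
        have nh1 : ¬ Complex.normSq (mat h 2 0) = 1 := by rw [nh]; norm_num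
        rw [if_neg ng1, if_neg nh1, Prod.mk.injEq, decide_eq_decide] at hl
        have hcase := case_three_three hg hh hz h1 h2 ng nh
        obtain ⟨-, -, ⟨ge, gen⟩, -, -⟩ := data_three hg h1 ng
        obtain ⟨-, -, ⟨he, hen⟩, -, -⟩ := data_three hh h2 nh
        refine ⟨(mat g 2 0 / th) / (mat h 2 0 / th), cube_div ge he gen hen hl.2, ?_⟩
        exact row_eq_of_div (by field_simp [th_ne_zero]) ch cg hcase.1 hcase.2

end facts

end

end Pool.Agent.Lib.H56.Picard
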