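import Pool.Agent.Lib.H56.Picard.Heis

/-!
# Covering: every orbit of the Picard modular group meets `{height ≥ 1}`
-/

namespace Pool.Agent.Lib.H56.Picard

open Matrix MeasureTheory

noncomputable section

/-- The key identity for null rows. -/
lemma key_identity (g : SU21) (z : ℂ × ℂ) :
    Complex.normSq (mat g 2 1 - mat g 2 0 * star z.2) + Complex.normSq (mat g 2 0) * height z =
      -(2 * (star (mat g 2 0) * jf (mat g) z).re) := by
  have h := congrArg Complex.re (row_null g)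
  rw [jf_apply]
  generalize mat g 2 0 = c at *
  generalize mat g 2 1 = b at *
  generalize mat g 2 2 = a at *
  simp [Complex.normSq_apply, height] at h ⊢
  nlinarith [h]

lemma norm_c_le (g : SU21) (z : ℂ × ℂ) :
    ‖mat g 2 0‖ * height z ≤ 2 * ‖jf (mat g) z‖ := by
  have h := key_identity g z
  have h1 : -(2 * (star (mat g 2 0) * jf (mat g) z).re) ≤ 2 * (‖mat g 2 0‖ * ‖jf (mat g) z‖) := by
    have h2 := Complex.abs_re_le_norm (star (mat g 2 0) * jf (mat g) z)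
    rw [norm_mul, norm_star] at h2
    have := neg_abs_le (star (mat g 2 0) * jf (mat g) z).re
    linarith
  have h2 := Complex.normSq_nonneg (mat g 2 1 - mat g 2 0 * star z.2)
  have h3 : ‖mat g 2 0‖ * (‖mat g 2 0‖ * height z) ≤ ‖mat g 2 0‖ * (2 * ‖jf (mat g) z‖) := by
    rw [Complex.normSq_eq_norm_sq (mat g 2 0)] at h
    nlinarith
  rcases eq_or_lt_of_le (norm_nonneg (mat g 2 0)) with h0 | h0
  · rw [← h0]; simp
  · exact le_of_mul_le_mul_left h3 h0

lemma norm_b_le (g : SU21) (z : ℂ × ℂ) (hz : 0 < height z) :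
    ‖mat g 2 1‖ ≤ 2 * ‖jf (mat g) z‖ * (‖z.2‖ + 1) / height z + ‖jf (mat g) z‖ := by
  have h := key_identity g z
  have hc := norm_c_le g z
  set c := mat g 2 0
  set b := mat g 2 1
  set j := jf (mat g) z
  have h1 : -(2 * (star c * j).re) ≤ 2 * (‖c‖ * ‖j‖) := by
    have h2 := Complex.abs_re_le_norm (star c * j)
    rw [norm_mul, norm_star] at h2
    have := neg_abs_le (star c * j).re
    linarith
  have hcn : 0 ≤ ‖c‖ := norm_nonneg _
  have hjn : 0 ≤ ‖j‖ := norm_nonneg _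
  have h2 : ‖b - c * star z.2‖ ^ 2 ≤ (‖c‖ + ‖j‖) ^ 2 := by
    rw [← Complex.normSq_eq_norm_sq]
    nlinarith [mul_nonneg (Complex.normSq_nonneg c) hz.le]
  have h3 : ‖b - c * star z.2‖ ≤ ‖c‖ + ‖j‖ := by
    exact le_of_sq_le_sq h2 (by positivity)
  have h4 : ‖b‖ ≤ ‖b - c * star z.2‖ + ‖c * star z.2‖ := by
    have := norm_add_le (b - c * star z.2) (c * star z.2)
    simpa using this
  rw [norm_mul, norm_star] at h4
  have h5 : ‖c‖ ≤ 2 * ‖j‖ / height z := by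
    rw [le_div_iff₀ hz]; exact hc
  have hz2 : 0 ≤ ‖z.2‖ := norm_nonneg _
  calc ‖b‖ ≤ ‖c‖ * (‖z.2‖ + 1) + ‖j‖ := by linarith
    _ ≤ 2 * ‖j‖ / height z * (‖z.2‖ + 1) + ‖j‖ := by gcongr
    _ = _ := by ring

lemma norm_a_le (g : SU21) (z : ℂ × ℂ) :
    ‖mat g 2 2‖ ≤ ‖jf (mat g) z‖ + ‖mat g 2 0‖ * ‖z.1‖ + ‖mat g 2 1‖ * ‖z.2‖ := by
  have h : mat g 2 2 = jf (mat g) z - mat g 2 0 * z.1 - mat g 2 1 * z.2 := by
    rw [jf_apply]; ring
  rw [h]
  calc _ ≤ ‖jf (mat g) z - mat g 2 0 * z.1‖ + ‖mat g 2 1 * z.2‖ := norm_sub_le _ _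
    _ ≤ ‖jf (mat g) z‖ + ‖mat g 2 0 * z.1‖ + ‖mat g 2 1 * z.2‖ := by
      gcongr; exact norm_sub_le _ _
    _ = _ := by rw [norm_mul, norm_mul]

lemma finite_ball (R : ℝ) : {x : ℂ | x ∈ O ∧ ‖x‖ ≤ R}.Finite := by
  obtain ⟨n, hn⟩ := exists_nat_ge (2 * R ^ 2)
  apply Set.Finite.subset ((Set.Finite.prod (Set.finite_Icc (-(n : ℤ)) n)
    (Set.finite_Icc (-(n : ℤ)) n)).image (fun p : ℤ × ℤ => eis p.1 p.2))
  rintro x ⟨⟨a, b, rfl⟩, hx⟩
  refine ⟨(a, b), ?_, rfl⟩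
  have h1 : Complex.normSq (eis a b) ≤ R ^ 2 := by
    rw [Complex.normSq_eq_norm_sq]
    exact pow_le_pow_left₀ (norm_nonneg _) hx 2
  rw [normSq_eis] at h1
  have h2 : (2 * (a ^ 2 - a * b + b ^ 2) : ℤ) ≤ n := by
    have : ((2 * (a ^ 2 - a * b + b ^ 2) : ℤ) : ℝ) ≤ n := by
      push_cast at h1 ⊢
      linarith
    exact_mod_cast this
  have ha : a ^ 2 ≤ 2 * (a ^ 2 - a * b + b ^ 2) := by nlinarith [sq_nonneg (a - b), sq_nonneg b]
  have hb : b ^ 2 ≤ 2 * (a ^ 2 - a * b + b ^ 2) := by nlinarith [sq_nonneg (a - b), sq_nonneg a]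
  have ha' : |a| ≤ a ^ 2 := by
    rcases eq_or_ne a 0 with rfl | h
    · simp
    · rw [← sq_abs]; nlinarith [Int.one_le_abs h]
  have hb' : |b| ≤ b ^ 2 := by
    rcases eq_or_ne b 0 with rfl | h
    · simp
    · rw [← sq_abs]; nlinarith [Int.one_le_abs h]
  simp only [Set.mem_prod, Set.mem_Icc]
  constructor <;> rw [← abs_le] <;> linarith

/-- Third rows with bounded factor of automorphy form a finite set. -/
lemma finite_rows (z : ℂ × ℂ) (hz : 0 < height z) (C : ℝ) :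
    {r : Fin 3 → ℂ | ∃ g ∈ Gam, mat g 2 = r ∧ ‖jf (mat g) z‖ ≤ C}.Finite := by
  set B : ℝ := 2 * C / height z with hB
  set B' : ℝ := 2 * C * (‖z.2‖ + 1) / height z + C with hB'
  set B'' : ℝ := C + B * ‖z.1‖ + B' * ‖z.2‖ with hB''
  have hfin : (Set.univ.pi fun _ : Fin 3 =>
      {x : ℂ | x ∈ O ∧ ‖x‖ ≤ max B (max B' B'')}).Finite :=
    Set.Finite.pi fun _ => finite_ball _
  apply hfin.subset
  rintro r ⟨g, hg, rfl, hC⟩
  have hcn : 0 ≤ ‖jf (mat g) z‖ := norm_nonneg _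
  have h0 : ‖mat g 2 0‖ ≤ B := by
    rw [hB, le_div_iff₀ hz]
    linarith [norm_c_le g z]
  have h1 : ‖mat g 2 1‖ ≤ B' := by
    refine (norm_b_le g z hz).trans ?_
    rw [hB']; gcongr
  have h2 : ‖mat g 2 2‖ ≤ B'' := by
    refine (norm_a_le g z).trans ?_
    rw [hB'']; gcongr
  intro i _
  fin_cases i
  · exact ⟨hg 2 0, h0.trans (le_max_left _ _)⟩
  · exact ⟨hg 2 1, h1.trans ((le_max_left _ _).trans (le_max_right _ _))⟩
  · exact ⟨hg 2 2, h2.trans ((le_max_right _ _).trans (le_max_right _ _))⟩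

lemma jf_eq_of_row {g h : Matrix (Fin 3) (Fin 3) ℂ} (hr : g 2 = h 2) (z : ℂ × ℂ) :
    jf g z = jf h z := by
  rw [jf_apply, jf_apply, hr]

lemma jf_one (z : ℂ × ℂ) : jf 1 z = 1 := by
  simp [jf_apply]

/-- The maximal height in an orbit is attained. -/
lemma exists_max_height (z : X) : ∃ g ∈ Gam, ∀ h ∈ Gam,
    height (h • z : X).1 ≤ height (g • z : X).1 := by
  have hfin := finite_rows z.1 z.2 1
  have hne : {r : Fin 3 → ℂ | ∃ g ∈ Gam, mat g 2 = r ∧ ‖jf (mat g) z.1‖ ≤ 1}.Nonempty :=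
    ⟨mat 1 2, 1, Gam.one_mem, rfl, by rw [mat_one, jf_one]; simp⟩
  obtain ⟨r, ⟨g, hg, hgr, hg1⟩, hmin⟩ := Set.exists_min_image _
    (fun r : Fin 3 → ℂ => ‖r 0 * z.1.1 + r 1 * z.1.2 + r 2‖) hfin hne
  refine ⟨g, hg, fun h hh => ?_⟩
  have key : ‖jf (mat g) z.1‖ ≤ ‖jf (mat h) z.1‖ := by
    by_cases hh1 : ‖jf (mat h) z.1‖ ≤ 1
    · have := hmin (mat h 2) ⟨h, hh, rfl, hh1⟩
      simp only [← hgr] at this
      rw [jf_apply, jf_apply]
      exact this
    · exact hg1.trans (not_le.mp hh1).le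
  rw [height_smul, height_smul]
  have hpos : 0 < Complex.normSq (jf (mat g) z.1) :=
    Complex.normSq_pos.mpr (jf_ne_zero (mat_unitary g) z.2)
  apply div_le_div_of_nonneg_left z.2.le hpos
  rw [Complex.normSq_eq_norm_sq, Complex.normSq_eq_norm_sq]
  exact pow_le_pow_left₀ (norm_nonneg _) key 2

lemma smul_T_val {l w : ℂ} (h : 2 * w.re = -Complex.normSq l) (z : X) :
    ((T l w h • z : X) : ℂ × ℂ) = (z.1.1 - star l * z.1.2 + w, z.1.2 + l) := by
  rw [smul_val, mat_T, act_TM]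

lemma jf_T {l w : ℂ} (h : 2 * w.re = -Complex.normSq l) (z : ℂ × ℂ) :
    jf (mat (T l w h)) z = 1 := by
  rw [mat_T, jf_apply]; simp [TM]

lemma height_T {l w : ℂ} (h : 2 * w.re = -Complex.normSq l) (z : X) :
    height (T l w h • z : X).1 = height z.1 := by
  rw [height_smul, jf_T]; simp

/-- For every `l ∈ O` there is `w ∈ O` with `2 Re w = -|l|²` and `Im w` in a given window. -/
lemma exists_w {l : ℂ} (hl : l ∈ O) (v : ℝ) : ∃ w ∈ O, 2 * w.re = -Complex.normSq l ∧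
    v ≤ 2 * w.im ∧ 2 * w.im < v + 2 * √3 := by
  obtain ⟨n, hn, hnl⟩ := normSq_mem_O hl
  have h3 := sqrt3_pos
  -- w = n ω + k θ
  set k : ℤ := ⌈(v - √3 * n) / (2 * √3)⌉ with hk
  refine ⟨eis 0 n + (k : ℂ) * th, O.add_mem (eis_mem 0 n) ?_, ?_, ?_, ?_⟩
  · have : (k : ℂ) = eis k 0 := by simp [eis]
    rw [this]
    exact O.mul_mem (eis_mem k 0) th_mem
  · rw [hnl]; simp [eis_re, th]; ring
  · have h1 := Int.le_ceil ((v - √3 * n) / (2 * √3))
    rw [div_le_iff₀ (by positivity)] at h1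
    simp [eis_im, th]
    rw [← hk] at h1
    linarith
  · have h1 := Int.ceil_lt_add_one ((v - √3 * n) / (2 * √3))
    rw [← hk, ← sub_lt_iff_lt_add, lt_div_iff₀ (by positivity)] at h1
    simp [eis_im, th]
    linarith

lemma cover_num1 {x : ℝ} (hx : 0 ≤ x) (hx1 : x ≤ 29 / 50) :
    (2 + 4 / 3 * x ^ 2 - 2 * x) ^ 2 + 49 / 10 * x ^ 2 ≤ 4 := by
  have h5 : x ^ 3 ≤ 29 / 50 * x ^ 2 := by
    have := mul_nonneg (mul_nonneg hx hx) (sub_nonneg.mpr hx1)
    nlinarith [this]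
  have h6 : 2 * (1 / 2) * x - 1 / 4 ≤ x ^ 2 := by nlinarith [sq_nonneg (x - 1 / 2)]
  have hF : 0 ≤ 8 - (4 + 16 / 3 + 49 / 10) * x + 16 / 3 * x ^ 2 - 16 / 9 * x ^ 3 := by
    linarith
  have hG := mul_nonneg hx hF
  have : (2 + 4 / 3 * x ^ 2 - 2 * x) ^ 2 + 49 / 10 * x ^ 2 =
    4 - x * (8 - (4 + 16 / 3 + 49 / 10) * x + 16 / 3 * x ^ 2 - 16 / 9 * x ^ 3) := by ring
  rw [this]
  linarith

lemma cover_num2 {x y e : ℝ} (hx : 0 ≤ x) (hx1 : x ≤ 29 / 50) (hy : |√3 * y| ≤ x)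
    (he0 : 0 ≤ e) (h4 : √3 * e ≤ 28 / 9 * x ^ 2) : (2 * y - e) ^ 2 ≤ 49 / 10 * x ^ 2 := by
  have h3 := sqrt3_pos
  have hs := sq3
  have hA : |√3 * (2 * y - e)| ≤ x * (2 + 28 / 9 * x) := by
    have := mul_nonneg h3.le he0
    rw [abs_le] at hy ⊢
    constructor <;> nlinarith
  have hA2 : (√3 * (2 * y - e)) ^ 2 ≤ (x * (2 + 28 / 9 * x)) ^ 2 := by
    rw [← sq_abs]
    exact pow_le_pow_left₀ (abs_nonneg _) hA 2
  have hC : (2 + 28 / 9 * x) ^ 2 ≤ (2 + 28 / 9 * (29 / 50)) ^ 2 := by gcongr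
  have hD : (x * (2 + 28 / 9 * x)) ^ 2 ≤ x ^ 2 * (2 + 28 / 9 * (29 / 50)) ^ 2 := by
    rw [mul_pow]; gcongr
  have hE : (√3 * (2 * y - e)) ^ 2 = 3 * (2 * y - e) ^ 2 := by
    rw [mul_pow, sq √3, hs]
  rw [hE] at hA2
  have hx2 := sq_nonneg x
  linarith

/-- Numerical lemma for the covering argument. -/
lemma cover_num {x y v r : ℝ} (hr : r = x ^ 2 + y ^ 2) (hr3 : r ≤ 1 / 3) (hx : 0 ≤ x)
    (hxy : 3 * y ^ 2 ≤ x ^ 2) (hv : v ≤ √3) (hv0 : 0 ≤ v)
    (hbig : 4 < (1 + r) ^ 2 + v ^ 2) :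
    (2 + r - 2 * x) ^ 2 + (v - √3 + 2 * y) ^ 2 ≤ 4 := by
  have h3 := sqrt3_pos
  have hs := sq3
  have hr0 : 0 ≤ r := by rw [hr]; positivity
  have h2 : r ≤ 4 / 3 * x ^ 2 := by linarith
  have hx2 : x ^ 2 ≤ 1 / 3 := by nlinarith [sq_nonneg y]
  have hx1 : x ≤ 29 / 50 := by nlinarith
  have h1 : √3 * (√3 - v) ≤ 2 * r + r ^ 2 := by nlinarith
  have h4 : √3 * (√3 - v) ≤ 28 / 9 * x ^ 2 := by nlinarith
  have hy1 : |√3 * y| ≤ x := by
    apply abs_le_of_sq_le_sq _ hx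
    rw [mul_pow, sq √3, hs]; exact hxy
  have hA := cover_num2 hx hx1 hy1 (sub_nonneg.mpr hv) h4
  have hB : (2 + r - 2 * x) ^ 2 ≤ (2 + 4 / 3 * x ^ 2 - 2 * x) ^ 2 := by
    apply pow_le_pow_left₀ <;> linarith
  have hgoal : (v - √3 + 2 * y) = 2 * y - (√3 - v) := by ring
  rw [hgoal]
  have hE := cover_num1 hx hx1
  linarith

/-- Choice of the unit. -/
lemma exists_unit (z : ℂ) : ∃ e ∈ O, Complex.normSq e = 1 ∧ 0 ≤ (star e * z).re ∧
    3 * (star e * z).im ^ 2 ≤ (star e * z).re ^ 2 := by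
  have hs := sq3
  have h3 := sqrt3_pos
  have e1 : Complex.normSq (eis 1 0) = 1 := by rw [normSq_eis]; simp
  have e2 : Complex.normSq (eis (-1) 0) = 1 := by rw [normSq_eis]; simp
  have e3 : Complex.normSq (eis 1 1) = 1 := by rw [normSq_eis]; simp
  have e4 : Complex.normSq (eis (-1) (-1)) = 1 := by rw [normSq_eis]; simp
  have e5 : Complex.normSq (eis 0 1) = 1 := by rw [normSq_eis]; simp
  have e6 : Complex.normSq (eis 0 (-1)) = 1 := by rw [normSq_eis]; simp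
  have hre : ∀ a b : ℤ, (star (eis a b) * z).re = (a - b / 2) * z.re + √3 / 2 * b * z.im := by
    intro a b
    simp [eis_re, eis_im]
  have him : ∀ a b : ℤ, (star (eis a b) * z).im = (a - b / 2) * z.im - √3 / 2 * b * z.re := by
    intro a b
    simp [eis_re, eis_im]; ring
  set p := z.re
  set q := z.im
  by_cases h : 3 * q ^ 2 ≤ p ^ 2
  · rcases le_total 0 p with hp | hp
    · refine ⟨eis 1 0, eis_mem _ _, e1, ?_, ?_⟩
      · rw [hre]; push_cast; linarith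
      · rw [hre, him]; push_cast; nlinarith
    · refine ⟨eis (-1) 0, eis_mem _ _, e2, ?_, ?_⟩
      · rw [hre]; push_cast; linarith
      · rw [hre, him]; push_cast; nlinarith
  · push Not at h
    have habs : |p| ≤ |√3 * q| := by
      apply sq_le_sq.mp
      nlinarith
    rcases le_total 0 p with hp | hp <;> rcases le_total 0 q with hq | hq
    · -- e^{iπ/3} = 1 + ω
      have hpq : p ≤ √3 * q := by
        rwa [abs_of_nonneg hp, abs_of_nonneg (by positivity)] at habs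
      refine ⟨eis 1 1, eis_mem _ _, e3, ?_, ?_⟩
      · rw [hre]; push_cast; nlinarith [mul_nonneg h3.le hq]
      · rw [hre, him]; push_cast
        nlinarith [mul_nonneg hp (sub_nonneg.mpr hpq)]
    · have hpq : p ≤ -(√3 * q) := by
        rwa [abs_of_nonneg hp, abs_of_nonpos (by nlinarith)] at habs
      refine ⟨eis 0 (-1), eis_mem _ _, e6, ?_, ?_⟩
      · rw [hre]; push_cast; nlinarith
      · rw [hre, him]; push_cast
        nlinarith [mul_nonneg hp (sub_nonneg.mpr hpq)]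
    · have hpq : -p ≤ √3 * q := by
        rwa [abs_of_nonpos hp, abs_of_nonneg (by positivity)] at habs
      refine ⟨eis 0 1, eis_mem _ _, e5, ?_, ?_⟩
      · rw [hre]; push_cast; nlinarith [mul_nonneg h3.le hq]
      · rw [hre, him]; push_cast
        nlinarith [mul_nonneg (neg_nonneg.mpr hp) (sub_nonneg.mpr hpq)]
    · have hpq : -p ≤ -(√3 * q) := by
        rwa [abs_of_nonpos hp, abs_of_nonpos (by nlinarith)] at habs
      refine ⟨eis (-1) (-1), eis_mem _ _, e4, ?_, ?_⟩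
      · rw [hre]; push_cast; nlinarith
      · rw [hre, him]; push_cast
        nlinarith [mul_nonneg (neg_nonneg.mpr hp) (sub_nonneg.mpr hpq)]

lemma normSq_jf_inv {l w : ℂ} (h : 2 * w.re = -Complex.normSq l) (z : X) :
    Complex.normSq (jf (mat (inv0 * T l w h)) z.1) =
      ((height z.1 + Complex.normSq (z.1.2 + l)) ^ 2 +
        (2 * (z.1.1 - star l * z.1.2 + w).im) ^ 2) / 4 := by
  have h1 : jf (mat (inv0 * T l w h)) z.1 = z.1.1 - star l * z.1.2 + w := by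
    rw [mat_mul, jf_mul (by rw [jf_T]; exact one_ne_zero), jf_T, mul_one, mat_T, act_TM, jf_inv0]
  rw [h1]
  have h2 : 2 * (z.1.1 - star l * z.1.2 + w).re = -(height z.1 + Complex.normSq (z.1.2 + l)) := by
    simp [height, Complex.normSq_apply] at h ⊢
    linarith
  have h3 : height z.1 + Complex.normSq (z.1.2 + l) = -(2 * (z.1.1 - star l * z.1.2 + w).re) := by
    linarith
  rw [h3, Complex.normSq_apply]
  ring

lemma exists_reduced (z : X) : ∃ g ∈ Gam, Complex.normSq (g • z : X).1.2 ≤ 1 / 3 ∧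
    |2 * (g • z : X).1.1.im| ≤ √3 ∧ height (g • z : X).1 = height z.1 := by
  obtain ⟨x, hx, hxn⟩ := exists_near z.1.2
  obtain ⟨w, hw, hwr, hw1, hw2⟩ := exists_w (O.neg_mem hx)
    (-√3 - 2 * (z.1.1 - star (-x) * z.1.2).im)
  refine ⟨T (-x) w hwr, T_mem hwr (O.neg_mem hx) hw, ?_, ?_, height_T hwr z⟩
  · rw [smul_T_val]
    simpa [sub_eq_add_neg] using hxn
  · rw [smul_T_val, abs_le]
    have : (z.1.1 - star (-x) * z.1.2 + w).im = (z.1.1 - star (-x) * z.1.2).im + w.im := by simp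
    simp only [this]
    constructor <;> linarith

/-- Below height one there is a group element increasing the height. -/
lemma descend (z : X) (hz : Complex.normSq z.1.2 ≤ 1 / 3) (hv : |2 * z.1.1.im| ≤ √3)
    (hu : height z.1 < 1) : ∃ g ∈ Gam, Complex.normSq (jf (mat g) z.1) < 1 := by
  have hu0 := z.2
  have hs := sq3
  have h3 := sqrt3_pos
  set ρ := Complex.normSq z.1.2 with hρ
  have hρ0 : 0 ≤ ρ := Complex.normSq_nonneg _
  by_cases hbig : (1 + ρ) ^ 2 + (2 * z.1.1.im) ^ 2 ≤ 4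
  · have h0 : 2 * (0 : ℂ).re = -Complex.normSq 0 := by simp
    refine ⟨inv0 * T 0 0 h0, Gam.mul_mem inv0_mem (T_mem h0 O.zero_mem O.zero_mem), ?_⟩
    rw [normSq_jf_inv]
    simp only [star_zero, zero_mul, sub_zero, add_zero, ← hρ]
    nlinarith
  · push Not at hbig
    obtain ⟨e, he, hen, hx, hxy⟩ := exists_unit z.1.2
    set x := (star e * z.1.2).re with hxdef
    set y := (star e * z.1.2).im with hydef
    have hr : ρ = x ^ 2 + y ^ 2 := by
      have : Complex.normSq (star e * z.1.2) = ρ := by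
        rw [map_mul, Complex.star_def, Complex.normSq_conj, hen, one_mul]
      rw [← this, Complex.normSq_apply]; ring
    have hn : Complex.normSq (z.1.2 + -e) = ρ + 1 - 2 * x := by
      rw [hρ, hxdef]
      rw [Complex.normSq_apply] at hen ⊢
      simp [Complex.normSq_apply]
      linarith
    have hwr : ∀ w : ℂ, w.re = -1 / 2 → 2 * w.re = -Complex.normSq (-e) := by
      intro w hw; rw [Complex.normSq_neg, hen, hw]; norm_num
    have him : ∀ w : ℂ, (z.1.1 - star (-e) * z.1.2 + w).im = z.1.1.im + y + w.im := by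
      intro w; rw [hydef]; simp
    have hpos : 0 ≤ 1 + ρ - 2 * x := by nlinarith [sq_nonneg (x - 1), sq_nonneg y]
    rcases le_total 0 (2 * z.1.1.im) with hv0 | hv0
    · -- w = conj ω
      rw [abs_of_nonneg hv0] at hv
      have h1 := cover_num hr hz hx hxy hv hv0 hbig
      have hw : (eis (-1) (-1)).re = -1 / 2 := by rw [eis_re]; norm_num
      refine ⟨inv0 * T (-e) (eis (-1) (-1)) (hwr _ hw),
        Gam.mul_mem inv0_mem (T_mem _ (O.neg_mem he) (eis_mem _ _)), ?_⟩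
      rw [normSq_jf_inv, him, hn, eis_im]
      push_cast
      have h2 : (2 * (z.1.1.im + y + √3 / 2 * (-1))) = 2 * z.1.1.im - √3 + 2 * y := by ring
      rw [h2]
      nlinarith
    · rw [abs_of_nonpos hv0] at hv
      have h1 := cover_num (y := -y) (by rw [hr]; ring) hz hx (by simpa using hxy) hv (by linarith)
        (by simpa using hbig)
      have hw : (eis 0 1).re = -1 / 2 := by rw [eis_re]; norm_num
      refine ⟨inv0 * T (-e) (eis 0 1) (hwr _ hw),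
        Gam.mul_mem inv0_mem (T_mem _ (O.neg_mem he) (eis_mem _ _)), ?_⟩
      rw [normSq_jf_inv, him, hn, eis_im]
      push_cast
      have h2 : (2 * (z.1.1.im + y + √3 / 2 * 1)) ^ 2 = (-(2 * z.1.1.im) - √3 + 2 * -y) ^ 2 := by
        ring
      rw [h2]
      nlinarith

/-- Every orbit meets `{height ≥ 1}`. -/
theorem exists_height_ge_one (z : X) : ∃ g ∈ Gam, 1 ≤ height (g • z : X).1 := by
  obtain ⟨g, hg, hmax⟩ := exists_max_height z
  refine ⟨g, hg, ?_⟩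
  by_contra hlt
  push Not at hlt
  obtain ⟨h, hh, hh1, hh2, hh3⟩ := exists_reduced (g • z)
  obtain ⟨k, hk, hk1⟩ := descend (h • g • z) hh1 hh2 (by rw [hh3]; exact hlt)
  have h1 := hmax (k * (h * g)) (Gam.mul_mem hk (Gam.mul_mem hh hg))
  rw [mul_smul, mul_smul, height_smul k, hh3] at h1
  have hpos : 0 < Complex.normSq (jf (mat k) (h • g • z : X).1) :=
    Complex.normSq_pos.mpr (jf_ne_zero (mat_unitary k) (h • g • z : X).2)
  rw [div_le_iff₀ hpos] at h1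
  have := (g • z : X).2
  nlinarith

end

end Pool.Agent.Lib.H56.Picard
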