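import Pool.Agent.Lib.H56.Picard.Unfold

/-!
# Existence of a measurable fundamental domain
-/

namespace Pool.Agent.Lib.H56.Picard

open Matrix MeasureTheory
open scoped Pointwise ENNReal

noncomputable section

lemma finite_quadratic {a b c : ℂ} (h : ¬(a = 0 ∧ b = 0 ∧ c = 0)) :
    {x : ℂ | a * x ^ 2 + b * x + c = 0}.Finite := by
  set P : Polynomial ℂ := Polynomial.C a * Polynomial.X ^ 2 + Polynomial.C b * Polynomial.X +
    Polynomial.C c with hP
  have hP0 : P ≠ 0 := by
    intro h0
    apply h
    refine ⟨?_, ?_, ?_⟩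
    · have := congrArg (fun p => Polynomial.coeff p 2) h0
      simpa [hP, Polynomial.coeff_X, Polynomial.coeff_C] using this
    · have := congrArg (fun p => Polynomial.coeff p 1) h0
      simpa [hP, Polynomial.coeff_X, Polynomial.coeff_C] using this
    · have := congrArg (fun p => Polynomial.coeff p 0) h0
      simpa [hP, Polynomial.coeff_X, Polynomial.coeff_C] using this
  apply (P.roots.toFinset.finite_toSet).subset
  intro x hx
  simp only [Finset.mem_coe, Multiset.mem_toFinset, Polynomial.mem_roots hP0, Polynomial.IsRoot]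
  simpa [hP] using hx

lemma ae_quadratic {a b c : ℂ} (h : ¬(a = 0 ∧ b = 0 ∧ c = 0)) :
    ∀ᵐ x : ℂ, a * x ^ 2 + b * x + c ≠ 0 := by
  rw [ae_iff]
  have := (finite_quadratic h).measure_zero volume
  simpa using this

lemma null_linear {a b : ℂ} (h : ¬(a = 0 ∧ b = 0)) : volume {x : ℂ | a * x + b = 0} = 0 := by
  have := (finite_quadratic (a := 0) (b := a) (c := b) (by simpa using h)).measure_zero volume
  simpa using this

/-- The fixed point set of a non scalar matrix is null. -/
lemma fixed_null (M : Matrix (Fin 3) (Fin 3) ℂ) (hM : ¬ ∃ ν : ℂ, M = ν • (1 : Matrix _ _ ℂ)) :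
    volume {z : ℂ × ℂ | (M *ᵥ lift z) 0 = jf M z * z.1 ∧ (M *ᵥ lift z) 1 = jf M z * z.2} = 0 := by
  have hcont : ∀ i, Continuous fun z : ℂ × ℂ => (M *ᵥ lift z) i := by
    intro i
    simp only [mulVec_lift_apply]
    fun_prop
  have hclosed : IsClosed {z : ℂ × ℂ | (M *ᵥ lift z) 0 = jf M z * z.1 ∧
      (M *ᵥ lift z) 1 = jf M z * z.2} := by
    apply IsClosed.inter
    · exact isClosed_eq (hcont 0) ((hcont 2).mul continuous_fst)
    · exact isClosed_eq (hcont 1) ((hcont 2).mul continuous_snd)
  rw [Measure.volume_eq_prod, Measure.measure_prod_null hclosed.measurableSet]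
  simp only [mulVec_lift_apply, jf_apply]
  -- slices
  have key : ∀ x : ℂ, (¬(M 0 1 - M 2 1 * x = 0 ∧ M 0 0 * x + M 0 2 - (M 2 0 * x + M 2 2) * x = 0) ∨
      (M 2 1 = 0 ∧ ¬(M 1 1 - M 2 0 * x - M 2 2 = 0 ∧ M 1 0 * x + M 1 2 = 0))) →
      volume (Prod.mk x ⁻¹' {z : ℂ × ℂ | M 0 0 * z.1 + M 0 1 * z.2 + M 0 2 =
        (M 2 0 * z.1 + M 2 1 * z.2 + M 2 2) * z.1 ∧ M 1 0 * z.1 + M 1 1 * z.2 + M 1 2 =
        (M 2 0 * z.1 + M 2 1 * z.2 + M 2 2) * z.2} : Set ℂ) = 0 := by
    intro x hx
    rcases hx with hx | ⟨h21, hx⟩
    · apply measure_mono_null _ (null_linear hx)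
      rintro y ⟨h1, -⟩
      simp only at h1
      show _ = _
      linear_combination h1
    · apply measure_mono_null _ (null_linear hx)
      rintro y ⟨-, h1⟩
      simp only at h1
      rw [h21] at h1
      show _ = _
      linear_combination h1
  by_cases hA : M 0 1 = 0 ∧ M 2 1 = 0
  · obtain ⟨h01, h21⟩ := hA
    by_cases hB : M 2 0 = 0 ∧ M 0 0 - M 2 2 = 0 ∧ M 0 2 = 0
    · obtain ⟨h20, h00, h02⟩ := hB
      by_cases hC : M 1 0 = 0 ∧ M 1 2 = 0
      · obtain ⟨h10, h12⟩ := hC
        by_cases hD : M 1 1 = M 2 2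
        · exfalso
          apply hM
          refine ⟨M 2 2, ?_⟩
          ext i j
          fin_cases i <;> fin_cases j <;> simp [h01, h21, h20, h02, h10, h12, hD]
          linear_combination h00
        · apply Filter.Eventually.of_forall
          intro x
          apply key
          right
          refine ⟨h21, ?_⟩
          rintro ⟨h1, -⟩
          apply hD
          rw [h20] at h1
          linear_combination h1
      · have h5 := ae_quadratic (a := 0) (b := M 1 0) (c := M 1 2) (by
          rintro ⟨-, h1, h2⟩; exact hC ⟨h1, h2⟩)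
        filter_upwards [h5] with x hx
        apply key
        right
        refine ⟨h21, ?_⟩
        rintro ⟨-, h1⟩
        apply hx
        linear_combination h1
    · have h5 := ae_quadratic (a := -M 2 0) (b := M 0 0 - M 2 2) (c := M 0 2) (by
        rintro ⟨h0, h1, h2⟩; exact hB ⟨by simpa using h0, h1, h2⟩)
      filter_upwards [h5] with x hx
      apply key
      left
      rintro ⟨-, h1⟩
      apply hx
      linear_combination h1
  · have h5 := ae_quadratic (a := 0) (b := -M 2 1) (c := M 0 1) (by
      rintro ⟨-, h1, h2⟩; exact hA ⟨h2, by simpa using h1⟩)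
    filter_upwards [h5] with x hx
    apply key
    left
    rintro ⟨h1, -⟩
    apply hx
    linear_combination h1

lemma act_smul_one {ν : ℂ} (hν : ν ≠ 0) (z : ℂ × ℂ) :
    act (ν • (1 : Matrix (Fin 3) (Fin 3) ℂ)) z = z := by
  unfold act
  rw [jf_apply, mulVec_lift_apply, mulVec_lift_apply]
  simp [hν]

/-- The action of the Picard modular group is essentially free. -/
lemma ess_free (p : picard) (hp : p ≠ 1) : mu {z : X | p • z = z} = 0 := by
  obtain ⟨g, hg, hgp⟩ := exists_lift p
  have hM : ¬ ∃ ν : ℂ, mat g = ν • (1 : Matrix _ _ ℂ) := by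
    rintro ⟨ν, hν⟩
    apply hp
    have hν0 : ν ≠ 0 := by
      rintro rfl
      have : (mat g).det = 1 := g.2.2
      rw [hν] at this
      simp at this
    apply Subtype.ext
    apply Equiv.ext
    intro z
    have := hgp z
    change p • z = z
    rw [this]
    apply Subtype.ext
    rw [smul_val, hν, act_smul_one hν0]
  have hsub : (Subtype.val '' {z : X | p • z = z} : Set (ℂ × ℂ)) ⊆
      {z : ℂ × ℂ | (mat g *ᵥ lift z) 0 = jf (mat g) z * z.1 ∧
        (mat g *ᵥ lift z) 1 = jf (mat g) z * z.2} := by
    rintro _ ⟨z, hz, rfl⟩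
    have hz' : act (mat g) z.1 = z.1 := by
      rw [← smul_val, ← hgp]; exact congrArg Subtype.val hz
    have hj := jf_ne_zero (mat_unitary g) z.2
    have h1 := mulVec_lift hj
    rw [hz'] at h1
    constructor
    · rw [h1]; simp [lift]
    · rw [h1]; simp [lift]
  have hmeas : MeasurableSet {z : X | p • z = z} := by
    have h1 : Measurable fun z : X => (p • z : X) := measurable_const_smul p
    exact measurableSet_eq_fun h1 measurable_id
  rw [mu_apply hmeas]
  exact setLIntegral_measure_zero _ _ (measure_mono_null hsub (fixed_null _ hM))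

/-- A measurable fundamental domain exists. -/
theorem exists_fundamentalDomain : ∃ F : Set X, IsFundamentalDomain picard F mu := by
  obtain ⟨φ, hφ⟩ := exists_measurableEmbedding_real (ℂ × ℂ)
  set F : Set X := D1 ∩ ⋂ p : picard, {z : X | p • z ∈ D1 → φ z.1 ≤ φ (p • z : X).1} with hF
  have hFm : MeasurableSet F := by
    apply measurableSet_D1.inter
    apply MeasurableSet.iInter
    intro p
    have h1 : Measurable fun z : X => (p • z : X) := measurable_const_smul p
    have e : {z : X | p • z ∈ D1 → φ z.1 ≤ φ (p • z : X).1} =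
        ((fun z : X => (p • z : X)) ⁻¹' D1)ᶜ ∪ {z : X | φ z.1 ≤ φ (p • z : X).1} := by
      ext z
      simp only [Set.mem_union, Set.mem_compl_iff, Set.mem_preimage]
      exact imp_iff_not_or
    rw [e]
    apply MeasurableSet.union
    · exact (h1 measurableSet_D1).compl
    · exact measurableSet_le (hφ.measurable.comp measurable_subtype_coe)
        (hφ.measurable.comp (measurable_subtype_coe.comp h1))
  refine ⟨F, IsFundamentalDomain.mk'' hFm.nullMeasurableSet ?_ ?_ ?_⟩
  · filter_upwards [ae_exists_height] with z hz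
    have h2 := two_le_NN hz
    have hfin : {p : picard | (1 : ℝ≥0∞) ≤ D1.indicator (1 : X → ℝ≥0∞) (p • z)}.Finite := by
      apply ENNReal.finite_const_le_of_tsum_ne_top
      · exact ne_top_of_le_ne_top (by norm_num) (NN_le z)
      · exact one_ne_zero
    have hset : {p : picard | (1 : ℝ≥0∞) ≤ D1.indicator (1 : X → ℝ≥0∞) (p • z)} =
        {p : picard | p • z ∈ D1} := by
      ext p
      by_cases h : p • z ∈ D1
      · simp [h]
      · simp [h]
    rw [hset] at hfin
    have hne : {p : picard | p • z ∈ D1}.Nonempty := by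
      by_contra hcon
      rw [Set.not_nonempty_iff_eq_empty] at hcon
      have : NN z = 0 := by
        unfold NN
        have : ∀ p : picard, D1.indicator (1 : X → ℝ≥0∞) (p • z) = 0 := by
          intro p
          apply Set.indicator_of_notMem
          intro hp
          have : p ∈ {p : picard | p • z ∈ D1} := hp
          rw [hcon] at this
          exact this
        simp [this]
      rw [this] at h2
      norm_num at h2
    obtain ⟨p0, hp0, hmin⟩ := Set.exists_min_image _ (fun p : picard => φ (p • z : X).1) hfin hne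
    refine ⟨p0, hp0, ?_⟩
    simp only [Set.mem_iInter]
    intro q hq
    have := hmin (q * p0) (by show (q * p0) • z ∈ D1; rw [mul_smul]; exact hq)
    simp only [mul_smul] at this
    exact this
  · intro g hg
    apply measure_mono_null _ (ess_free g hg)
    rintro z ⟨hz1, hz2⟩
    obtain ⟨y, hy, rfl⟩ := hz1
    show g • (g • y) = g • y
    have h1 : φ y.1 ≤ φ (g • y : X).1 := by
      have := Set.mem_iInter.mp hy.2 g
      exact this hz2.1
    have h2 : φ (g • y : X).1 ≤ φ y.1 := by
      have := Set.mem_iInter.mp hz2.2 g⁻¹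
      have h3 : g⁻¹ • g • y = y := inv_smul_smul _ _
      have h4 := this (by show g⁻¹ • g • y ∈ D1; rw [h3]; exact hy.1)
      simpa [h3] using h4
    have h3 : y.1 = (g • y : X).1 := hφ.injective (le_antisymm h1 h2)
    have h4 : y = g • y := Subtype.ext h3
    rw [← h4]
    exact h4.symm
  · intro g
    exact (measurePreserving_smul g mu).quasiMeasurePreserving

end

end Pool.Agent.Lib.H56.Picard
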