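import Pool.Agent.Lib.H56.Picard.AnalysisA

/-!
# Cusp inequality in coordinates (chunk ANALYSIS, by helper66), main statements
-/

open MeasureTheory Set Real intervalIntegral Function
open scoped ENNReal

namespace Pool.Agent.Lib.H56.Picard

lemma meas_u3 {G : ℝ → ℝ → ℝ → ℝ} (h : Cont3 G) :
    Meas3 fun s t u => ENNReal.ofReal (u⁻¹ ^ 3 * G s t u) := by
  have h1 : Measurable fun p : ℝ × ℝ × ℝ => G p.1 p.2.1 p.2.2 := h.meas
  have h2 : Measurable fun p : ℝ × ℝ × ℝ => (p.2.2)⁻¹ ^ 3 :=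
    (measurable_snd.snd.inv).pow_const 3
  exact (h2.mul h1).ennreal_ofReal

lemma meas_u4 {G : ℝ → ℝ → ℝ → ℝ → ℝ} (h : Cont4 G) :
    Meas4 fun s t v u => ENNReal.ofReal (u⁻¹ ^ 3 * G s t v u) := by
  have h1 : Measurable fun p : ℝ × ℝ × ℝ × ℝ => G p.1 p.2.1 p.2.2.1 p.2.2.2 := h.meas
  have h2 : Measurable fun p : ℝ × ℝ × ℝ × ℝ => (p.2.2.2)⁻¹ ^ 3 :=
    (measurable_snd.snd.snd.inv).pow_const 3
  exact (h2.mul h1).ennreal_ofReal

/-- the iterated weighted integral used in the cusp inequality -/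
noncomputable def BB (P : ℝ) (φ : ℝ → ℝ → ℝ → ℝ → ℝ) : ℝ≥0∞ :=
  ∫⁻ u in Ioi (1:ℝ), ∫⁻ s in Icc (0:ℝ) 1, ∫⁻ t in Icc (0:ℝ) 1, ∫⁻ v in Icc (0:ℝ) P,
    ENNReal.ofReal (u⁻¹ ^ 3 * φ s t v u)

/-- splitting of the `v` integral -/
lemma split_v {P : ℝ} (hP : 0 < P) {f : ℝ → ℝ} (cf : Continuous f) {m w : ℝ} (hw : 0 ≤ w)
    (em : m = P⁻¹ * ∫ v in (0:ℝ)..P, f v) :
    ∫⁻ v in Icc (0:ℝ) P, ENNReal.ofReal (w * f v ^ 2) =
      ENNReal.ofReal (w * (P * m ^ 2)) +
      ∫⁻ v in Icc (0:ℝ) P, ENNReal.ofReal (w * (f v - m) ^ 2) := by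
  rw [lint_Icc hP.le (by fun_prop) (fun v _ => by positivity),
    lint_Icc hP.le (by fun_prop) (fun v _ => by positivity),
    ← ENNReal.ofReal_add (by positivity)
      (intervalIntegral.integral_nonneg hP.le fun v _ => by positivity)]
  congr 1
  rw [intervalIntegral.integral_const_mul, intervalIntegral.integral_const_mul,
    variance hP cf em]
  ring

lemma lint2 {f : ℝ → ℝ → ℝ} (cf : Continuous (uncurry f)) (h0 : ∀ s t, 0 ≤ f s t) :
    ∫⁻ s in Icc (0:ℝ) 1, ∫⁻ t in Icc (0:ℝ) 1, ENNReal.ofReal (f s t) =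
      ENNReal.ofReal (∫ s in (0:ℝ)..1, ∫ t in (0:ℝ)..1, f s t) := by
  have c1 : ∀ s, Continuous fun t => f s t := fun s =>
    cf.comp (by fun_prop : Continuous fun t : ℝ => (s, t))
  have c2 : Continuous fun s => ∫ t in (0:ℝ)..1, f s t :=
    intervalIntegral.continuous_parametric_intervalIntegral_of_continuous' cf 0 1
  rw [← lint_Icc zero_le_one c2.continuousOn
    (fun s _ => intervalIntegral.integral_nonneg zero_le_one fun t _ => h0 s t)]
  refine lintegral_congr fun s => ?_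
  rw [lint_Icc zero_le_one (c1 s).continuousOn (fun t _ => h0 s t)]

/-- cusp inequality for globally continuous functions -/
theorem cusp_core {P a beta delta mu0 r1 r2 : ℝ} (hP : 0 < P) (hβ : 0 ≤ beta) (hδ0 : 0 ≤ delta)
    (hδ2 : delta ≤ 2) {F Fs Ft Fv Fu : ℝ → ℝ → ℝ → ℝ → ℝ}
    (hs : ∀ s t v u, HasDerivAt (fun s => F s t v u) (Fs s t v u) s)
    (ht : ∀ s t v u, HasDerivAt (fun t => F s t v u) (Ft s t v u) t)
    (hv : ∀ s t v u, HasDerivAt (fun v => F s t v u) (Fv s t v u) v)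
    (hu : ∀ s t v u, 1 < u → HasDerivAt (fun u => F s t v u) (Fu s t v u) u)
    (cF : Cont4 F) (cFs : Cont4 Fs) (cFt : Cont4 Ft) (cFv : Cont4 Fv) (cFu : Cont4 Fu)
    (pv : ∀ s t v u, F s t (v + P) u = F s t v u)
    {α γ : ℝ → ℝ} (ps : ∀ s t v u, F (s + 1) t (v + α t) u = F s t v u)
    (pt : ∀ s t v u, F s (t + 1) (v + γ s) u = F s t v u)
    (h0 : ∀ u, 1 < u → ∫ s in (0:ℝ)..1, ∫ t in (0:ℝ)..1, ∫ v in (0:ℝ)..P, F s t v u = 0)
    (hfin : BB P (fun s t v u => F s t v u ^ 2) < ∞)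
    (hk1 : ∀ y, 0 ≤ y → y < 1 → mu0 ≤ kk r1 r2 y + (4 * π ^ 2 / P ^ 2) / (1 - y) ^ 2)
    (hk2 : ∀ y, 0 ≤ y → y < 1 →
      mu0 ≤ kk r1 r2 y + 4 * π ^ 2 * beta * (1 - delta / 2) / (1 - y)) :
    ENNReal.ofReal mu0 * BB P (fun s t v u => F s t v u ^ 2) ≤
      BB P (fun s t v u => u ^ 2 * (Fu s t v u ^ 2 + Fv s t v u ^ 2) +
        beta * u * ((Fs s t v u + a * t * Fv s t v u) ^ 2 +
          delta * (Fs s t v u + a * t * Fv s t v u) * (Ft s t v u - a * s * Fv s t v u) +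
          (Ft s t v u - a * s * Fv s t v u) ^ 2)) := by
  set m := vmean P F with hm
  set ms := vmean P Fs with hms
  set mt := vmean P Ft with hmt
  set mu := vmean P Fu with hmu
  have cm : Cont3 m := cF.vmean P
  have cms : Cont3 ms := cFs.vmean P
  have cmt : Cont3 mt := cFt.vmean P
  have cmu : Cont3 mu := cFu.vmean P
  have cg : Cont4 fun s t v u => F s t v u - m s t u := cF.sub_vmean P
  have cgu : Cont4 fun s t v u => Fu s t v u - mu s t u := cFu.sub_vmean P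
  set κ := beta * (1 - delta / 2) with hκ
  have hκ0 : 0 ≤ κ := mul_nonneg hβ (by linarith)
  -- derivatives of the mean
  have dms : ∀ s t u, HasDerivAt (fun s => m s t u) (ms s t u) s := fun s t u =>
    (hasDerivAt_int isOpen_univ (f := fun s v => F s t v u) (f' := fun s v => Fs s t v u)
      (fun x _ v => hs x t v u) (cF.sv t u) (cFs.sv t u) (mem_univ s)).const_mul P⁻¹
  have dmt : ∀ s t u, HasDerivAt (fun t => m s t u) (mt s t u) t := fun s t u =>
    (hasDerivAt_int isOpen_univ (f := fun t v => F s t v u) (f' := fun t v => Ft s t v u)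
      (fun x _ v => ht s x v u) (cF.tv s u) (cFt.tv s u) (mem_univ t)).const_mul P⁻¹
  have dmu : ∀ s t u, 1 < u → HasDerivAt (fun u => m s t u) (mu s t u) u := fun s t u h1 =>
    (hasDerivAt_int isOpen_Ioi (f := fun u v => F s t v u) (f' := fun u v => Fu s t v u)
      (fun x hx v => hu s t v x hx) (cF.uv s t) (cFu.uv s t) (mem_Ioi.2 h1)).const_mul P⁻¹
  -- periodicity of the mean
  have shift : ∀ s t u c, ∫ v in (0:ℝ)..P, F s t (v + c) u = ∫ v in (0:ℝ)..P, F s t v u := by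
    intro s t u c
    rw [intervalIntegral.integral_comp_add_right (fun v => F s t v u)]
    have hper : Function.Periodic (fun v => F s t v u) P := fun v => pv s t v u
    have := hper.intervalIntegral_add_eq c 0
    rw [zero_add, add_comm P c]
    simpa using this
  have pms : ∀ s t u, m (s + 1) t u = m s t u := by
    intro s t u
    simp only [hm, vmean]
    rw [← shift (s + 1) t u (α t)]
    simp only [ps]
  have pmt : ∀ s t u, m s (t + 1) u = m s t u := by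
    intro s t u
    simp only [hm, vmean]
    rw [← shift s (t + 1) u (γ s)]
    simp only [pt]
  have m0 : ∀ u, 1 < u → ∫ s in (0:ℝ)..1, ∫ t in (0:ℝ)..1, m s t u = 0 := by
    intro u hu1
    simp only [hm, vmean, intervalIntegral.integral_const_mul]
    rw [h0 u hu1, mul_zero]
  -- the four pieces
  set φM : ℝ → ℝ → ℝ → ℝ≥0∞ := fun s t u => ENNReal.ofReal (u⁻¹ ^ 3 * (P * m s t u ^ 2)) with hφM
  set φA : ℝ → ℝ → ℝ → ℝ≥0∞ := fun s t u => ENNReal.ofReal (u⁻¹ ^ 3 *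
    (P * (u ^ 2 * mu s t u ^ 2 + κ * u * (ms s t u ^ 2 + mt s t u ^ 2)))) with hφA
  set φA' : ℝ → ℝ → ℝ → ℝ≥0∞ := fun s t u => ENNReal.ofReal (u⁻¹ ^ 3 *
    (P * (u ^ 2 * mu s t u ^ 2 + κ * u * (4 * π ^ 2 * m s t u ^ 2)))) with hφA'
  set ψG : ℝ → ℝ → ℝ → ℝ → ℝ≥0∞ := fun s t v u => ENNReal.ofReal (u⁻¹ ^ 3 *
    (F s t v u - m s t u) ^ 2) with hψG
  set ψC : ℝ → ℝ → ℝ → ℝ → ℝ≥0∞ := fun s t v u => ENNReal.ofReal (u⁻¹ ^ 3 *
    (u ^ 2 * (Fu s t v u - mu s t u) ^ 2 +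
      (4 * π ^ 2 / P ^ 2) * u ^ 2 * (F s t v u - m s t u) ^ 2)) with hψC
  have cu3 : Cont3 fun _ _ u => u := by unfold Cont3; fun_prop
  have cm' : Continuous fun p : ℝ × ℝ × ℝ => m p.1 p.2.1 p.2.2 := cm
  have cms' : Continuous fun p : ℝ × ℝ × ℝ => ms p.1 p.2.1 p.2.2 := cms
  have cmt' : Continuous fun p : ℝ × ℝ × ℝ => mt p.1 p.2.1 p.2.2 := cmt
  have cmu' : Continuous fun p : ℝ × ℝ × ℝ => mu p.1 p.2.1 p.2.2 := cmu
  have cg' : Continuous fun p : ℝ × ℝ × ℝ × ℝ => F p.1 p.2.1 p.2.2.1 p.2.2.2 - m p.1 p.2.1 p.2.2.2 :=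
    cg
  have cgu' : Continuous fun p : ℝ × ℝ × ℝ × ℝ =>
      Fu p.1 p.2.1 p.2.2.1 p.2.2.2 - mu p.1 p.2.1 p.2.2.2 := cgu
  have mM : Meas3 φM := meas_u3 (G := fun s t u => P * m s t u ^ 2) (by unfold Cont3; fun_prop)
  have mA : Meas3 φA := meas_u3 (G := fun s t u =>
    P * (u ^ 2 * mu s t u ^ 2 + κ * u * (ms s t u ^ 2 + mt s t u ^ 2))) (by unfold Cont3; fun_prop)
  have mA' : Meas3 φA' := meas_u3 (G := fun s t u =>
    P * (u ^ 2 * mu s t u ^ 2 + κ * u * (4 * π ^ 2 * m s t u ^ 2))) (by unfold Cont3; fun_prop)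
  have mG : Meas4 ψG := meas_u4 (G := fun s t v u => (F s t v u - m s t u) ^ 2)
    (by unfold Cont4; fun_prop)
  have mC : Meas4 ψC := meas_u4 (G := fun s t v u => u ^ 2 * (Fu s t v u - mu s t u) ^ 2 +
      (4 * π ^ 2 / P ^ 2) * u ^ 2 * (F s t v u - m s t u) ^ 2) (by unfold Cont4; fun_prop)
  -- left hand side
  have eL : BB P (fun s t v u => F s t v u ^ 2) =
      B3 φM + B3 (fun s t u => ∫⁻ v in Icc (0:ℝ) P, ψG s t v u) := by
    rw [← B3_add mM]
    have e : ∀ s t u, 1 < u → ∫⁻ v in Icc (0:ℝ) P, ENNReal.ofReal (u⁻¹ ^ 3 * F s t v u ^ 2) =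
        φM s t u + ∫⁻ v in Icc (0:ℝ) P, ψG s t v u := fun s t u hu1 =>
      split_v hP (cF.v s t u) (by positivity) rfl
    exact le_antisymm (B3_mono fun s t u hu1 => (e s t u hu1).le)
      (B3_mono fun s t u hu1 => (e s t u hu1).ge)
  rw [eL] at hfin ⊢
  rw [mul_add]
  have fM : B3 φM < ∞ := lt_of_le_of_lt le_self_add hfin
  have fG : B3 (fun s t u => ∫⁻ v in Icc (0:ℝ) P, ψG s t v u) < ∞ :=
    lt_of_le_of_lt le_add_self hfin
  -- right hand side
  refine le_trans ?_ (b := B3 φA + B3 (fun s t u => ∫⁻ v in Icc (0:ℝ) P, ψC s t v u)) ?_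
  swap
  · rw [← B3_add mA]
    refine B3_mono fun s t u hu1 => ?_
    have hu0 : 0 ≤ u := by linarith
    have hw : 0 ≤ u⁻¹ ^ 3 := by positivity
    have h1 := fiber_one (A := a * t) (B := a * s) hP hβ hδ0 hδ2 (f := fun v => F s t v u)
      (fun v => hv s t v u)
      (cFs.v s t u) (cFt.v s t u) (cFv.v s t u) (cFu.v s t u) (by simpa using pv s t 0 u) u hu0
      (m := m s t u) (ms := ms s t u) (mt := mt s t u) (mu := mu s t u) rfl rfl rfl rfl
    have c1 := cF.v s t u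
    have c2 := cFs.v s t u
    have c3 := cFt.v s t u
    have c4 := cFv.v s t u
    have c5 := cFu.v s t u
    have hq : ∀ x y : ℝ, 0 ≤ x ^ 2 + delta * x * y + y ^ 2 := fun x y => by
      nlinarith [mul_nonneg hδ0 (sq_nonneg (x + y)),
        mul_nonneg (sub_nonneg.2 hδ2) (sq_nonneg x), mul_nonneg (sub_nonneg.2 hδ2) (sq_nonneg y)]
    simp only [hφA, hψC]
    rw [lint_Icc hP.le (Continuous.continuousOn (by fun_prop)) (fun v _ => by positivity),
      lint_Icc hP.le (Continuous.continuousOn (by fun_prop)) (fun v _ => by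
        have := hq (Fs s t v u + a * t * Fv s t v u) (Ft s t v u - a * s * Fv s t v u)
        positivity),
      ← ENNReal.ofReal_add (by positivity)
        (intervalIntegral.integral_nonneg hP.le fun v _ => by positivity)]
    refine ENNReal.ofReal_le_ofReal ?_
    rw [intervalIntegral.integral_const_mul, intervalIntegral.integral_const_mul, ← mul_add]
    exact mul_le_mul_of_nonneg_left h1 hw
  refine add_le_add ?_ ?_
  · -- mean part
    refine le_trans ?_ (b := B3 φA') ?_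
    · refine B3_inner mM mA' fM fun s t hst => ?_
      have hP2 : √P ^ 2 = P := Real.sq_sqrt hP.le
      have h1 := radial (g := fun u => √P * m s t u) (g' := fun u => √P * mu s t u)
        (r1 := r1) (r2 := r2) (mu0 := mu0) (c := fun u => 4 * π ^ 2 * beta * (1 - delta / 2) * u)
        (fun u hu1 => (dmu s t u hu1).const_mul _) (continuous_const.mul (cm.u s t))
        (continuous_const.mul (cmu.u s t)) (by fun_prop)
        (fun u hu1 => by
          have : 0 ≤ 1 - delta / 2 := by linarith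
          positivity)
        (fun u hu1 => by
          have hu0 : 0 < u := by linarith
          have h2 := hk2 (1 - u⁻¹) (sub_nonneg.2 (inv_le_one_of_one_le₀ hu1))
            (by have : 0 < u⁻¹ := by positivity
                linarith)
          simpa [div_eq_mul_inv] using h2)
      have e1 : ∀ u, u⁻¹ ^ 3 * (√P * m s t u) ^ 2 = u⁻¹ ^ 3 * (P * m s t u ^ 2) := fun u => by
        rw [mul_pow, hP2]
      have e2 : ∀ u, u⁻¹ ^ 3 * (u ^ 2 * (√P * mu s t u) ^ 2 +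
          4 * π ^ 2 * beta * (1 - delta / 2) * u * (√P * m s t u) ^ 2) =
          u⁻¹ ^ 3 * (P * (u ^ 2 * mu s t u ^ 2 + κ * u * (4 * π ^ 2 * m s t u ^ 2))) := fun u => by
        rw [mul_pow, mul_pow, hP2, hκ]; ring
      simp only [e1, e2] at h1
      exact h1 hst
    · unfold B3
      refine setLIntegral_mono' measurableSet_Ioi fun u hu1 => ?_
      have hu1' : 1 < u := hu1
      have hu0 : 0 ≤ u := by linarith
      have c1 := cm.st u
      have c2 := cms.st u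
      have c3 := cmt.st u
      have c4 := cmu.st u
      have c1' : Continuous fun p : ℝ × ℝ => m p.1 p.2 u := c1
      have c2' : Continuous fun p : ℝ × ℝ => ms p.1 p.2 u := c2
      have c3' : Continuous fun p : ℝ × ℝ => mt p.1 p.2 u := c3
      have c4' : Continuous fun p : ℝ × ℝ => mu p.1 p.2 u := c4
      simp only [hφA, hφA']
      rw [lint2 (by unfold uncurry; fun_prop) (fun s t => by positivity),
        lint2 (by unfold uncurry; fun_prop) (fun s t => by positivity)]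
      refine ENNReal.ofReal_le_ofReal ?_
      have hW := wirtinger2 (fun s t => dms s t u) (fun s t => dmt s t u) c1 c2 c3
        (fun s t => pms s t u) (fun s t => pmt s t u) (m0 u hu1')
      -- factor constants
      have fac : ∀ G : ℝ → ℝ → ℝ, Continuous (uncurry G) →
          ∫ s in (0:ℝ)..1, ∫ t in (0:ℝ)..1, u⁻¹ ^ 3 * (P * (u ^ 2 * mu s t u ^ 2 + κ * u * G s t)) =
          u⁻¹ ^ 3 * (P * (u ^ 2 * (∫ s in (0:ℝ)..1, ∫ t in (0:ℝ)..1, mu s t u ^ 2) +
            κ * u * ∫ s in (0:ℝ)..1, ∫ t in (0:ℝ)..1, G s t)) := by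
        intro G cG
        have cG1 : ∀ s, Continuous fun t => G s t := fun s =>
          cG.comp (by fun_prop : Continuous fun t : ℝ => (s, t))
        have cmu1 : ∀ s, Continuous fun t => mu s t u := fun s => cmu.t s u
        have cG2 : Continuous fun s => ∫ t in (0:ℝ)..1, G s t :=
          intervalIntegral.continuous_parametric_intervalIntegral_of_continuous' cG 0 1
        have cmu2 : Continuous fun s => ∫ t in (0:ℝ)..1, mu s t u ^ 2 :=
          intervalIntegral.continuous_parametric_intervalIntegral_of_continuous'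
            (f := fun s t => mu s t u ^ 2) (by unfold uncurry; fun_prop) 0 1
        have e1 : ∀ s, ∫ t in (0:ℝ)..1, u⁻¹ ^ 3 * (P * (u ^ 2 * mu s t u ^ 2 + κ * u * G s t)) =
            u⁻¹ ^ 3 * (P * (u ^ 2 * (∫ t in (0:ℝ)..1, mu s t u ^ 2) +
              κ * u * ∫ t in (0:ℝ)..1, G s t)) := by
          intro s
          have a1 := cG1 s
          have a2 := cmu1 s
          rw [intervalIntegral.integral_const_mul, intervalIntegral.integral_const_mul,
            intervalIntegral.integral_add, intervalIntegral.integral_const_mul,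
            intervalIntegral.integral_const_mul]
          all_goals exact Continuous.intervalIntegrable (by fun_prop) _ _
        simp only [e1]
        rw [intervalIntegral.integral_const_mul, intervalIntegral.integral_const_mul,
          intervalIntegral.integral_add, intervalIntegral.integral_const_mul,
          intervalIntegral.integral_const_mul]
        all_goals exact Continuous.intervalIntegrable (by fun_prop) _ _
      have f1 := fac (fun s t => 4 * π ^ 2 * m s t u ^ 2) (by unfold uncurry; fun_prop)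
      have f2 := fac (fun s t => ms s t u ^ 2 + mt s t u ^ 2) (by unfold uncurry; fun_prop)
      rw [f1, f2]
      have e3 : ∫ s in (0:ℝ)..1, ∫ t in (0:ℝ)..1, 4 * π ^ 2 * m s t u ^ 2 =
          4 * π ^ 2 * ∫ s in (0:ℝ)..1, ∫ t in (0:ℝ)..1, m s t u ^ 2 := by
        simp only [intervalIntegral.integral_const_mul]
      rw [e3]
      have hκu : 0 ≤ κ * u := mul_nonneg hκ0 hu0
      gcongr
  · -- oscillating part
    refine B4_inner mG mC fG fun s t v hst => ?_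
    exact radial (g := fun u => F s t v u - m s t u) (g' := fun u => Fu s t v u - mu s t u)
      (r1 := r1) (r2 := r2) (mu0 := mu0) (c := fun u => (4 * π ^ 2 / P ^ 2) * u ^ 2)
      (fun u hu1 => (hu s t v u hu1).sub (dmu s t u hu1)) (cg.u s t v) (cgu.u s t v)
      (by fun_prop) (fun u hu1 => by positivity)
      (fun u hu1 => by
        have hu0 : 0 < u := by linarith
        have h2 := hk1 (1 - u⁻¹) (sub_nonneg.2 (inv_le_one_of_one_le₀ hu1))
          (by have : 0 < u⁻¹ := by positivity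
              linarith)
        simpa [div_eq_mul_inv] using h2) hst

/-- Cusp inequality in coordinates. -/
theorem cusp_inequality {P a beta delta mu0 r1 r2 : ℝ} (hP : 0 < P) (hβ : 0 ≤ beta)
    (hδ0 : 0 ≤ delta) (hδ2 : delta ≤ 2) {F Fs Ft Fv Fu : ℝ → ℝ → ℝ → ℝ → ℝ}
    (hs : ∀ s t v u, 0 < u → HasDerivAt (fun s => F s t v u) (Fs s t v u) s)
    (ht : ∀ s t v u, 0 < u → HasDerivAt (fun t => F s t v u) (Ft s t v u) t)
    (hv : ∀ s t v u, 0 < u → HasDerivAt (fun v => F s t v u) (Fv s t v u) v)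
    (hu : ∀ s t v u, 0 < u → HasDerivAt (fun u => F s t v u) (Fu s t v u) u)
    (cF : ContinuousOn (fun p : ℝ × ℝ × ℝ × ℝ => F p.1 p.2.1 p.2.2.1 p.2.2.2) {p | 0 < p.2.2.2})
    (cFs : ContinuousOn (fun p : ℝ × ℝ × ℝ × ℝ => Fs p.1 p.2.1 p.2.2.1 p.2.2.2) {p | 0 < p.2.2.2})
    (cFt : ContinuousOn (fun p : ℝ × ℝ × ℝ × ℝ => Ft p.1 p.2.1 p.2.2.1 p.2.2.2) {p | 0 < p.2.2.2})
    (cFv : ContinuousOn (fun p : ℝ × ℝ × ℝ × ℝ => Fv p.1 p.2.1 p.2.2.1 p.2.2.2) {p | 0 < p.2.2.2})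
    (cFu : ContinuousOn (fun p : ℝ × ℝ × ℝ × ℝ => Fu p.1 p.2.1 p.2.2.1 p.2.2.2) {p | 0 < p.2.2.2})
    (pv : ∀ s t v u, 0 < u → F s t (v + P) u = F s t v u)
    {α γ : ℝ → ℝ} (ps : ∀ s t v u, 0 < u → F (s + 1) t (v + α t) u = F s t v u)
    (pt : ∀ s t v u, 0 < u → F s (t + 1) (v + γ s) u = F s t v u)
    (h0 : ∀ u, 1 < u → ∫ s in (0:ℝ)..1, ∫ t in (0:ℝ)..1, ∫ v in (0:ℝ)..P, F s t v u = 0)
    (hfin : BB P (fun s t v u => F s t v u ^ 2) < ∞)
    (hk1 : ∀ y, 0 ≤ y → y < 1 → mu0 ≤ kk r1 r2 y + (4 * π ^ 2 / P ^ 2) / (1 - y) ^ 2)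
    (hk2 : ∀ y, 0 ≤ y → y < 1 →
      mu0 ≤ kk r1 r2 y + 4 * π ^ 2 * beta * (1 - delta / 2) / (1 - y)) :
    ENNReal.ofReal mu0 * BB P (fun s t v u => F s t v u ^ 2) ≤
      BB P (fun s t v u => u ^ 2 * (Fu s t v u ^ 2 + Fv s t v u ^ 2) +
        beta * u * ((Fs s t v u + a * t * Fv s t v u) ^ 2 +
          delta * (Fs s t v u + a * t * Fv s t v u) * (Ft s t v u - a * s * Fv s t v u) +
          (Ft s t v u - a * s * Fv s t v u) ^ 2)) := by
  have hpos : ∀ u : ℝ, 0 < max u 1 := fun u => lt_max_of_lt_right one_pos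
  have hat : ∀ {G : ℝ → ℝ → ℝ → ℝ → ℝ},
      ContinuousOn (fun p : ℝ × ℝ × ℝ × ℝ => G p.1 p.2.1 p.2.2.1 p.2.2.2) {p | 0 < p.2.2.2} →
      Cont4 fun s t v u => G s t v (max u 1) := by
    intro G hG
    have h1 : Continuous fun p : ℝ × ℝ × ℝ × ℝ => (p.1, p.2.1, p.2.2.1, max p.2.2.2 1) := by
      fun_prop
    exact hG.comp_continuous h1 fun p => hpos _
  have heq : ∀ {φ ψ : ℝ → ℝ → ℝ → ℝ → ℝ}, (∀ s t v u, 1 < u → φ s t v u = ψ s t v u) →
      BB P φ = BB P ψ := by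
    intro φ ψ h
    refine setLIntegral_congr_fun measurableSet_Ioi fun u hu1 => ?_
    have hu1' : 1 < u := hu1
    simp only [h _ _ _ u hu1']
  have hmax : ∀ u : ℝ, 1 < u → max u 1 = u := fun u h => max_eq_left h.le
  have key := cusp_core (a := a) (α := α) (γ := γ) (F := fun s t v u => F s t v (max u 1))
    (Fs := fun s t v u => Fs s t v (max u 1)) (Ft := fun s t v u => Ft s t v (max u 1))
    (Fv := fun s t v u => Fv s t v (max u 1)) (Fu := fun s t v u => Fu s t v (max u 1))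
    hP hβ hδ0 hδ2 (fun s t v u => hs s t v _ (hpos u)) (fun s t v u => ht s t v _ (hpos u))
    (fun s t v u => hv s t v _ (hpos u))
    (fun s t v u hu1 => by
      have h1 := hu s t v u (by linarith)
      rw [hmax u hu1]
      refine h1.congr_of_eventuallyEq ?_
      filter_upwards [isOpen_Ioi.mem_nhds (show u ∈ Ioi (1:ℝ) from hu1)] with x hx
      rw [hmax x hx])
    (hat cF) (hat cFs) (hat cFt) (hat cFv) (hat cFu)
    (fun s t v u => pv s t v _ (hpos u)) (fun s t v u => ps s t v _ (hpos u))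
    (fun s t v u => pt s t v _ (hpos u))
    (fun u hu1 => by simpa only [hmax u hu1] using h0 u hu1)
    (by rw [heq (ψ := fun s t v u => F s t v u ^ 2)
          (fun s t v u h => by simp only [hmax u h])]; exact hfin) hk1 hk2
  rw [heq (φ := fun s t v u => F s t v (max u 1) ^ 2) (ψ := fun s t v u => F s t v u ^ 2)
    (fun s t v u h => by simp only [hmax u h])] at key
  refine key.trans (le_of_eq (heq fun s t v u h => ?_))
  simp only [hmax u h]

lemma pi_sq_gt : 9.8695 < π ^ 2 := by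
  have h := Real.pi_gt_d6
  nlinarith

/-- Eisenstein numerics, first condition -/
lemma eis_k1 (y : ℝ) (hy0 : 0 ≤ y) (hy1 : y < 1) :
    (25 / 4 : ℝ) ≤ kk 3 2 y + (4 * π ^ 2 / (2 * √3) ^ 2) / (1 - y) ^ 2 := by
  have h3 : (2 * √3) ^ 2 = (12:ℝ) := by
    rw [mul_pow, Real.sq_sqrt (by norm_num)]; norm_num
  have hpi := pi_sq_gt
  have hy : 0 < 1 - y := by linarith
  have hy2 : 0 < (1 - y) ^ 2 := by positivity
  rw [h3]
  have key : (25 / 4 - kk 3 2 y) * (1 - y) ^ 2 ≤ 4 * π ^ 2 / 12 := by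
    have e : (25 / 4 - kk 3 2 y) * (1 - y) ^ 2 =
        3.25 - 1.5 * y + 10.25 * y ^ 2 - 17 * y ^ 3 - 3 * y ^ 4 + 4 * y ^ 5 + 4 * y ^ 6 := by
      unfold kk; ring
    rw [e]
    have p : 3.25 - 1.5 * y + 10.25 * y ^ 2 - 17 * y ^ 3 - 3 * y ^ 4 + 4 * y ^ 5 + 4 * y ^ 6 ≤
        3.28 := by
      rcases le_total y 0.5 with h | h
      · have h1 : 0 ≤ y ^ 4 * ((1 - 2 * y) * (3 + 2 * y)) := by
          have : 0 ≤ 1 - 2 * y := by linarith
          positivity
        have h2 : 0 ≤ y * (17 * (y - 0.3015) ^ 2) := by positivity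
        nlinarith [h1, h2]
      · set z := y - 0.5 with hz
        have hyz : y = 0.5 + z := by rw [hz]; ring
        have hz0 : 0 ≤ z := by linarith
        have hz1 : z ≤ 0.5 := by linarith
        rw [hyz]
        have h1 : z ^ 4 ≤ 0.25 * z ^ 2 := by
          have : z ^ 2 ≤ 0.25 := by nlinarith
          nlinarith [sq_nonneg z]
        have h2 : z ^ 5 ≤ 0.125 * z ^ 2 := by
          have : z ^ 3 ≤ 0.125 := by
            calc z ^ 3 ≤ (0.5:ℝ) ^ 3 := by gcongr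
              _ = 0.125 := by norm_num
          nlinarith [sq_nonneg z]
        have h3 : z ^ 6 ≤ 0.0625 * z ^ 2 := by
          have : z ^ 4 ≤ 0.0625 := by
            calc z ^ 4 ≤ (0.5:ℝ) ^ 4 := by gcongr
              _ = 0.0625 := by norm_num
          nlinarith [sq_nonneg z]
        have h4 : 0 ≤ z ^ 3 := by positivity
        nlinarith [sq_nonneg z]
    linarith
  have := (le_div_iff₀ hy2).2 key
  linarith

/-- Eisenstein numerics, second condition -/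
lemma eis_k2 (y : ℝ) (hy0 : 0 ≤ y) (hy1 : y < 1) :
    (25 / 4 : ℝ) ≤ kk 3 2 y + 4 * π ^ 2 * (1 / 3) * (1 - 1 / 2) / (1 - y) := by
  have hpi := pi_sq_gt
  have hy : 0 < 1 - y := by linarith
  have key : (25 / 4 - kk 3 2 y) * (1 - y) ≤ 4 * π ^ 2 * (1 / 3) * (1 - 1 / 2) := by
    have e : (25 / 4 - kk 3 2 y) * (1 - y) =
        3.25 + 1.75 * y + 12 * y ^ 2 - 5 * y ^ 3 - 8 * y ^ 4 - 4 * y ^ 5 := by
      unfold kk; ring
    rw [e]
    have p : 3.25 + 1.75 * y + 12 * y ^ 2 - 5 * y ^ 3 - 8 * y ^ 4 - 4 * y ^ 5 ≤ 6.5 := by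
      have h1 : 0 ≤ y ^ 3 * (y - 0.6) ^ 2 := by positivity
      have h2 : 0 ≤ y ^ 2 * (y - 0.6) ^ 2 := by positivity
      have h3 : 0 ≤ y * (y - 0.6) ^ 2 := by positivity
      nlinarith [sq_nonneg (y - 0.6), h1, h2, h3]
    linarith
  have := (le_div_iff₀ hy).2 key
  linarith

/-- Gaussian numerics, second condition -/
lemma gau_k2 (y : ℝ) (hy0 : 0 ≤ y) (hy1 : y < 1) :
    (693 / 100 : ℝ) ≤ kk 2 1 y + 4 * π ^ 2 * (1 / 8) * (1 - 0 / 2) / (1 - y) := by
  have hpi := pi_sq_gt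
  have hy : 0 < 1 - y := by linarith
  have key : (693 / 100 - kk 2 1 y) * (1 - y) ≤ 4 * π ^ 2 * (1 / 8) * (1 - 0 / 2) := by
    have e : (693 / 100 - kk 2 1 y) * (1 - y) =
        4.93 - y * (0.93 - 4 * y + 4 * y ^ 2 + 3 * y ^ 3 + y ^ 4) := by
      unfold kk; ring
    rw [e]
    have p : 0 ≤ 0.93 - 4 * y + 4 * y ^ 2 + 3 * y ^ 3 + y ^ 4 := by
      have h3 : 0 ≤ y * (y - 0.35) ^ 2 := by positivity
      nlinarith [sq_nonneg (y - 0.35), sq_nonneg (y ^ 2 - 0.35 * y), h3]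
    have p2 : 0 ≤ y * (0.93 - 4 * y + 4 * y ^ 2 + 3 * y ^ 3 + y ^ 4) := mul_nonneg hy0 p
    linarith
  have := (le_div_iff₀ hy).2 key
  linarith

/-- Gaussian numerics, first condition -/
lemma gau_k1 (y : ℝ) (hy0 : 0 ≤ y) (hy1 : y < 1) :
    (693 / 100 : ℝ) ≤ kk 2 1 y + (4 * π ^ 2 / 2 ^ 2) / (1 - y) ^ 2 := by
  have h := gau_k2 y hy0 hy1
  have hy : 0 < 1 - y := by linarith
  have h1 : 4 * π ^ 2 * (1 / 8) * (1 - 0 / 2) / (1 - y) ≤ (4 * π ^ 2 / 2 ^ 2) / (1 - y) ^ 2 := by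
    rw [div_le_div_iff₀ hy (by positivity)]
    have hpi : 0 < π ^ 2 := by positivity
    nlinarith [mul_pos hpi hy, mul_nonneg (mul_pos hpi hy).le hy0]
  linarith

section Instances

variable {a : ℝ} {F Fs Ft Fv Fu : ℝ → ℝ → ℝ → ℝ → ℝ} {α γ : ℝ → ℝ}

/-- Eisenstein instance: `P = 2√3`, `beta = 1/3`, `delta = 1`, constant `25/4`. -/
theorem cusp_eisenstein
    (hs : ∀ s t v u, 0 < u → HasDerivAt (fun s => F s t v u) (Fs s t v u) s)
    (ht : ∀ s t v u, 0 < u → HasDerivAt (fun t => F s t v u) (Ft s t v u) t)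
    (hv : ∀ s t v u, 0 < u → HasDerivAt (fun v => F s t v u) (Fv s t v u) v)
    (hu : ∀ s t v u, 0 < u → HasDerivAt (fun u => F s t v u) (Fu s t v u) u)
    (cF : ContinuousOn (fun p : ℝ × ℝ × ℝ × ℝ => F p.1 p.2.1 p.2.2.1 p.2.2.2) {p | 0 < p.2.2.2})
    (cFs : ContinuousOn (fun p : ℝ × ℝ × ℝ × ℝ => Fs p.1 p.2.1 p.2.2.1 p.2.2.2) {p | 0 < p.2.2.2})
    (cFt : ContinuousOn (fun p : ℝ × ℝ × ℝ × ℝ => Ft p.1 p.2.1 p.2.2.1 p.2.2.2) {p | 0 < p.2.2.2})
    (cFv : ContinuousOn (fun p : ℝ × ℝ × ℝ × ℝ => Fv p.1 p.2.1 p.2.2.1 p.2.2.2) {p | 0 < p.2.2.2})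
    (cFu : ContinuousOn (fun p : ℝ × ℝ × ℝ × ℝ => Fu p.1 p.2.1 p.2.2.1 p.2.2.2) {p | 0 < p.2.2.2})
    (pv : ∀ s t v u, 0 < u → F s t (v + 2 * √3) u = F s t v u)
    (ps : ∀ s t v u, 0 < u → F (s + 1) t (v + α t) u = F s t v u)
    (pt : ∀ s t v u, 0 < u → F s (t + 1) (v + γ s) u = F s t v u)
    (h0 : ∀ u, 1 < u → ∫ s in (0:ℝ)..1, ∫ t in (0:ℝ)..1, ∫ v in (0:ℝ)..(2 * √3), F s t v u = 0)
    (hfin : BB (2 * √3) (fun s t v u => F s t v u ^ 2) < ∞) :
    ENNReal.ofReal (25 / 4) * BB (2 * √3) (fun s t v u => F s t v u ^ 2) ≤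
      BB (2 * √3) (fun s t v u => u ^ 2 * (Fu s t v u ^ 2 + Fv s t v u ^ 2) +
        (1 / 3) * u * ((Fs s t v u + a * t * Fv s t v u) ^ 2 +
          1 * (Fs s t v u + a * t * Fv s t v u) * (Ft s t v u - a * s * Fv s t v u) +
          (Ft s t v u - a * s * Fv s t v u) ^ 2)) :=
  cusp_inequality (r1 := 3) (r2 := 2) (by positivity) (by norm_num) (by norm_num) (by norm_num)
    hs ht hv hu cF cFs cFt cFv cFu pv ps pt h0 hfin eis_k1 eis_k2

/-- Gaussian instance: `P = 2`, `beta = 1/8`, `delta = 0`, constant `693/100`. -/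
theorem cusp_gaussian
    (hs : ∀ s t v u, 0 < u → HasDerivAt (fun s => F s t v u) (Fs s t v u) s)
    (ht : ∀ s t v u, 0 < u → HasDerivAt (fun t => F s t v u) (Ft s t v u) t)
    (hv : ∀ s t v u, 0 < u → HasDerivAt (fun v => F s t v u) (Fv s t v u) v)
    (hu : ∀ s t v u, 0 < u → HasDerivAt (fun u => F s t v u) (Fu s t v u) u)
    (cF : ContinuousOn (fun p : ℝ × ℝ × ℝ × ℝ => F p.1 p.2.1 p.2.2.1 p.2.2.2) {p | 0 < p.2.2.2})
    (cFs : ContinuousOn (fun p : ℝ × ℝ × ℝ × ℝ => Fs p.1 p.2.1 p.2.2.1 p.2.2.2) {p | 0 < p.2.2.2})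
    (cFt : ContinuousOn (fun p : ℝ × ℝ × ℝ × ℝ => Ft p.1 p.2.1 p.2.2.1 p.2.2.2) {p | 0 < p.2.2.2})
    (cFv : ContinuousOn (fun p : ℝ × ℝ × ℝ × ℝ => Fv p.1 p.2.1 p.2.2.1 p.2.2.2) {p | 0 < p.2.2.2})
    (cFu : ContinuousOn (fun p : ℝ × ℝ × ℝ × ℝ => Fu p.1 p.2.1 p.2.2.1 p.2.2.2) {p | 0 < p.2.2.2})
    (pv : ∀ s t v u, 0 < u → F s t (v + 2) u = F s t v u)
    (ps : ∀ s t v u, 0 < u → F (s + 1) t (v + α t) u = F s t v u)
    (pt : ∀ s t v u, 0 < u → F s (t + 1) (v + γ s) u = F s t v u)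
    (h0 : ∀ u, 1 < u → ∫ s in (0:ℝ)..1, ∫ t in (0:ℝ)..1, ∫ v in (0:ℝ)..2, F s t v u = 0)
    (hfin : BB 2 (fun s t v u => F s t v u ^ 2) < ∞) :
    ENNReal.ofReal (693 / 100) * BB 2 (fun s t v u => F s t v u ^ 2) ≤
      BB 2 (fun s t v u => u ^ 2 * (Fu s t v u ^ 2 + Fv s t v u ^ 2) +
        (1 / 8) * u * ((Fs s t v u + a * t * Fv s t v u) ^ 2 +
          0 * (Fs s t v u + a * t * Fv s t v u) * (Ft s t v u - a * s * Fv s t v u) +
          (Ft s t v u - a * s * Fv s t v u) ^ 2)) :=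
  cusp_inequality (r1 := 2) (r2 := 1) (by norm_num) (by norm_num) (by norm_num) (by norm_num)
    hs ht hv hu cF cFs cFt cFv cFu pv ps pt h0 hfin gau_k1 gau_k2

end Instances

end Pool.Agent.Lib.H56.Picard
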