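import Pool.Agent.Lib.H56.Picard.Green7

/-!
# The energy inequality for square integrable automorphic eigenfunctions
-/

namespace Pool.Agent.Lib.H56.Picard

open Matrix MeasureTheory Topology

noncomputable section

/-- The Laplacian of the metric `4 u⁻² (|dz₁ + \bar z₂ dz₂|² + u |dz₂|²)` for complex functions
on the Siegel domain. -/
def laplacian (f : ℂ × ℂ → ℂ) (z : ℂ × ℂ) : ℂ :=
  (height z : ℂ) ^ 2 * (iteratedFDeriv ℝ 2 f z ![(1 / 2, 0), (1 / 2, 0)] +
    iteratedFDeriv ℝ 2 f z ![(Complex.I / 2, 0), (Complex.I / 2, 0)]) +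
  (height z : ℂ) / 4 * (iteratedFDeriv ℝ 2 f z ![(-star z.2, 1), (-star z.2, 1)] +
    iteratedFDeriv ℝ 2 f z
      ![(-(Complex.I * star z.2), Complex.I), (-(Complex.I * star z.2), Complex.I)])

lemma lapR_comp (l : ℂ →L[ℝ] ℝ) {f : ℂ × ℂ → ℂ} (hf : ContDiffOn ℝ 2 f U) {z : ℂ × ℂ}
    (hz : z ∈ U) : lapR (fun w => l (f w)) z = l (laplacian f z) := by
  have h1 : ContDiffOn ℝ 1 (fderiv ℝ f) U := hf.fderiv_of_isOpen isOpen_U (by norm_num)
  have h2 : HasFDerivAt (fderiv ℝ f) (fderiv ℝ (fderiv ℝ f) z) z :=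
    ((h1.contDiffAt (isOpen_U.mem_nhds hz)).differentiableAt (by norm_num)).hasFDerivAt
  have h3 : fderiv ℝ (fun w => l (f w)) =ᶠ[𝓝 z] fun w => l.comp (fderiv ℝ f w) := by
    filter_upwards [isOpen_U.mem_nhds hz] with w hw
    have h4 : HasFDerivAt f (fderiv ℝ f w) w :=
      ((hf.contDiffAt (isOpen_U.mem_nhds hw)).differentiableAt (by norm_num)).hasFDerivAt
    exact (l.hasFDerivAt.comp w h4).fderiv
  have h5 : ∀ v u : ℂ × ℂ, fderiv ℝ (fderiv ℝ fun w => l (f w)) z v u =
      l (fderiv ℝ (fderiv ℝ f) z v u) := by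
    intro v u
    have h6 : HasFDerivAt (fun w => l.comp (fderiv ℝ f w))
        ((ContinuousLinearMap.compL ℝ (ℂ × ℂ) ℂ ℝ l).comp (fderiv ℝ (fderiv ℝ f) z)) z :=
      (ContinuousLinearMap.compL ℝ (ℂ × ℂ) ℂ ℝ l).hasFDerivAt.comp z h2
    rw [h3.fderiv_eq, h6.fderiv]
    rfl
  have h7 : ∀ (r : ℝ) (x : ℂ), l ((r : ℂ) * x) = r * l x := by
    intro r x
    rw [← Complex.real_smul, map_smul, smul_eq_mul]
  unfold lapR laplacian
  simp only [h5, iteratedFDeriv_two_apply, Fin.sum_univ_four, wt, fr, Matrix.cons_val_zero,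
    Matrix.cons_val_one]
  have e1 : (height z : ℂ) ^ 2 = ((height z ^ 2 : ℝ) : ℂ) := by push_cast; rfl
  have e2 : (height z : ℂ) / 4 = ((height z / 4 : ℝ) : ℂ) := by push_cast; rfl
  rw [e1, e2, map_add, h7, h7, map_add, map_add]
  ring

instance : mu.IsOpenPosMeasure where
  open_pos := by
    intro V hV hne h0
    rw [mu_apply hV.measurableSet] at h0
    have hVo : IsOpen (Subtype.val '' V : Set (ℂ × ℂ)) := isOpen_U.isOpenMap_subtype_val V hV
    have h1 : 0 < ∫⁻ z in (Subtype.val '' V : Set (ℂ × ℂ)), ENNReal.ofReal ((height z)⁻¹ ^ 3) := by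
      rw [setLIntegral_pos_iff measurable_dens]
      have h2 : (Function.support fun z : ℂ × ℂ => ENNReal.ofReal ((height z)⁻¹ ^ 3)) ∩
          (Subtype.val '' V : Set (ℂ × ℂ)) = (Subtype.val '' V : Set (ℂ × ℂ)) := by
        apply Set.inter_eq_self_of_subset_right
        rintro _ ⟨y, _, rfl⟩
        have hy := y.2
        rw [Function.mem_support]
        have h3 : 0 < (height y.1)⁻¹ ^ 3 := by positivity
        exact (ENNReal.ofReal_pos.mpr h3).ne'
      rw [h2]
      exact hVo.measure_pos _ (hne.image _)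
    exact h1.ne' h0

section group

variable {O : Subring ℂ} {hO : ∀ x ∈ O, star x ∈ O}

/-- **The energy inequality.** A square integrable automorphic eigenfunction of the Laplacian has a
real eigenvalue, and its Dirichlet energy is at most the eigenvalue times its norm. The integral
over a fundamental domain is expressed by a weight `w` whose translates sum to a constant. -/
theorem green (hOd : ∀ B : ℝ, {x : ℂ | x ∈ O ∧ ‖x‖ ≤ B}.Finite)
    (hO1 : ∀ x ∈ O, x ≠ 0 → 1 ≤ ‖x‖)
    (hcov : ∀ R : ℝ, ∃ K : Set (ℂ × ℂ), IsCompact K ∧ K ⊆ U ∧ ∀ z ∈ U,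
      (∀ γ : arith O hO, height (act (mat γ.1) z) ≤ R) → ∃ γ : arith O hO, act (mat γ.1) z ∈ K)
    {w : X → ENNReal} (hw : Measurable w) {c : ENNReal} (hc0 : c ≠ 0) (hc : c ≠ ⊤)
    (hwc : ∀ᵐ z ∂mu, ∑' γ : arith O hO, w (γ • z) = c)
    {f : ℂ × ℂ → ℂ} (hf : ContDiffOn ℝ 2 f U)
    (hinv : ∀ γ : arith O hO, ∀ z ∈ U, f (act (mat γ.1) z) = f z) {lam : ℂ}
    (heig : ∀ z ∈ U, laplacian f z = -(lam * f z))
    (hL2 : ∫⁻ z, w z * ENNReal.ofReal (Complex.normSq (f z.1)) ∂mu ≠ ⊤)
    (hne : ∃ z ∈ U, f z ≠ 0) :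
    lam.im = 0 ∧
    ∫⁻ z, w z * ENNReal.ofReal (energy (fun z => (f z).re) z.1 +
        energy (fun z => (f z).im) z.1) ∂mu ≤
      ENNReal.ofReal lam.re * ∫⁻ z, w z * ENNReal.ofReal (Complex.normSq (f z.1)) ∂mu := by
  have hcount := countable_arith (hO := hO) hOd
  set f1 : ℂ × ℂ → ℝ := fun z => (f z).re with hf1
  set f2 : ℂ × ℂ → ℝ := fun z => (f z).im with hf2
  have hf1d : ContDiffOn ℝ 2 f1 U := Complex.reCLM.contDiff.comp_contDiffOn hf
  have hf2d : ContDiffOn ℝ 2 f2 U := Complex.imCLM.contDiff.comp_contDiffOn hf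
  have hf1i : ∀ γ : arith O hO, ∀ z ∈ U, f1 (act (mat γ.1) z) = f1 z := fun γ z hz => by
    simp only [hf1, hinv γ z hz]
  have hf2i : ∀ γ : arith O hO, ∀ z ∈ U, f2 (act (mat γ.1) z) = f2 z := fun γ z hz => by
    simp only [hf2, hinv γ z hz]
  have hl1 : ∀ z ∈ U, lapR f1 z = -(lam.re * f1 z - lam.im * f2 z) := by
    intro z hz
    have h := lapR_comp Complex.reCLM hf hz
    rw [heig z hz] at h
    have h' : lapR f1 z = Complex.reCLM (-(lam * f z)) := h
    rw [h']
    simp [hf1, hf2]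
  have hl2 : ∀ z ∈ U, lapR f2 z = -(lam.re * f2 z + lam.im * f1 z) := by
    intro z hz
    have h := lapR_comp Complex.imCLM hf hz
    rw [heig z hz] at h
    have h' : lapR f2 z = Complex.imCLM (-(lam * f z)) := h
    rw [h']
    simp [hf1, hf2]
  have hnsq : ∀ z, Complex.normSq (f z) = f1 z ^ 2 + f2 z ^ 2 := by
    intro z
    rw [Complex.normSq_apply]
    ring
  have hfin : ∀ᵐ z ∂mu, w z ≠ ⊤ := by
    filter_upwards [hwc] with z hz
    have h1 : w ((1 : arith O hO) • z) ≤ c := by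
      rw [← hz]
      exact ENNReal.le_tsum _
    rw [one_smul] at h1
    exact ne_top_of_le_ne_top hc h1
  -- real and extended versions of the integrals
  have hconv : ∀ φ : X → ℝ, (∀ z, 0 ≤ φ z) →
      (fun z => w z * ENNReal.ofReal (φ z)) =ᵐ[mu] fun z => ENNReal.ofReal ((w z).toReal * φ z) := by
    intro φ hφ
    filter_upwards [hfin] with z hz
    rw [ENNReal.ofReal_mul ENNReal.toReal_nonneg, ENNReal.ofReal_toReal hz]
  have hc1 : Continuous fun z : X => f1 z.1 := continuous_restrict hf1d.continuousOn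
  have hc2 : Continuous fun z : X => f2 z.1 := continuous_restrict hf2d.continuousOn
  have hF2m : Measurable fun z : X => (w z).toReal * (f1 z.1 ^ 2 + f2 z.1 ^ 2) :=
    hw.ennreal_toReal.mul ((hc1.pow 2).add (hc2.pow 2)).measurable
  have hF20 : ∀ z : X, 0 ≤ (w z).toReal * (f1 z.1 ^ 2 + f2 z.1 ^ 2) := fun z =>
    mul_nonneg ENNReal.toReal_nonneg (by positivity)
  have hN1 : ∫⁻ z, w z * ENNReal.ofReal (Complex.normSq (f z.1)) ∂mu =
      ∫⁻ z : X, ENNReal.ofReal ((w z).toReal * (f1 z.1 ^ 2 + f2 z.1 ^ 2)) ∂mu := by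
    simp only [hnsq]
    exact lintegral_congr_ae (hconv (fun z => f1 z.1 ^ 2 + f2 z.1 ^ 2) fun z => by positivity)
  have hint : Integrable (fun z : X => (w z).toReal * (f1 z.1 ^ 2 + f2 z.1 ^ 2)) mu := by
    refine ⟨hF2m.aestronglyMeasurable, ?_⟩
    rw [hasFiniteIntegral_iff_ofReal (Filter.Eventually.of_forall hF20), ← hN1]
    exact hL2.lt_top
  set N := ∫ z : X, (w z).toReal * (f1 z.1 ^ 2 + f2 z.1 ^ 2) ∂mu with hN
  have hN0 : 0 ≤ N := integral_nonneg hF20
  have hN2 : ∫⁻ z, w z * ENNReal.ofReal (Complex.normSq (f z.1)) ∂mu = ENNReal.ofReal N := by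
    rw [hN1, ofReal_integral_eq_lintegral_ofReal hint (Filter.Eventually.of_forall hF20)]
  -- positivity of the norm
  have hNpos : 0 < N := by
    by_contra hcon
    have hN00 : N = 0 := le_antisymm (not_lt.mp hcon) hN0
    have h1 := unfold_lintegral (G := arith O hO) hw hwc
      (Φ := fun z : X => ENNReal.ofReal (f1 z.1 ^ 2 + f2 z.1 ^ 2))
      (ENNReal.measurable_ofReal.comp ((hc1.pow 2).add (hc2.pow 2)).measurable)
    have h2 : ∫⁻ z, w z * ∑' γ : arith O hO,
        ENNReal.ofReal (f1 (γ • z : X).1 ^ 2 + f2 (γ • z : X).1 ^ 2) ∂mu = 0 := by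
      have h3 : ∀ z : X, ∀ γ : arith O hO,
          ENNReal.ofReal (f1 (γ • z : X).1 ^ 2 + f2 (γ • z : X).1 ^ 2) =
            ENNReal.ofReal (f1 z.1 ^ 2 + f2 z.1 ^ 2) := by
        intro z γ
        have h4 : (γ • z : X).1 = act (mat γ.1) z.1 := rfl
        rw [h4, hf1i γ z.1 z.2, hf2i γ z.1 z.2]
      simp only [h3]
      have h5 : ∫⁻ z, w z * ENNReal.ofReal (Complex.normSq (f z.1)) ∂mu = 0 := by
        rw [hN2, hN00, ENNReal.ofReal_zero]
      simp only [hnsq] at h5
      have hm5 : Measurable fun z : X => w z * ENNReal.ofReal (f1 z.1 ^ 2 + f2 z.1 ^ 2) :=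
        hw.mul (ENNReal.measurable_ofReal.comp ((hc1.pow 2).add (hc2.pow 2)).measurable)
      rw [lintegral_eq_zero_iff hm5] at h5
      refine (lintegral_congr_ae ?_).trans lintegral_zero
      filter_upwards [h5] with z hz
      simp only [Pi.zero_apply, mul_eq_zero] at hz ⊢
      rcases hz with hz | hz
      · exact Or.inl hz
      · right
        rw [hz]
        simp
    rw [h2] at h1
    have h6 : ∫⁻ z : X, ENNReal.ofReal (f1 z.1 ^ 2 + f2 z.1 ^ 2) ∂mu = 0 := by
      rcases mul_eq_zero.mp h1 with h | h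
      · exact absurd h hc0
      · exact h
    have hF2c : Continuous fun z : X => f1 z.1 ^ 2 + f2 z.1 ^ 2 := (hc1.pow 2).add (hc2.pow 2)
    have h7 : (fun z : X => f1 z.1 ^ 2 + f2 z.1 ^ 2) =ᵐ[mu] fun _ => 0 := by
      have hm6 : Measurable fun z : X => ENNReal.ofReal (f1 z.1 ^ 2 + f2 z.1 ^ 2) :=
        ENNReal.measurable_ofReal.comp hF2c.measurable
      rw [lintegral_eq_zero_iff hm6] at h6
      filter_upwards [h6] with z hz
      have h8 : f1 z.1 ^ 2 + f2 z.1 ^ 2 ≤ 0 := ENNReal.ofReal_eq_zero.mp hz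
      exact le_antisymm h8 (by positivity)
    have h8 : (fun z : X => f1 z.1 ^ 2 + f2 z.1 ^ 2) = fun _ => 0 :=
      (Continuous.ae_eq_iff_eq mu hF2c continuous_const).mp h7
    obtain ⟨z0, hz0, hfz0⟩ := hne
    have h9 := congrFun h8 (⟨z0, hz0⟩ : X)
    simp only at h9
    rw [← hnsq, Complex.normSq_eq_zero] at h9
    exact hfz0 h9
  obtain ⟨C, hC⟩ := exists_bound_deriv_qR
  have hC0 : 0 ≤ C := le_trans (by positivity) (hC 1 one_pos 0)
  set η : ℕ → ℂ × ℂ → ℝ := fun n => cutH O hO (qR ((n : ℝ) + 3)) with hη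
  have hR3 : ∀ n : ℕ, (3 : ℝ) ≤ (n : ℝ) + 3 := fun n => by
    have := Nat.cast_nonneg (α := ℝ) n
    linarith
  have hR0 : ∀ n : ℕ, (0 : ℝ) < (n : ℝ) + 3 := fun n => by linarith [hR3 n]
  have hηc : ∀ n, Continuous fun z : X => η n z.1 := fun n =>
    continuous_restrict (contDiffOn_cutH (hO := hO) hO1 (hR3 n)
      (fun u hu => qR_eq_one (hR0 n) hu) (contDiff_qR _)).continuousOn
  have hηm : ∀ n z, η n z ∈ Set.Icc (0 : ℝ) 1 := fun n z =>
    cutH_mem (hO := hO) (qR ((n : ℝ) + 3)) (qR_mem _) z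
  have hη2 : ∀ n z, η n z ^ 2 ≤ 1 := fun n z => by
    have := hηm n z
    exact pow_le_one₀ this.1 this.2
  have hev : ∀ z : X, ∀ᶠ n : ℕ in Filter.atTop, η n z.1 = 1 ∧ z.1 ∉ TR O hO ((n : ℝ) + 3) := by
    intro z
    obtain ⟨M, hM⟩ := height_bounded (hO := hO) hO1 z.2
    filter_upwards [Filter.eventually_ge_atTop (Nat.ceil M)] with n hn
    have hn' : M ≤ (n : ℝ) + 3 := by
      have h1 : M ≤ (Nat.ceil M : ℝ) := Nat.le_ceil M
      have h2 : ((Nat.ceil M : ℕ) : ℝ) ≤ n := by exact_mod_cast hn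
      linarith
    refine ⟨cutH_eq_one hO1 (fun u hu => qR_eq_one (hR0 n) hu) z.2
      fun γ => ((hM γ).le.trans hn'), ?_⟩
    rintro ⟨γ, hγ⟩
    have := hM γ
    linarith
  set F : X → ℝ := fun z => (w z).toReal * (f1 z.1 ^ 2 + f2 z.1 ^ 2) with hF
  set E : X → ℝ := fun z => normL z.1 (fderiv ℝ f1 z.1) + normL z.1 (fderiv ℝ f2 z.1) with hE
  have hf11 : ContDiffOn ℝ 1 f1 U := hf1d.of_le (by norm_num)
  have hf21 : ContDiffOn ℝ 1 f2 U := hf2d.of_le (by norm_num)
  have hEc : Continuous E := continuous_restrict (φ := fun z => normL z (fderiv ℝ f1 z) +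
    normL z (fderiv ℝ f2 z)) ((continuousOn_normL hf11).add (continuousOn_normL hf21))
  have hE0 : ∀ z, 0 ≤ E z := fun z => add_nonneg (normL_nonneg z.2.le _) (normL_nonneg z.2.le _)
  set D : ℕ → ℝ := fun n => ∫ z : X, (w z).toReal * (η n z.1 ^ 2 * E z) ∂mu with hD
  set A : ℕ → ℝ := fun n => ∫ z : X, (w z).toReal * (η n z.1 ^ 2 * (f1 z.1 ^ 2 + f2 z.1 ^ 2)) ∂mu
    with hA
  set δ : ℕ → ℝ := fun n => ∫ z : X, (Subtype.val ⁻¹' (TR O hO ((n : ℝ) + 3)) : Set X).indicator
      F z ∂mu with hδ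
  have hfix : ∀ n : ℕ, ∀ ε : ℝ, 0 < ε → Integrable (fun z : X => (w z).toReal *
      (η n z.1 ^ 2 * E z)) mu ∧ D n ≤ lam.re * A n + (ε * D n + C / ε * δ n) ∧
      |lam.im| * A n ≤ ε * D n + C / ε * δ n := fun n ε hε =>
    green_fixed (hO := hO) hOd hO1 hcov hw hc hwc hf1d hf2d hf1i hf2i hl1 hl2 hint hC (hR3 n) hε
  -- limits
  have hAlim : Filter.Tendsto A Filter.atTop (𝓝 N) := by
    refine tendsto_integral_of_dominated_convergence F (fun n => ?_) hint
      (fun n => Filter.Eventually.of_forall fun z => ?_) (Filter.Eventually.of_forall fun z => ?_)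
    · exact (hw.ennreal_toReal.mul (((hηc n).pow 2).mul
        ((hc1.pow 2).add (hc2.pow 2))).measurable).aestronglyMeasurable
    · have h1 : 0 ≤ (w z).toReal := ENNReal.toReal_nonneg
      rw [Real.norm_eq_abs, abs_of_nonneg (by positivity)]
      have h2 := hη2 n z.1
      have h3 : 0 ≤ f1 z.1 ^ 2 + f2 z.1 ^ 2 := by positivity
      simp only [hF]
      gcongr
      nlinarith
    · refine tendsto_const_nhds.congr' ?_
      filter_upwards [hev z] with n hn
      rw [hn.1]
      simp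
  have hδlim : Filter.Tendsto δ Filter.atTop (𝓝 0) := by
    have h0 : (0 : ℝ) = ∫ _ : X, (0 : ℝ) ∂mu := by simp
    rw [h0]
    refine tendsto_integral_of_dominated_convergence F (fun n => ?_) hint
      (fun n => Filter.Eventually.of_forall fun z => ?_) (Filter.Eventually.of_forall fun z => ?_)
    · exact (hF2m.indicator (measurableSet_TR hOd _)).aestronglyMeasurable
    · rw [Real.norm_eq_abs]
      by_cases hz : z ∈ (Subtype.val ⁻¹' (TR O hO ((n : ℝ) + 3)) : Set X)
      · rw [Set.indicator_of_mem hz, abs_of_nonneg (hF20 z)]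
      · rw [Set.indicator_of_notMem hz, abs_zero]
        exact hF20 z
    · refine tendsto_const_nhds.congr' ?_
      filter_upwards [hev z] with n hn
      rw [Set.indicator_of_notMem]
      exact hn.2
  have hδN : ∀ n, δ n ≤ N := by
    intro n
    refine integral_mono_of_nonneg (Filter.Eventually.of_forall fun z => ?_) hint
      (Filter.Eventually.of_forall fun z => ?_)
    · exact Set.indicator_nonneg (fun z _ => hF20 z) z
    · exact Set.indicator_le_self' (fun z _ => hF20 z) z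
  have hδ0 : ∀ n, 0 ≤ δ n := fun n =>
    integral_nonneg fun z => Set.indicator_nonneg (fun z _ => hF20 z) z
  have hA0 : ∀ n, 0 ≤ A n := fun n => integral_nonneg fun z =>
    mul_nonneg ENNReal.toReal_nonneg (by positivity)
  have hAN : ∀ n, A n ≤ N := by
    intro n
    refine integral_mono_of_nonneg (Filter.Eventually.of_forall fun z =>
      mul_nonneg ENNReal.toReal_nonneg (by positivity)) hint
      (Filter.Eventually.of_forall fun z => ?_)
    have h1 : 0 ≤ (w z).toReal := ENNReal.toReal_nonneg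
    have h2 := hη2 n z.1
    have h3 : 0 ≤ f1 z.1 ^ 2 + f2 z.1 ^ 2 := by positivity
    simp only
    gcongr
    nlinarith
  have hD0 : ∀ n, 0 ≤ D n := fun n => integral_nonneg fun z =>
    mul_nonneg ENNReal.toReal_nonneg (mul_nonneg (sq_nonneg _) (hE0 z))
  -- uniform bound
  set M0 := 2 * |lam.re| * N + 4 * C * N with hM0
  have hDM : ∀ n, D n ≤ M0 := by
    intro n
    have h1 := (hfix n (1 / 2) (by norm_num)).2.1
    have h2 : lam.re * A n ≤ |lam.re| * N := by
      calc lam.re * A n ≤ |lam.re| * A n := mul_le_mul_of_nonneg_right (le_abs_self _) (hA0 n)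
        _ ≤ |lam.re| * N := mul_le_mul_of_nonneg_left (hAN n) (abs_nonneg _)
    have h3 : C / (1 / 2) * δ n ≤ 2 * C * N := by
      have : C / (1 / 2) = 2 * C := by ring
      rw [this]
      exact mul_le_mul_of_nonneg_left (hδN n) (by positivity)
    rw [hM0]
    linarith
  have hM00 : 0 ≤ M0 := by positivity
  constructor
  · -- the eigenvalue is real
    by_contra him
    have hb : 0 < |lam.im| := abs_pos.mpr him
    have hbN : 0 < |lam.im| * N := mul_pos hb hNpos
    set ε := |lam.im| * N / (2 * (M0 + 1)) with hε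
    have hε0 : 0 < ε := by positivity
    have h1 : ∀ n, |lam.im| * A n ≤ ε * M0 + C / ε * δ n := by
      intro n
      have h2 := (hfix n ε hε0).2.2
      have h3 : ε * D n ≤ ε * M0 := mul_le_mul_of_nonneg_left (hDM n) hε0.le
      linarith
    have h4 : |lam.im| * N ≤ ε * M0 + C / ε * 0 :=
      le_of_tendsto_of_tendsto' (hAlim.const_mul _)
        (tendsto_const_nhds.add (hδlim.const_mul _)) h1
    have h5 : ε * M0 < |lam.im| * N := by
      rw [hε, div_mul_eq_mul_div, div_lt_iff₀ (by positivity)]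
      nlinarith
    linarith
  · -- the energy bound
    have hV : ∫⁻ z, w z * ENNReal.ofReal (energy f1 z.1 + energy f2 z.1) ∂mu =
        ∫⁻ z, ENNReal.ofReal ((w z).toReal * E z) ∂mu :=
      lintegral_congr_ae (hconv E hE0)
    rw [hV, hN2, ← ENNReal.ofReal_mul' hN0]
    have hFatou : ∀ ε : ℝ, 0 < ε → ε < 1 →
        ∫⁻ z, ENNReal.ofReal ((w z).toReal * E z) ∂mu ≤
          ENNReal.ofReal (lam.re * N / (1 - ε)) := by
      intro ε hε0 hε1
      have h1ε : 0 < 1 - ε := by linarith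
      have h1 : ∀ n, D n ≤ (lam.re * A n + C / ε * δ n) / (1 - ε) := by
        intro n
        have h2 := (hfix n ε hε0).2.1
        rw [le_div_iff₀ h1ε]
        linarith
      have h3 : ∀ z : X, ENNReal.ofReal ((w z).toReal * E z) ≤
          Filter.liminf (fun n => ENNReal.ofReal ((w z).toReal * (η n z.1 ^ 2 * E z)))
            Filter.atTop := by
        intro z
        have h4 : Filter.Tendsto (fun n => ENNReal.ofReal ((w z).toReal * (η n z.1 ^ 2 * E z)))
            Filter.atTop (𝓝 (ENNReal.ofReal ((w z).toReal * E z))) := by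
          refine tendsto_const_nhds.congr' ?_
          filter_upwards [hev z] with n hn
          rw [hn.1]
          simp
        rw [h4.liminf_eq]
      calc ∫⁻ z, ENNReal.ofReal ((w z).toReal * E z) ∂mu
          ≤ ∫⁻ z, Filter.liminf (fun n => ENNReal.ofReal ((w z).toReal * (η n z.1 ^ 2 * E z)))
            Filter.atTop ∂mu := lintegral_mono h3
        _ ≤ Filter.liminf (fun n => ∫⁻ z, ENNReal.ofReal ((w z).toReal * (η n z.1 ^ 2 * E z)) ∂mu)
            Filter.atTop := by
            refine lintegral_liminf_le fun n => ?_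
            exact ENNReal.measurable_ofReal.comp (hw.ennreal_toReal.mul
              (((hηc n).pow 2).mul hEc).measurable)
        _ = Filter.liminf (fun n => ENNReal.ofReal (D n)) Filter.atTop := by
            congr 1
            funext n
            rw [hD]
            simp only
            rw [ofReal_integral_eq_lintegral_ofReal (hfix n 1 one_pos).1
              (Filter.Eventually.of_forall fun z => mul_nonneg ENNReal.toReal_nonneg
                (mul_nonneg (sq_nonneg _) (hE0 z)))]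
        _ ≤ Filter.liminf (fun n => ENNReal.ofReal ((lam.re * A n + C / ε * δ n) / (1 - ε)))
            Filter.atTop :=
            Filter.liminf_le_liminf (Filter.Eventually.of_forall fun n =>
              ENNReal.ofReal_le_ofReal (h1 n))
        _ = ENNReal.ofReal ((lam.re * N + C / ε * 0) / (1 - ε)) := by
            apply Filter.Tendsto.liminf_eq
            exact (ENNReal.continuous_ofReal.tendsto _).comp
              (((hAlim.const_mul _).add (hδlim.const_mul _)).div_const _)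
        _ = ENNReal.ofReal (lam.re * N / (1 - ε)) := by rw [mul_zero, add_zero]
    have hlim : Filter.Tendsto (fun ε : ℝ => ENNReal.ofReal (lam.re * N / (1 - ε)))
        (𝓝[>] 0) (𝓝 (ENNReal.ofReal (lam.re * N / (1 - 0)))) := by
      refine (ENNReal.continuous_ofReal.tendsto _).comp ?_
      refine Filter.Tendsto.mono_left ?_ nhdsWithin_le_nhds
      refine Filter.Tendsto.div tendsto_const_nhds ?_ (by norm_num)
      exact (continuous_const.sub continuous_id).tendsto 0
    rw [sub_zero, div_one] at hlim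
    refine ge_of_tendsto hlim ?_
    filter_upwards [Ioo_mem_nhdsGT (show (0 : ℝ) < 1 by norm_num)] with ε hε
    exact hFatou ε hε.1 hε.2

end group

end

end Pool.Agent.Lib.H56.Picard
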