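import Pool.Agent.Lib.H56.Picard.Deriv

/-!
# The energy density and its invariance
-/

namespace Pool.Agent.Lib.H56.Picard

open Matrix MeasureTheory

noncomputable section

/-- Squared norm, for the metric `4 u⁻² (|dz₁ + \bar z₂ dz₂|² + u |dz₂|²)` at the point `z`, of the
real covector `L`. -/
def normL (z : ℂ × ℂ) (L : ℂ × ℂ →L[ℝ] ℝ) : ℝ :=
  height z ^ 2 * (L (1 / 2, 0) ^ 2 + L (Complex.I / 2, 0) ^ 2) +
    height z / 4 * (L (-star z.2, 1) ^ 2 + L (-(Complex.I * star z.2), Complex.I) ^ 2)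

/-- The energy density `|∇f|²` of a real function on the Siegel domain. -/
def energy (f : ℂ × ℂ → ℝ) (z : ℂ × ℂ) : ℝ := normL z (fderiv ℝ f z)

/-- first complex component of a real covector. -/
def cov1 (L : ℂ × ℂ →L[ℝ] ℝ) : ℂ := ⟨L (1, 0) / 2, -(L (Complex.I, 0) / 2)⟩

/-- second complex component of a real covector. -/
def cov2 (L : ℂ × ℂ →L[ℝ] ℝ) : ℂ := ⟨L (0, 1) / 2, -(L (0, Complex.I) / 2)⟩

lemma apply_eq_cov (L : ℂ × ℂ →L[ℝ] ℝ) (h : ℂ × ℂ) :
    L h = 2 * (cov1 L * h.1 + cov2 L * h.2).re := by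
  have hh : h = h.1.re • ((1 : ℂ), (0 : ℂ)) + h.1.im • (Complex.I, (0 : ℂ)) +
      h.2.re • ((0 : ℂ), (1 : ℂ)) + h.2.im • ((0 : ℂ), Complex.I) := by
    ext <;> simp
  conv_lhs => rw [hh]
  simp only [map_add, map_smul, smul_eq_mul, cov1, cov2, Complex.add_re, Complex.mul_re]
  ring

lemma normL_eq (z : ℂ × ℂ) (L : ℂ × ℂ →L[ℝ] ℝ) :
    normL z L = height z ^ 2 * Complex.normSq (cov1 L) +
      height z * Complex.normSq (cov2 L - star z.2 * cov1 L) := by
  unfold normL
  rw [apply_eq_cov L (1 / 2, 0), apply_eq_cov L (Complex.I / 2, 0), apply_eq_cov L (-star z.2, 1),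
    apply_eq_cov L (-(Complex.I * star z.2), Complex.I)]
  simp only [Complex.normSq_apply, Complex.star_def]
  simp
  ring

/-- dual Hermitian form on row vectors. -/
def hd (P : Fin 3 → ℂ) : ℂ := P ⬝ᵥ (J *ᵥ star P)

lemma hd_apply (P : Fin 3 → ℂ) :
    hd P = P 0 * star (P 2) + P 1 * star (P 1) + P 2 * star (P 0) := by
  simp [hd, J, dotProduct, Matrix.mulVec, Fin.sum_univ_three]

lemma hd_vecMul {g : Matrix (Fin 3) (Fin 3) ℂ} (hg : g * J * gᴴ = J) (P : Fin 3 → ℂ) :
    hd (P ᵥ* g) = hd P := by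
  unfold hd
  rw [star_vecMul, ← dotProduct_mulVec, mulVec_mulVec, mulVec_mulVec, hg]

lemma hd_smul (c : ℂ) (P : Fin 3 → ℂ) : hd (c • P) = (Complex.normSq c : ℂ) * hd P := by
  simp only [hd_apply, Pi.smul_apply, smul_eq_mul, star_mul']
  rw [Complex.normSq_eq_conj_mul_self]
  simp only [Complex.star_def]
  ring

/-- The covector on `ℂ³` annihilating `lift w`. -/
def covRow (w : ℂ × ℂ) (L : ℂ × ℂ →L[ℝ] ℝ) : Fin 3 → ℂ :=
  ![cov1 L, cov2 L, -(cov1 L * w.1 + cov2 L * w.2)]

lemma normL_eq_hd (z : ℂ × ℂ) (L : ℂ × ℂ →L[ℝ] ℝ) :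
    ((normL z L : ℝ) : ℂ) = height z * hd (covRow z L) := by
  rw [normL_eq, hd_apply, sq (height z)]
  simp only [covRow, height, Matrix.cons_val_zero, Matrix.cons_val_one, Matrix.cons_val]
  generalize cov1 L = p
  generalize cov2 L = q
  apply Complex.ext
  · simp [Complex.normSq_apply]
    ring
  · simp [Complex.normSq_apply]
    right
    ring

lemma unitary_right (g : SU21) : mat g * J * (mat g)ᴴ = J := by
  have h1 := mat_unitary g⁻¹
  rw [mat_inv] at h1
  have h2 : (J * (mat g)ᴴ * J)ᴴ = J * mat g * J := by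
    rw [conjTranspose_mul, conjTranspose_mul, J_conjTranspose, conjTranspose_conjTranspose,
      Matrix.mul_assoc]
  rw [h2] at h1
  calc mat g * J * (mat g)ᴴ
      = J * (J * mat g * J * J * (J * (mat g)ᴴ * J)) * J := by
        simp only [Matrix.mul_assoc]
        rw [← Matrix.mul_assoc J J (mat g * _), J_mul_J, Matrix.one_mul]
        rw [← Matrix.mul_assoc J J (J * _), J_mul_J, Matrix.one_mul]
        rw [Matrix.mul_one]
    _ = J * J * J := by rw [h1]
    _ = J := by rw [J_mul_J, Matrix.one_mul]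

lemma cov1_comp (g : Matrix (Fin 3) (Fin 3) ℂ) (z : ℂ × ℂ) (L : ℂ × ℂ →L[ℝ] ℝ) :
    cov1 (L.comp ((dact g z).restrictScalars ℝ)) =
      (jf g z)⁻¹ * (covRow (act g z) L ᵥ* g) 0 := by
  have h : ∀ h : ℂ × ℂ, (L.comp ((dact g z).restrictScalars ℝ)) h =
      2 * ((jf g z)⁻¹ * ((covRow (act g z) L ᵥ* g) 0 * h.1 +
        (covRow (act g z) L ᵥ* g) 1 * h.2)).re := by
    intro h
    rw [ContinuousLinearMap.comp_apply, ContinuousLinearMap.coe_restrictScalars', dact_apply,
      apply_eq_cov]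
    congr 2
    simp [covRow, Matrix.vecMul, dotProduct, Fin.sum_univ_three, lin_apply]
    ring
  unfold cov1
  rw [h, h]
  apply Complex.ext
  · simp
  · simp [Complex.mul_re, Complex.mul_im]
    ring

lemma cov2_comp (g : Matrix (Fin 3) (Fin 3) ℂ) (z : ℂ × ℂ) (L : ℂ × ℂ →L[ℝ] ℝ) :
    cov2 (L.comp ((dact g z).restrictScalars ℝ)) =
      (jf g z)⁻¹ * (covRow (act g z) L ᵥ* g) 1 := by
  have h : ∀ h : ℂ × ℂ, (L.comp ((dact g z).restrictScalars ℝ)) h =
      2 * ((jf g z)⁻¹ * ((covRow (act g z) L ᵥ* g) 0 * h.1 +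
        (covRow (act g z) L ᵥ* g) 1 * h.2)).re := by
    intro h
    rw [ContinuousLinearMap.comp_apply, ContinuousLinearMap.coe_restrictScalars', dact_apply,
      apply_eq_cov]
    congr 2
    simp [covRow, Matrix.vecMul, dotProduct, Fin.sum_univ_three, lin_apply]
    ring
  unfold cov2
  rw [h, h]
  apply Complex.ext
  · simp
  · simp [Complex.mul_re, Complex.mul_im]
    ring

lemma covRow_comp (g : SU21) {z : ℂ × ℂ} (hz : 0 < height z) (L : ℂ × ℂ →L[ℝ] ℝ) :
    covRow z (L.comp ((dact (mat g) z).restrictScalars ℝ)) =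
      (jf (mat g) z)⁻¹ • (covRow (act (mat g) z) L ᵥ* mat g) := by
  have hj := jf_ne_zero (mat_unitary g) hz
  have h0 : covRow (act (mat g) z) L ⬝ᵥ (mat g *ᵥ lift z) = 0 := by
    rw [mulVec_lift hj, dotProduct_smul]
    simp [covRow, lift, dotProduct, Fin.sum_univ_three]
  rw [dotProduct_mulVec] at h0
  have h1 : (covRow (act (mat g) z) L ᵥ* mat g) 2 =
      -((covRow (act (mat g) z) L ᵥ* mat g) 0 * z.1 +
        (covRow (act (mat g) z) L ᵥ* mat g) 1 * z.2) := by
    simp only [dotProduct, Fin.sum_univ_three, lift, Matrix.cons_val_zero, Matrix.cons_val_one,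
      Matrix.cons_val] at h0
    linear_combination h0
  ext i
  fin_cases i
  · simp [covRow, cov1_comp]
  · simp [covRow, cov2_comp]
  · simp only [covRow, cov1_comp, cov2_comp, Pi.smul_apply, smul_eq_mul]
    simp only [covRow] at h1
    simp only [Fin.reduceFinMk, Matrix.cons_val] at h1 ⊢
    rw [h1]
    ring

/-- Invariance of the norm of covectors. -/
lemma normL_comp (g : SU21) {z : ℂ × ℂ} (hz : 0 < height z) (L : ℂ × ℂ →L[ℝ] ℝ) :
    normL z (L.comp ((dact (mat g) z).restrictScalars ℝ)) = normL (act (mat g) z) L := by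
  have hj := jf_ne_zero (mat_unitary g) hz
  have h1 := normL_eq_hd z (L.comp ((dact (mat g) z).restrictScalars ℝ))
  rw [covRow_comp g hz, hd_smul, hd_vecMul (unitary_right g)] at h1
  have h2 := normL_eq_hd (act (mat g) z) L
  rw [height_act (mat_unitary g) hz] at h2
  have h3 : ((normL z (L.comp ((dact (mat g) z).restrictScalars ℝ)) : ℝ) : ℂ) =
      ((normL (act (mat g) z) L : ℝ) : ℂ) := by
    rw [h1, h2, map_inv₀]
    have hn : (Complex.normSq (jf (mat g) z) : ℂ) ≠ 0 := by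
      exact_mod_cast (Complex.normSq_pos.mpr hj).ne'
    push_cast
    field_simp
  exact_mod_cast h3

lemma energy_act (g : SU21) {z : ℂ × ℂ} (hz : 0 < height z) {f : ℂ × ℂ → ℝ}
    (hf : DifferentiableAt ℝ f (act (mat g) z))
    (hinv : ∀ᶠ w in nhds z, f (act (mat g) w) = f w) :
    energy f (act (mat g) z) = energy f z := by
  have hj := jf_ne_zero (mat_unitary g) hz
  have h1 : HasFDerivAt (fun w => f (act (mat g) w))
      ((fderiv ℝ f (act (mat g) z)).comp ((dact (mat g) z).restrictScalars ℝ)) z :=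
    hf.hasFDerivAt.comp z ((hasFDerivAt_act hj).restrictScalars ℝ)
  have h2 : fderiv ℝ f z =
      (fderiv ℝ f (act (mat g) z)).comp ((dact (mat g) z).restrictScalars ℝ) := by
    rw [← h1.fderiv]
    exact (Filter.EventuallyEq.fderiv_eq hinv).symm
  unfold energy
  rw [h2, normL_comp g hz]

end

end Pool.Agent.Lib.H56.Picard
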