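import Pool.Agent.Lib.H56.Picard.Eisen
import Pool.Agent.Lib.H56.Picard.Energy

/-!
# Heisenberg translations, the stabiliser of the cusp
-/

namespace Pool.Agent.Lib.H56.Picard

open Matrix MeasureTheory

noncomputable section

/-- An element of `SU(2,1)` from a matrix. -/
def mkSU (M : Matrix (Fin 3) (Fin 3) ℂ) (h : Mᴴ * J * M = J) (hd : M.det = 1) : SU21 :=
  ⟨⟨M, J * Mᴴ * J, by
      rw [mul_eq_one_comm, Matrix.mul_assoc, Matrix.mul_assoc, ← Matrix.mul_assoc _ J, h, J_mul_J],
    by rw [Matrix.mul_assoc, Matrix.mul_assoc, ← Matrix.mul_assoc _ J, h, J_mul_J]⟩, h, hd⟩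

lemma mat_mkSU (M : Matrix (Fin 3) (Fin 3) ℂ) (h : Mᴴ * J * M = J) (hd : M.det = 1) :
    mat (mkSU M h hd) = M := rfl

/-- the Heisenberg translation matrix -/
def TM (l w : ℂ) : Matrix (Fin 3) (Fin 3) ℂ := !![1, -star l, w; 0, 1, l; 0, 0, 1]

lemma TM_unitary {l w : ℂ} (h : 2 * w.re = -Complex.normSq l) : (TM l w)ᴴ * J * TM l w = J := by
  have h1 : star w + star l * l + w = 0 := by
    apply Complex.ext
    · rw [Complex.normSq_apply] at h
      simp; linarith
    · simp; ring
  ext i j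
  fin_cases i <;> fin_cases j <;>
    simp [TM, J, Matrix.mul_apply, Fin.sum_univ_three]
  simp only [Complex.star_def] at h1
  linear_combination h1

lemma TM_det (l w : ℂ) : (TM l w).det = 1 := by
  simp [TM, Matrix.det_fin_three]

/-- Heisenberg translations in `SU(2,1)`. -/
def T (l w : ℂ) (h : 2 * w.re = -Complex.normSq l) : SU21 := mkSU (TM l w) (TM_unitary h) (TM_det l w)

lemma mat_T {l w : ℂ} (h : 2 * w.re = -Complex.normSq l) : mat (T l w h) = TM l w := rfl

lemma T_mem {l w : ℂ} (h : 2 * w.re = -Complex.normSq l) (hl : l ∈ O) (hw : w ∈ O) :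
    T l w h ∈ Gam := by
  rw [mem_Gam]
  intro i j
  rw [mat_T]
  fin_cases i <;> fin_cases j <;> simp only [TM]
  · exact O.one_mem
  · exact O.neg_mem (star_mem_O l hl)
  · exact hw
  · exact O.zero_mem
  · exact O.one_mem
  · exact hl
  · exact O.zero_mem
  · exact O.zero_mem
  · exact O.one_mem

lemma act_TM (l w : ℂ) (z : ℂ × ℂ) : act (TM l w) z = (z.1 - star l * z.2 + w, z.2 + l) := by
  simp [act, jf, lift, TM, Matrix.mulVec, dotProduct, Fin.sum_univ_three]
  ring

/-- the involution `ζ ↦ -ζ` -/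
def sg : SU21 := mkSU !![-1, 0, 0; 0, 1, 0; 0, 0, -1]
  (by ext i j; fin_cases i <;> fin_cases j <;> simp [J, Matrix.mul_apply, Fin.sum_univ_three])
  (by simp [Matrix.det_fin_three])

lemma sg_mem : sg ∈ Gam := by
  rw [mem_Gam]
  intro i j
  fin_cases i <;> fin_cases j <;> simp [sg, mat_mkSU, O.one_mem, O.zero_mem, O.neg_mem O.one_mem]

lemma act_sg (z : ℂ × ℂ) : act (mat sg) z = (z.1, -z.2) := by
  simp [act, jf, lift, sg, mat_mkSU, Matrix.mulVec, dotProduct, Fin.sum_univ_three]
  ring

/-- the inversion -/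
def inv0 : SU21 := mkSU !![0, 0, 1; 0, -1, 0; 1, 0, 0]
  (by ext i j; fin_cases i <;> fin_cases j <;> simp [J, Matrix.mul_apply, Fin.sum_univ_three])
  (by simp [Matrix.det_fin_three])

lemma inv0_mem : inv0 ∈ Gam := by
  rw [mem_Gam]
  intro i j
  fin_cases i <;> fin_cases j <;> simp [inv0, mat_mkSU, O.one_mem, O.zero_mem, O.neg_mem O.one_mem]

lemma jf_inv0 (z : ℂ × ℂ) : jf (mat inv0) z = z.1 := by
  simp [jf_apply, inv0, mat_mkSU]

/-- the third row is null -/
lemma row_null (g : SU21) : mat g 2 0 * star (mat g 2 2) + mat g 2 1 * star (mat g 2 1) +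
    mat g 2 2 * star (mat g 2 0) = 0 := by
  have h := congrFun (congrFun (unitary_right g) 2) 2
  simp [J, Matrix.mul_apply, Fin.sum_univ_three] at h
  simp only [Complex.star_def]
  linear_combination h

/-- the scalar matrices `ν`, `ν³ = 1` -/
lemma jf_smul_mat (c : ℂ) (g : Matrix (Fin 3) (Fin 3) ℂ) (z : ℂ × ℂ) :
    jf (c • g) z = c * jf g z := by
  simp [jf_apply]; ring

/-- Elements with third row `(0, 0, ν)`: shape. -/
lemma upper (g : SU21) (hg : g ∈ Gam) (h0 : mat g 2 0 = 0) :
    mat g 2 1 = 0 ∧ mat g 1 0 = 0 ∧ Complex.normSq (mat g 2 2) = 1 ∧ mat g 0 0 = mat g 2 2 := by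
  have hn := row_null g
  rw [h0] at hn
  simp only [zero_mul, zero_add, star_zero, mul_zero, add_zero] at hn
  have h1 : mat g 2 1 = 0 := by
    have : Complex.normSq (mat g 2 1) = 0 := by
      have h2 : ((Complex.normSq (mat g 2 1) : ℝ) : ℂ) = 0 := by
        rw [Complex.normSq_eq_conj_mul_self, ← Complex.star_def]
        linear_combination hn
      exact_mod_cast h2
    exact Complex.normSq_eq_zero.mp this
  have hu := mat_unitary g
  have e00 := congrFun (congrFun hu 0) 0
  have e02 := congrFun (congrFun hu 0) 2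
  simp [J, Matrix.mul_apply, Fin.sum_univ_three, h0] at e00 e02
  have h2 : mat g 1 0 = 0 := e00
  rw [h2] at e02
  simp only [map_zero, zero_mul, zero_add] at e02
  -- e02 : conj (g 0 0) * g 2 2 = 1
  have hne0 : mat g 0 0 ≠ 0 := by
    intro h; rw [h] at e02; simp at e02
  have hne2 : mat g 2 2 ≠ 0 := by
    intro h; rw [h] at e02; simp at e02
  have n0 := one_le_normSq (hg 0 0) hne0
  have n2 := one_le_normSq (hg 2 2) hne2
  have hmul : Complex.normSq (mat g 0 0) * Complex.normSq (mat g 2 2) = 1 := by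
    have := congrArg Complex.normSq e02
    rwa [map_mul, Complex.normSq_conj, map_one] at this
  have hn2 : Complex.normSq (mat g 2 2) = 1 := by nlinarith
  refine ⟨h1, h2, hn2, ?_⟩
  have h3 : (starRingEnd ℂ) (mat g 2 2) * mat g 2 2 = 1 := by
    rw [← Complex.normSq_eq_conj_mul_self, hn2]; simp
  have h4 : (starRingEnd ℂ) (mat g 0 0) = (starRingEnd ℂ) (mat g 2 2) := by
    have : ((starRingEnd ℂ) (mat g 0 0) - (starRingEnd ℂ) (mat g 2 2)) * mat g 2 2 = 0 := by
      linear_combination e02 - h3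
    rcases mul_eq_zero.mp this with h | h
    · linear_combination h
    · exact absurd h hne2
  exact (starRingEnd ℂ).injective h4

/-- Elements with third row `(0, 0, ν)`, `ν³ = 1`, act as Heisenberg translations. -/
lemma unipotent (g : SU21) (hg : g ∈ Gam) (h0 : mat g 2 0 = 0) (hν : mat g 2 2 ^ 3 = 1) :
    ∃ l ∈ O, ∃ w ∈ O, 2 * w.re = -Complex.normSq l ∧
      ∀ z : ℂ × ℂ, act (mat g) z = (z.1 - star l * z.2 + w, z.2 + l) := by
  obtain ⟨h1, h10, hn2, h00⟩ := upper g hg h0
  set ν := mat g 2 2 with hνdef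
  have hν0 : ν ≠ 0 := by intro h; rw [h] at hν; simp at hν
  have h3 : (starRingEnd ℂ) ν * ν = 1 := by
    rw [← Complex.normSq_eq_conj_mul_self, hn2]; simp
  have hu := mat_unitary g
  have e12 := congrFun (congrFun hu 1) 2
  have e22 := congrFun (congrFun hu 2) 2
  simp [J, Matrix.mul_apply, Fin.sum_univ_three, h1] at e12 e22
  have hdet := g.2.2
  have hdet' : (mat g).det = 1 := hdet
  rw [Matrix.det_fin_three, h0, h1, h10, h00] at hdet'
  -- g 1 1 = ν
  have h11 : mat g 1 1 = ν := by
    have h4 : ν ^ 2 * mat g 1 1 = 1 := by rw [← hνdef] at hdet'; linear_combination hdet'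
    have : ν ^ 2 * (mat g 1 1 - ν) = 0 := by linear_combination h4 - hν
    rcases mul_eq_zero.mp this with h | h
    · exact absurd (pow_eq_zero_iff (two_ne_zero) |>.mp h) hν0
    · linear_combination h
  have hstar : (starRingEnd ℂ) ν ∈ O := star_mem_O ν (hg 2 2)
  refine ⟨(starRingEnd ℂ) ν * mat g 1 2, O.mul_mem hstar (hg 1 2),
    (starRingEnd ℂ) ν * mat g 0 2, O.mul_mem hstar (hg 0 2), ?_, ?_⟩
  · rw [map_mul, Complex.normSq_conj, hn2, one_mul]
    have h5 := congrArg Complex.re e22
    rw [← hνdef] at h5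
    rw [Complex.normSq_apply]
    simp at h5 ⊢
    nlinarith [h5]
  · intro z
    have hj : jf (mat g) z = ν := by rw [jf_apply, h0, h1]; simp [hνdef]
    have h01 : mat g 0 1 = -(ν * star ((starRingEnd ℂ) ν * mat g 1 2)) := by
      rw [h11] at e12
      have h6 := congrArg (starRingEnd ℂ) e12
      simp only [map_add, map_mul, Complex.conj_conj, map_zero] at h6
      rw [← hνdef] at h6
      simp only [Complex.star_def, map_mul, Complex.conj_conj]
      have : (starRingEnd ℂ) ν * (mat g 0 1 + ν * (ν * (starRingEnd ℂ) (mat g 1 2))) = 0 := by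
        linear_combination h6 + ν * (starRingEnd ℂ) (mat g 1 2) * h3
      rcases mul_eq_zero.mp this with h | h
      · exact absurd ((map_eq_zero _).mp h) hν0
      · linear_combination h
    have hinv : ν⁻¹ = (starRingEnd ℂ) ν := by
      field_simp
      linear_combination -h3
    unfold act
    rw [hj, mulVec_lift_apply, mulVec_lift_apply, h01, h11, h10, h00]
    ext1
    · simp only [div_eq_mul_inv, hinv]
      linear_combination (z.1 - star ((starRingEnd ℂ) ν * mat g 1 2) * z.2) * h3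
    · simp only [div_eq_mul_inv, hinv]
      linear_combination (z.2) * h3

end

end Pool.Agent.Lib.H56.Picard
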