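import Pool.Agent.Lib.H56.Picard.Count

/-!
# The Picard modular group as a group of transformations; unfolding
-/

namespace Pool.Agent.Lib.H56.Picard

open Matrix MeasureTheory
open scoped Pointwise ENNReal

noncomputable section

/-- The image of `SU(2,1;ℤ[ω])` in the group of transformations of `X`. -/
def picard : Subgroup (Equiv.Perm X) := Gam.map (MulAction.toPermHom SU21 X)

lemma mem_picard {p : Equiv.Perm X} : p ∈ picard ↔ ∃ g ∈ Gam, ∀ z : X, g • z = p z := by
  constructor
  · rintro ⟨g, hg, rfl⟩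
    exact ⟨g, hg, fun z => rfl⟩
  · rintro ⟨g, hg, h⟩
    exact ⟨g, hg, Equiv.ext h⟩

/-- the transformation attached to a group element -/
def toPic (g : SU21) (hg : g ∈ Gam) : picard :=
  ⟨MulAction.toPermHom SU21 X g, Subgroup.mem_map_of_mem _ hg⟩

lemma toPic_smul (g : SU21) (hg : g ∈ Gam) (z : X) : toPic g hg • z = g • z := rfl

lemma exists_lift (p : picard) : ∃ g ∈ Gam, ∀ z : X, p • z = g • z := by
  obtain ⟨g, hg, h⟩ := mem_picard.mp p.2
  exact ⟨g, hg, fun z => (h z).symm⟩

instance : Countable O := by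
  have : Function.Surjective (fun p : ℤ × ℤ => (⟨eis p.1 p.2, eis_mem _ _⟩ : O)) := by
    rintro ⟨x, a, b, rfl⟩
    exact ⟨(a, b), rfl⟩
  exact this.countable

instance countable_Gam : Countable Gam := by
  have : Function.Injective (fun (g : Gam) (i j : Fin 3) => (⟨mat g.1 i j, g.2 i j⟩ : O)) := by
    intro g h hgh
    apply Subtype.ext
    apply mat_injective
    ext i j
    exact congrArg Subtype.val (congrFun (congrFun hgh i) j)
  exact this.countable

instance : Countable picard := by
  have : Function.Surjective (fun g : Gam => toPic g.1 g.2) := by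
    rintro ⟨p, hp⟩
    obtain ⟨g, hg, rfl⟩ := hp
    exact ⟨⟨g, hg⟩, rfl⟩
  exact this.countable

instance : MeasurableConstSMul picard X where
  measurable_const_smul p := by
    obtain ⟨g, hg, h⟩ := exists_lift p
    have : (fun z : X => p • z) = fun z => g • z := funext h
    change Measurable (fun z : X => p • z)
    rw [this]
    exact measurable_const_smul g

instance : SMulInvariantMeasure picard X mu where
  measure_preimage_smul p s hs := by
    obtain ⟨g, hg, h⟩ := exists_lift p
    have : (fun z : X => p • z) ⁻¹' s = (fun z : X => g • z) ⁻¹' s := by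
      ext z; simp [h z]
    rw [this]
    exact measure_preimage_smul mu g s

/-- coordinates -/
def sc (z : ℂ × ℂ) : ℝ := z.2.re + z.2.im / √3
/-- coordinates -/
def tc (z : ℂ × ℂ) : ℝ := 2 * z.2.im / √3
/-- coordinates -/
def vc (z : ℂ × ℂ) : ℝ := 2 * z.1.im

/-- The cusp box. -/
def D1 : Set X := {z | 1 < height z.1 ∧ sc z.1 ∈ Set.Ico (0 : ℝ) 1 ∧ tc z.1 ∈ Set.Ico (0 : ℝ) 1 ∧
  vc z.1 ∈ Set.Ico (0 : ℝ) (2 * √3)}

lemma measurableSet_D1 : MeasurableSet D1 := by
  have h1 : Measurable fun z : X => height z.1 :=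
    continuous_height.measurable.comp measurable_subtype_coe
  have h2 : Measurable fun z : X => sc z.1 := by
    have : Continuous sc := by unfold sc; fun_prop
    exact this.measurable.comp measurable_subtype_coe
  have h3 : Measurable fun z : X => tc z.1 := by
    have : Continuous tc := by unfold tc; fun_prop
    exact this.measurable.comp measurable_subtype_coe
  have h4 : Measurable fun z : X => vc z.1 := by
    have : Continuous vc := by unfold vc; fun_prop
    exact this.measurable.comp measurable_subtype_coe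
  exact (h1 measurableSet_Ioi).inter ((h2 measurableSet_Ico).inter
    ((h3 measurableSet_Ico).inter (h4 measurableSet_Ico)))

lemma sc_eis_add (z : ℂ × ℂ) (a b : ℤ) (x : ℂ) : sc (x, z.2 + eis a b) = sc z + a := by
  have h3 := sqrt3_pos
  simp only [sc, Complex.add_re, Complex.add_im, eis_re, eis_im]
  field_simp
  ring

lemma tc_eis_add (z : ℂ × ℂ) (a b : ℤ) (x : ℂ) : tc (x, z.2 + eis a b) = tc z + b := by
  have h3 := sqrt3_pos
  simp only [tc, Complex.add_im, eis_im]
  field_simp

lemma int_eq_zero_of_Ico {x : ℝ} {a : ℤ} (h1 : x ∈ Set.Ico (0 : ℝ) 1)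
    (h2 : x + a ∈ Set.Ico (0 : ℝ) 1) : a = 0 := by
  obtain ⟨h3, h4⟩ := h1
  obtain ⟨h5, h6⟩ := h2
  have h7 : (a : ℝ) < 1 := by linarith
  have h8 : (-1 : ℝ) < a := by linarith
  have h9 : a < 1 := by exact_mod_cast h7
  have h10 : -1 < a := by exact_mod_cast h8
  omega

/-- A Heisenberg translation mapping a point of the box to the box is trivial. -/
lemma box_unique {l w : ℂ} (hl : l ∈ O) (hw : w ∈ O) (hlw : 2 * w.re = -Complex.normSq l)
    {z : X} (hz : z ∈ D1) {z' : X} (hz' : z' ∈ D1)
    (h : z'.1 = (z.1.1 - star l * z.1.2 + w, z.1.2 + l)) : l = 0 ∧ w = 0 := by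
  obtain ⟨a, b, rfl⟩ := hl
  obtain ⟨-, hs, ht, hv⟩ := hz
  obtain ⟨-, hs', ht', hv'⟩ := hz'
  rw [h, sc_eis_add] at hs'
  rw [h, tc_eis_add] at ht'
  have ha := int_eq_zero_of_Ico hs hs'
  have hb := int_eq_zero_of_Ico ht ht'
  subst ha hb
  have h0 : eis 0 0 = 0 := by simp [eis]
  rw [h0] at h hlw ⊢
  refine ⟨rfl, ?_⟩
  have hre : w.re = 0 := by simp at hlw; exact hlw
  obtain ⟨m, hm, hm6⟩ := re_zero hw hre
  rw [h] at hv'
  simp only [vc, star_zero, zero_mul, sub_zero, Complex.add_im, Set.mem_Ico] at hv hv'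
  have h3 := sqrt3_pos
  have hs3 := sq3
  have hwim : 2 * w.im = 2 * √3 * m := by
    have : √3 * (2 * w.im - 2 * √3 * m) = 0 := by linear_combination hm6 - 2 * m * hs3
    rcases mul_eq_zero.mp this with h5 | h5
    · exact absurd h5 h3.ne'
    · linarith
  have hm0 : m = 0 := by
    have h7 : (m : ℝ) < 1 := by
      by_contra hcon; push Not at hcon
      nlinarith [hv.1, hv'.2]
    have h8 : (-1 : ℝ) < m := by
      by_contra hcon; push Not at hcon
      nlinarith [hv.2, hv'.1]
    have h9 : m < 1 := by exact_mod_cast h7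
    have h10 : -1 < m := by exact_mod_cast h8
    omega
  rw [hm, hm0]; simp

/-- If two lifts have proportional third rows (with cube root of unity factor) and both map `z` to
the box then they give the same transformation. -/
lemma eq_of_rows {g h : SU21} (hg : g ∈ Gam) (hh : h ∈ Gam) {z : X} (h1 : g • z ∈ D1)
    (h2 : h • z ∈ D1) {ν : ℂ} (hν : ν ^ 3 = 1) (hrow : ∀ i, mat g 2 i = ν * mat h 2 i) :
    ∀ y : X, g • y = h • y := by
  have hrow' : ∀ i, mat (g * h⁻¹) 2 i = ν * (1 : Matrix (Fin 3) (Fin 3) ℂ) 2 i := by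
    intro i
    have e1 : mat (g * h⁻¹) 2 i = ν * (mat h * mat h⁻¹) 2 i := by
      rw [mat_mul, Matrix.mul_apply, Matrix.mul_apply, Finset.mul_sum]
      apply Finset.sum_congr rfl
      intro j _
      rw [hrow j]; ring
    rw [e1, ← mat_mul, mul_inv_cancel, mat_one]
  have h20 : mat (g * h⁻¹) 2 0 = 0 := by rw [hrow' 0]; simp
  have h22 : mat (g * h⁻¹) 2 2 = ν := by rw [hrow' 2]; simp
  obtain ⟨l, hl, w, hw, hlw, hact⟩ := unipotent (g * h⁻¹) (Gam.mul_mem hg (Gam.inv_mem hh)) h20
    (by rw [h22]; exact hν)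
  have hgz : g • z = (g * h⁻¹) • (h • z) := by rw [mul_smul, inv_smul_smul]
  have hb := box_unique hl hw hlw h2 h1 (by rw [hgz, smul_val, hact])
  intro y
  have hgy : g • y = (g * h⁻¹) • (h • y) := by rw [mul_smul, inv_smul_smul]
  rw [hgy]
  apply Subtype.ext
  rw [smul_val, hact, hb.1, hb.2]
  simp

/-- Number of group elements moving `z` to the box. -/
def NN (z : X) : ℝ≥0∞ := ∑' p : picard, D1.indicator 1 (p • z)

lemma card_label : Fintype.card (Option (Option (ZMod 2 × ZMod 2)) × Bool) = 12 := by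
  simp [Fintype.card_prod]

lemma NN_le_of_height {z : X} (hz : 1 < height z.1) : NN z ≤ 12 := by
  classical
  unfold NN
  rw [ENNReal.tsum_eq_iSup_sum]
  apply iSup_le
  intro s
  have h1 : ∑ p ∈ s, D1.indicator (1 : X → ℝ≥0∞) (p • z) =
      ((s.filter fun p => p • z ∈ D1).card : ℝ≥0∞) := by
    rw [Finset.card_filter]
    push_cast
    apply Finset.sum_congr rfl
    intro p _
    simp [Set.indicator_apply]
  rw [h1]
  have h2 : (s.filter fun p => p • z ∈ D1).card ≤ 12 := by
    rw [← card_label, ← Finset.card_univ]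
    apply Finset.card_le_card_of_injOn (fun p => label (exists_lift p).choose z.1)
      (fun _ _ => Finset.mem_coe.mpr (Finset.mem_univ _))
    intro p hp q hq hpq
    simp only [Finset.coe_filter, Set.mem_ofPred_eq] at hp hq
    obtain ⟨hg, hgp⟩ := (exists_lift p).choose_spec
    obtain ⟨hh, hhq⟩ := (exists_lift q).choose_spec
    simp only at hpq
    set g := (exists_lift p).choose
    set h := (exists_lift q).choose
    have hp2 : g • z ∈ D1 := by rw [← hgp]; exact hp.2
    have hq2 : h • z ∈ D1 := by rw [← hhq]; exact hq.2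
    obtain ⟨ν, hν, hrow⟩ := label_inj hg hh hz hp2.1 hq2.1 hpq
    have h3 := eq_of_rows hg hh hp2 hq2 hν hrow
    apply Subtype.ext
    apply Equiv.ext
    intro y
    change p • y = q • y
    rw [hgp, hhq, h3]
  exact_mod_cast h2

lemma NN_smul (q : picard) (z : X) : NN (q • z) = NN z := by
  unfold NN
  rw [← (Equiv.mulRight q).tsum_eq (fun p : picard => D1.indicator (1 : X → ℝ≥0∞) (p • z))]
  simp only [Equiv.coe_mulRight, mul_smul]

lemma NN_le (z : X) : NN z ≤ 12 := by
  by_cases h : ∃ p : picard, p • z ∈ D1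
  · obtain ⟨p, hp⟩ := h
    rw [← NN_smul p z]
    exact NN_le_of_height hp.1
  · push Not at h
    unfold NN
    have : ∀ p : picard, D1.indicator (1 : X → ℝ≥0∞) (p • z) = 0 := by
      intro p
      exact Set.indicator_of_notMem (h p) _
    simp [this]

/-- Every point can be moved to the box by a Heisenberg translation. -/
lemma exists_box (z : X) (hz : 1 < height z.1) : ∃ (l w : ℂ) (h : 2 * w.re = -Complex.normSq l),
    l ∈ O ∧ w ∈ O ∧ T l w h • z ∈ D1 := by
  have hl : eis (-⌊sc z.1⌋) (-⌊tc z.1⌋) ∈ O := eis_mem _ _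
  obtain ⟨w, hw, hlw, h1, h2⟩ := exists_w hl
    (-(2 * (z.1.1 - star (eis (-⌊sc z.1⌋) (-⌊tc z.1⌋)) * z.1.2).im))
  refine ⟨_, w, hlw, hl, hw, ?_, ?_, ?_, ?_⟩
  · rw [height_T]; exact hz
  · rw [smul_T_val, sc_eis_add]
    push_cast
    have h3 := Int.floor_le (sc z.1)
    have h4 := Int.lt_floor_add_one (sc z.1)
    constructor <;> linarith
  · rw [smul_T_val, tc_eis_add]
    push_cast
    have h3 := Int.floor_le (tc z.1)
    have h4 := Int.lt_floor_add_one (tc z.1)
    constructor <;> linarith
  · rw [smul_T_val, vc, Complex.add_im]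
    constructor <;> linarith

/-- two points of `X` used to separate transformations -/
def pt (x : ℝ) (hx : x ^ 2 < 2) : X := ⟨(-1, (x : ℂ)), by
  simp [height, Complex.normSq_apply]; nlinarith⟩

lemma two_le_NN {z : X} (hz : ∃ g ∈ Gam, 1 < height (g • z : X).1) : 2 ≤ NN z := by
  classical
  obtain ⟨g, hg, hgz⟩ := hz
  obtain ⟨l1, w1, h1, hl1, hw1, hb1⟩ := exists_box (g • z) hgz
  have hsz : height (sg • g • z : X).1 = height (g • z : X).1 := by
    rw [smul_val, act_sg]; simp [height]
  obtain ⟨l2, w2, h2, hl2, hw2, hb2⟩ := exists_box (sg • g • z) (by rw [hsz]; exact hgz)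
  have m1 : T l1 w1 h1 * g ∈ Gam := Gam.mul_mem (T_mem h1 hl1 hw1) hg
  have m2 : T l2 w2 h2 * (sg * g) ∈ Gam :=
    Gam.mul_mem (T_mem h2 hl2 hw2) (Gam.mul_mem sg_mem hg)
  have hne : toPic _ m1 ≠ toPic _ m2 := by
    intro heq
    have key : ∀ y : X, T l1 w1 h1 • y = T l2 w2 h2 • (sg • y) := by
      intro y
      have := congrArg (fun p : picard => p • (g⁻¹ • y)) heq
      simp only [toPic_smul, mul_smul, smul_inv_smul] at this
      exact this
    have k0 := congrArg (fun y : X => y.1.2) (key (pt 0 (by norm_num)))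
    have k1 := congrArg (fun y : X => y.1.2) (key (pt 1 (by norm_num)))
    simp only [smul_T_val, smul_val sg, act_sg, pt] at k0 k1
    simp at k0 k1
    rw [k0] at k1
    have : (2 : ℂ) = 0 := by linear_combination k1
    norm_num at this
  have e1 : D1.indicator (1 : X → ℝ≥0∞) (toPic _ m1 • z) = 1 := by
    rw [toPic_smul, mul_smul, Set.indicator_of_mem hb1]; rfl
  have e2 : D1.indicator (1 : X → ℝ≥0∞) (toPic _ m2 • z) = 1 := by
    rw [toPic_smul, mul_smul, mul_smul, Set.indicator_of_mem hb2]; rfl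
  have h3 := ENNReal.sum_le_tsum (f := fun p : picard => D1.indicator (1 : X → ℝ≥0∞) (p • z))
    {toPic _ m1, toPic _ m2}
  rw [Finset.sum_pair hne, e1, e2] at h3
  unfold NN
  refine le_trans (le_of_eq ?_) h3
  norm_num

/-- The horosphere of height one is a null set. -/
lemma mu_height_one : mu {z : X | height z.1 = 1} = 0 := by
  have hm : MeasurableSet {z : X | height z.1 = 1} :=
    (continuous_height.measurable.comp measurable_subtype_coe) (measurableSet_singleton 1)
  rw [mu_apply hm]
  have hsub : (Subtype.val '' {z : X | height z.1 = 1} : Set (ℂ × ℂ)) ⊆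
      {z : ℂ × ℂ | height z = 1} := by
    rintro _ ⟨z, hz, rfl⟩; exact hz
  have h0 : volume {z : ℂ × ℂ | height z = 1} = 0 := by
    have hms : MeasurableSet {z : ℂ × ℂ | height z = 1} :=
      continuous_height.measurable (measurableSet_singleton 1)
    rw [Measure.volume_eq_prod, Measure.measure_prod_null hms]
    refine Filter.Eventually.of_forall fun x => ?_
    have hsub2 : (Prod.mk x ⁻¹' {z : ℂ × ℂ | height z = 1} : Set ℂ) ⊆
        Metric.sphere 0 (√(-(2 * x.re) - 1)) := by
      intro y hy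
      simp only [height, Set.mem_preimage] at hy
      have hy' : -(2 * x.re) - Complex.normSq y = 1 := hy
      rw [mem_sphere_zero_iff_norm]
      have h5 : ‖y‖ ^ 2 = -(2 * x.re) - 1 := by
        rw [← Complex.normSq_eq_norm_sq]; linarith
      rw [← h5, Real.sqrt_sq (norm_nonneg _)]
    exact measure_mono_null hsub2 (Measure.addHaar_sphere _ _ _)
  exact setLIntegral_measure_zero _ _ (measure_mono_null hsub h0)

/-- Almost every point can be moved strictly above height one. -/
lemma ae_exists_height : ∀ᵐ z ∂mu, ∃ g ∈ Gam, 1 < height (g • z : X).1 := by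
  have hnull : mu (⋃ g : Gam, (fun z : X => g.1 • z) ⁻¹' {z : X | height z.1 = 1}) = 0 := by
    rw [measure_iUnion_null_iff]
    intro g
    rw [measure_preimage_smul_of_nullMeasurableSet]
    · exact mu_height_one
    · exact (((continuous_height.measurable.comp measurable_subtype_coe)
        (measurableSet_singleton 1))).nullMeasurableSet
  rw [ae_iff]
  apply measure_mono_null _ hnull
  intro z hz
  simp only [Set.mem_ofPred_eq] at hz
  push Not at hz
  obtain ⟨g, hg, h1⟩ := exists_height_ge_one z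
  have h2 := hz g hg
  exact Set.mem_iUnion.mpr ⟨⟨g, hg⟩, le_antisymm h2 h1⟩

/-- Unfolding. -/
lemma unfold_D1 {F : Set X} (hF : IsFundamentalDomain picard F mu) {φ : X → ℝ≥0∞}
    (hφ : Measurable φ) (hinv : ∀ (p : picard) (z : X), φ (p • z) = φ z) :
    ∫⁻ z in D1, φ z ∂mu = ∫⁻ z in F, NN z * φ z ∂mu := by
  rw [← lintegral_indicator measurableSet_D1, hF.lintegral_eq_tsum'' (D1.indicator φ)]
  rw [← lintegral_tsum]
  · apply lintegral_congr
    intro z
    unfold NN
    rw [← ENNReal.tsum_mul_right]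
    congr 1
    ext p
    by_cases h : p • z ∈ D1
    · simp [Set.indicator_of_mem h, hinv]
    · simp [Set.indicator_of_notMem h]
  · intro p
    exact ((hφ.indicator measurableSet_D1).comp (measurable_const_smul p)).aemeasurable

lemma measurable_NN : Measurable NN := by
  unfold NN
  apply Measurable.tsum
  intro p
  exact (measurable_one.indicator measurableSet_D1).comp (measurable_const_smul p)

lemma D1_le {F : Set X} (hF : IsFundamentalDomain picard F mu) {φ : X → ℝ≥0∞}
    (hφ : Measurable φ) (hinv : ∀ (p : picard) (z : X), φ (p • z) = φ z) :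
    ∫⁻ z in D1, φ z ∂mu ≤ 12 * ∫⁻ z in F, φ z ∂mu := by
  rw [unfold_D1 hF hφ hinv, ← lintegral_const_mul _ hφ]
  exact lintegral_mono fun z => mul_le_mul' (NN_le z) le_rfl

lemma le_D1 {F : Set X} (hF : IsFundamentalDomain picard F mu) {φ : X → ℝ≥0∞}
    (hφ : Measurable φ) (hinv : ∀ (p : picard) (z : X), φ (p • z) = φ z) :
    2 * ∫⁻ z in F, φ z ∂mu ≤ ∫⁻ z in D1, φ z ∂mu := by
  rw [unfold_D1 hF hφ hinv, ← lintegral_const_mul _ hφ]
  apply lintegral_mono_ae
  filter_upwards [ae_restrict_of_ae ae_exists_height] with z hz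
  exact mul_le_mul' (two_le_NN hz) le_rfl

end

end Pool.Agent.Lib.H56.Picard
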