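import Mathlib

/-!
# Cusp inequality in coordinates (chunk ANALYSIS, by helper66)

Wirtinger inequalities in the `v`, `s`, `t` variables and a weighted one dimensional
inequality in the `u` variable.
-/

open MeasureTheory Set Real intervalIntegral Function
open scoped ENNReal

namespace Pool.Agent.Lib.H56.Picard

/-- Wirtinger's inequality on `[0,P]`. -/
lemma wirtinger {P : ℝ} (hP : 0 < P) {f f' : ℝ → ℝ}
    (hf : ∀ x, HasDerivAt f (f' x) x) (hf' : Continuous f')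
    (hper : f P = f 0) (hmean : ∫ x in (0:ℝ)..P, f x = 0) :
    (2 * π / P) ^ 2 * ∫ x in (0:ℝ)..P, f x ^ 2 ≤ ∫ x in (0:ℝ)..P, f' x ^ 2 := by
  have hfc : Continuous f := continuous_iff_continuousAt.2 fun x => (hf x).continuousAt
  have hL : ∀ {g : ℝ → ℝ}, Continuous g →
      MemLp (fun x => (g x : ℂ)) 2 (volume.restrict (Ioc 0 P)) := by
    intro g hg
    have hgc : Continuous (fun x => (g x : ℂ)) := Complex.continuous_ofReal.comp hg
    obtain ⟨C, hC⟩ := (isCompact_Icc (a := (0:ℝ)) (b := P)).exists_bound_of_continuousOn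
      hgc.continuousOn
    exact MemLp.of_bound hgc.aestronglyMeasurable C
      ((ae_restrict_iff' measurableSet_Ioc).2
        (Filter.Eventually.of_forall fun x hx => hC x (Ioc_subset_Icc_self hx)))
  have h1 := hasSum_sq_fourierCoeffOn hP (hL hfc)
  have h2 := hasSum_sq_fourierCoeffOn hP (hL hf')
  have hle : ∀ n : ℤ, (2 * π / P) ^ 2 * ‖fourierCoeffOn hP (fun x => (f x : ℂ)) n‖ ^ 2 ≤
      ‖fourierCoeffOn hP (fun x => (f' x : ℂ)) n‖ ^ 2 := by
    intro n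
    rcases eq_or_ne n 0 with rfl | hn
    · have : fourierCoeffOn hP (fun x => (f x : ℂ)) 0 = 0 := by
        rw [fourierCoeffOn_eq_integral]
        simp only [neg_zero, fourier_zero, one_smul]
        rw [intervalIntegral.integral_ofReal, hmean]
        simp
      rw [this]; simp
    · have h3 := fourierCoeffOn_of_hasDerivAt hP (f := fun x => (f x : ℂ))
        (f' := fun x => (f' x : ℂ)) hn (fun x _ => (hf x).ofReal_comp)
        ((Complex.continuous_ofReal.comp hf').intervalIntegrable _ _)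
      rw [h3, hper]
      simp only [sub_self, mul_zero, zero_sub]
      rw [norm_mul, norm_neg, norm_mul, mul_pow, mul_pow]
      have e1 : ‖(1 / (-2 * (π:ℂ) * Complex.I * n) : ℂ)‖ = 1 / (2 * π * |(n:ℝ)|) := by
        simp [abs_of_pos Real.pi_pos]
      have hn1 : (1:ℝ) ≤ |(n:ℝ)| := by exact_mod_cast Int.one_le_abs hn
      have hpi := Real.pi_pos
      rw [e1]
      have e2 : ‖((P : ℂ) - ((0:ℝ):ℂ))‖ = P := by simp [abs_of_pos hP]
      rw [e2]
      set A := ‖fourierCoeffOn hP (fun x => (f' x : ℂ)) n‖ ^ 2 with hA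
      have hA0 : 0 ≤ A := by positivity
      have h4 : (2 * π / P) ^ 2 * ((1 / (2 * π * |(n:ℝ)|)) ^ 2 * (P ^ 2 * A)) =
          (1 / |(n:ℝ)|) ^ 2 * A := by
        have : |(n:ℝ)| ≠ 0 := by positivity
        field_simp
      rw [h4]
      have h5 : (1 / |(n:ℝ)|) ^ 2 ≤ 1 := by
        have : 1 / |(n:ℝ)| ≤ 1 := by
          rw [div_le_one (by positivity)]; exact hn1
        have h0 : 0 ≤ 1 / |(n:ℝ)| := by positivity
        nlinarith
      nlinarith
  have h6 := hasSum_le hle (h1.mul_left _) h2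
  simp only [Complex.norm_real, norm_eq_abs, sq_abs, sub_zero, smul_eq_mul] at h6
  have h7 : P * ((2 * π / P) ^ 2 * (P⁻¹ * ∫ x in (0:ℝ)..P, f x ^ 2)) ≤
      P * (P⁻¹ * ∫ x in (0:ℝ)..P, f' x ^ 2) := mul_le_mul_of_nonneg_left h6 hP.le
  have e3 : P * ((2 * π / P) ^ 2 * (P⁻¹ * ∫ x in (0:ℝ)..P, f x ^ 2)) =
      (2 * π / P) ^ 2 * ∫ x in (0:ℝ)..P, f x ^ 2 := by
    rw [← mul_assoc, mul_comm P, mul_assoc, ← mul_assoc P, mul_inv_cancel₀ hP.ne', one_mul]
  have e4 : P * (P⁻¹ * ∫ x in (0:ℝ)..P, f' x ^ 2) = ∫ x in (0:ℝ)..P, f' x ^ 2 := by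
    rw [← mul_assoc, mul_inv_cancel₀ hP.ne', one_mul]
  rw [e3, e4] at h7
  exact h7

/-- variance identity on `[0,P]` -/
lemma variance {P : ℝ} (hP : 0 < P) {h : ℝ → ℝ} (hc : Continuous h) {c : ℝ}
    (hcd : c = P⁻¹ * ∫ x in (0:ℝ)..P, h x) :
    ∫ x in (0:ℝ)..P, (h x - c) ^ 2 = (∫ x in (0:ℝ)..P, h x ^ 2) - P * c ^ 2 := by
  have hI : ∫ x in (0:ℝ)..P, h x = P * c := by
    rw [hcd, ← mul_assoc, mul_inv_cancel₀ hP.ne', one_mul]
  have h1 : ∀ x, (h x - c) ^ 2 = h x ^ 2 - (2 * c) * h x + c ^ 2 := fun x => by ring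
  simp_rw [h1]
  rw [intervalIntegral.integral_add, intervalIntegral.integral_sub,
    intervalIntegral.integral_const_mul, hI, intervalIntegral.integral_const]
  · simp only [sub_zero, smul_eq_mul]; ring
  · exact (hc.pow 2).intervalIntegrable _ _
  · exact (continuous_const.mul hc).intervalIntegrable _ _
  · exact ((hc.pow 2).sub (continuous_const.mul hc)).intervalIntegrable _ _
  · exact continuous_const.intervalIntegrable _ _

lemma mean_zero {P : ℝ} (hP : 0 < P) {h : ℝ → ℝ} (hc : Continuous h) {c : ℝ}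
    (hcd : c = P⁻¹ * ∫ x in (0:ℝ)..P, h x) :
    ∫ x in (0:ℝ)..P, (h x - c) = 0 := by
  rw [intervalIntegral.integral_sub (hc.intervalIntegrable _ _)
    (continuous_const.intervalIntegrable _ _), intervalIntegral.integral_const, hcd]
  simp only [sub_zero, smul_eq_mul]
  rw [← mul_assoc, mul_inv_cancel₀ hP.ne', one_mul, sub_self]

/-- derivative under the integral sign, continuous case -/
lemma hasDerivAt_int {P : ℝ} {U : Set ℝ} (hU : IsOpen U) {f f' : ℝ → ℝ → ℝ}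
    (hf : ∀ x ∈ U, ∀ v, HasDerivAt (fun x => f x v) (f' x v) x)
    (cf : Continuous (uncurry f)) (cf' : Continuous (uncurry f')) {x0 : ℝ} (hx : x0 ∈ U) :
    HasDerivAt (fun x => ∫ v in (0:ℝ)..P, f x v) (∫ v in (0:ℝ)..P, f' x0 v) x0 := by
  obtain ⟨r, hr, hrU⟩ := Metric.isOpen_iff.1 hU x0 hx
  obtain ⟨C, hC⟩ := ((isCompact_closedBall x0 r).prod
    (isCompact_uIcc (a := (0:ℝ)) (b := P))).exists_bound_of_continuousOn
      (f := uncurry f') cf'.continuousOn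
  have hfx : ∀ x, Continuous (f x) := fun x => cf.comp (Continuous.prodMk_right x)
  have hfx' : ∀ x, Continuous (f' x) := fun x => cf'.comp (Continuous.prodMk_right x)
  refine (intervalIntegral.hasDerivAt_integral_of_dominated_loc_of_deriv_le
    (s := Metric.ball x0 r) (bound := fun _ => C) (Metric.ball_mem_nhds x0 hr)
    (Filter.Eventually.of_forall fun x => (hfx x).aestronglyMeasurable)
    ((hfx x0).intervalIntegrable _ _) (hfx' x0).aestronglyMeasurable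
    (Filter.Eventually.of_forall fun t ht x hxs => ?_)
    (continuous_const.intervalIntegrable _ _)
    (Filter.Eventually.of_forall fun t ht x hxs => hf x (hrU hxs) t)).2
  exact hC (x, t) ⟨Metric.ball_subset_closedBall hxs, uIoc_subset_uIcc ht⟩

/-- Wirtinger's inequality for `1`-periodic functions of two variables with zero mean. -/
lemma wirtinger2 {m ms mt : ℝ → ℝ → ℝ}
    (hs : ∀ s t, HasDerivAt (fun s => m s t) (ms s t) s)
    (ht : ∀ s t, HasDerivAt (fun t => m s t) (mt s t) t)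
    (cm : Continuous (uncurry m)) (cms : Continuous (uncurry ms)) (cmt : Continuous (uncurry mt))
    (ps : ∀ s t, m (s + 1) t = m s t) (pt : ∀ s t, m s (t + 1) = m s t)
    (h0 : ∫ s in (0:ℝ)..1, ∫ t in (0:ℝ)..1, m s t = 0) :
    4 * π ^ 2 * ∫ s in (0:ℝ)..1, ∫ t in (0:ℝ)..1, m s t ^ 2 ≤
      ∫ s in (0:ℝ)..1, ∫ t in (0:ℝ)..1, (ms s t ^ 2 + mt s t ^ 2) := by
  have swap : ∀ {G : ℝ → ℝ → ℝ}, Continuous (uncurry G) →
      ∫ s in (0:ℝ)..1, ∫ t in (0:ℝ)..1, G s t = ∫ t in (0:ℝ)..1, ∫ s in (0:ℝ)..1, G s t := by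
    intro G hG
    refine intervalIntegral_intervalIntegral_swap ?_
    exact (hG.continuousOn.integrableOn_compact
      (isCompact_uIcc.prod isCompact_uIcc)).mono_set
        (prod_mono uIoc_subset_uIcc uIoc_subset_uIcc)
  have cs : ∀ {G : ℝ → ℝ → ℝ}, Continuous (uncurry G) → ∀ t, Continuous (fun s => G s t) :=
    fun hG t => hG.comp (Continuous.prodMk_left t)
  have ct : ∀ {G : ℝ → ℝ → ℝ}, Continuous (uncurry G) → ∀ s, Continuous (fun t => G s t) :=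
    fun hG s => hG.comp (Continuous.prodMk_right s)
  have csw : ∀ {G : ℝ → ℝ → ℝ}, Continuous (uncurry G) → Continuous (uncurry fun t s => G s t) :=
    fun hG => hG.comp continuous_swap
  have cI : ∀ {G : ℝ → ℝ → ℝ}, Continuous (uncurry G) →
      Continuous (fun t => ∫ s in (0:ℝ)..1, G s t) := by
    intro G hG
    exact intervalIntegral.continuous_parametric_intervalIntegral_of_continuous' (csw hG) 0 1
  have cm2 : Continuous (uncurry fun s t => m s t ^ 2) := cm.pow 2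
  have cms2 : Continuous (uncurry fun s t => ms s t ^ 2) := cms.pow 2
  have cmt2 : Continuous (uncurry fun s t => mt s t ^ 2) := cmt.pow 2
  set mb : ℝ → ℝ := fun t => ∫ s in (0:ℝ)..1, m s t with hmb
  set mb' : ℝ → ℝ := fun t => ∫ s in (0:ℝ)..1, mt s t with hmb'
  have dmb : ∀ t, HasDerivAt mb (mb' t) t := fun t =>
    hasDerivAt_int (P := 1) isOpen_univ (f := fun t s => m s t) (f' := fun t s => mt s t)
      (fun x _ v => ht v x) (csw cm) (csw cmt) (mem_univ t)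
  have cmb' : Continuous mb' := cI cmt
  have cmb : Continuous mb := cI cm
  have h1 : (2 * π) ^ 2 * ∫ t in (0:ℝ)..1, mb t ^ 2 ≤ ∫ t in (0:ℝ)..1, mb' t ^ 2 := by
    have := wirtinger (P := 1) one_pos dmb cmb' (by
      simp only [hmb]; congr 1; ext s; simpa using pt s 0) (by
      rw [swap cm] at h0; exact h0)
    simpa using this
  have h2 : ∀ t, (2 * π) ^ 2 * ((∫ s in (0:ℝ)..1, m s t ^ 2) - mb t ^ 2) ≤
      ∫ s in (0:ℝ)..1, ms s t ^ 2 := by
    intro t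
    have h3 := wirtinger (P := 1) one_pos (f := fun s => m s t - mb t) (f' := fun s => ms s t)
      (fun s => by simpa using (hs s t).sub_const (mb t)) (cs cms t)
      (by simpa using ps 0 t) (mean_zero one_pos (cs cm t) (by simp [hmb]))
    rw [variance one_pos (cs cm t) (by simp [hmb])] at h3
    simpa using h3
  have h4 : ∀ t, mb' t ^ 2 ≤ ∫ s in (0:ℝ)..1, mt s t ^ 2 := by
    intro t
    have h5 := variance one_pos (cs cmt t) (c := mb' t) (by simp [hmb'])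
    have h6 : 0 ≤ ∫ s in (0:ℝ)..1, (mt s t - mb' t) ^ 2 :=
      intervalIntegral.integral_nonneg zero_le_one fun _ _ => sq_nonneg _
    rw [h5] at h6
    linarith
  rw [swap cm2, swap (G := fun s t => ms s t ^ 2 + mt s t ^ 2)
    ((cms2.add cmt2).congr fun _ => rfl)]
  have e1 : ∫ t in (0:ℝ)..1, ∫ s in (0:ℝ)..1, (ms s t ^ 2 + mt s t ^ 2) =
      (∫ t in (0:ℝ)..1, ∫ s in (0:ℝ)..1, ms s t ^ 2) +
      ∫ t in (0:ℝ)..1, ∫ s in (0:ℝ)..1, mt s t ^ 2 := by
    rw [← intervalIntegral.integral_add ((cI cms2).intervalIntegrable _ _)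
      ((cI cmt2).intervalIntegrable _ _)]
    congr 1; ext t
    rw [intervalIntegral.integral_add ((cs cms2 t).intervalIntegrable _ _)
      ((cs cmt2 t).intervalIntegrable _ _)]
  rw [e1]
  have cmb2 : Continuous (fun t => mb t ^ 2) := cmb.pow 2
  have cmb2' : Continuous (fun t => mb' t ^ 2) := cmb'.pow 2
  have h7 : (2 * π) ^ 2 * ((∫ t in (0:ℝ)..1, ∫ s in (0:ℝ)..1, m s t ^ 2) -
      ∫ t in (0:ℝ)..1, mb t ^ 2) ≤ ∫ t in (0:ℝ)..1, ∫ s in (0:ℝ)..1, ms s t ^ 2 := by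
    rw [← intervalIntegral.integral_sub ((cI cm2).intervalIntegrable _ _)
      (cmb2.intervalIntegrable _ _), ← intervalIntegral.integral_const_mul]
    exact intervalIntegral.integral_mono_on zero_le_one
      ((continuous_const.mul ((cI cm2).sub cmb2)).intervalIntegrable _ _)
      ((cI cms2).intervalIntegrable _ _) fun t _ => h2 t
  have h8 : ∫ t in (0:ℝ)..1, mb' t ^ 2 ≤ ∫ t in (0:ℝ)..1, ∫ s in (0:ℝ)..1, mt s t ^ 2 :=
    intervalIntegral.integral_mono_on zero_le_one (cmb2'.intervalIntegrable _ _)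
      ((cI cmt2).intervalIntegrable _ _) fun t _ => h4 t
  nlinarith [h1, h7, h8]

lemma lint_Ioc {a b : ℝ} (hab : a ≤ b) {φ : ℝ → ℝ} (hc : ContinuousOn φ (Icc a b))
    (h0 : ∀ x ∈ Icc a b, 0 ≤ φ x) :
    ∫⁻ x in Ioc a b, ENNReal.ofReal (φ x) = ENNReal.ofReal (∫ x in a..b, φ x) := by
  rw [intervalIntegral.integral_of_le hab]
  refine (ofReal_integral_eq_lintegral_ofReal ?_ ?_).symm
  · exact (hc.integrableOn_compact isCompact_Icc).mono_set Ioc_subset_Icc_self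
  · exact (ae_restrict_iff' measurableSet_Ioc).2
      (Filter.Eventually.of_forall fun x hx => h0 x (Ioc_subset_Icc_self hx))

lemma lint_Icc {a b : ℝ} (hab : a ≤ b) {φ : ℝ → ℝ} (hc : ContinuousOn φ (Icc a b))
    (h0 : ∀ x ∈ Icc a b, 0 ≤ φ x) :
    ∫⁻ x in Icc a b, ENNReal.ofReal (φ x) = ENNReal.ofReal (∫ x in a..b, φ x) := by
  rw [← lint_Ioc hab hc h0]
  exact setLIntegral_congr Ioc_ae_eq_Icc.symm

/-- the Riccati weight -/
noncomputable def kk (r1 r2 y : ℝ) : ℝ :=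
  (1 - y) * (r1 + 2 * r2 * y) - (r1 * y + r2 * y ^ 2) ^ 2 - 2 * (r1 * y + r2 * y ^ 2)

/-- one dimensional weighted inequality on `(1,∞)` -/
lemma radial {g g' : ℝ → ℝ} (hg : ∀ u, 1 < u → HasDerivAt g (g' u) u) (cg : Continuous g)
    (cg' : Continuous g') {r1 r2 mu0 : ℝ} {c : ℝ → ℝ} (cc : Continuous c)
    (hc0 : ∀ u, 1 ≤ u → 0 ≤ c u)
    (hk : ∀ u, 1 ≤ u → mu0 ≤ kk r1 r2 (1 - u⁻¹) + c u)
    (hfin : ∫⁻ u in Ioi (1:ℝ), ENNReal.ofReal (u⁻¹ ^ 3 * g u ^ 2) < ∞) :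
    ENNReal.ofReal mu0 * ∫⁻ u in Ioi (1:ℝ), ENNReal.ofReal (u⁻¹ ^ 3 * g u ^ 2) ≤
      ∫⁻ u in Ioi (1:ℝ), ENNReal.ofReal (u⁻¹ ^ 3 * (u ^ 2 * g' u ^ 2 + c u * g u ^ 2)) := by
  set h : ℝ → ℝ := fun u => (r1 * (1 - u⁻¹) + r2 * (1 - u⁻¹) ^ 2) * u⁻¹ ^ 2 * g u ^ 2 with hh
  set h' : ℝ → ℝ := fun u => ((r1 + 2 * r2 * (1 - u⁻¹)) * u⁻¹ ^ 2 * u⁻¹ ^ 2 -
    (r1 * (1 - u⁻¹) + r2 * (1 - u⁻¹) ^ 2) * (2 * u⁻¹ ^ 3)) * g u ^ 2 +
    (r1 * (1 - u⁻¹) + r2 * (1 - u⁻¹) ^ 2) * u⁻¹ ^ 2 * (2 * g u * g' u) with hh'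
  have hinv : ∀ R : ℝ, ContinuousOn (fun u : ℝ => u⁻¹) (Icc 1 R) := fun R u hu =>
    (continuousAt_inv₀ (by have := hu.1; positivity)).continuousWithinAt
  have cOn : ∀ R : ℝ, ContinuousOn (fun u : ℝ => u⁻¹ ^ 3 * g u ^ 2) (Icc 1 R) := fun R =>
    ((hinv R).pow 3).mul (cg.continuousOn.pow 2)
  have cOn' : ∀ R : ℝ, ContinuousOn (fun u : ℝ => u⁻¹ ^ 3 * (u ^ 2 * g' u ^ 2 + c u * g u ^ 2))
      (Icc 1 R) := fun R =>
    ((hinv R).pow 3).mul ((((continuous_id.pow 2).mul (cg'.pow 2)).add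
      (cc.mul (cg.pow 2))).continuousOn)
  have cOnh : ∀ R : ℝ, ContinuousOn h (Icc 1 R) := fun R => by
    have := hinv R
    exact (((continuousOn_const.mul (continuousOn_const.sub this)).add
      (continuousOn_const.mul ((continuousOn_const.sub this).pow 2))).mul (this.pow 2)).mul
      (cg.continuousOn.pow 2)
  have cOnh' : ∀ R : ℝ, ContinuousOn h' (Icc 1 R) := fun R => by
    have h1 := hinv R
    have h2 := cg.continuousOn (s := Icc 1 R)
    have h3 := cg'.continuousOn (s := Icc 1 R)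
    exact ((((continuousOn_const.add ((continuousOn_const.mul continuousOn_const).mul
      (continuousOn_const.sub h1))).mul (h1.pow 2)).mul (h1.pow 2)).sub
      (((continuousOn_const.mul (continuousOn_const.sub h1)).add
      (continuousOn_const.mul ((continuousOn_const.sub h1).pow 2))).mul
      (continuousOn_const.mul (h1.pow 3)))).mul (h2.pow 2) |>.add
      ((((continuousOn_const.mul (continuousOn_const.sub h1)).add
      (continuousOn_const.mul ((continuousOn_const.sub h1).pow 2))).mul (h1.pow 2)).mul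
      ((continuousOn_const.mul h2).mul h3))
  have dh : ∀ u, 1 < u → HasDerivAt h (h' u) u := by
    intro u hu
    have hu0 : u ≠ 0 := by positivity
    have d1 : HasDerivAt (fun u : ℝ => u⁻¹) (-(u ^ 2)⁻¹) u := hasDerivAt_inv hu0
    have d2 : HasDerivAt (fun u : ℝ => 1 - u⁻¹) ((u ^ 2)⁻¹) u := by
      simpa using d1.const_sub 1
    have d3 := ((d2.const_mul r1).add ((d2.pow 2).const_mul r2)).mul (d1.pow 2)
    have d4 := d3.mul ((hg u hu).pow 2)
    refine HasDerivAt.congr_deriv d4 ?_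
    have e0 : (u ^ 2)⁻¹ = u⁻¹ ^ 2 := (inv_pow u 2).symm
    have e1 : (2 - 1 : ℕ) = 1 := rfl
    simp only [hh', Pi.add_apply, Pi.pow_apply, Pi.mul_apply, e0, e1, pow_one, Nat.cast_ofNat]
    ring
  have key : ∀ R, 1 ≤ R → mu0 * (∫ u in (1:ℝ)..R, u⁻¹ ^ 3 * g u ^ 2) ≤
      (∫ u in (1:ℝ)..R, u⁻¹ ^ 3 * (u ^ 2 * g' u ^ 2 + c u * g u ^ 2)) + h R := by
    intro R hR
    have iI : ∀ {φ : ℝ → ℝ}, ContinuousOn φ (Icc 1 R) → IntervalIntegrable φ volume 1 R :=
      fun hφ => ContinuousOn.intervalIntegrable (by rwa [uIcc_of_le hR])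
    have e1 : ∫ u in (1:ℝ)..R, h' u = h R - h 1 :=
      intervalIntegral.integral_eq_sub_of_hasDerivAt_of_le hR (cOnh R)
        (fun u hu => dh u hu.1) (iI (cOnh' R))
    have e2 : h 1 = 0 := by simp [hh]
    rw [e2, sub_zero] at e1
    rw [← e1, ← intervalIntegral.integral_const_mul,
      ← intervalIntegral.integral_add (iI (cOn' R)) (iI (cOnh' R))]
    refine intervalIntegral.integral_mono_on hR (iI (continuousOn_const.mul (cOn R)))
      (iI ((cOn' R).add (cOnh' R))) fun u hu => ?_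
    have hu1 : 1 ≤ u := hu.1
    have hu0 : u ≠ 0 := by positivity
    have hw : 0 < u⁻¹ := by positivity
    have hk1 := hk u hu1
    set w := u⁻¹ with hwdef
    have huw : u * w = 1 := mul_inv_cancel₀ hu0
    have e3 : w ^ 3 * (u ^ 2 * g' u ^ 2 + c u * g u ^ 2) + h' u =
        w * (g' u + (r1 * (1 - w) + r2 * (1 - w) ^ 2) * w * g u) ^ 2 +
        w ^ 3 * g u ^ 2 * (kk r1 r2 (1 - w) + c u) := by
      have e4 : w ^ 3 * (u ^ 2 * g' u ^ 2 + c u * g u ^ 2) =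
          w * (u * w) ^ 2 * g' u ^ 2 + w ^ 3 * c u * g u ^ 2 := by ring
      rw [e4, huw]
      simp only [hh', ← hwdef, kk]
      ring
    rw [e3]
    have h5 : 0 ≤ w * (g' u + (r1 * (1 - w) + r2 * (1 - w) ^ 2) * w * g u) ^ 2 := by positivity
    have h6 : 0 ≤ w ^ 3 * g u ^ 2 := by positivity
    nlinarith [mul_le_mul_of_nonneg_left hk1 h6]
  have nonneg1 : ∀ u : ℝ, 1 ≤ u → 0 ≤ u⁻¹ ^ 3 * g u ^ 2 := fun u hu => by positivity
  have nonneg2 : ∀ u : ℝ, 1 ≤ u → 0 ≤ u⁻¹ ^ 3 * (u ^ 2 * g' u ^ 2 + c u * g u ^ 2) :=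
    fun u hu => by have := hc0 u hu; positivity
  -- the boundary term is small along a sequence
  have small : ∀ ε : ℝ, 0 < ε → ∀ R0 : ℝ, 1 ≤ R0 → ∃ R, R0 ≤ R ∧ h R ≤ ε := by
    intro ε hε R0 hR0
    by_contra hcon
    push Not at hcon
    have hM : ∀ u, 1 ≤ u → h u ≤ (|r1| + |r2|) * (u⁻¹ ^ 2 * g u ^ 2) := by
      intro u hu
      have hw0 : 0 < u⁻¹ := by positivity
      have hw1 : u⁻¹ ≤ 1 := inv_le_one_of_one_le₀ hu
      have h1 : r1 * (1 - u⁻¹) + r2 * (1 - u⁻¹) ^ 2 ≤ |r1| + |r2| := by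
        have hy0 : 0 ≤ 1 - u⁻¹ := by linarith
        have hy1 : 1 - u⁻¹ ≤ 1 := by linarith
        have ha : r1 * (1 - u⁻¹) ≤ |r1| * 1 := by
          calc r1 * (1 - u⁻¹) ≤ |r1| * (1 - u⁻¹) :=
                mul_le_mul_of_nonneg_right (le_abs_self _) hy0
            _ ≤ |r1| * 1 := mul_le_mul_of_nonneg_left hy1 (abs_nonneg _)
        have hb : r2 * (1 - u⁻¹) ^ 2 ≤ |r2| * 1 := by
          calc r2 * (1 - u⁻¹) ^ 2 ≤ |r2| * (1 - u⁻¹) ^ 2 :=
                mul_le_mul_of_nonneg_right (le_abs_self _) (sq_nonneg _)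
            _ ≤ |r2| * 1 := mul_le_mul_of_nonneg_left (by nlinarith) (abs_nonneg _)
        linarith
      have h2 : 0 ≤ u⁻¹ ^ 2 * g u ^ 2 := by positivity
      calc h u = (r1 * (1 - u⁻¹) + r2 * (1 - u⁻¹) ^ 2) * (u⁻¹ ^ 2 * g u ^ 2) := by
            simp only [hh]; ring
        _ ≤ _ := mul_le_mul_of_nonneg_right h1 h2
    have hMpos : 0 < |r1| + |r2| := by
      by_contra hneg
      have h0 : |r1| + |r2| = 0 := le_antisymm (not_lt.1 hneg) (by positivity)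
      have := hM R0 hR0
      rw [h0, zero_mul] at this
      linarith [hcon R0 le_rfl]
    set M := |r1| + |r2| with hMdef
    have hlow : ∀ u, R0 ≤ u → ε / M * u⁻¹ ≤ u⁻¹ ^ 3 * g u ^ 2 := by
      intro u hu
      have hu1 : 1 ≤ u := hR0.trans hu
      have hw0 : 0 < u⁻¹ := by positivity
      have h1 := (hcon u hu).le.trans (hM u hu1)
      have h2 : ε / M ≤ u⁻¹ ^ 2 * g u ^ 2 := by
        rw [div_le_iff₀ hMpos]; linarith
      calc ε / M * u⁻¹ ≤ (u⁻¹ ^ 2 * g u ^ 2) * u⁻¹ := mul_le_mul_of_nonneg_right h2 hw0.le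
        _ = _ := by ring
    have hint : IntegrableOn (fun u : ℝ => ε / M * u⁻¹) (Ioi R0) := by
      refine ⟨(measurable_inv.const_mul _).aestronglyMeasurable, ?_⟩
      rw [hasFiniteIntegral_iff_ofReal]
      · refine lt_of_le_of_lt ?_ hfin
        calc ∫⁻ u in Ioi R0, ENNReal.ofReal (ε / M * u⁻¹)
            ≤ ∫⁻ u in Ioi R0, ENNReal.ofReal (u⁻¹ ^ 3 * g u ^ 2) := by
              refine setLIntegral_mono' measurableSet_Ioi fun u hu => ?_
              exact ENNReal.ofReal_le_ofReal (hlow u (le_of_lt hu))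
          _ ≤ _ := lintegral_mono_set (Ioi_subset_Ioi hR0)
      · refine (ae_restrict_iff' measurableSet_Ioi).2 (Filter.Eventually.of_forall fun u hu => ?_)
        have : (0:ℝ) < u := by have : R0 < u := hu; linarith
        show 0 ≤ ε / M * u⁻¹
        positivity
    have hint2 : IntegrableOn (fun u : ℝ => u⁻¹) (Ioi R0) := by
      have := hint.const_mul (M / ε)
      refine IntegrableOn.congr_fun (f := fun u => M / ε * (ε / M * u⁻¹)) this
        (fun u _ => ?_) measurableSet_Ioi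
      show M / ε * (ε / M * u⁻¹) = u⁻¹
      field_simp
    exact not_integrableOn_Ioi_inv hint2
  -- bound for finite intervals
  have bd : ∀ N : ℕ, ENNReal.ofReal mu0 *
      ∫⁻ u in Ioc (1:ℝ) (N + 1), ENNReal.ofReal (u⁻¹ ^ 3 * g u ^ 2) ≤
      ∫⁻ u in Ioi (1:ℝ), ENNReal.ofReal (u⁻¹ ^ 3 * (u ^ 2 * g' u ^ 2 + c u * g u ^ 2)) := by
    intro N
    refine ENNReal.le_of_forall_pos_le_add fun ε hε _ => ?_
    obtain ⟨R, hR0, hR⟩ := small ε (by exact_mod_cast hε) (N + 1) (by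
      have : (0:ℝ) ≤ N := Nat.cast_nonneg N
      linarith)
    have hN0 : (0:ℝ) ≤ N := Nat.cast_nonneg N
    have hR1 : 1 ≤ R := by linarith
    calc ENNReal.ofReal mu0 * ∫⁻ u in Ioc (1:ℝ) (N + 1), ENNReal.ofReal (u⁻¹ ^ 3 * g u ^ 2)
        ≤ ENNReal.ofReal mu0 * ∫⁻ u in Ioc (1:ℝ) R, ENNReal.ofReal (u⁻¹ ^ 3 * g u ^ 2) := by
          gcongr
      _ = ENNReal.ofReal (mu0 * ∫ u in (1:ℝ)..R, u⁻¹ ^ 3 * g u ^ 2) := by
          rw [lint_Ioc hR1 (cOn R) (fun u hu => nonneg1 u hu.1), ENNReal.ofReal_mul']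
          exact intervalIntegral.integral_nonneg hR1 fun u hu => nonneg1 u hu.1
      _ ≤ ENNReal.ofReal ((∫ u in (1:ℝ)..R, u⁻¹ ^ 3 * (u ^ 2 * g' u ^ 2 + c u * g u ^ 2)) + h R) :=
          ENNReal.ofReal_le_ofReal (key R hR1)
      _ ≤ ENNReal.ofReal (∫ u in (1:ℝ)..R, u⁻¹ ^ 3 * (u ^ 2 * g' u ^ 2 + c u * g u ^ 2)) +
          ENNReal.ofReal (h R) := ENNReal.ofReal_add_le
      _ ≤ (∫⁻ u in Ioi (1:ℝ), ENNReal.ofReal (u⁻¹ ^ 3 * (u ^ 2 * g' u ^ 2 + c u * g u ^ 2))) +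
          ENNReal.ofReal ε := by
          gcongr
          rw [← lint_Ioc hR1 (cOn' R) (fun u hu => nonneg2 u hu.1)]
          exact lintegral_mono_set Ioc_subset_Ioi_self
      _ = _ := by rw [ENNReal.ofReal_coe_nnreal]
  have hU : Ioi (1:ℝ) = ⋃ N : ℕ, Ioc (1:ℝ) (N + 1) := by
    ext u
    simp only [mem_Ioi, mem_iUnion, mem_Ioc]
    constructor
    · intro hu
      obtain ⟨N, hN⟩ := exists_nat_ge u
      exact ⟨N, hu, by linarith⟩
    · rintro ⟨N, hN, _⟩; exact hN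
  have hdir : Directed (· ⊆ ·) fun N : ℕ => Ioc (1:ℝ) (N + 1) := by
    refine Monotone.directed_le fun N N' hNN => ?_
    refine Ioc_subset_Ioc_right ?_
    have : (N:ℝ) ≤ N' := by exact_mod_cast hNN
    linarith
  conv_lhs => rw [hU, setLIntegral_iUnion_of_directed _ hdir, ENNReal.mul_iSup]
  exact iSup_le bd

section Tonelli

variable {φ φ1 φ2 : ℝ → ℝ → ℝ → ℝ≥0∞}

/-- iterated integral over `u > 1`, `s, t ∈ [0,1]` -/
noncomputable def B3 (φ : ℝ → ℝ → ℝ → ℝ≥0∞) : ℝ≥0∞ :=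
  ∫⁻ u in Ioi (1:ℝ), ∫⁻ s in Icc (0:ℝ) 1, ∫⁻ t in Icc (0:ℝ) 1, φ s t u

/-- joint measurability -/
def Meas3 (φ : ℝ → ℝ → ℝ → ℝ≥0∞) : Prop :=
  Measurable fun p : ℝ × ℝ × ℝ => φ p.1 p.2.1 p.2.2

lemma Meas3.t (h : Meas3 φ) (s u : ℝ) : Measurable fun t => φ s t u :=
  h.comp (measurable_const.prodMk (measurable_id.prodMk measurable_const))

lemma Meas3.st (h : Meas3 φ) (u : ℝ) : Measurable fun s => ∫⁻ t in Icc (0:ℝ) 1, φ s t u := by
  have : Measurable fun p : ℝ × ℝ => φ p.1 p.2 u :=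
    h.comp (measurable_fst.prodMk (measurable_snd.prodMk measurable_const))
  exact this.lintegral_prod_right'

lemma Meas3.us (h : Meas3 φ) :
    Measurable fun q : ℝ × ℝ => ∫⁻ t in Icc (0:ℝ) 1, φ q.2 t q.1 := by
  have : Measurable fun p : (ℝ × ℝ) × ℝ => φ p.1.2 p.2 p.1.1 :=
    h.comp (measurable_fst.snd.prodMk (measurable_snd.prodMk measurable_fst.fst))
  exact this.lintegral_prod_right'

lemma Meas3.u (h : Meas3 φ) :
    Measurable fun u => ∫⁻ s in Icc (0:ℝ) 1, ∫⁻ t in Icc (0:ℝ) 1, φ s t u :=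
  h.us.lintegral_prod_right'

lemma B3_add (h : Meas3 φ1) : B3 (fun s t u => φ1 s t u + φ2 s t u) = B3 φ1 + B3 φ2 := by
  unfold B3
  rw [← lintegral_add_left h.u]
  refine lintegral_congr fun u => ?_
  rw [← lintegral_add_left (h.st u)]
  refine lintegral_congr fun s => ?_
  rw [← lintegral_add_left (h.t s u)]

lemma B3_swap (h : Meas3 φ) :
    B3 φ = ∫⁻ s in Icc (0:ℝ) 1, ∫⁻ t in Icc (0:ℝ) 1, ∫⁻ u in Ioi (1:ℝ), φ s t u := by
  unfold B3
  rw [lintegral_lintegral_swap (f := fun u s => ∫⁻ t in Icc (0:ℝ) 1, φ s t u)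
    h.us.aemeasurable]
  refine lintegral_congr fun s => ?_
  rw [lintegral_lintegral_swap (f := fun u t => φ s t u)]
  have : Measurable fun p : ℝ × ℝ => φ s p.2 p.1 :=
    h.comp (measurable_const.prodMk (measurable_snd.prodMk measurable_fst))
  exact this.aemeasurable

lemma B3_mono (h : ∀ s t u, 1 < u → φ1 s t u ≤ φ2 s t u) : B3 φ1 ≤ B3 φ2 := by
  unfold B3
  refine setLIntegral_mono' measurableSet_Ioi fun u hu => ?_
  exact lintegral_mono fun s => lintegral_mono fun t => h s t u hu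

/-- pointwise in `(s,t)` inequality for the inner `u` integral -/
lemma B3_inner {c : ℝ≥0∞} (h1 : Meas3 φ1) (h2 : Meas3 φ2) (hfin : B3 φ1 < ∞)
    (h : ∀ s t, ∫⁻ u in Ioi (1:ℝ), φ1 s t u < ∞ →
      c * ∫⁻ u in Ioi (1:ℝ), φ1 s t u ≤ ∫⁻ u in Ioi (1:ℝ), φ2 s t u) :
    c * B3 φ1 ≤ B3 φ2 := by
  rw [B3_swap h1] at hfin
  rw [B3_swap h1, B3_swap h2]
  have m1 : Measurable fun q : ℝ × ℝ => ∫⁻ u in Ioi (1:ℝ), φ1 q.1 q.2 u := by
    have : Measurable fun p : (ℝ × ℝ) × ℝ => φ1 p.1.1 p.1.2 p.2 :=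
      h1.comp (measurable_fst.fst.prodMk (measurable_fst.snd.prodMk measurable_snd))
    exact this.lintegral_prod_right'
  have m2 : Measurable fun s => ∫⁻ t in Icc (0:ℝ) 1, ∫⁻ u in Ioi (1:ℝ), φ1 s t u :=
    m1.lintegral_prod_right'
  have m3 : ∀ s, Measurable fun t => ∫⁻ u in Ioi (1:ℝ), φ1 s t u := fun s =>
    m1.comp measurable_prodMk_left
  rw [← lintegral_const_mul _ m2]
  refine lintegral_mono_ae ?_
  filter_upwards [ae_lt_top m2 hfin.ne] with s hs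
  rw [← lintegral_const_mul _ (m3 s)]
  refine lintegral_mono_ae ?_
  filter_upwards [ae_lt_top (m3 s) hs.ne] with t ht
  exact h s t ht

end Tonelli

section Tonelli4

variable {ψ ψ1 ψ2 : ℝ → ℝ → ℝ → ℝ → ℝ≥0∞}

/-- joint measurability in `s t v u` -/
def Meas4 (ψ : ℝ → ℝ → ℝ → ℝ → ℝ≥0∞) : Prop :=
  Measurable fun p : ℝ × ℝ × ℝ × ℝ => ψ p.1 p.2.1 p.2.2.1 p.2.2.2

lemma Meas4.meas3 (h : Meas4 ψ) (P : ℝ) :
    Meas3 fun s t u => ∫⁻ v in Icc (0:ℝ) P, ψ s t v u := by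
  have : Measurable fun p : (ℝ × ℝ × ℝ) × ℝ => ψ p.1.1 p.1.2.1 p.2 p.1.2.2 :=
    h.comp (measurable_fst.fst.prodMk (measurable_fst.snd.fst.prodMk
      (measurable_snd.prodMk measurable_fst.snd.snd)))
  exact this.lintegral_prod_right'

/-- pointwise in `(s,t,v)` inequality for the inner `u` integral -/
lemma B4_inner {P : ℝ} {c : ℝ≥0∞} (h1 : Meas4 ψ1) (h2 : Meas4 ψ2)
    (hfin : B3 (fun s t u => ∫⁻ v in Icc (0:ℝ) P, ψ1 s t v u) < ∞)
    (h : ∀ s t v, ∫⁻ u in Ioi (1:ℝ), ψ1 s t v u < ∞ →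
      c * ∫⁻ u in Ioi (1:ℝ), ψ1 s t v u ≤ ∫⁻ u in Ioi (1:ℝ), ψ2 s t v u) :
    c * B3 (fun s t u => ∫⁻ v in Icc (0:ℝ) P, ψ1 s t v u) ≤
      B3 (fun s t u => ∫⁻ v in Icc (0:ℝ) P, ψ2 s t v u) := by
  refine B3_inner (h1.meas3 P) (h2.meas3 P) hfin (fun s t hst => ?_)
  have sw : ∀ {ψ : ℝ → ℝ → ℝ → ℝ → ℝ≥0∞}, Meas4 ψ →
      ∫⁻ u in Ioi (1:ℝ), ∫⁻ v in Icc (0:ℝ) P, ψ s t v u =
      ∫⁻ v in Icc (0:ℝ) P, ∫⁻ u in Ioi (1:ℝ), ψ s t v u := by
    intro ψ hψ
    rw [lintegral_lintegral_swap (f := fun u v => ψ s t v u)]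
    have : Measurable fun p : ℝ × ℝ => ψ s t p.2 p.1 :=
      hψ.comp (measurable_const.prodMk (measurable_const.prodMk
        (measurable_snd.prodMk measurable_fst)))
    exact this.aemeasurable
  rw [sw h1] at hst ⊢
  rw [sw h2]
  have m3 : Measurable fun v => ∫⁻ u in Ioi (1:ℝ), ψ1 s t v u := by
    have : Measurable fun p : ℝ × ℝ => ψ1 s t p.1 p.2 :=
      h1.comp (measurable_const.prodMk (measurable_const.prodMk
        (measurable_fst.prodMk measurable_snd)))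
    exact this.lintegral_prod_right'
  rw [← lintegral_const_mul _ m3]
  refine lintegral_mono_ae ?_
  filter_upwards [ae_lt_top m3 hst.ne] with v hv
  exact h s t v hv

end Tonelli4

/-- the mean over `v` -/
noncomputable def vmean (P : ℝ) (G : ℝ → ℝ → ℝ → ℝ → ℝ) (s t u : ℝ) : ℝ :=
  P⁻¹ * ∫ v in (0:ℝ)..P, G s t v u

/-- joint continuity in four variables -/
def Cont4 (G : ℝ → ℝ → ℝ → ℝ → ℝ) : Prop :=
  Continuous fun p : ℝ × ℝ × ℝ × ℝ => G p.1 p.2.1 p.2.2.1 p.2.2.2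

/-- joint continuity in three variables -/
def Cont3 (G : ℝ → ℝ → ℝ → ℝ) : Prop :=
  Continuous fun p : ℝ × ℝ × ℝ => G p.1 p.2.1 p.2.2

lemma Cont4.vmean {G : ℝ → ℝ → ℝ → ℝ → ℝ} (h : Cont4 G) (P : ℝ) : Cont3 (vmean P G) := by
  refine continuous_const.mul
    (intervalIntegral.continuous_parametric_intervalIntegral_of_continuous'
      (f := fun (x : ℝ × ℝ × ℝ) v => G x.1 x.2.1 v x.2.2) ?_ 0 P)
  exact h.comp (continuous_fst.fst.prodMk (continuous_fst.snd.fst.prodMk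
      (continuous_snd.prodMk continuous_fst.snd.snd)))

lemma Cont3.s {G : ℝ → ℝ → ℝ → ℝ} (h : Cont3 G) (t u : ℝ) : Continuous fun s => G s t u :=
  h.comp (by fun_prop : Continuous fun s : ℝ => (s, t, u))

lemma Cont3.t {G : ℝ → ℝ → ℝ → ℝ} (h : Cont3 G) (s u : ℝ) : Continuous fun t => G s t u :=
  h.comp (by fun_prop : Continuous fun t : ℝ => (s, t, u))

lemma Cont3.u {G : ℝ → ℝ → ℝ → ℝ} (h : Cont3 G) (s t : ℝ) : Continuous fun u => G s t u :=
  h.comp (by fun_prop : Continuous fun u : ℝ => (s, t, u))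

lemma Cont3.st {G : ℝ → ℝ → ℝ → ℝ} (h : Cont3 G) (u : ℝ) :
    Continuous (uncurry fun s t => G s t u) :=
  h.comp (by fun_prop : Continuous fun p : ℝ × ℝ => (p.1, p.2, u))

lemma Cont4.v {G : ℝ → ℝ → ℝ → ℝ → ℝ} (h : Cont4 G) (s t u : ℝ) :
    Continuous fun v => G s t v u :=
  h.comp (by fun_prop : Continuous fun v : ℝ => (s, t, v, u))

lemma Cont4.u {G : ℝ → ℝ → ℝ → ℝ → ℝ} (h : Cont4 G) (s t v : ℝ) :
    Continuous fun u => G s t v u :=
  h.comp (by fun_prop : Continuous fun u : ℝ => (s, t, v, u))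

lemma Cont4.sv {G : ℝ → ℝ → ℝ → ℝ → ℝ} (h : Cont4 G) (t u : ℝ) :
    Continuous (uncurry fun s v => G s t v u) :=
  h.comp (by fun_prop : Continuous fun p : ℝ × ℝ => (p.1, t, p.2, u))

lemma Cont4.tv {G : ℝ → ℝ → ℝ → ℝ → ℝ} (h : Cont4 G) (s u : ℝ) :
    Continuous (uncurry fun t v => G s t v u) :=
  h.comp (by fun_prop : Continuous fun p : ℝ × ℝ => (s, p.1, p.2, u))

lemma Cont4.uv {G : ℝ → ℝ → ℝ → ℝ → ℝ} (h : Cont4 G) (s t : ℝ) :
    Continuous (uncurry fun u v => G s t v u) :=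
  h.comp (by fun_prop : Continuous fun p : ℝ × ℝ => (s, t, p.2, p.1))

lemma Cont3.meas {G : ℝ → ℝ → ℝ → ℝ} (h : Cont3 G) : Measurable
    fun p : ℝ × ℝ × ℝ => G p.1 p.2.1 p.2.2 := Continuous.measurable h

lemma Cont4.meas {G : ℝ → ℝ → ℝ → ℝ → ℝ} (h : Cont4 G) : Measurable
    fun p : ℝ × ℝ × ℝ × ℝ => G p.1 p.2.1 p.2.2.1 p.2.2.2 := Continuous.measurable h

lemma Cont4.sub_vmean {G : ℝ → ℝ → ℝ → ℝ → ℝ} (h : Cont4 G) (P : ℝ) :
    Cont4 fun s t v u => G s t v u - Picard.vmean P G s t u := by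
  have h1 : Continuous fun p : ℝ × ℝ × ℝ × ℝ => Picard.vmean P G p.1 p.2.1 p.2.2.2 :=
    (h.vmean P).comp (by fun_prop : Continuous fun p : ℝ × ℝ × ℝ × ℝ => (p.1, p.2.1, p.2.2.2))
  exact Continuous.sub h h1

/-- one variable form of the fibre inequality: Wirtinger in `v` and Jensen. -/
lemma fiber_one {P A B beta delta : ℝ} (hP : 0 < P) (hβ : 0 ≤ beta) (hδ0 : 0 ≤ delta)
    (hδ2 : delta ≤ 2) {f fs ft fv fu : ℝ → ℝ}
    (hv : ∀ v, HasDerivAt f (fv v) v)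
    (cfs : Continuous fs) (cft : Continuous ft) (cfv : Continuous fv)
    (cfu : Continuous fu) (per : f P = f 0) (u : ℝ) (hu : 0 ≤ u) {m ms mt mu : ℝ}
    (em : m = P⁻¹ * ∫ v in (0:ℝ)..P, f v) (ems : ms = P⁻¹ * ∫ v in (0:ℝ)..P, fs v)
    (emt : mt = P⁻¹ * ∫ v in (0:ℝ)..P, ft v) (emu : mu = P⁻¹ * ∫ v in (0:ℝ)..P, fu v) :
    P * (u ^ 2 * mu ^ 2 + beta * (1 - delta / 2) * u * (ms ^ 2 + mt ^ 2)) +
      ∫ v in (0:ℝ)..P, (u ^ 2 * (fu v - mu) ^ 2 +
        (4 * π ^ 2 / P ^ 2) * u ^ 2 * (f v - m) ^ 2) ≤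
    ∫ v in (0:ℝ)..P, (u ^ 2 * (fu v ^ 2 + fv v ^ 2) +
      beta * u * ((fs v + A * fv v) ^ 2 + delta * (fs v + A * fv v) * (ft v - B * fv v) +
        (ft v - B * fv v) ^ 2)) := by
  have cf : Continuous f := continuous_iff_continuousAt.2 fun x => (hv x).continuousAt
  have iFv : ∫ v in (0:ℝ)..P, fv v = 0 := by
    rw [intervalIntegral.integral_eq_sub_of_hasDerivAt (f := f)
      (fun v _ => hv v) (cfv.intervalIntegrable _ _), per, sub_self]
  have v1 := variance hP cfu emu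
  have w1 := wirtinger hP (f := fun v => f v - m) (f' := fv)
    (fun v => (hv v).sub_const _) cfv (by simp [per]) (mean_zero hP cf em)
  set S : ℝ → ℝ := fun v => fs v + A * fv v with hS
  set W : ℝ → ℝ := fun v => ft v - B * fv v with hW
  have cS : Continuous S := by fun_prop
  have cW : Continuous W := by fun_prop
  have mS : ms = P⁻¹ * ∫ v in (0:ℝ)..P, S v := by
    simp only [hS]
    rw [intervalIntegral.integral_add, intervalIntegral.integral_const_mul,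
      iFv, mul_zero, add_zero, ← ems]
    all_goals exact Continuous.intervalIntegrable (by fun_prop) _ _
  have mW : mt = P⁻¹ * ∫ v in (0:ℝ)..P, W v := by
    simp only [hW]
    rw [intervalIntegral.integral_sub, intervalIntegral.integral_const_mul,
      iFv, mul_zero, sub_zero, ← emt]
    all_goals exact Continuous.intervalIntegrable (by fun_prop) _ _
  have vS := variance hP cS mS
  have vW := variance hP cW mW
  have nS : 0 ≤ ∫ v in (0:ℝ)..P, (S v - ms) ^ 2 :=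
    intervalIntegral.integral_nonneg hP.le fun _ _ => sq_nonneg _
  have nW : 0 ≤ ∫ v in (0:ℝ)..P, (W v - mt) ^ 2 :=
    intervalIntegral.integral_nonneg hP.le fun _ _ => sq_nonneg _
  rw [vS] at nS
  rw [vW] at nW
  have e1 : ∫ v in (0:ℝ)..P, (u ^ 2 * (fu v - mu) ^ 2 +
        (4 * π ^ 2 / P ^ 2) * u ^ 2 * (f v - m) ^ 2) =
      u ^ 2 * (∫ v in (0:ℝ)..P, (fu v - mu) ^ 2) +
      (4 * π ^ 2 / P ^ 2) * u ^ 2 * ∫ v in (0:ℝ)..P, (f v - m) ^ 2 := by
    rw [intervalIntegral.integral_add, intervalIntegral.integral_const_mul,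
      intervalIntegral.integral_const_mul]
    all_goals exact Continuous.intervalIntegrable (by fun_prop) _ _
  have e2 : u ^ 2 * ((∫ v in (0:ℝ)..P, fu v ^ 2) + ∫ v in (0:ℝ)..P, fv v ^ 2) +
      beta * u * (1 - delta / 2) * ((∫ v in (0:ℝ)..P, S v ^ 2) + ∫ v in (0:ℝ)..P, W v ^ 2) ≤
      ∫ v in (0:ℝ)..P, (u ^ 2 * (fu v ^ 2 + fv v ^ 2) +
      beta * u * (S v ^ 2 + delta * S v * W v + W v ^ 2)) := by
    have e3 : u ^ 2 * ((∫ v in (0:ℝ)..P, fu v ^ 2) + ∫ v in (0:ℝ)..P, fv v ^ 2) +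
      beta * u * (1 - delta / 2) * ((∫ v in (0:ℝ)..P, S v ^ 2) + ∫ v in (0:ℝ)..P, W v ^ 2) =
      ∫ v in (0:ℝ)..P, (u ^ 2 * (fu v ^ 2 + fv v ^ 2) +
        beta * u * (1 - delta / 2) * (S v ^ 2 + W v ^ 2)) := by
      rw [intervalIntegral.integral_add, intervalIntegral.integral_const_mul,
        intervalIntegral.integral_const_mul, intervalIntegral.integral_add,
        intervalIntegral.integral_add]
      all_goals exact Continuous.intervalIntegrable (by fun_prop) _ _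
    rw [e3]
    refine intervalIntegral.integral_mono_on hP.le
      (Continuous.intervalIntegrable (by fun_prop) _ _)
      (Continuous.intervalIntegrable (by fun_prop) _ _) fun v _ => ?_
    have h1 : (1 - delta / 2) * (S v ^ 2 + W v ^ 2) ≤ S v ^ 2 + delta * S v * W v + W v ^ 2 := by
      nlinarith [mul_nonneg hδ0 (sq_nonneg (S v + W v))]
    have h2 := mul_le_mul_of_nonneg_left h1 (mul_nonneg hβ hu)
    linarith [h2]
  refine le_trans ?_ e2
  rw [e1, v1]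
  have h3 : P * ms ^ 2 ≤ ∫ v in (0:ℝ)..P, S v ^ 2 := by linarith
  have h4 : P * mt ^ 2 ≤ ∫ v in (0:ℝ)..P, W v ^ 2 := by linarith
  have hk : 0 ≤ beta * u * (1 - delta / 2) :=
    mul_nonneg (mul_nonneg hβ hu) (by linarith)
  have h5 := mul_le_mul_of_nonneg_left (add_le_add h3 h4) hk
  have h6 := mul_le_mul_of_nonneg_left w1 (sq_nonneg u)
  have h7 : (2 * π / P) ^ 2 = 4 * π ^ 2 / P ^ 2 := by rw [div_pow]; ring
  rw [h7] at h6
  linarith [h5, h6]
end Pool.Agent.Lib.H56.Picard
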