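import Mathlib

/-!
# The Siegel domain model of the complex hyperbolic plane and the group `SU(2,1)`
-/

namespace Pool.Agent.Lib.H56.Picard

open Matrix MeasureTheory

noncomputable section

/-- The Hermitian matrix `J` (antidiagonal), of signature `(2,1)`. -/
def J : Matrix (Fin 3) (Fin 3) ℂ := !![0, 0, 1; 0, 1, 0; 1, 0, 0]

/-- The height (horofunction at the cusp at infinity) `u(z) = -2 Re z₁ - |z₂|²`. -/
def height (z : ℂ × ℂ) : ℝ := -(2 * z.1.re) - Complex.normSq z.2

/-- The complex hyperbolic plane: the Siegel domain `2 Re z₁ + |z₂|² < 0`. -/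
abbrev X : Type := {z : ℂ × ℂ // 0 < height z}

lemma J_mul_J : (J * J : Matrix (Fin 3) (Fin 3) ℂ) = 1 := by
  ext i j
  fin_cases i <;> fin_cases j <;> simp [J, Matrix.mul_apply, Fin.sum_univ_three]

lemma J_conjTranspose : Jᴴ = J := by
  ext i j
  fin_cases i <;> fin_cases j <;> simp [J]

lemma inv_eq_of_unitary (g : (Matrix (Fin 3) (Fin 3) ℂ)ˣ)
    (hg : (g.val)ᴴ * J * g.val = J) : (g⁻¹).val = J * (g.val)ᴴ * J := by
  have h1 : (J * (g.val)ᴴ * J) * g.val = 1 := by
    rw [Matrix.mul_assoc, Matrix.mul_assoc, ← Matrix.mul_assoc _ J, hg, J_mul_J]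
  calc (g⁻¹).val = (J * (g.val)ᴴ * J * g.val) * (g⁻¹).val := by rw [h1, Matrix.one_mul]
    _ = _ := by rw [Matrix.mul_assoc, ← Units.val_mul, mul_inv_cancel, Units.val_one, Matrix.mul_one]

/-- The group `SU(2,1)` of the Hermitian form `J`, as a group of invertible matrices. -/
def SU21 : Subgroup (Matrix (Fin 3) (Fin 3) ℂ)ˣ where
  carrier := {g | (g.val)ᴴ * J * g.val = J ∧ g.val.det = 1}
  mul_mem' := by
    rintro a b ⟨ha, ha'⟩ ⟨hb, hb'⟩
    constructor
    · calc ((a * b).val)ᴴ * J * (a * b).val = (b.val)ᴴ * ((a.val)ᴴ * J * a.val) * b.val := by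
            rw [Units.val_mul, conjTranspose_mul]
            simp only [Matrix.mul_assoc]
        _ = J := by rw [ha, hb]
    · rw [Units.val_mul, det_mul, ha', hb', mul_one]
  one_mem' := by simp
  inv_mem' := by
    rintro a ⟨ha, ha'⟩
    have h1 : a.val * (a⁻¹).val = 1 := by rw [← Units.val_mul, mul_inv_cancel, Units.val_one]
    have h2 : ((a⁻¹).val)ᴴ * (a.val)ᴴ = 1 := by
      rw [← conjTranspose_mul, h1]; simp
    constructor
    · calc ((a⁻¹).val)ᴴ * J * (a⁻¹).val
          = ((a⁻¹).val)ᴴ * ((a.val)ᴴ * J * a.val) * (a⁻¹).val := by rw [ha]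
        _ = (((a⁻¹).val)ᴴ * (a.val)ᴴ) * J * (a.val * (a⁻¹).val) := by
            simp only [Matrix.mul_assoc]
        _ = J := by rw [h2, h1]; simp
    · have h3 := congrArg Matrix.det h1
      rw [det_mul, ha', det_one, one_mul] at h3
      exact h3

lemma mem_SU21 {g : (Matrix (Fin 3) (Fin 3) ℂ)ˣ} :
    g ∈ SU21 ↔ (g.val)ᴴ * J * g.val = J ∧ g.val.det = 1 := Iff.rfl

/-- The underlying matrix of an element of `SU(2,1)`. -/
abbrev mat (g : SU21) : Matrix (Fin 3) (Fin 3) ℂ := g.1.val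

lemma mat_mul (g h : SU21) : mat (g * h) = mat g * mat h := rfl

lemma mat_one : mat 1 = 1 := rfl

lemma mat_unitary (g : SU21) : (mat g)ᴴ * J * mat g = J := g.2.1

lemma mat_inv (g : SU21) : mat g⁻¹ = J * (mat g)ᴴ * J := inv_eq_of_unitary g.1 g.2.1

lemma mat_injective : Function.Injective mat := fun _ _ h => Subtype.ext (Units.ext h)

/-- The affine lift `(z₁, z₂, 1)`. -/
def lift (z : ℂ × ℂ) : Fin 3 → ℂ := ![z.1, z.2, 1]

/-- The Hermitian form `⟨Z, W⟩ = Zᴴ J W`. -/
def hf (Z W : Fin 3 → ℂ) : ℂ := star Z ⬝ᵥ (J *ᵥ W)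

lemma hf_apply (Z W : Fin 3 → ℂ) :
    hf Z W = star (Z 0) * W 2 + star (Z 1) * W 1 + star (Z 2) * W 0 := by
  simp [hf, J, dotProduct, Matrix.mulVec, Fin.sum_univ_three]

lemma hf_mulVec {g : Matrix (Fin 3) (Fin 3) ℂ} (hg : gᴴ * J * g = J) (Z W : Fin 3 → ℂ) :
    hf (g *ᵥ Z) (g *ᵥ W) = hf Z W := by
  unfold hf
  rw [star_mulVec, ← dotProduct_mulVec, mulVec_mulVec, mulVec_mulVec, hg]

lemma hf_smul (c : ℂ) (Z : Fin 3 → ℂ) : hf (c • Z) (c • Z) = (Complex.normSq c : ℂ) * hf Z Z := by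
  simp only [hf_apply, Pi.smul_apply, smul_eq_mul, star_mul']
  rw [Complex.normSq_eq_conj_mul_self]
  simp only [Complex.star_def]
  ring

lemma hf_lift (z : ℂ × ℂ) : hf (lift z) (lift z) = ((-height z : ℝ) : ℂ) := by
  rw [hf_apply]
  simp only [lift, height, Matrix.cons_val_zero, Matrix.cons_val_one, Matrix.cons_val]
  apply Complex.ext
  · simp [Complex.normSq_apply]; ring
  · simp; ring

/-- The factor of automorphy: third coordinate of `g (z₁, z₂, 1)`. -/
def jf (g : Matrix (Fin 3) (Fin 3) ℂ) (z : ℂ × ℂ) : ℂ := (g *ᵥ lift z) 2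

/-- The projective action on affine points. -/
def act (g : Matrix (Fin 3) (Fin 3) ℂ) (z : ℂ × ℂ) : ℂ × ℂ :=
  ((g *ᵥ lift z) 0 / jf g z, (g *ᵥ lift z) 1 / jf g z)

lemma jf_apply (g : Matrix (Fin 3) (Fin 3) ℂ) (z : ℂ × ℂ) :
    jf g z = g 2 0 * z.1 + g 2 1 * z.2 + g 2 2 := by
  simp [jf, lift, Matrix.mulVec, dotProduct, Fin.sum_univ_three]

lemma jf_ne_zero {g : Matrix (Fin 3) (Fin 3) ℂ} (hg : gᴴ * J * g = J) {z : ℂ × ℂ}
    (hz : 0 < height z) : jf g z ≠ 0 := by
  intro h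
  have h1 := hf_mulVec hg (lift z) (lift z)
  rw [hf_lift, hf_apply] at h1
  have h2 : (g *ᵥ lift z) 2 = 0 := h
  rw [h2] at h1
  simp only [mul_zero, star_zero, zero_mul, add_zero, zero_add] at h1
  have h3 := congrArg Complex.re h1
  rw [Complex.star_def, ← Complex.normSq_eq_conj_mul_self] at h3
  simp only [Complex.ofReal_re] at h3
  have h4 := Complex.normSq_nonneg ((g *ᵥ lift z) 1)
  linarith

lemma mulVec_lift {g : Matrix (Fin 3) (Fin 3) ℂ} {z : ℂ × ℂ} (h : jf g z ≠ 0) :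
    g *ᵥ lift z = jf g z • lift (act g z) := by
  ext i
  fin_cases i
  · simp [lift, act]; field_simp
  · simp [lift, act]; field_simp
  · simp [lift, jf]

lemma height_act {g : Matrix (Fin 3) (Fin 3) ℂ} (hg : gᴴ * J * g = J) {z : ℂ × ℂ}
    (hz : 0 < height z) : height (act g z) = height z / Complex.normSq (jf g z) := by
  have hj := jf_ne_zero hg hz
  have h1 := hf_mulVec hg (lift z) (lift z)
  rw [mulVec_lift hj, hf_smul, hf_lift, hf_lift, ← Complex.ofReal_mul, Complex.ofReal_inj] at h1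
  have h2 : Complex.normSq (jf g z) ≠ 0 := by simpa using hj
  field_simp
  linarith

lemma height_act_pos {g : Matrix (Fin 3) (Fin 3) ℂ} (hg : gᴴ * J * g = J) {z : ℂ × ℂ}
    (hz : 0 < height z) : 0 < height (act g z) := by
  rw [height_act hg hz]
  exact div_pos hz (Complex.normSq_pos.mpr (jf_ne_zero hg hz))

lemma lift_injective {z w : ℂ × ℂ} (h : lift z = lift w) : z = w := by
  have h0 := congrFun h 0
  have h1 := congrFun h 1
  simp [lift] at h0 h1
  exact Prod.ext h0 h1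

lemma lift_smul_eq {c d : ℂ} {z w : ℂ × ℂ} (hc : c ≠ 0) (h : c • lift z = d • lift w) :
    c = d ∧ z = w := by
  have h2 := congrFun h 2
  simp [lift] at h2
  subst h2
  refine ⟨rfl, lift_injective ?_⟩
  exact smul_right_injective _ hc h

lemma act_one (z : ℂ × ℂ) : act 1 z = z := by
  simp [act, jf, lift]

lemma jf_mul {g h : Matrix (Fin 3) (Fin 3) ℂ} {z : ℂ × ℂ} (hh : jf h z ≠ 0) :
    jf (g * h) z = jf g (act h z) * jf h z := by
  unfold jf
  rw [← mulVec_mulVec]
  conv_lhs => rw [mulVec_lift hh, mulVec_smul]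
  simp only [Pi.smul_apply, smul_eq_mul, jf]
  ring

lemma act_mul {g h : Matrix (Fin 3) (Fin 3) ℂ} {z : ℂ × ℂ} (hh : jf h z ≠ 0)
    (hg : jf g (act h z) ≠ 0) : act (g * h) z = act g (act h z) := by
  have hgh : jf (g * h) z ≠ 0 := by rw [jf_mul hh]; exact mul_ne_zero hg hh
  have h1 : (g * h) *ᵥ lift z = g *ᵥ (h *ᵥ lift z) := by rw [mulVec_mulVec]
  rw [mulVec_lift hgh, mulVec_lift hh, mulVec_smul, mulVec_lift hg, smul_smul] at h1
  exact (lift_smul_eq hgh h1).2

instance : MulAction SU21 X where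
  smul g z := ⟨act (mat g) z.1, height_act_pos (mat_unitary g) z.2⟩
  one_smul z := Subtype.ext (act_one z.1)
  mul_smul g h z := Subtype.ext (act_mul (jf_ne_zero (mat_unitary h) z.2)
    (jf_ne_zero (mat_unitary g) (height_act_pos (mat_unitary h) z.2)))

lemma smul_val (g : SU21) (z : X) : ((g • z : X) : ℂ × ℂ) = act (mat g) z.1 := rfl

lemma height_smul (g : SU21) (z : X) :
    height (g • z : X).1 = height z.1 / Complex.normSq (jf (mat g) z.1) :=
  height_act (mat_unitary g) z.2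

/-- The subgroup of `SU(2,1)` of matrices with entries in a subring `O` of `ℂ` that is stable under
complex conjugation. -/
def arith (O : Subring ℂ) (hO : ∀ x ∈ O, star x ∈ O) : Subgroup SU21 where
  carrier := {g | ∀ i j, mat g i j ∈ O}
  mul_mem' := by
    intro a b ha hb i j
    rw [mat_mul, Matrix.mul_apply]
    exact O.sum_mem fun k _ => O.mul_mem (ha i k) (hb k j)
  one_mem' := by
    intro i j
    rw [mat_one, Matrix.one_apply]
    split_ifs
    · exact O.one_mem
    · exact O.zero_mem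
  inv_mem' := by
    intro a ha i j
    rw [mat_inv, Matrix.mul_apply]
    apply O.sum_mem
    intro k _
    apply O.mul_mem
    · rw [Matrix.mul_apply]
      apply O.sum_mem
      intro l _
      apply O.mul_mem
      · fin_cases i <;> fin_cases l <;> simp [J, O.one_mem, O.zero_mem]
      · rw [conjTranspose_apply]; exact hO _ (ha k l)
    · fin_cases k <;> fin_cases j <;> simp [J, O.one_mem, O.zero_mem]

lemma mem_arith {O : Subring ℂ} {hO : ∀ x ∈ O, star x ∈ O} {g : SU21} :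
    g ∈ arith O hO ↔ ∀ i j, mat g i j ∈ O := Iff.rfl

end

end Pool.Agent.Lib.H56.Picard
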