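import Pool.Agent.Lib.H56.Picard.Basic

/-!
# The derivative of the projective action and its determinant
-/

namespace Pool.Agent.Lib.H56.Picard

open Matrix MeasureTheory

noncomputable section

/-- `i`-th linear part of the projective action. -/
def lin (g : Matrix (Fin 3) (Fin 3) ℂ) (i : Fin 3) : ℂ × ℂ →L[ℂ] ℂ :=
  g i 0 • ContinuousLinearMap.fst ℂ ℂ ℂ + g i 1 • ContinuousLinearMap.snd ℂ ℂ ℂ

lemma lin_apply (g : Matrix (Fin 3) (Fin 3) ℂ) (i : Fin 3) (h : ℂ × ℂ) :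
    lin g i h = g i 0 * h.1 + g i 1 * h.2 := by
  simp [lin]

lemma mulVec_lift_apply (g : Matrix (Fin 3) (Fin 3) ℂ) (i : Fin 3) (z : ℂ × ℂ) :
    (g *ᵥ lift z) i = g i 0 * z.1 + g i 1 * z.2 + g i 2 := by
  simp [lift, Matrix.mulVec, dotProduct, Fin.sum_univ_three]

lemma hasFDerivAt_num (g : Matrix (Fin 3) (Fin 3) ℂ) (i : Fin 3) (z : ℂ × ℂ) :
    HasFDerivAt (fun z => (g *ᵥ lift z) i) (lin g i) z := by
  have : (fun z => (g *ᵥ lift z) i) = fun z => lin g i z + g i 2 := by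
    funext z
    rw [mulVec_lift_apply, lin_apply]
  rw [this]
  exact (lin g i).hasFDerivAt.add_const _

/-- The derivative of the action at `z`. -/
def dact (g : Matrix (Fin 3) (Fin 3) ℂ) (z : ℂ × ℂ) : ℂ × ℂ →L[ℂ] ℂ × ℂ :=
  ((jf g z)⁻¹ • (lin g 0 - (act g z).1 • lin g 2)).prod
    ((jf g z)⁻¹ • (lin g 1 - (act g z).2 • lin g 2))

lemma hasFDerivAt_quot {g : Matrix (Fin 3) (Fin 3) ℂ} {z : ℂ × ℂ} (hj : jf g z ≠ 0) (i : Fin 3) :
    HasFDerivAt (fun z => (g *ᵥ lift z) i / jf g z)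
      ((jf g z)⁻¹ • (lin g i - ((g *ᵥ lift z) i / jf g z) • lin g 2)) z := by
  have h1 := hasFDerivAt_num g i z
  have h2 : HasFDerivAt (fun z => jf g z) (lin g 2) z := hasFDerivAt_num g 2 z
  have h3 := (hasDerivAt_inv hj).comp_hasFDerivAt z h2
  have h4 := h1.mul h3
  refine h4.congr_fderiv ?_ |>.congr_of_eventuallyEq ?_
  · ext <;>
    · simp only [ContinuousLinearMap.comp_apply, _root_.add_apply,
        _root_.smul_apply, _root_.sub_apply, smul_eq_mul,
        Function.comp_apply]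
      field_simp
      ring
  · exact Filter.Eventually.of_forall fun z => by
      simp [div_eq_mul_inv]

lemma hasFDerivAt_act {g : Matrix (Fin 3) (Fin 3) ℂ} {z : ℂ × ℂ} (hj : jf g z ≠ 0) :
    HasFDerivAt (act g) (dact g z) z :=
  (hasFDerivAt_quot hj 0).prodMk (hasFDerivAt_quot hj 1)

lemma dact_apply (g : Matrix (Fin 3) (Fin 3) ℂ) (z h : ℂ × ℂ) :
    dact g z h = ((jf g z)⁻¹ * (lin g 0 h - (act g z).1 * lin g 2 h),
      (jf g z)⁻¹ * (lin g 1 h - (act g z).2 * lin g 2 h)) := by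
  simp [dact]

lemma det_dact {g : Matrix (Fin 3) (Fin 3) ℂ} {z : ℂ × ℂ} (hj : jf g z ≠ 0) :
    LinearMap.det (dact g z : ℂ × ℂ →ₗ[ℂ] ℂ × ℂ) = g.det / (jf g z) ^ 3 := by
  rw [← LinearMap.det_toMatrix (Module.Basis.finTwoProd ℂ), Matrix.det_fin_two]
  simp only [LinearMap.toMatrix_apply, Module.Basis.finTwoProd_zero, Module.Basis.finTwoProd_one,
    Module.Basis.coe_finTwoProd_repr, ContinuousLinearMap.coe_coe, dact_apply, lin_apply]
  simp only [Matrix.cons_val_zero, Matrix.cons_val_one]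
  have h0 : (act g z).1 = (g 0 0 * z.1 + g 0 1 * z.2 + g 0 2) / jf g z := by
    simp [act, mulVec_lift_apply]
  have h1 : (act g z).2 = (g 1 0 * z.1 + g 1 1 * z.2 + g 1 2) / jf g z := by
    simp [act, mulVec_lift_apply]
  rw [h0, h1, Matrix.det_fin_three]
  have hj' := jf_apply g z
  field_simp
  rw [hj']
  ring

end

end Pool.Agent.Lib.H56.Picard
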