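import Pool.Agent.Lib.H56.Picard.Measure

/-!
# The Eisenstein integers as a subring of `ℂ`
-/

namespace Pool.Agent.Lib.H56.Picard

open Matrix MeasureTheory

noncomputable section

/-- The cube root of unity `ω = (-1 + √-3)/2`. -/
def om : ℂ := ⟨-1 / 2, √3 / 2⟩

/-- `√-3`. -/
def th : ℂ := ⟨0, √3⟩

lemma sq3 : √3 * √3 = (3 : ℝ) := Real.mul_self_sqrt (by norm_num)

lemma sqrt3_pos : (0 : ℝ) < √3 := Real.sqrt_pos.mpr (by norm_num)

lemma om_re : om.re = -1 / 2 := rfl
lemma om_im : om.im = √3 / 2 := rfl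

lemma om_sq : om * om = -1 - om := by
  apply Complex.ext
  · simp [om_re, om_im]; nlinarith [sq3]
  · simp [om_re, om_im]; ring

lemma star_om : star om = -1 - om := by
  apply Complex.ext
  · simp [om_re]; norm_num
  · simp [om_im]

lemma th_eq : th = 1 + 2 * om := by
  apply Complex.ext
  · simp [th, om_re]; norm_num
  · simp [th, om_im]; ring

/-- The element `a + bω`. -/
def eis (a b : ℤ) : ℂ := (a : ℂ) + (b : ℂ) * om

lemma eis_re (a b : ℤ) : (eis a b).re = a - b / 2 := by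
  simp [eis, om_re]; ring

lemma eis_im (a b : ℤ) : (eis a b).im = √3 / 2 * b := by
  simp [eis, om_im]; ring

lemma eis_add (a b c d : ℤ) : eis a b + eis c d = eis (a + c) (b + d) := by
  simp [eis]; ring

lemma eis_neg (a b : ℤ) : -eis a b = eis (-a) (-b) := by
  simp [eis]; ring

lemma eis_mul (a b c d : ℤ) : eis a b * eis c d = eis (a * c - b * d) (a * d + b * c - b * d) := by
  simp only [eis]
  push_cast
  linear_combination (b * d : ℂ) * om_sq

lemma star_eis (a b : ℤ) : star (eis a b) = eis (a - b) (-b) := by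
  simp only [eis]
  rw [star_add, star_mul', star_om]
  push_cast
  simp
  ring

lemma normSq_eis (a b : ℤ) : Complex.normSq (eis a b) = ((a ^ 2 - a * b + b ^ 2 : ℤ) : ℝ) := by
  rw [Complex.normSq_apply, eis_re, eis_im]
  push_cast
  nlinarith [sq3]

lemma eis_inj {a b c d : ℤ} : eis a b = eis c d ↔ a = c ∧ b = d := by
  constructor
  · intro h
    have h1 := congrArg Complex.im h
    have h2 := congrArg Complex.re h
    rw [eis_im, eis_im] at h1
    rw [eis_re, eis_re] at h2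
    have h3 : (b : ℝ) = d := by
      have := sqrt3_pos
      have h4 : √3 / 2 ≠ 0 := by positivity
      exact mul_left_cancel₀ h4 h1
    have h5 : (a : ℝ) = c := by rw [h3] at h2; linarith
    exact ⟨by exact_mod_cast h5, by exact_mod_cast h3⟩
  · rintro ⟨rfl, rfl⟩; rfl

/-- The ring of Eisenstein integers `ℤ[ω]`. -/
def O : Subring ℂ where
  carrier := {x | ∃ a b : ℤ, x = eis a b}
  mul_mem' := by
    rintro _ _ ⟨a, b, rfl⟩ ⟨c, d, rfl⟩
    exact ⟨_, _, eis_mul a b c d⟩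
  one_mem' := ⟨1, 0, by simp [eis]⟩
  add_mem' := by
    rintro _ _ ⟨a, b, rfl⟩ ⟨c, d, rfl⟩
    exact ⟨_, _, eis_add a b c d⟩
  zero_mem' := ⟨0, 0, by simp [eis]⟩
  neg_mem' := by
    rintro _ ⟨a, b, rfl⟩
    exact ⟨_, _, eis_neg a b⟩

lemma mem_O {x : ℂ} : x ∈ O ↔ ∃ a b : ℤ, x = eis a b := Iff.rfl

lemma eis_mem (a b : ℤ) : eis a b ∈ O := ⟨a, b, rfl⟩

lemma star_mem_O : ∀ x ∈ O, star x ∈ O := by
  rintro _ ⟨a, b, rfl⟩
  exact ⟨_, _, star_eis a b⟩

lemma th_mem : th ∈ O := ⟨1, 2, by rw [th_eq]; simp [eis]⟩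

lemma normSq_mem_O {x : ℂ} (hx : x ∈ O) : ∃ n : ℤ, 0 ≤ n ∧ Complex.normSq x = n := by
  obtain ⟨a, b, rfl⟩ := hx
  refine ⟨a ^ 2 - a * b + b ^ 2, ?_, normSq_eis a b⟩
  nlinarith [sq_nonneg (2 * a - b), sq_nonneg b]

/-- The Picard modular group `SU(2,1;ℤ[ω])`. -/
def Gam : Subgroup SU21 := arith O star_mem_O

lemma mem_Gam {g : SU21} : g ∈ Gam ↔ ∀ i j, mat g i j ∈ O := Iff.rfl

/-- nonzero elements have norm at least one -/
lemma one_le_normSq {x : ℂ} (hx : x ∈ O) (h0 : x ≠ 0) : 1 ≤ Complex.normSq x := by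
  obtain ⟨n, hn, h⟩ := normSq_mem_O hx
  rw [h]
  have : n ≠ 0 := by
    rintro rfl
    apply h0
    rw [← Complex.normSq_eq_zero, h]; simp
  exact_mod_cast (show 1 ≤ n by omega)

/-- elements of norm `< 4` have norm `0`, `1` or `3`. -/
lemma normSq_lt_four {x : ℂ} (hx : x ∈ O) (h0 : x ≠ 0) (h4 : Complex.normSq x < 4) :
    Complex.normSq x = 1 ∨ Complex.normSq x = 3 := by
  obtain ⟨a, b, rfl⟩ := hx
  rw [normSq_eis] at h4 ⊢
  have h4' : a ^ 2 - a * b + b ^ 2 < 4 := by exact_mod_cast h4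
  have h5 : a ^ 2 - a * b + b ^ 2 ≠ 0 := by
    intro h
    apply h0
    rw [← Complex.normSq_eq_zero, normSq_eis, h]; simp
  have ha : a ≤ 2 := by nlinarith [sq_nonneg (2 * b - a)]
  have ha' : -2 ≤ a := by nlinarith [sq_nonneg (2 * b - a)]
  have hb : b ≤ 2 := by nlinarith [sq_nonneg (2 * a - b)]
  have hb' : -2 ≤ b := by nlinarith [sq_nonneg (2 * a - b)]
  have key : a ^ 2 - a * b + b ^ 2 = 1 ∨ a ^ 2 - a * b + b ^ 2 = 3 := by
    interval_cases a <;> interval_cases b <;> simp_all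
  rcases key with h | h
  · left; rw [h]; simp
  · right; rw [h]; simp

/-- units have sixth power one, i.e. cube `±1`. -/
lemma unit_cube {x : ℂ} (hx : x ∈ O) (h1 : Complex.normSq x = 1) : x ^ 3 = 1 ∨ x ^ 3 = -1 := by
  obtain ⟨a, b, rfl⟩ := hx
  rw [normSq_eis] at h1
  have h1' : a ^ 2 - a * b + b ^ 2 = 1 := by exact_mod_cast h1
  have ha : a ≤ 1 := by nlinarith [sq_nonneg (2 * b - a)]
  have ha' : -1 ≤ a := by nlinarith [sq_nonneg (2 * b - a)]
  have hb : b ≤ 1 := by nlinarith [sq_nonneg (2 * a - b)]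
  have hb' : -1 ≤ b := by nlinarith [sq_nonneg (2 * a - b)]
  have e : ∀ a b : ℤ, eis a b ^ 3 =
      eis (a ^ 3 - 3 * a * b ^ 2 + b ^ 3) (3 * a ^ 2 * b - 3 * a * b ^ 2) := by
    intro a b
    rw [pow_succ, pow_two, eis_mul, eis_mul]
    congr 1 <;> ring
  rw [e]
  have f1 : (1 : ℂ) = eis 1 0 := by simp [eis]
  have f2 : (-1 : ℂ) = eis (-1) 0 := by simp [eis]
  rw [f2, f1, eis_inj, eis_inj]
  interval_cases a <;> interval_cases b <;> simp_all

/-- elements of norm `3` are units times `√-3`. -/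
lemma normSq_three {x : ℂ} (hx : x ∈ O) (h3 : Complex.normSq x = 3) :
    ∃ e ∈ O, Complex.normSq e = 1 ∧ x = e * th := by
  obtain ⟨a, b, rfl⟩ := hx
  rw [normSq_eis] at h3
  have h3' : a ^ 2 - a * b + b ^ 2 = 3 := by exact_mod_cast h3
  have ha : a ≤ 2 := by nlinarith [sq_nonneg (2 * b - a)]
  have ha' : -2 ≤ a := by nlinarith [sq_nonneg (2 * b - a)]
  have hb : b ≤ 2 := by nlinarith [sq_nonneg (2 * a - b)]
  have hb' : -2 ≤ b := by nlinarith [sq_nonneg (2 * a - b)]
  have ht : th = eis 1 2 := by rw [th_eq]; simp [eis]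
  -- x / th = x * star th / 3, star th = eis (-1) (-2)
  have key : ∀ c d : ℤ, c ^ 2 - c * d + d ^ 2 = 1 → eis a b = eis c d * eis 1 2 →
      ∃ e ∈ O, Complex.normSq e = 1 ∧ eis a b = e * th := by
    intro c d h1 h2
    exact ⟨eis c d, eis_mem c d, by rw [normSq_eis, h1]; simp, by rw [ht]; exact h2⟩
  interval_cases a <;> interval_cases b <;> first | (exfalso; revert h3'; norm_num; done) | skip
  all_goals
    first
    | (refine key 1 0 (by norm_num) ?_; rw [eis_mul, eis_inj]; norm_num; done)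
    | (refine key (-1) 0 (by norm_num) ?_; rw [eis_mul, eis_inj]; norm_num; done)
    | (refine key 0 1 (by norm_num) ?_; rw [eis_mul, eis_inj]; norm_num; done)
    | (refine key 0 (-1) (by norm_num) ?_; rw [eis_mul, eis_inj]; norm_num; done)
    | (refine key 1 1 (by norm_num) ?_; rw [eis_mul, eis_inj]; norm_num; done)
    | (refine key (-1) (-1) (by norm_num) ?_; rw [eis_mul, eis_inj]; norm_num)

lemma normSq_th : Complex.normSq th = 3 := by
  rw [Complex.normSq_apply]; simp [th]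

/-- two elements congruent mod `2` at distance `< 2` are equal -/
lemma eq_of_cong_two {a b c d : ℤ} (h1 : (a - c) % 2 = 0) (h2 : (b - d) % 2 = 0)
    (h : Complex.normSq (eis a b - eis c d) < 4) : eis a b = eis c d := by
  have h3 : eis a b - eis c d = eis (a - c) (b - d) := by
    rw [sub_eq_add_neg, eis_neg, eis_add]; rfl
  rw [h3, normSq_eis] at h
  have h' : (a - c) ^ 2 - (a - c) * (b - d) + (b - d) ^ 2 < 4 := by exact_mod_cast h
  obtain ⟨p, hp⟩ : ∃ p, a - c = 2 * p := ⟨(a - c) / 2, by omega⟩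
  obtain ⟨q, hq⟩ : ∃ q, b - d = 2 * q := ⟨(b - d) / 2, by omega⟩
  rw [hp, hq] at h'
  have h4 : p ^ 2 - p * q + q ^ 2 < 1 := by nlinarith
  have h5 : p = 0 := by nlinarith [sq_nonneg (2 * q - p), sq_nonneg p]
  have h6 : q = 0 := by nlinarith [sq_nonneg (2 * p - q), sq_nonneg q]
  rw [eis_inj]
  constructor <;> [skip; skip] <;> (subst h5 h6; omega)

/-- two elements at distance `< 1` are equal -/
lemma eq_of_dist_lt_one {x y : ℂ} (hx : x ∈ O) (hy : y ∈ O)
    (h : Complex.normSq (x - y) < 1) : x = y := by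
  by_contra hne
  have := one_le_normSq (O.sub_mem hx hy) (sub_ne_zero.mpr hne)
  linarith

/-- covering radius of the hexagonal lattice -/
lemma exists_near (z : ℂ) : ∃ x ∈ O, Complex.normSq (z - x) ≤ 1 / 3 := by
  set t : ℝ := 2 * z.im / √3 with ht
  set s : ℝ := z.re + t / 2 with hs
  have h3 := sqrt3_pos
  have hz : ∀ a b : ℤ, Complex.normSq (z - eis a b) =
      (s - a) ^ 2 - (s - a) * (t - b) + (t - b) ^ 2 := by
    intro a b
    have e1 : z.im = √3 / 2 * t := by rw [ht]; field_simp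
    have e2 : z.re = s - t / 2 := by rw [hs]; ring
    rw [Complex.normSq_apply, Complex.sub_re, Complex.sub_im, eis_re, eis_im, e1, e2]
    nlinarith [sq3]
  set a : ℤ := ⌊s⌋
  set b : ℤ := ⌊t⌋
  set x : ℝ := s - a with hx
  set y : ℝ := t - b with hy
  have x0 : 0 ≤ x := by have := Int.floor_le s; rw [hx]; linarith
  have x1 : x < 1 := by have := Int.lt_floor_add_one s; rw [hx]; linarith
  have y0 : 0 ≤ y := by have := Int.floor_le t; rw [hy]; linarith
  have y1 : y < 1 := by have := Int.lt_floor_add_one t; rw [hy]; linarith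
  by_contra hcon
  push Not at hcon
  have A := hcon _ (eis_mem a b)
  have B := hcon _ (eis_mem (a + 1) b)
  have C := hcon _ (eis_mem a (b + 1))
  have D := hcon _ (eis_mem (a + 1) (b + 1))
  rw [hz] at A B C D
  push_cast at A B C D
  have eB : s - (a + 1) = x - 1 := by rw [hx]; ring
  have eC : t - (b + 1) = y - 1 := by rw [hy]; ring
  rw [← hx, ← hy] at A
  rw [eB, ← hy] at B
  rw [← hx, eC] at C
  rw [eB, eC] at D
  rcases le_total y x with hxy | hxy
  · -- triangle 0, 1, 1 + ω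
    have h1 : 0 ≤ 1 - x := by linarith
    have h2 : 0 ≤ x - y := by linarith
    nlinarith [mul_nonneg h1 (sub_nonneg.mpr A.le), mul_nonneg h2 (sub_nonneg.mpr B.le),
      mul_nonneg y0 (sub_nonneg.mpr D.le), sq_nonneg ((1 - x) - (x - y)),
      sq_nonneg ((1 - x) - y), sq_nonneg ((x - y) - y)]
  · have h1 : 0 ≤ 1 - y := by linarith
    have h2 : 0 ≤ y - x := by linarith
    nlinarith [mul_nonneg h1 (sub_nonneg.mpr A.le), mul_nonneg h2 (sub_nonneg.mpr C.le),
      mul_nonneg x0 (sub_nonneg.mpr D.le), sq_nonneg ((1 - y) - (y - x)),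
      sq_nonneg ((1 - y) - x), sq_nonneg ((y - x) - x)]

end

end Pool.Agent.Lib.H56.Picard
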