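import Pool.Agent.Lib.H56.Picard.Deriv

/-!
# The invariant measure
-/

namespace Pool.Agent.Lib.H56.Picard

open Matrix MeasureTheory
open scoped Pointwise

noncomputable section

lemma continuous_height : Continuous height := by
  unfold height
  exact ((continuous_const.mul (Complex.continuous_re.comp continuous_fst)).neg).sub
    (Complex.continuous_normSq.comp continuous_snd)

lemma isOpen_siegel : IsOpen {z : ℂ × ℂ | 0 < height z} :=
  isOpen_lt continuous_const continuous_height

lemma measurableSet_siegel : MeasurableSet {z : ℂ × ℂ | 0 < height z} :=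
  isOpen_siegel.measurableSet

/-- The invariant measure `u⁻³` times Lebesgue measure on the Siegel domain. -/
def mu : Measure X :=
  (Measure.comap Subtype.val volume).withDensity
    (fun z => ENNReal.ofReal ((height z.1)⁻¹ ^ 3))

lemma measurable_dens : Measurable fun z : ℂ × ℂ => ENNReal.ofReal ((height z)⁻¹ ^ 3) :=
  ENNReal.measurable_ofReal.comp ((continuous_height.measurable.inv).pow_const 3)

lemma mu_apply {s : Set X} (hs : MeasurableSet s) :
    mu s = ∫⁻ z in Subtype.val '' s, ENNReal.ofReal ((height z)⁻¹ ^ 3) := by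
  unfold mu
  rw [withDensity_apply _ hs]
  exact setLIntegral_subtype measurableSet_siegel s
    (fun z => ENNReal.ofReal ((height z)⁻¹ ^ 3))

lemma measurable_dens_X :
    Measurable fun z : X => ENNReal.ofReal ((height z.1)⁻¹ ^ 3) :=
  measurable_dens.comp measurable_subtype_coe

/-- Integration against `mu` in ambient coordinates. -/
lemma lintegral_mu (φ : ℂ × ℂ → ENNReal) (hφ : Measurable φ) :
    ∫⁻ z, φ z.1 ∂mu =
      ∫⁻ z in {z : ℂ × ℂ | 0 < height z}, ENNReal.ofReal ((height z)⁻¹ ^ 3) * φ z := by
  unfold mu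
  have h1 := lintegral_withDensity_eq_lintegral_mul (Measure.comap Subtype.val volume)
    measurable_dens_X (g := fun z : X => φ z.1) (hφ.comp measurable_subtype_coe)
  rw [h1]
  exact lintegral_subtype_comap measurableSet_siegel
    (fun z => ENNReal.ofReal ((height z)⁻¹ ^ 3) * φ z)

lemma image_smul (g : SU21) (s : Set X) :
    (Subtype.val '' (g • s) : Set (ℂ × ℂ)) = act (mat g) '' (Subtype.val '' s) := by
  ext w
  constructor
  · rintro ⟨z, ⟨y, hy, rfl⟩, rfl⟩
    exact ⟨y.1, ⟨y, hy, rfl⟩, rfl⟩
  · rintro ⟨_, ⟨y, hy, rfl⟩, rfl⟩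
    exact ⟨g • y, ⟨y, hy, rfl⟩, rfl⟩

lemma injOn_act (g : SU21) : Set.InjOn (act (mat g)) {z : ℂ × ℂ | 0 < height z} := by
  intro z hz w hw h
  have h1 : g • (⟨z, hz⟩ : X) = g • (⟨w, hw⟩ : X) := Subtype.ext h
  have h2 := MulAction.injective g h1
  exact congrArg Subtype.val h2

lemma det_real_dact (g : SU21) {z : ℂ × ℂ} (hz : 0 < height z) :
    |((dact (mat g) z).restrictScalars ℝ).det| = (Complex.normSq (jf (mat g) z))⁻¹ ^ 3 := by
  have hj := jf_ne_zero (mat_unitary g) hz
  have h1 : ((dact (mat g) z).restrictScalars ℝ).det =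
      Algebra.norm ℝ (LinearMap.det (dact (mat g) z : ℂ × ℂ →ₗ[ℂ] ℂ × ℂ)) := by
    rw [← LinearMap.det_restrictScalars]
    rfl
  rw [h1, det_dact hj, Algebra.norm_complex_apply, g.2.2, map_div₀, map_pow, map_one,
    abs_of_nonneg (div_nonneg zero_le_one (pow_nonneg (Complex.normSq_nonneg _) _))]
  rw [one_div, inv_pow]

lemma continuous_act_smul (g : SU21) : Continuous fun z : X => g • z := by
  rw [continuous_induced_rng]
  rw [continuous_iff_continuousAt]
  intro z
  have h := (hasFDerivAt_act (jf_ne_zero (mat_unitary g) z.2)).continuousAt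
  exact h.comp continuous_subtype_val.continuousAt

instance : MeasurableConstSMul SU21 X where
  measurable_const_smul g := (continuous_act_smul g).measurable

instance instHaarCC : (volume : Measure (ℂ × ℂ)).IsAddHaarMeasure := by
  rw [Measure.volume_eq_prod]; infer_instance

lemma mu_smul (g : SU21) {s : Set X} (hs : MeasurableSet s) : mu (g • s) = mu s := by
  have hgs : MeasurableSet (g • s) := hs.const_smul g
  rw [mu_apply hgs, mu_apply hs, image_smul]
  have hsub : (Subtype.val '' s : Set (ℂ × ℂ)) ⊆ {z : ℂ × ℂ | 0 < height z} := by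
    rintro _ ⟨y, _, rfl⟩; exact y.2
  have hms : MeasurableSet (Subtype.val '' s : Set (ℂ × ℂ)) :=
    (MeasurableEmbedding.subtype_coe measurableSet_siegel).measurableSet_image.mpr hs
  rw [lintegral_image_eq_lintegral_abs_det_fderiv_mul volume hms
    (f' := fun z => (dact (mat g) z).restrictScalars ℝ)
    (fun z hz => ((hasFDerivAt_act (jf_ne_zero (mat_unitary g) (hsub hz))).restrictScalars
      ℝ).hasFDerivWithinAt) ((injOn_act g).mono hsub)]
  apply setLIntegral_congr_fun hms
  intro z hz
  have hz' := hsub hz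
  have hj := jf_ne_zero (mat_unitary g) hz'
  have hn : 0 < Complex.normSq (jf (mat g) z) := Complex.normSq_pos.mpr hj
  simp only
  rw [det_real_dact g hz', height_act (mat_unitary g) hz', ← ENNReal.ofReal_mul (by positivity)]
  congr 1
  have hz'' : 0 < height z := hz'
  field_simp

instance : SMulInvariantMeasure SU21 X mu where
  measure_preimage_smul g s hs := by
    rw [Set.preimage_smul]
    exact mu_smul g⁻¹ hs

end

end Pool.Agent.Lib.H56.Picard
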