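import Pool.Agent.Lib.H56.Picard.Energy
import Pool.Agent.Lib.H56.Picard.Measure

/-!
# Green's identity, part 1: the frame, the polarised energy form, the divergence lemma
-/

namespace Pool.Agent.Lib.H56.Picard

open Matrix MeasureTheory Topology

noncomputable section

/-- The four directions of the frame. -/
def fr (i : Fin 4) (z : ℂ × ℂ) : ℂ × ℂ :=
  match i with
  | 0 => (1 / 2, 0)
  | 1 => (Complex.I / 2, 0)
  | 2 => (-star z.2, 1)
  | 3 => (-(Complex.I * star z.2), Complex.I)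

/-- The weights of the frame. -/
def wt (i : Fin 4) (u : ℝ) : ℝ :=
  match i with
  | 0 => u ^ 2
  | 1 => u ^ 2
  | 2 => u / 4
  | 3 => u / 4

lemma wt_nonneg (i : Fin 4) {u : ℝ} (hu : 0 ≤ u) : 0 ≤ wt i u := by
  fin_cases i <;> simp [wt] <;> positivity

/-- The polarised energy form. -/
def Bf (z : ℂ × ℂ) (L M : ℂ × ℂ →L[ℝ] ℝ) : ℝ :=
  ∑ i : Fin 4, wt i (height z) * (L (fr i z) * M (fr i z))

lemma Bf_self (z : ℂ × ℂ) (L : ℂ × ℂ →L[ℝ] ℝ) : Bf z L L = normL z L := by
  simp only [Bf, Fin.sum_univ_four, wt, fr, normL]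
  ring

lemma Bf_comm (z : ℂ × ℂ) (L M : ℂ × ℂ →L[ℝ] ℝ) : Bf z L M = Bf z M L := by
  simp only [Bf, mul_comm (L _)]

lemma Bf_add_left (z : ℂ × ℂ) (L L' M : ℂ × ℂ →L[ℝ] ℝ) :
    Bf z (L + L') M = Bf z L M + Bf z L' M := by
  simp only [Bf, _root_.add_apply, ← Finset.sum_add_distrib]
  refine Finset.sum_congr rfl fun i _ => by ring

lemma Bf_smul_left (z : ℂ × ℂ) (c : ℝ) (L M : ℂ × ℂ →L[ℝ] ℝ) :
    Bf z (c • L) M = c * Bf z L M := by
  simp only [Bf, _root_.smul_apply, Finset.mul_sum, smul_eq_mul]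
  refine Finset.sum_congr rfl fun i _ => by ring

lemma Bf_zero_left (z : ℂ × ℂ) (M : ℂ × ℂ →L[ℝ] ℝ) : Bf z 0 M = 0 := by
  simp [Bf]

lemma Bf_sum_left {ι : Type*} (s : Finset ι) (z : ℂ × ℂ) (L : ι → ℂ × ℂ →L[ℝ] ℝ)
    (M : ℂ × ℂ →L[ℝ] ℝ) : Bf z (∑ j ∈ s, L j) M = ∑ j ∈ s, Bf z (L j) M := by
  classical
  induction s using Finset.induction_on with
  | empty => simp [Bf_zero_left]
  | insert a s ha ih => rw [Finset.sum_insert ha, Finset.sum_insert ha, Bf_add_left, ih]

lemma normL_nonneg {z : ℂ × ℂ} (hz : 0 ≤ height z) (L : ℂ × ℂ →L[ℝ] ℝ) : 0 ≤ normL z L := by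
  rw [← Bf_self]
  exact Finset.sum_nonneg fun i _ => mul_nonneg (wt_nonneg i hz) (mul_self_nonneg _)

lemma normL_smul (z : ℂ × ℂ) (c : ℝ) (L : ℂ × ℂ →L[ℝ] ℝ) :
    normL z (c • L) = c ^ 2 * normL z L := by
  rw [← Bf_self, Bf_smul_left, Bf_comm, Bf_smul_left, Bf_self]
  ring

lemma normL_zero (z : ℂ × ℂ) : normL z 0 = 0 := by
  rw [← Bf_self, Bf_zero_left]

lemma Bf_polar (z : ℂ × ℂ) (L M : ℂ × ℂ →L[ℝ] ℝ) :
    Bf z L M = (normL z (L + M) - normL z L - normL z M) / 2 := by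
  rw [← Bf_self, ← Bf_self, ← Bf_self, Bf_add_left, Bf_comm z L (L + M), Bf_comm z M (L + M),
    Bf_add_left, Bf_add_left, Bf_comm z M L]
  ring

/-- Invariance of the polarised energy form. -/
lemma Bf_comp (g : SU21) {z : ℂ × ℂ} (hz : 0 < height z) (L M : ℂ × ℂ →L[ℝ] ℝ) :
    Bf z (L.comp ((dact (mat g) z).restrictScalars ℝ)) (M.comp ((dact (mat g) z).restrictScalars ℝ))
      = Bf (act (mat g) z) L M := by
  rw [Bf_polar, Bf_polar, ← ContinuousLinearMap.add_comp, normL_comp g hz, normL_comp g hz,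
    normL_comp g hz]

/-- Cauchy–Schwarz for the energy form. -/
lemma Bf_sq_le {z : ℂ × ℂ} (hz : 0 ≤ height z) (L M : ℂ × ℂ →L[ℝ] ℝ) :
    Bf z L M ^ 2 ≤ normL z L * normL z M := by
  rw [← Bf_self, ← Bf_self]
  unfold Bf
  have h := Finset.sum_mul_sq_le_sq_mul_sq Finset.univ
    (fun i : Fin 4 => Real.sqrt (wt i (height z)) * L (fr i z))
    (fun i : Fin 4 => Real.sqrt (wt i (height z)) * M (fr i z))
  have e1 : ∀ i : Fin 4, Real.sqrt (wt i (height z)) * L (fr i z) *
      (Real.sqrt (wt i (height z)) * M (fr i z)) = wt i (height z) * (L (fr i z) * M (fr i z)) := by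
    intro i
    have := Real.mul_self_sqrt (wt_nonneg i hz)
    linear_combination (L (fr i z) * M (fr i z)) * this
  have e2 : ∀ (K : ℂ × ℂ →L[ℝ] ℝ) (i : Fin 4), (Real.sqrt (wt i (height z)) * K (fr i z)) ^ 2 =
      wt i (height z) * (K (fr i z) * K (fr i z)) := by
    intro K i
    have := Real.mul_self_sqrt (wt_nonneg i hz)
    linear_combination (K (fr i z) * K (fr i z)) * this
  simp only [e1, e2] at h
  exact h

lemma continuous_fr (i : Fin 4) : Continuous (fr i) := by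
  fin_cases i
  · exact continuous_const
  · exact continuous_const
  · exact ((continuous_snd.star).neg).prodMk continuous_const
  · exact ((continuous_const.mul (continuous_snd.star)).neg).prodMk continuous_const

/-- The real linear part of the frame. -/
def dfr (i : Fin 4) : ℂ × ℂ →L[ℝ] ℂ × ℂ :=
  match i with
  | 0 => 0
  | 1 => 0
  | 2 => (-(Complex.conjCLE.toContinuousLinearMap.comp (ContinuousLinearMap.snd ℝ ℂ ℂ))).prod 0
  | 3 => (-((ContinuousLinearMap.mul ℝ ℂ Complex.I).comp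
      (Complex.conjCLE.toContinuousLinearMap.comp (ContinuousLinearMap.snd ℝ ℂ ℂ)))).prod 0

lemma dfr_two (h : ℂ × ℂ) : dfr 2 h = (-star h.2, 0) := by
  simp [dfr]

lemma dfr_three (h : ℂ × ℂ) : dfr 3 h = (-(Complex.I * star h.2), 0) := by
  simp [dfr]

lemma hasFDerivAt_fr (i : Fin 4) (z : ℂ × ℂ) : HasFDerivAt (fr i) (dfr i) z := by
  fin_cases i
  · exact hasFDerivAt_const _ _
  · exact hasFDerivAt_const _ _
  · have h : fr 2 = fun z : ℂ × ℂ => dfr 2 z + (0, 1) := by
      funext z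
      rw [dfr_two]
      simp [fr]
    change HasFDerivAt (fr 2) (dfr 2) z
    rw [h]
    exact (dfr 2).hasFDerivAt.add_const _
  · have h : fr 3 = fun z : ℂ × ℂ => dfr 3 z + (0, Complex.I) := by
      funext z
      rw [dfr_three]
      simp [fr]
    change HasFDerivAt (fr 3) (dfr 3) z
    rw [h]
    exact (dfr 3).hasFDerivAt.add_const _

/-- The derivative of the height. -/
def dheight (z : ℂ × ℂ) : ℂ × ℂ →L[ℝ] ℝ :=
  -((2 : ℝ) • (Complex.reCLM.comp (ContinuousLinearMap.fst ℝ ℂ ℂ))) -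
    ((2 * z.2.re) • (Complex.reCLM.comp (ContinuousLinearMap.snd ℝ ℂ ℂ)) +
      (2 * z.2.im) • (Complex.imCLM.comp (ContinuousLinearMap.snd ℝ ℂ ℂ)))

lemma dheight_apply (z h : ℂ × ℂ) :
    dheight z h = -(2 * h.1.re) - (2 * z.2.re * h.2.re + 2 * z.2.im * h.2.im) := by
  simp [dheight]

lemma hasFDerivAt_height (z : ℂ × ℂ) : HasFDerivAt height (dheight z) z := by
  have h1 : HasFDerivAt (fun z : ℂ × ℂ => z.1.re)
      (Complex.reCLM.comp (ContinuousLinearMap.fst ℝ ℂ ℂ)) z :=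
    (Complex.reCLM.comp (ContinuousLinearMap.fst ℝ ℂ ℂ)).hasFDerivAt
  have h2 : HasFDerivAt (fun z : ℂ × ℂ => z.2.re)
      (Complex.reCLM.comp (ContinuousLinearMap.snd ℝ ℂ ℂ)) z :=
    (Complex.reCLM.comp (ContinuousLinearMap.snd ℝ ℂ ℂ)).hasFDerivAt
  have h3 : HasFDerivAt (fun z : ℂ × ℂ => z.2.im)
      (Complex.imCLM.comp (ContinuousLinearMap.snd ℝ ℂ ℂ)) z :=
    (Complex.imCLM.comp (ContinuousLinearMap.snd ℝ ℂ ℂ)).hasFDerivAt
  have h4 := ((h1.const_mul 2).neg).sub ((h2.mul h2).add (h3.mul h3))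
  refine (h4.congr_of_eventuallyEq (Filter.Eventually.of_forall fun w => ?_)).congr_fderiv ?_
  · simp [height, Complex.normSq_apply]
  · ext h
    all_goals
      simp [dheight]
    all_goals ring

lemma contDiff_height : ContDiff ℝ ⊤ height := by
  unfold height
  have h1 : ContDiff ℝ ⊤ (fun z : ℂ × ℂ => z.1.re) :=
    (Complex.reCLM.comp (ContinuousLinearMap.fst ℝ ℂ ℂ)).contDiff
  have h2 : ContDiff ℝ ⊤ (fun z : ℂ × ℂ => z.2.re) :=
    (Complex.reCLM.comp (ContinuousLinearMap.snd ℝ ℂ ℂ)).contDiff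
  have h3 : ContDiff ℝ ⊤ (fun z : ℂ × ℂ => z.2.im) :=
    (Complex.imCLM.comp (ContinuousLinearMap.snd ℝ ℂ ℂ)).contDiff
  simp only [Complex.normSq_apply]
  exact ((contDiff_const.mul h1).neg).sub ((h2.mul h2).add (h3.mul h3))

lemma contDiff_fr (i : Fin 4) : ContDiff ℝ ⊤ (fr i) := by
  fin_cases i
  · exact contDiff_const
  · exact contDiff_const
  · have h : fr 2 = fun z : ℂ × ℂ => dfr 2 z + (0, 1) := by
      funext z
      rw [dfr_two]
      simp [fr]
    change ContDiff ℝ ⊤ (fr 2)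
    rw [h]
    exact (dfr 2).contDiff.add contDiff_const
  · have h : fr 3 = fun z : ℂ × ℂ => dfr 3 z + (0, Complex.I) := by
      funext z
      rw [dfr_three]
      simp [fr]
    change ContDiff ℝ ⊤ (fr 3)
    rw [h]
    exact (dfr 3).contDiff.add contDiff_const

/-- The integral of a directional derivative of a compactly supported function vanishes. -/
lemma integral_fderiv_const_eq_zero {ψ : ℂ × ℂ → ℝ} (hψ : ContDiff ℝ 1 ψ)
    (hc : HasCompactSupport ψ) (v : ℂ × ℂ) : ∫ z, fderiv ℝ ψ z v = 0 := by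
  have hcont : Continuous fun z => fderiv ℝ ψ z v :=
    (hψ.continuous_fderiv (by norm_num)).clm_apply continuous_const
  have hcs : HasCompactSupport fun z => fderiv ℝ ψ z v := hc.fderiv_apply ℝ v
  have h := integral_mul_fderiv_eq_neg_fderiv_mul_of_integrable (μ := (volume : Measure (ℂ × ℂ)))
    (f := fun _ => (1 : ℝ)) (g := ψ) (v := v) ?_ ?_ ?_ ?_ ?_
  · simpa using h
  · simp
  · simpa using hcont.integrable_of_hasCompactSupport hcs
  · simpa using hψ.continuous.integrable_of_hasCompactSupport hc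
  · intro x _
    exact differentiableAt_const _
  · intro x _
    exact (hψ.differentiable (by norm_num)).differentiableAt

/-- The frame fields are divergence free. -/
lemma integral_fderiv_fr_eq_zero {ψ : ℂ × ℂ → ℝ} (hψ : ContDiff ℝ 1 ψ)
    (hc : HasCompactSupport ψ) (i : Fin 4) : ∫ z, fderiv ℝ ψ z (fr i z) = 0 := by
  have key : ∀ (m : ℂ × ℂ →L[ℝ] ℝ) (v : ℂ × ℂ), m v = 0 →
      ∫ z, m z * fderiv ℝ ψ z v = 0 := by
    intro m v hmv
    have hψ' : ContDiff ℝ 1 fun z => m z * ψ z := m.contDiff.mul hψ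
    have hc' : HasCompactSupport fun z => m z * ψ z := hc.mul_left
    have h := integral_fderiv_const_eq_zero hψ' hc' v
    have e : ∀ z, fderiv ℝ (fun z => m z * ψ z) z v = m z * fderiv ℝ ψ z v := by
      intro z
      have h1 := (m.hasFDerivAt (x := z)).mul
        ((hψ.differentiable (by norm_num)).differentiableAt (x := z)).hasFDerivAt
      have h2 : fderiv ℝ (fun z => m z * ψ z) z = m z • fderiv ℝ ψ z + ψ z • m := h1.fderiv
      rw [h2]
      simp [hmv]
    simpa only [e] using h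
  have hint : ∀ (m : ℂ × ℂ →L[ℝ] ℝ) (v : ℂ × ℂ), Integrable fun z => m z * fderiv ℝ ψ z v := by
    intro m v
    have hcont : Continuous fun z => m z * fderiv ℝ ψ z v :=
      m.continuous.mul ((hψ.continuous_fderiv (by norm_num)).clm_apply continuous_const)
    exact hcont.integrable_of_hasCompactSupport ((hc.fderiv_apply ℝ v).mul_left)
  have hint0 : ∀ (v : ℂ × ℂ), Integrable fun z => fderiv ℝ ψ z v := by
    intro v
    have hcont : Continuous fun z => fderiv ℝ ψ z v :=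
      ((hψ.continuous_fderiv (by norm_num)).clm_apply continuous_const)
    exact hcont.integrable_of_hasCompactSupport (hc.fderiv_apply ℝ v)
  set mre : ℂ × ℂ →L[ℝ] ℝ := Complex.reCLM.comp (ContinuousLinearMap.snd ℝ ℂ ℂ) with hmre
  set mim : ℂ × ℂ →L[ℝ] ℝ := Complex.imCLM.comp (ContinuousLinearMap.snd ℝ ℂ ℂ) with hmim
  have hre : ∀ z : ℂ × ℂ, mre z = z.2.re := fun z => rfl
  have him : ∀ z : ℂ × ℂ, mim z = z.2.im := fun z => rfl
  fin_cases i
  · exact integral_fderiv_const_eq_zero hψ hc _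
  · exact integral_fderiv_const_eq_zero hψ hc _
  · have e : ∀ z, fderiv ℝ ψ z (fr 2 z) = fderiv ℝ ψ z (0, 1) - mre z * fderiv ℝ ψ z (1, 0)
        + mim z * fderiv ℝ ψ z (Complex.I, 0) := by
      intro z
      have : fr 2 z = ((0, 1) : ℂ × ℂ) - mre z • ((1, 0) : ℂ × ℂ)
          + mim z • ((Complex.I, 0) : ℂ × ℂ) := by
        rw [hre, him]
        simp only [fr]
        apply Prod.ext
        · apply Complex.ext <;> simp
        · simp
      rw [this, map_add, map_sub, map_smul, map_smul]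
      rfl
    change ∫ z, fderiv ℝ ψ z (fr 2 z) = 0
    simp only [e]
    have hs : Integrable (fun z => fderiv ℝ ψ z (0, 1) - mre z * fderiv ℝ ψ z (1, 0)) :=
      (hint0 _).sub (hint _ _)
    rw [integral_add hs (hint _ _), integral_sub (hint0 _) (hint _ _),
      integral_fderiv_const_eq_zero hψ hc, key mre (1, 0) (by simp [hmre]),
      key mim (Complex.I, 0) (by simp [hmim])]
    simp
  · have e : ∀ z, fderiv ℝ ψ z (fr 3 z) = fderiv ℝ ψ z (0, Complex.I)
        - mre z * fderiv ℝ ψ z (Complex.I, 0) - mim z * fderiv ℝ ψ z (1, 0) := by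
      intro z
      have : fr 3 z = ((0, Complex.I) : ℂ × ℂ) - mre z • ((Complex.I, 0) : ℂ × ℂ)
          - mim z • ((1, 0) : ℂ × ℂ) := by
        rw [hre, him]
        simp only [fr]
        apply Prod.ext
        · apply Complex.ext <;> simp
        · simp
      rw [this, map_sub, map_sub, map_smul, map_smul]
      rfl
    change ∫ z, fderiv ℝ ψ z (fr 3 z) = 0
    simp only [e]
    have hs : Integrable (fun z => fderiv ℝ ψ z (0, Complex.I) -
        mre z * fderiv ℝ ψ z (Complex.I, 0)) := (hint0 _).sub (hint _ _)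
    rw [integral_sub hs (hint _ _), integral_sub (hint0 _) (hint _ _),
      integral_fderiv_const_eq_zero hψ hc, key mre (Complex.I, 0) (by simp [hmre]),
      key mim (1, 0) (by simp [hmim])]
    simp

end

end Pool.Agent.Lib.H56.Picard
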