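import Pool.Agent.Lib.H56.Picard.Green1

/-!
# Green's identity, part 2: the weak form of the eigenvalue equation
-/

namespace Pool.Agent.Lib.H56.Picard

open Matrix MeasureTheory Topology

noncomputable section

/-- The Siegel domain as a subset of `ℂ × ℂ`. -/
def U : Set (ℂ × ℂ) := {z | 0 < height z}

lemma mem_U {z : ℂ × ℂ} : z ∈ U ↔ 0 < height z := Iff.rfl

lemma isOpen_U : IsOpen U := isOpen_siegel

/-- The Laplacian of a real function. -/
def lapR (g : ℂ × ℂ → ℝ) (z : ℂ × ℂ) : ℝ :=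
  ∑ i : Fin 4, wt i (height z) * fderiv ℝ (fderiv ℝ g) z (fr i z) (fr i z)

/-- Densities of the frame. -/
def cu (i : Fin 4) (u : ℝ) : ℝ :=
  match i with
  | 0 => u⁻¹
  | 1 => u⁻¹
  | 2 => u⁻¹ ^ 2 / 4
  | 3 => u⁻¹ ^ 2 / 4

/-- Derivatives of the densities. -/
def dcu (i : Fin 4) (u : ℝ) : ℝ :=
  match i with
  | 0 => -(u ^ 2)⁻¹
  | 1 => -(u ^ 2)⁻¹
  | 2 => 2 * u⁻¹ * -(u ^ 2)⁻¹ / 4
  | 3 => 2 * u⁻¹ * -(u ^ 2)⁻¹ / 4

lemma cu_eq (i : Fin 4) {u : ℝ} (hu : u ≠ 0) : cu i u = wt i u * u⁻¹ ^ 3 := by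
  fin_cases i <;> simp [cu, wt] <;> field_simp

lemma hasDerivAt_cu (i : Fin 4) {u : ℝ} (hu : u ≠ 0) : HasDerivAt (cu i) (dcu i u) u := by
  have h := hasDerivAt_inv hu
  have h2 : HasDerivAt (fun u : ℝ => u⁻¹ ^ 2 / 4) (2 * u⁻¹ * -(u ^ 2)⁻¹ / 4) u := by
    have h3 := (h.pow 2).div_const 4
    refine (h3.congr_of_eventuallyEq (Filter.Eventually.of_forall fun x => ?_)).congr_deriv ?_
    · simp
    · simp
  fin_cases i
  · exact h
  · exact h
  · exact h2
  · exact h2

lemma contDiffOn_cu_height (i : Fin 4) : ContDiffOn ℝ 1 (fun z => cu i (height z)) U := by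
  have h : ContDiffOn ℝ 1 (fun z : ℂ × ℂ => (height z)⁻¹) U :=
    (contDiff_height.of_le le_top).contDiffOn.inv fun z hz => (mem_U.mp hz).ne'
  have h2 : ContDiffOn ℝ 1 (fun z : ℂ × ℂ => (height z)⁻¹ ^ 2 / 4) U := (h.pow 2).div_const 4
  fin_cases i
  · exact h
  · exact h
  · exact h2
  · exact h2

/-- The components of the vector field `u⁻³ ∇ g`. -/
def Gf (g : ℂ × ℂ → ℝ) (i : Fin 4) (z : ℂ × ℂ) : ℝ := cu i (height z) * fderiv ℝ g z (fr i z)

lemma contDiffOn_Gf {g : ℂ × ℂ → ℝ} (hg : ContDiffOn ℝ 2 g U) (i : Fin 4) :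
    ContDiffOn ℝ 1 (Gf g i) U := by
  have h1 : ContDiffOn ℝ 1 (fderiv ℝ g) U := hg.fderiv_of_isOpen isOpen_U (by norm_num)
  exact (contDiffOn_cu_height i).mul
    (h1.clm_apply ((contDiff_fr i).of_le le_top).contDiffOn)

lemma fderiv_Gf {g : ℂ × ℂ → ℝ} (hg : ContDiffOn ℝ 2 g U) (i : Fin 4) {z : ℂ × ℂ} (hz : z ∈ U)
    (v : ℂ × ℂ) : fderiv ℝ (Gf g i) z v =
      cu i (height z) * (fderiv ℝ (fderiv ℝ g) z v (fr i z) + fderiv ℝ g z (dfr i v)) +
        dcu i (height z) * dheight z v * fderiv ℝ g z (fr i z) := by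
  have h1 : ContDiffOn ℝ 1 (fderiv ℝ g) U := hg.fderiv_of_isOpen isOpen_U (by norm_num)
  have h2 : HasFDerivAt (fderiv ℝ g) (fderiv ℝ (fderiv ℝ g) z) z :=
    ((h1.contDiffAt (isOpen_U.mem_nhds hz)).differentiableAt (by norm_num)).hasFDerivAt
  have h3 := h2.clm_apply (hasFDerivAt_fr i z)
  have h4 : HasFDerivAt (fun z => cu i (height z)) (dcu i (height z) • dheight z) z :=
    (hasDerivAt_cu i (mem_U.mp hz).ne').comp_hasFDerivAt z (hasFDerivAt_height z)
  have h5 := h4.mul h3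
  have h6 : fderiv ℝ (Gf g i) z = _ := h5.fderiv
  rw [h6]
  simp only [_root_.add_apply, _root_.smul_apply, smul_eq_mul, ContinuousLinearMap.comp_apply,
    ContinuousLinearMap.flip_apply]
  ring

lemma sum_fderiv_Gf {g : ℂ × ℂ → ℝ} (hg : ContDiffOn ℝ 2 g U) {z : ℂ × ℂ} (hz : z ∈ U) :
    ∑ i : Fin 4, fderiv ℝ (Gf g i) z (fr i z) = (height z)⁻¹ ^ 3 * lapR g z := by
  have hu : height z ≠ 0 := (mem_U.mp hz).ne'
  simp only [fderiv_Gf hg _ hz]
  have e : ∀ i : Fin 4, cu i (height z) * (fderiv ℝ (fderiv ℝ g) z (fr i z) (fr i z) +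
      fderiv ℝ g z (dfr i (fr i z))) + dcu i (height z) * dheight z (fr i z) *
        fderiv ℝ g z (fr i z) =
      (height z)⁻¹ ^ 3 * (wt i (height z) * fderiv ℝ (fderiv ℝ g) z (fr i z) (fr i z)) +
      (cu i (height z) * fderiv ℝ g z (dfr i (fr i z)) + dcu i (height z) * dheight z (fr i z) *
        fderiv ℝ g z (fr i z)) := by
    intro i
    rw [cu_eq i hu]
    ring
  simp only [e]
  rw [Finset.sum_add_distrib, ← Finset.mul_sum]
  have h0 : ∑ i : Fin 4, (cu i (height z) * fderiv ℝ g z (dfr i (fr i z)) +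
      dcu i (height z) * dheight z (fr i z) * fderiv ℝ g z (fr i z)) = 0 := by
    rw [Fin.sum_univ_four]
    have d0 : dheight z (fr 0 z) = -1 := by rw [dheight_apply]; simp [fr]
    have d1 : dheight z (fr 1 z) = 0 := by rw [dheight_apply]; simp [fr]
    have d2 : dheight z (fr 2 z) = 0 := by rw [dheight_apply]; simp [fr]
    have d3 : dheight z (fr 3 z) = 0 := by rw [dheight_apply]; simp [fr]
    have f0 : dfr 0 (fr 0 z) = 0 := rfl
    have f1 : dfr 1 (fr 1 z) = 0 := rfl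
    have f2 : dfr 2 (fr 2 z) = (-2 : ℝ) • ((1 / 2, 0) : ℂ × ℂ) := by
      rw [dfr_two]
      simp [fr]
    have f3 : dfr 3 (fr 3 z) = (-2 : ℝ) • ((1 / 2, 0) : ℂ × ℂ) := by
      rw [dfr_three]
      simp [fr]
    rw [d0, d1, d2, d3, f0, f1, f2, f3, map_zero, map_smul]
    simp only [fr, cu, dcu, smul_eq_mul]
    field_simp
    ring
  rw [h0, add_zero]
  rfl

lemma contDiff_mul_of_tsupport {h G : ℂ × ℂ → ℝ} (hh : ContDiff ℝ 1 h) (hs : tsupport h ⊆ U)
    (hG : ContDiffOn ℝ 1 G U) : ContDiff ℝ 1 fun z => h z * G z := by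
  rw [contDiff_iff_contDiffAt]
  intro z
  by_cases hz : z ∈ U
  · exact hh.contDiffAt.mul (hG.contDiffAt (isOpen_U.mem_nhds hz))
  · have h0 : h =ᶠ[𝓝 z] 0 := notMem_tsupport_iff_eventuallyEq.mp fun h => hz (hs h)
    have h1 : (fun z => h z * G z) =ᶠ[𝓝 z] fun _ => 0 := by
      filter_upwards [h0] with w hw
      simp [hw]
    exact contDiffAt_const.congr_of_eventuallyEq h1

lemma fderiv_mul_of_tsupport {h G : ℂ × ℂ → ℝ} (hh : ContDiff ℝ 1 h) (hs : tsupport h ⊆ U)
    (hG : ContDiffOn ℝ 1 G U) (z v : ℂ × ℂ) :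
    fderiv ℝ (fun z => h z * G z) z v = fderiv ℝ h z v * G z + h z * fderiv ℝ G z v := by
  by_cases hz : z ∈ U
  · have h1 := (hh.differentiable (by norm_num)).differentiableAt (x := z)
    have h2 := (hG.contDiffAt (isOpen_U.mem_nhds hz)).differentiableAt (by norm_num)
    rw [fderiv_fun_mul h1 h2]
    simp
    ring
  · have h0 : h =ᶠ[𝓝 z] 0 := notMem_tsupport_iff_eventuallyEq.mp fun h => hz (hs h)
    have h1 : (fun z => h z * G z) =ᶠ[𝓝 z] fun _ => 0 := by
      filter_upwards [h0] with w hw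
      simp [hw]
    rw [h1.fderiv_eq, h0.fderiv_eq, h0.eq_of_nhds]
    simp [Pi.zero_def]

/-- The weak form of Green's identity in the ambient coordinates. -/
lemma green_volume {g h : ℂ × ℂ → ℝ} (hg : ContDiffOn ℝ 2 g U) (hh : ContDiff ℝ 1 h)
    (hc : HasCompactSupport h) (hs : tsupport h ⊆ U) :
    ∫ z in U, (height z)⁻¹ ^ 3 * (h z * lapR g z + Bf z (fderiv ℝ h z) (fderiv ℝ g z)) = 0 := by
  have h1 : ∀ i : Fin 4, ContDiff ℝ 1 fun z => h z * Gf g i z := fun i =>
    contDiff_mul_of_tsupport hh hs (contDiffOn_Gf hg i)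
  have hci : ∀ i : Fin 4, HasCompactSupport fun z => h z * Gf g i z := fun i => hc.mul_right
  have h2 : ∀ i : Fin 4, ∫ z, fderiv ℝ (fun z => h z * Gf g i z) z (fr i z) = 0 := fun i =>
    integral_fderiv_fr_eq_zero (h1 i) (hci i) i
  have hint : ∀ i : Fin 4, Integrable fun z => fderiv ℝ (fun z => h z * Gf g i z) z (fr i z) := by
    intro i
    have hcont : Continuous fun z => fderiv ℝ (fun z => h z * Gf g i z) z (fr i z) :=
      ((h1 i).continuous_fderiv (by norm_num)).clm_apply (continuous_fr i)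
    have hcs : HasCompactSupport fun z => fderiv ℝ (fun z => h z * Gf g i z) z (fr i z) := by
      apply (hci i).fderiv (𝕜 := ℝ) |>.mono
      intro z hz
      contrapose! hz
      simp only [Function.mem_support, ne_eq, not_not] at hz ⊢
      rw [hz]
      rfl
    exact hcont.integrable_of_hasCompactSupport hcs
  have h3 : ∫ z, ∑ i : Fin 4, fderiv ℝ (fun z => h z * Gf g i z) z (fr i z) = 0 := by
    rw [integral_finsetSum _ fun i _ => hint i]
    simp [h2]
  have e : ∀ z, (∑ i : Fin 4, fderiv ℝ (fun z => h z * Gf g i z) z (fr i z)) =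
      U.indicator (fun z => (height z)⁻¹ ^ 3 *
        (h z * lapR g z + Bf z (fderiv ℝ h z) (fderiv ℝ g z))) z := by
    intro z
    simp only [fun i => fderiv_mul_of_tsupport hh hs (contDiffOn_Gf hg i)]
    by_cases hz : z ∈ U
    · rw [Set.indicator_of_mem hz, Finset.sum_add_distrib, ← Finset.mul_sum, sum_fderiv_Gf hg hz]
      have : ∑ i : Fin 4, fderiv ℝ h z (fr i z) * Gf g i z =
          (height z)⁻¹ ^ 3 * Bf z (fderiv ℝ h z) (fderiv ℝ g z) := by
        unfold Bf Gf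
        rw [Finset.mul_sum]
        refine Finset.sum_congr rfl fun i _ => ?_
        rw [cu_eq i (mem_U.mp hz).ne']
        ring
      rw [this]
      ring
    · rw [Set.indicator_of_notMem hz]
      have h0 : h =ᶠ[𝓝 z] 0 := notMem_tsupport_iff_eventuallyEq.mp fun h => hz (hs h)
      rw [h0.fderiv_eq, h0.eq_of_nhds]
      simp [Pi.zero_def]
  simp only [e] at h3
  rw [integral_indicator isOpen_U.measurableSet] at h3
  exact h3

/-- Integration against `mu` in ambient coordinates (real valued functions). -/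
lemma integral_mu (φ : ℂ × ℂ → ℝ) :
    ∫ z : X, φ z.1 ∂mu = ∫ z in U, (height z)⁻¹ ^ 3 * φ z := by
  unfold mu
  have h1 : ∀ z : X, ENNReal.ofReal ((height z.1)⁻¹ ^ 3) =
      ((Real.toNNReal ((height z.1)⁻¹ ^ 3) : NNReal) : ENNReal) := fun z => rfl
  simp only [h1]
  rw [integral_withDensity_eq_integral_smul]
  · have h2 : ∀ z : X, (Real.toNNReal ((height z.1)⁻¹ ^ 3)) • φ z.1 =
        (fun w : ℂ × ℂ => (height w)⁻¹ ^ 3 * φ w) z.1 := by
      intro z
      have hz : 0 ≤ (height z.1)⁻¹ ^ 3 := by have := z.2; positivity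
      rw [NNReal.smul_def, Real.coe_toNNReal _ hz, smul_eq_mul]
    simp only [h2]
    exact integral_subtype_comap measurableSet_siegel (fun w : ℂ × ℂ => (height w)⁻¹ ^ 3 * φ w)
  · exact (((continuous_height.measurable.comp measurable_subtype_coe).inv).pow_const 3).real_toNNReal

/-- The weak form of Green's identity. -/
lemma green_mu {g h : ℂ × ℂ → ℝ} (hg : ContDiffOn ℝ 2 g U) (hh : ContDiff ℝ 1 h)
    (hc : HasCompactSupport h) (hs : tsupport h ⊆ U) :
    ∫ z : X, (h z.1 * lapR g z.1 + Bf z.1 (fderiv ℝ h z.1) (fderiv ℝ g z.1)) ∂mu = 0 := by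
  rw [integral_mu fun z => h z * lapR g z + Bf z (fderiv ℝ h z) (fderiv ℝ g z)]
  exact green_volume hg hh hc hs

instance : IsFiniteMeasureOnCompacts mu where
  lt_top_of_isCompact := by
    intro K hK
    rw [mu_apply hK.measurableSet]
    have hK' : IsCompact (Subtype.val '' K : Set (ℂ × ℂ)) := hK.image continuous_subtype_val
    have hsub : (Subtype.val '' K : Set (ℂ × ℂ)) ⊆ U := by
      rintro _ ⟨y, _, rfl⟩; exact y.2
    have hcont : ContinuousOn (fun z : ℂ × ℂ => (height z)⁻¹ ^ 3) (Subtype.val '' K) :=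
      (continuous_height.continuousOn.inv₀ fun z hz => (mem_U.mp (hsub hz)).ne').pow 3
    have h1 : IntegrableOn (fun z : ℂ × ℂ => (height z)⁻¹ ^ 3) (Subtype.val '' K) :=
      hcont.integrableOn_compact hK'
    have h2 := h1.2
    refine lt_of_le_of_lt (lintegral_mono fun z => ?_) h2
    exact Real.ofReal_le_enorm _

/-- A function continuous on the Siegel domain and vanishing off a compact subset is integrable. -/
lemma integrable_mu {φ : ℂ × ℂ → ℝ} {K : Set (ℂ × ℂ)} (hK : IsCompact K) (hKU : K ⊆ U)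
    (hφ : ContinuousOn φ U) (h0 : ∀ z ∈ U, z ∉ K → φ z = 0) :
    Integrable (fun z : X => φ z.1) mu := by
  have h1 : Continuous fun z : X => φ z.1 := by
    have := continuousOn_iff_continuous_domRestrict.mp hφ
    exact this
  refine h1.integrable_of_hasCompactSupport ?_
  have hK' : IsCompact (Subtype.val ⁻¹' K : Set X) := by
    rw [Subtype.isCompact_iff]
    have e : Subtype.val '' (Subtype.val ⁻¹' K : Set X) = K := by
      ext z
      constructor
      · rintro ⟨y, hy, rfl⟩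
        exact hy
      · intro hz
        exact ⟨⟨z, hKU hz⟩, hz, rfl⟩
    rwa [e]
  exact HasCompactSupport.intro hK' fun z hz => h0 z.1 z.2 hz

end

end Pool.Agent.Lib.H56.Picard
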