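import Pool.Agent.Lib.H56.Picard.Green2

/-!
# Green's identity, part 3: local finiteness and periodisation
-/

namespace Pool.Agent.Lib.H56.Picard

open Matrix MeasureTheory Topology

noncomputable section

lemma row_identity (r : Fin 3 → ℂ) (z : ℂ × ℂ) :
    height z * Complex.normSq (r 0) + Complex.normSq (r 1 - r 0 * star z.2) =
      (hd r).re - 2 * (r 0 * star (r 0 * z.1 + r 1 * z.2 + r 2)).re := by
  rw [hd_apply]
  simp only [height, Complex.normSq_apply, Complex.star_def, Complex.add_re, Complex.mul_re,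
    Complex.conj_re, Complex.conj_im, Complex.sub_re, Complex.sub_im, Complex.mul_im,
    Complex.add_im]
  ring

lemma row_bound (r : Fin 3 → ℂ) {z : ℂ × ℂ} (hz : 0 < height z) :
    height z / 2 * Complex.normSq (r 0) + Complex.normSq (r 1 - r 0 * star z.2) ≤
      (hd r).re + 2 / height z * Complex.normSq (r 0 * z.1 + r 1 * z.2 + r 2) := by
  have h1 := row_identity r z
  set l := r 0 * z.1 + r 1 * z.2 + r 2 with hl
  have h2 : 0 ≤ height z / 2 * ((r 0).re + 2 / height z * l.re) ^ 2 +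
      height z / 2 * ((r 0).im + 2 / height z * l.im) ^ 2 := by positivity
  have h3 : height z / 2 * ((r 0).re + 2 / height z * l.re) ^ 2 +
      height z / 2 * ((r 0).im + 2 / height z * l.im) ^ 2 =
      height z / 2 * Complex.normSq (r 0) + 2 * (r 0 * star l).re +
        2 / height z * Complex.normSq l := by
    simp only [Complex.normSq_apply, Complex.star_def, Complex.mul_re, Complex.conj_re,
      Complex.conj_im]
    field_simp
    ring
  rw [h3] at h2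
  linarith

lemma hd_row (g : SU21) (i : Fin 3) : hd (fun j => mat g i j) = J i i := by
  rw [← unitary_right g]
  simp only [hd_apply, Matrix.mul_apply, Fin.sum_univ_three, conjTranspose_apply, J]
  simp
  ring

lemma hd_row_re_le (g : SU21) (i : Fin 3) : (hd (fun j => mat g i j)).re ≤ 1 := by
  rw [hd_row]
  fin_cases i <;> simp [J]

lemma exists_entry_bound {K L : Set (ℂ × ℂ)} (hK : IsCompact K) (hKU : K ⊆ U)
    (hL : IsCompact L) (hLU : L ⊆ U) :
    ∃ B : ℝ, ∀ z ∈ K, ∀ g : SU21, act (mat g) z ∈ L → ∀ i j, ‖mat g i j‖ ≤ B := by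
  -- lower bound of the height on a compact subset
  have low : ∀ {K : Set (ℂ × ℂ)}, IsCompact K → K ⊆ U → ∃ m : ℝ, 0 < m ∧ ∀ z ∈ K, m ≤ height z := by
    intro K hK hKU
    rcases K.eq_empty_or_nonempty with rfl | hne
    · exact ⟨1, one_pos, by simp⟩
    · obtain ⟨x, hx, hmin⟩ := hK.exists_isMinOn hne continuous_height.continuousOn
      exact ⟨height x, mem_U.mp (hKU hx), fun z hz => hmin hz⟩
  obtain ⟨m, hm, hmK⟩ := low hK hKU
  obtain ⟨m', hm', hmL⟩ := low hL hLU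
  obtain ⟨C1, hC1⟩ := hK.isBounded.exists_norm_le
  obtain ⟨C2, hC2⟩ := hL.isBounded.exists_norm_le
  obtain ⟨C3, hC3⟩ := hK.exists_bound_of_continuousOn continuous_height.continuousOn
  set C := max 1 (max C1 C2) with hC
  have hC1' : C1 ≤ C := le_trans (le_max_left _ _) (le_max_right _ _)
  have hC2' : C2 ≤ C := le_trans (le_max_right _ _) (le_max_right _ _)
  have hC0 : 1 ≤ C := le_max_left _ _
  set D := max 0 C3 with hD
  have hD0 : 0 ≤ D := le_max_left _ _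
  have hDC : C3 ≤ D := le_max_right _ _
  set Lb := D / m' * C ^ 2 with hLb
  have hLb0 : 0 ≤ Lb := by positivity
  set A := 1 + 2 / m * Lb with hA
  have hA0 : 0 ≤ A := by positivity
  set R0 := Real.sqrt (2 / m * A) with hR0
  set R1 := Real.sqrt A + R0 * C with hR1
  set R2 := Real.sqrt Lb + R0 * C + R1 * C with hR2
  refine ⟨max R0 (max R1 R2), ?_⟩
  intro z hz g hg i j
  have hzU : 0 < height z := hKU hz
  have hz1 : ‖z‖ ≤ C := (hC1 z hz).trans hC1'
  have hzz1 : ‖z.1‖ ≤ C := (norm_fst_le z).trans hz1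
  have hzz2 : ‖z.2‖ ≤ C := (norm_snd_le z).trans hz1
  have hj := jf_ne_zero (mat_unitary g) hzU
  have hjn : Complex.normSq (jf (mat g) z) ≤ D / m' := by
    have h1 := height_act (mat_unitary g) hzU
    have h2 := hmL _ hg
    have h3 : 0 < Complex.normSq (jf (mat g) z) := Complex.normSq_pos.mpr hj
    rw [h1, le_div_iff₀ h3] at h2
    rw [le_div_iff₀ hm']
    have h4 : height z ≤ D := by
      have := hC3 z hz
      rw [Real.norm_eq_abs] at this
      exact ((le_abs_self _).trans this).trans hDC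
    linarith
  set r : Fin 3 → ℂ := fun j => mat g i j with hr
  set l := r 0 * z.1 + r 1 * z.2 + r 2 with hl
  have hl1 : l = (mat g *ᵥ lift z) i := by rw [mulVec_lift_apply]
  have hln : Complex.normSq l ≤ Lb := by
    rw [hl1, mulVec_lift hj]
    simp only [Pi.smul_apply, smul_eq_mul, map_mul]
    have h5 : Complex.normSq (lift (act (mat g) z) i) ≤ C ^ 2 := by
      rw [Complex.normSq_eq_norm_sq]
      have h6 : ‖act (mat g) z‖ ≤ C := (hC2 _ hg).trans hC2'
      have h7 : ‖lift (act (mat g) z) i‖ ≤ C := by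
        fin_cases i
        · exact (norm_fst_le _).trans h6
        · exact (norm_snd_le _).trans h6
        · simpa [lift] using hC0
      exact pow_le_pow_left₀ (norm_nonneg _) h7 2
    exact mul_le_mul hjn h5 (Complex.normSq_nonneg _) (by positivity)
  have hb := row_bound r hzU
  rw [← hl] at hb
  have hmz := hmK z hz
  have hA1 : (hd r).re + 2 / height z * Complex.normSq l ≤ A := by
    have h8 : 2 / height z ≤ 2 / m := div_le_div_of_nonneg_left (by norm_num) hm hmz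
    have h9 : 2 / height z * Complex.normSq l ≤ 2 / m * Lb :=
      mul_le_mul h8 hln (Complex.normSq_nonneg _) (by positivity)
    have h10 : (hd r).re ≤ 1 := hd_row_re_le g i
    linarith
  have hn0 := Complex.normSq_nonneg (r 0)
  have hn1 := Complex.normSq_nonneg (r 1 - r 0 * star z.2)
  have hr0 : ‖r 0‖ ≤ R0 := by
    apply Real.le_sqrt_of_sq_le
    rw [← Complex.normSq_eq_norm_sq]
    have h11 : height z / 2 * Complex.normSq (r 0) ≤ A := by linarith
    have h12 : m / 2 * Complex.normSq (r 0) ≤ A :=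
      le_trans (mul_le_mul_of_nonneg_right (by linarith) hn0) h11
    calc Complex.normSq (r 0) = 2 / m * (m / 2 * Complex.normSq (r 0)) := by field_simp
      _ ≤ 2 / m * A := mul_le_mul_of_nonneg_left h12 (by positivity)
  have hr1 : ‖r 1‖ ≤ R1 := by
    have h13 : ‖r 1 - r 0 * star z.2‖ ≤ Real.sqrt A := by
      apply Real.le_sqrt_of_sq_le
      rw [← Complex.normSq_eq_norm_sq]
      have : 0 ≤ height z / 2 * Complex.normSq (r 0) := by positivity
      linarith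
    calc ‖r 1‖ = ‖(r 1 - r 0 * star z.2) + r 0 * star z.2‖ := by ring_nf
      _ ≤ ‖r 1 - r 0 * star z.2‖ + ‖r 0 * star z.2‖ := norm_add_le _ _
      _ ≤ Real.sqrt A + R0 * C := by
        rw [norm_mul, norm_star]
        gcongr
  have hr2 : ‖r 2‖ ≤ R2 := by
    have h14 : ‖l‖ ≤ Real.sqrt Lb := by
      apply Real.le_sqrt_of_sq_le
      rwa [← Complex.normSq_eq_norm_sq]
    calc ‖r 2‖ = ‖l - r 0 * z.1 - r 1 * z.2‖ := by rw [hl]; ring_nf
      _ ≤ ‖l‖ + ‖r 0 * z.1‖ + ‖r 1 * z.2‖ :=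
        (norm_sub_le _ _).trans (add_le_add (norm_sub_le _ _) le_rfl)
      _ ≤ Real.sqrt Lb + R0 * C + R1 * C := by
        rw [norm_mul, norm_mul]
        gcongr
  change ‖r j‖ ≤ _
  fin_cases j
  · exact hr0.trans (le_max_left _ _)
  · exact hr1.trans ((le_max_left _ _).trans (le_max_right _ _))
  · exact hr2.trans ((le_max_right _ _).trans (le_max_right _ _))

section group

variable {O : Subring ℂ} {hO : ∀ x ∈ O, star x ∈ O}

lemma finite_entries (hOd : ∀ B : ℝ, {x : ℂ | x ∈ O ∧ ‖x‖ ≤ B}.Finite) (B : ℝ) :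
    {γ : arith O hO | ∀ i j, ‖mat γ.1 i j‖ ≤ B}.Finite := by
  have h1 : {M : Matrix (Fin 3) (Fin 3) ℂ | ∀ i j, M i j ∈ {x : ℂ | x ∈ O ∧ ‖x‖ ≤ B}}.Finite := by
    have h2 : (Set.pi Set.univ fun _ : Fin 3 =>
        Set.pi Set.univ fun _ : Fin 3 => {x : ℂ | x ∈ O ∧ ‖x‖ ≤ B}).Finite :=
      Set.Finite.pi fun _ => Set.Finite.pi fun _ => hOd B
    refine h2.subset fun M hM => ?_
    simp only [Set.mem_pi, Set.mem_univ, true_implies]
    exact fun i j => hM i j
  refine Set.Finite.of_finite_image (f := fun γ : arith O hO => mat γ.1) (h1.subset ?_) ?_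
  · rintro _ ⟨γ, hγ, rfl⟩ i j
    exact ⟨γ.2 i j, hγ i j⟩
  · intro γ _ γ' _ h
    exact Subtype.ext (mat_injective h)

lemma locally_finite (hOd : ∀ B : ℝ, {x : ℂ | x ∈ O ∧ ‖x‖ ≤ B}.Finite) {K : Set (ℂ × ℂ)}
    (hK : IsCompact K) (hKU : K ⊆ U) {z : ℂ × ℂ} (hz : z ∈ U) :
    ∃ S : Finset (arith O hO), ∀ᶠ w in 𝓝 z, w ∈ U ∧ ∀ γ ∉ S, act (mat γ.1) w ∉ K := by
  obtain ⟨N, hN, hNU, hNc⟩ := local_compact_nhds (isOpen_U.mem_nhds hz)
  obtain ⟨B, hB⟩ := exists_entry_bound hNc hNU hK hKU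
  refine ⟨(finite_entries (hO := hO) hOd B).toFinset, ?_⟩
  filter_upwards [hN] with w hw
  refine ⟨hNU hw, fun γ hγ hmem => hγ ?_⟩
  rw [Set.Finite.mem_toFinset]
  exact hB w hw γ.1 hmem

/-- Periodisation of a function over the group. -/
def Per (O : Subring ℂ) (hO : ∀ x ∈ O, star x ∈ O) (h : ℂ × ℂ → ℝ) (z : ℂ × ℂ) : ℝ :=
  ∑' γ : arith O hO, h (act (mat γ.1) z)

lemma per_local (hOd : ∀ B : ℝ, {x : ℂ | x ∈ O ∧ ‖x‖ ≤ B}.Finite) {K : Set (ℂ × ℂ)}
    (hK : IsCompact K) (hKU : K ⊆ U) {z : ℂ × ℂ} (hz : z ∈ U) :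
    ∃ S : Finset (arith O hO), ∀ᶠ w in 𝓝 z, w ∈ U ∧ ∀ γ ∉ S, act (mat γ.1) w ∉ K :=
  locally_finite hOd hK hKU hz

lemma contDiffAt_act (g : SU21) {z : ℂ × ℂ} (hz : z ∈ U) : ContDiffAt ℝ 1 (act (mat g)) z := by
  have h1 : ∀ i : Fin 3, ContDiffAt ℂ 1 (fun z => (mat g *ᵥ lift z) i) z := by
    intro i
    have : (fun z => (mat g *ᵥ lift z) i) = fun z => lin (mat g) i z + mat g i 2 := by
      funext z
      rw [mulVec_lift_apply, lin_apply]
    rw [this]
    exact ((lin (mat g) i).contDiff.add contDiff_const).contDiffAt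
  have hj : jf (mat g) z ≠ 0 := jf_ne_zero (mat_unitary g) hz
  have h2 : ContDiffAt ℂ 1 (act (mat g)) z := ((h1 0).div (h1 2) hj).prodMk ((h1 1).div (h1 2) hj)
  exact h2.restrict_scalars ℝ

lemma contDiffOn_per (hOd : ∀ B : ℝ, {x : ℂ | x ∈ O ∧ ‖x‖ ≤ B}.Finite) {h : ℂ × ℂ → ℝ}
    (hh : ContDiff ℝ 1 h) (hc : HasCompactSupport h) (hs : tsupport h ⊆ U) :
    ContDiffOn ℝ 1 (Per O hO h) U := by
  intro z hz
  obtain ⟨S, hS⟩ := locally_finite (hO := hO) hOd hc hs hz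
  have h1 : Per O hO h =ᶠ[𝓝 z] fun w => ∑ γ ∈ S, h (act (mat γ.1) w) := by
    filter_upwards [hS] with w hw
    exact tsum_eq_sum fun γ hγ => image_eq_zero_of_notMem_tsupport (hw.2 γ hγ)
  have h2 : ContDiffAt ℝ 1 (fun w => ∑ γ ∈ S, h (act (mat γ.1) w)) z :=
    ContDiffAt.sum fun γ _ => hh.contDiffAt.comp z (contDiffAt_act γ.1 hz)
  exact (h2.congr_of_eventuallyEq h1).contDiffWithinAt

lemma per_act (h : ℂ × ℂ → ℝ) (δ : arith O hO) {z : ℂ × ℂ} (hz : z ∈ U) :
    Per O hO h (act (mat δ.1) z) = Per O hO h z := by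
  unfold Per
  have h1 : ∀ γ : arith O hO, act (mat γ.1) (act (mat δ.1) z) = act (mat (γ * δ).1) z := by
    intro γ
    have := act_mul (g := mat γ.1) (h := mat δ.1) (jf_ne_zero (mat_unitary δ.1) hz)
      (jf_ne_zero (mat_unitary γ.1) (height_act_pos (mat_unitary δ.1) hz))
    rw [← this]
    rfl
  simp only [h1]
  exact (Equiv.mulRight δ).tsum_eq fun γ : arith O hO => h (act (mat γ.1) z)

lemma act_mem_U (g : SU21) {z : ℂ × ℂ} (hz : z ∈ U) : act (mat g) z ∈ U :=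
  height_act_pos (mat_unitary g) hz

lemma fderiv_comp_act (g : SU21) {φ : ℂ × ℂ → ℝ} {z : ℂ × ℂ} (hz : z ∈ U)
    (hφ : DifferentiableAt ℝ φ (act (mat g) z)) :
    HasFDerivAt (fun w => φ (act (mat g) w))
      ((fderiv ℝ φ (act (mat g) z)).comp ((dact (mat g) z).restrictScalars ℝ)) z :=
  hφ.hasFDerivAt.comp z
    ((hasFDerivAt_act (jf_ne_zero (mat_unitary g) hz)).restrictScalars ℝ)

lemma fderiv_per (hOd : ∀ B : ℝ, {x : ℂ | x ∈ O ∧ ‖x‖ ≤ B}.Finite) {h : ℂ × ℂ → ℝ}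
    (hh : ContDiff ℝ 1 h) (hc : HasCompactSupport h) (hs : tsupport h ⊆ U) {z : ℂ × ℂ}
    (hz : z ∈ U) : ∃ S : Finset (arith O hO),
      (∀ γ ∉ S, act (mat γ.1) z ∉ tsupport h) ∧
      Per O hO h z = ∑ γ ∈ S, h (act (mat γ.1) z) ∧
      fderiv ℝ (Per O hO h) z = ∑ γ ∈ S,
        (fderiv ℝ h (act (mat γ.1) z)).comp ((dact (mat γ.1) z).restrictScalars ℝ) := by
  obtain ⟨S, hS⟩ := locally_finite (hO := hO) hOd hc hs hz
  have h1 : Per O hO h =ᶠ[𝓝 z] fun w => ∑ γ ∈ S, h (act (mat γ.1) w) := by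
    filter_upwards [hS] with w hw
    exact tsum_eq_sum fun γ hγ => image_eq_zero_of_notMem_tsupport (hw.2 γ hγ)
  refine ⟨S, hS.self_of_nhds.2, h1.eq_of_nhds, ?_⟩
  rw [h1.fderiv_eq]
  exact (HasFDerivAt.fun_sum fun γ _ => fderiv_comp_act γ.1 hz
    ((hh.differentiable (by norm_num)).differentiableAt)).fderiv

/-- Derivative of an invariant function. -/
lemma fderiv_invariant {g : ℂ × ℂ → ℝ} (hg : ContDiffOn ℝ 1 g U)
    (hinv : ∀ γ : arith O hO, ∀ z ∈ U, g (act (mat γ.1) z) = g z) (γ : arith O hO)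
    {z : ℂ × ℂ} (hz : z ∈ U) :
    fderiv ℝ g z = (fderiv ℝ g (act (mat γ.1) z)).comp ((dact (mat γ.1) z).restrictScalars ℝ) := by
  have h1 := fderiv_comp_act (φ := g) γ.1 hz
    ((hg.contDiffAt (isOpen_U.mem_nhds (act_mem_U γ.1 hz))).differentiableAt (by norm_num))
  rw [← h1.fderiv]
  refine Filter.EventuallyEq.fderiv_eq ?_
  filter_upwards [isOpen_U.mem_nhds hz] with w hw
  exact (hinv γ w hw).symm

/-- The periodised first order identity. -/
lemma tsum_Bf (hOd : ∀ B : ℝ, {x : ℂ | x ∈ O ∧ ‖x‖ ≤ B}.Finite) {h : ℂ × ℂ → ℝ}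
    (hh : ContDiff ℝ 1 h) (hc : HasCompactSupport h) (hs : tsupport h ⊆ U)
    {f g : ℂ × ℂ → ℝ} (hg : ContDiffOn ℝ 1 g U)
    (hfinv : ∀ γ : arith O hO, ∀ z ∈ U, f (act (mat γ.1) z) = f z)
    (hginv : ∀ γ : arith O hO, ∀ z ∈ U, g (act (mat γ.1) z) = g z)
    {z : ℂ × ℂ} (hz : z ∈ U) :
    ∑' γ : arith O hO, f (act (mat γ.1) z) * Bf (act (mat γ.1) z)
      (fderiv ℝ h (act (mat γ.1) z)) (fderiv ℝ g (act (mat γ.1) z)) =
    f z * Bf z (fderiv ℝ (Per O hO h) z) (fderiv ℝ g z) := by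
  obtain ⟨S, hS, -, hS2⟩ := fderiv_per (hO := hO) hOd hh hc hs hz
  rw [hS2, Bf_sum_left, Finset.mul_sum, tsum_eq_sum (s := S)]
  · refine Finset.sum_congr rfl fun γ _ => ?_
    rw [fderiv_invariant hg hginv γ hz, Bf_comp γ.1 hz, hfinv γ z hz]
  · intro γ hγ
    have h0 : h =ᶠ[𝓝 (act (mat γ.1) z)] 0 := notMem_tsupport_iff_eventuallyEq.mp (hS γ hγ)
    rw [h0.fderiv_eq]
    simp [Pi.zero_def, Bf_zero_left]

end group

/-- Unfolding (nonnegative functions). -/
lemma unfold_lintegral {G : Type*} [Group G] [Countable G] [MulAction G X]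
    [MeasurableConstSMul G X] [SMulInvariantMeasure G X mu] {w : X → ENNReal} (hw : Measurable w)
    {c : ENNReal} (hwc : ∀ᵐ z ∂mu, ∑' γ : G, w (γ • z) = c) {Φ : X → ENNReal}
    (hΦ : Measurable Φ) :
    c * ∫⁻ z, Φ z ∂mu = ∫⁻ z, w z * ∑' γ : G, Φ (γ • z) ∂mu := by
  have h1 : ∫⁻ z, w z * ∑' γ : G, Φ (γ • z) ∂mu = ∑' γ : G, ∫⁻ z, w z * Φ (γ • z) ∂mu := by
    rw [← lintegral_tsum]
    · simp only [ENNReal.tsum_mul_left]
    · intro γ
      exact (hw.mul (hΦ.comp (measurable_const_smul γ))).aemeasurable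
  have h2 : ∀ γ : G, ∫⁻ z, w z * Φ (γ • z) ∂mu = ∫⁻ z, w (γ⁻¹ • z) * Φ z ∂mu := by
    intro γ
    have h3 := (measurePreserving_smul γ (mu : Measure X)).lintegral_comp
      (f := fun z => w (γ⁻¹ • z) * Φ z)
      ((hw.comp (measurable_const_smul γ⁻¹)).mul hΦ)
    rw [← h3]
    simp
  rw [h1]
  simp only [h2]
  rw [← lintegral_tsum]
  · rw [← lintegral_const_mul _ hΦ]
    refine lintegral_congr_ae ?_
    filter_upwards [hwc] with z hz
    rw [ENNReal.tsum_mul_right]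
    congr 1
    rw [← hz]
    exact ((Equiv.inv G).tsum_eq fun γ => w (γ • z)).symm
  · intro γ
    exact ((hw.comp (measurable_const_smul γ⁻¹)).mul hΦ).aemeasurable

/-- Unfolding (integrable real functions). -/
lemma unfold_integral {G : Type*} [Group G] [Countable G] [MulAction G X]
    [MeasurableConstSMul G X] [SMulInvariantMeasure G X mu] {w : X → ENNReal} (hw : Measurable w)
    {c : ENNReal} (hc : c ≠ ⊤) (hwc : ∀ᵐ z ∂mu, ∑' γ : G, w (γ • z) = c) {Φ : X → ℝ}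
    (hΦ : Integrable Φ mu) (hΦm : Measurable Φ) :
    c.toReal * ∫ z, Φ z ∂mu = ∫ z, (w z).toReal * ∑' γ : G, Φ (γ • z) ∂mu := by
  have hwr : Measurable fun z => (w z).toReal := hw.ennreal_toReal
  have hfin : ∀ᵐ z ∂mu, ∀ γ : G, w (γ • z) ≠ ⊤ := by
    filter_upwards [hwc] with z hz γ
    have : w (γ • z) ≤ c := by rw [← hz]; exact ENNReal.le_tsum γ
    exact ne_top_of_le_ne_top hc this
  have hsum : ∑' γ : G, ∫⁻ z, ‖(w z).toReal * Φ (γ • z)‖ₑ ∂mu ≠ ⊤ := by
    have h1 : ∑' γ : G, ∫⁻ z, ‖(w z).toReal * Φ (γ • z)‖ₑ ∂mu ≤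
        ∫⁻ z, w z * ∑' γ : G, ‖Φ (γ • z)‖ₑ ∂mu := by
      rw [← lintegral_tsum]
      · refine lintegral_mono fun z => ?_
        rw [← ENNReal.tsum_mul_left]
        refine ENNReal.tsum_le_tsum fun γ => ?_
        rw [enorm_mul]
        gcongr
        rw [Real.enorm_of_nonneg ENNReal.toReal_nonneg]
        exact ENNReal.ofReal_toReal_le
      · intro γ
        exact (hwr.mul (hΦm.comp (measurable_const_smul γ))).enorm.aemeasurable
    rw [← unfold_lintegral hw hwc hΦm.enorm] at h1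
    exact ne_top_of_le_ne_top (ENNReal.mul_ne_top hc hΦ.2.ne) h1
  have h2 : ∫ z, (w z).toReal * ∑' γ : G, Φ (γ • z) ∂mu =
      ∑' γ : G, ∫ z, (w z).toReal * Φ (γ • z) ∂mu := by
    rw [← integral_tsum _ hsum]
    · refine integral_congr_ae (Filter.Eventually.of_forall fun z => ?_)
      simp only
      rw [tsum_mul_left]
    · intro γ
      exact (hwr.mul (hΦm.comp (measurable_const_smul γ))).aestronglyMeasurable
  have h3 : ∀ γ : G, ∫ z, (w z).toReal * Φ (γ • z) ∂mu = ∫ z, (w (γ⁻¹ • z)).toReal * Φ z ∂mu := by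
    intro γ
    have h3 := (measurePreserving_smul γ (mu : Measure X)).integral_comp
      (measurableEmbedding_const_smul γ) (fun z => (w (γ⁻¹ • z)).toReal * Φ z)
    rw [← h3]
    simp
  have hsum' : ∑' γ : G, ∫⁻ z, ‖(w (γ⁻¹ • z)).toReal * Φ z‖ₑ ∂mu ≠ ⊤ := by
    have e : ∀ γ : G, ∫⁻ z, ‖(w (γ⁻¹ • z)).toReal * Φ z‖ₑ ∂mu =
        ∫⁻ z, ‖(w z).toReal * Φ (γ • z)‖ₑ ∂mu := by
      intro γ
      have h3 := (measurePreserving_smul γ (mu : Measure X)).lintegral_comp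
        (f := fun z => ‖(w (γ⁻¹ • z)).toReal * Φ z‖ₑ)
        (((hwr.comp (measurable_const_smul γ⁻¹)).mul hΦm).enorm)
      rw [← h3]
      simp
    simp only [e]
    exact hsum
  rw [h2]
  simp only [h3]
  rw [← integral_tsum _ hsum', ← integral_const_mul]
  · refine integral_congr_ae ?_
    filter_upwards [hwc, hfin] with z hz hz2
    rw [tsum_mul_right]
    congr 1
    rw [← hz]
    rw [ENNReal.tsum_toReal_eq hz2]
    exact ((Equiv.inv G).tsum_eq fun γ => (w (γ • z)).toReal).symm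
  · intro γ
    exact ((hwr.comp (measurable_const_smul γ⁻¹)).mul hΦm).aestronglyMeasurable

end

end Pool.Agent.Lib.H56.Picard
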