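import Pool.Agent.Lib.H56.Picard.Green3

/-!
# Green's identity, part 4: the invariant cut-off function
-/

namespace Pool.Agent.Lib.H56.Picard

open Matrix MeasureTheory Topology

noncomputable section

lemma hd_row_two (g : SU21) : hd (fun j => mat g 2 j) = 0 := by
  rw [hd_row]
  simp [J]

lemma jf_eq_row (g : SU21) (z : ℂ × ℂ) :
    jf (mat g) z = mat g 2 0 * z.1 + mat g 2 1 * z.2 + mat g 2 2 := jf_apply _ _

/-- Lower bound of the automorphy factor by the bottom row. -/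
lemma row_two_bound (g : SU21) {z : ℂ × ℂ} (hz : z ∈ U) :
    height z / 2 * Complex.normSq (mat g 2 0) +
      Complex.normSq (mat g 2 1 - mat g 2 0 * star z.2) ≤
      2 / height z * Complex.normSq (jf (mat g) z) := by
  have h := row_bound (fun j => mat g 2 j) (mem_U.mp hz)
  rw [hd_row_two, jf_eq_row] at *
  simpa using h

lemma height_mul_le (g : SU21) {z : ℂ × ℂ} (hz : z ∈ U) (h1 : 1 ≤ ‖mat g 2 0‖) :
    height (act (mat g) z) * height z ≤ 4 := by
  have hz' := mem_U.mp hz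
  have hj := jf_ne_zero (mat_unitary g) hz'
  have hn : 0 < Complex.normSq (jf (mat g) z) := Complex.normSq_pos.mpr hj
  have h2 := row_two_bound g hz
  have h3 := Complex.normSq_nonneg (mat g 2 1 - mat g 2 0 * star z.2)
  have h4 : 1 ≤ Complex.normSq (mat g 2 0) := by
    rw [Complex.normSq_eq_norm_sq]
    nlinarith
  rw [height_act (mat_unitary g) hz', div_mul_eq_mul_div, div_le_iff₀ hn]
  have h5 : height z / 2 ≤ 2 / height z * Complex.normSq (jf (mat g) z) := by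
    have : height z / 2 * 1 ≤ height z / 2 * Complex.normSq (mat g 2 0) := by gcongr
    linarith
  have h6 : height z * (height z / 2) ≤ height z * (2 / height z * Complex.normSq (jf (mat g) z)) :=
    mul_le_mul_of_nonneg_left h5 hz'.le
  have h7 : height z * (2 / height z * Complex.normSq (jf (mat g) z)) =
      2 * Complex.normSq (jf (mat g) z) := by field_simp
  rw [h7] at h6
  linarith

section group

variable {O : Subring ℂ} {hO : ∀ x ∈ O, star x ∈ O}

lemma height_le_of_zero (hO1 : ∀ x ∈ O, x ≠ 0 → 1 ≤ ‖x‖) (γ : arith O hO)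
    (h0 : mat γ.1 2 0 = 0) {z : ℂ × ℂ} (hz : z ∈ U) :
    height (act (mat γ.1) z) ≤ height z := by
  have hz' := mem_U.mp hz
  have hj := jf_ne_zero (mat_unitary γ.1) hz'
  have h1 := hd_row_two γ.1
  rw [hd_apply, h0] at h1
  have h2 : mat γ.1 2 1 = 0 := by
    simpa using h1
  have h3 : jf (mat γ.1) z = mat γ.1 2 2 := by rw [jf_apply, h0, h2]; ring
  rw [h3] at hj
  have h4 := hO1 _ (γ.2 2 2) hj
  have h5 : 1 ≤ Complex.normSq (mat γ.1 2 2) := by
    rw [Complex.normSq_eq_norm_sq]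
    nlinarith
  rw [height_act (mat_unitary γ.1) hz', h3]
  exact div_le_self hz'.le h5

lemma act_inv_act (g : SU21) {z : ℂ × ℂ} (hz : z ∈ U) : act (mat g⁻¹) (act (mat g) z) = z := by
  have h := inv_smul_smul g (⟨z, hz⟩ : X)
  exact congrArg Subtype.val h

lemma act_act (g h : SU21) {z : ℂ × ℂ} (hz : z ∈ U) :
    act (mat g) (act (mat h) z) = act (mat (g * h)) z := by
  have h := mul_smul g h (⟨z, hz⟩ : X)
  exact (congrArg Subtype.val h).symm

lemma height_eq_of_zero (hO1 : ∀ x ∈ O, x ≠ 0 → 1 ≤ ‖x‖) (γ : arith O hO)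
    (h0 : mat γ.1 2 0 = 0) {z : ℂ × ℂ} (hz : z ∈ U) :
    height (act (mat γ.1) z) = height z := by
  apply le_antisymm (height_le_of_zero hO1 γ h0 hz)
  have h1 : mat (γ⁻¹).1 2 0 = 0 := by
    have : mat (γ⁻¹).1 = J * (mat γ.1)ᴴ * J := mat_inv γ.1
    rw [this]
    simp [Matrix.mul_apply, Matrix.vecMul, dotProduct, Fin.sum_univ_three, J, h0]
  have h2 := height_le_of_zero hO1 γ⁻¹ h1 (act_mem_U γ.1 hz)
  have h3 : act (mat (γ⁻¹).1) (act (mat γ.1) z) = z := act_inv_act γ.1 hz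
  rwa [h3] at h2

lemma height_unique (hO1 : ∀ x ∈ O, x ≠ 0 → 1 ≤ ‖x‖) (γ δ : arith O hO) {z : ℂ × ℂ}
    (hz : z ∈ U) (h1 : 2 < height (act (mat γ.1) z)) (h2 : 2 < height (act (mat δ.1) z)) :
    height (act (mat δ.1) z) = height (act (mat γ.1) z) := by
  have h3 : act (mat (δ * γ⁻¹).1) (act (mat γ.1) z) = act (mat δ.1) z := by
    rw [act_act _ _ hz]
    congr 2
    simp
  by_cases h0 : mat (δ * γ⁻¹).1 2 0 = 0
  · rw [← h3]
    exact height_eq_of_zero hO1 _ h0 (act_mem_U γ.1 hz)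
  · have h4 := hO1 _ ((δ * γ⁻¹).2 2 0) h0
    have h5 := height_mul_le (δ * γ⁻¹).1 (act_mem_U γ.1 hz) h4
    rw [h3] at h5
    nlinarith

/-- The height of a translate varies slowly, uniformly in the group element. -/
lemma height_act_near {z : ℂ × ℂ} (hz : z ∈ U) :
    ∀ᶠ w in 𝓝 z, w ∈ U ∧ ∀ g : SU21, height (act (mat g) w) ≤ 3 / 2 * height (act (mat g) z) := by
  have hz' := mem_U.mp hz
  set u := height z with hu
  set C := 2 / u + (Real.sqrt (2 / u) + 2 / u * ‖z.2‖) with hC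
  have hC0 : 0 ≤ C := by positivity
  have hcont : Filter.Tendsto (fun w : ℂ × ℂ => height w - 3 / 2 * u * (1 - C * ‖z - w‖) ^ 2)
      (𝓝 z) (𝓝 (height z - 3 / 2 * u * (1 - C * ‖z - z‖) ^ 2)) := by
    apply Continuous.tendsto
    exact continuous_height.sub (continuous_const.mul
      ((continuous_const.sub (continuous_const.mul (continuous_const.sub continuous_id).norm)).pow 2))
  have h1 : ∀ᶠ w in 𝓝 z, height w - 3 / 2 * u * (1 - C * ‖z - w‖) ^ 2 < 0 := by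
    apply hcont.eventually_lt_const
    rw [sub_self, norm_zero]
    linarith
  have hcont2 : Filter.Tendsto (fun w : ℂ × ℂ => 1 - C * ‖z - w‖)
      (𝓝 z) (𝓝 (1 - C * ‖z - z‖)) := by
    apply Continuous.tendsto
    exact (continuous_const.sub (continuous_const.mul (continuous_const.sub continuous_id).norm))
  have h2 : ∀ᶠ w in 𝓝 z, 0 < 1 - C * ‖z - w‖ := by
    apply hcont2.eventually_const_lt
    rw [sub_self, norm_zero]
    norm_num
  filter_upwards [h1, h2, isOpen_U.mem_nhds hz] with w hw1 hw2 hwU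
  refine ⟨hwU, fun g => ?_⟩
  have hw' := mem_U.mp hwU
  rw [height_act (mat_unitary g) hw', height_act (mat_unitary g) hz', ← hu]
  have hjz := jf_ne_zero (mat_unitary g) hz'
  have hjw := jf_ne_zero (mat_unitary g) hw'
  have hnz : 0 < Complex.normSq (jf (mat g) z) := Complex.normSq_pos.mpr hjz
  have hnw : 0 < Complex.normSq (jf (mat g) w) := Complex.normSq_pos.mpr hjw
  have h3 := row_two_bound g hz
  rw [← hu] at h3
  have hn0 := Complex.normSq_nonneg (mat g 2 0)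
  have hn1 := Complex.normSq_nonneg (mat g 2 1 - mat g 2 0 * star z.2)
  have hr0 : ‖mat g 2 0‖ ≤ 2 / u * ‖jf (mat g) z‖ := by
    apply le_of_sq_le_sq _ (by positivity)
    rw [mul_pow, ← Complex.normSq_eq_norm_sq, ← Complex.normSq_eq_norm_sq]
    have h4 : u / 2 * Complex.normSq (mat g 2 0) ≤ 2 / u * Complex.normSq (jf (mat g) z) := by
      linarith
    calc Complex.normSq (mat g 2 0) = 2 / u * (u / 2 * Complex.normSq (mat g 2 0)) := by
          field_simp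
      _ ≤ 2 / u * (2 / u * Complex.normSq (jf (mat g) z)) := by gcongr
      _ = (2 / u) ^ 2 * Complex.normSq (jf (mat g) z) := by ring
  have hr1' : ‖mat g 2 1 - mat g 2 0 * star z.2‖ ≤ Real.sqrt (2 / u) * ‖jf (mat g) z‖ := by
    apply le_of_sq_le_sq _ (by positivity)
    rw [mul_pow, ← Complex.normSq_eq_norm_sq, ← Complex.normSq_eq_norm_sq,
      Real.sq_sqrt (by positivity)]
    have : 0 ≤ u / 2 * Complex.normSq (mat g 2 0) := by positivity
    linarith
  have hr1 : ‖mat g 2 1‖ ≤ (Real.sqrt (2 / u) + 2 / u * ‖z.2‖) * ‖jf (mat g) z‖ := by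
    calc ‖mat g 2 1‖ = ‖(mat g 2 1 - mat g 2 0 * star z.2) + mat g 2 0 * star z.2‖ := by ring_nf
      _ ≤ ‖mat g 2 1 - mat g 2 0 * star z.2‖ + ‖mat g 2 0 * star z.2‖ := norm_add_le _ _
      _ ≤ Real.sqrt (2 / u) * ‖jf (mat g) z‖ + 2 / u * ‖jf (mat g) z‖ * ‖z.2‖ := by
        rw [norm_mul, norm_star]
        gcongr
      _ = _ := by ring
  have hdiff : jf (mat g) z - jf (mat g) w = mat g 2 0 * (z.1 - w.1) + mat g 2 1 * (z.2 - w.2) := by
    rw [jf_apply, jf_apply]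
    ring
  have hzw1 : ‖z.1 - w.1‖ ≤ ‖z - w‖ := norm_fst_le (z - w)
  have hzw2 : ‖z.2 - w.2‖ ≤ ‖z - w‖ := norm_snd_le (z - w)
  have hd1 : ‖jf (mat g) z - jf (mat g) w‖ ≤ C * ‖z - w‖ * ‖jf (mat g) z‖ := by
    rw [hdiff]
    calc ‖mat g 2 0 * (z.1 - w.1) + mat g 2 1 * (z.2 - w.2)‖
        ≤ ‖mat g 2 0‖ * ‖z.1 - w.1‖ + ‖mat g 2 1‖ * ‖z.2 - w.2‖ := by
          refine (norm_add_le _ _).trans ?_
          rw [norm_mul, norm_mul]
      _ ≤ (2 / u * ‖jf (mat g) z‖) * ‖z - w‖ +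
          ((Real.sqrt (2 / u) + 2 / u * ‖z.2‖) * ‖jf (mat g) z‖) * ‖z - w‖ := by
          gcongr
      _ = C * ‖z - w‖ * ‖jf (mat g) z‖ := by rw [hC]; ring
  have hd2 : ‖jf (mat g) z‖ * (1 - C * ‖z - w‖) ≤ ‖jf (mat g) w‖ := by
    have h5 : ‖jf (mat g) z‖ ≤ ‖jf (mat g) z - jf (mat g) w‖ + ‖jf (mat g) w‖ := by
      calc ‖jf (mat g) z‖ = ‖(jf (mat g) z - jf (mat g) w) + jf (mat g) w‖ := by ring_nf
        _ ≤ _ := norm_add_le _ _
    linarith
  have hd3 : Complex.normSq (jf (mat g) z) * (1 - C * ‖z - w‖) ^ 2 ≤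
      Complex.normSq (jf (mat g) w) := by
    rw [Complex.normSq_eq_norm_sq, Complex.normSq_eq_norm_sq, ← mul_pow]
    exact pow_le_pow_left₀ (by positivity) hd2 2
  rw [div_le_iff₀ hnw]
  have hd4 : 3 / 2 * (u / Complex.normSq (jf (mat g) z)) *
      (Complex.normSq (jf (mat g) z) * (1 - C * ‖z - w‖) ^ 2) ≤
      3 / 2 * (u / Complex.normSq (jf (mat g) z)) * Complex.normSq (jf (mat g) w) := by
    gcongr
  have hd5 : 3 / 2 * (u / Complex.normSq (jf (mat g) z)) *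
      (Complex.normSq (jf (mat g) z) * (1 - C * ‖z - w‖) ^ 2) =
      3 / 2 * u * (1 - C * ‖z - w‖) ^ 2 := by field_simp
  linarith

open Classical in
/-- The invariant cut-off function attached to a function `q` of the height. -/
def cutH (O : Subring ℂ) (hO : ∀ x ∈ O, star x ∈ O) (q : ℝ → ℝ) (z : ℂ × ℂ) : ℝ :=
  if h : ∃ γ : arith O hO, 2 < height (act (mat γ.1) z) then
    q (height (act (mat h.choose.1) z)) else 1

lemma cutH_eq (hO1 : ∀ x ∈ O, x ≠ 0 → 1 ≤ ‖x‖) (q : ℝ → ℝ) (γ : arith O hO) {z : ℂ × ℂ}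
    (hz : z ∈ U) (h : 2 < height (act (mat γ.1) z)) :
    cutH O hO q z = q (height (act (mat γ.1) z)) := by
  have hex : ∃ γ : arith O hO, 2 < height (act (mat γ.1) z) := ⟨γ, h⟩
  unfold cutH
  rw [dif_pos hex, height_unique hO1 γ hex.choose hz h hex.choose_spec]

lemma cutH_eq_one (hO1 : ∀ x ∈ O, x ≠ 0 → 1 ≤ ‖x‖) {q : ℝ → ℝ} {R : ℝ}
    (hq : ∀ u ≤ R, q u = 1) {z : ℂ × ℂ} (hz : z ∈ U)
    (h : ∀ γ : arith O hO, height (act (mat γ.1) z) ≤ R) : cutH O hO q z = 1 := by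
  by_cases hex : ∃ γ : arith O hO, 2 < height (act (mat γ.1) z)
  · obtain ⟨γ, hγ⟩ := hex
    rw [cutH_eq hO1 q γ hz hγ, hq _ (h γ)]
  · unfold cutH
    rw [dif_neg hex]

lemma cutH_act (hO1 : ∀ x ∈ O, x ≠ 0 → 1 ≤ ‖x‖) (q : ℝ → ℝ) (δ : arith O hO) {z : ℂ × ℂ}
    (hz : z ∈ U) : cutH O hO q (act (mat δ.1) z) = cutH O hO q z := by
  by_cases hex : ∃ γ : arith O hO, 2 < height (act (mat γ.1) z)
  · obtain ⟨γ, hγ⟩ := hex
    have h1 : act (mat (γ * δ⁻¹).1) (act (mat δ.1) z) = act (mat γ.1) z := by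
      rw [act_act _ _ hz]
      congr 2
      simp
    rw [cutH_eq hO1 q γ hz hγ, cutH_eq hO1 q (γ * δ⁻¹) (act_mem_U δ.1 hz) (by rwa [h1]), h1]
  · have hex' : ¬ ∃ γ : arith O hO, 2 < height (act (mat γ.1) (act (mat δ.1) z)) := by
      rintro ⟨γ, hγ⟩
      apply hex
      refine ⟨γ * δ, ?_⟩
      rw [act_act _ _ hz] at hγ
      exact hγ
    unfold cutH
    rw [dif_neg hex, dif_neg hex']

lemma cutH_mem (q : ℝ → ℝ) (hq : ∀ u, q u ∈ Set.Icc (0 : ℝ) 1) (z : ℂ × ℂ) :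
    cutH O hO q z ∈ Set.Icc (0 : ℝ) 1 := by
  unfold cutH
  split_ifs
  · exact hq _
  · exact ⟨zero_le_one, le_rfl⟩

lemma cutH_local (hO1 : ∀ x ∈ O, x ≠ 0 → 1 ≤ ‖x‖) (q : ℝ → ℝ) (γ : arith O hO) {z : ℂ × ℂ}
    (hz : z ∈ U) (h : 2 < height (act (mat γ.1) z)) :
    cutH O hO q =ᶠ[𝓝 z] fun w => q (height (act (mat γ.1) w)) := by
  have hcont : ContinuousAt (fun w => height (act (mat γ.1) w)) z :=
    continuous_height.continuousAt.comp (contDiffAt_act γ.1 hz).continuousAt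
  filter_upwards [isOpen_U.mem_nhds hz, hcont.eventually_const_lt h] with w hw hw2
  exact cutH_eq hO1 q γ hw hw2

lemma cutH_local_one (hO1 : ∀ x ∈ O, x ≠ 0 → 1 ≤ ‖x‖) {q : ℝ → ℝ} {R : ℝ} (hR : 3 ≤ R)
    (hq : ∀ u ≤ R, q u = 1) {z : ℂ × ℂ}
    (hz : z ∈ U) (h : ∀ γ : arith O hO, height (act (mat γ.1) z) ≤ 2) :
    cutH O hO q =ᶠ[𝓝 z] fun _ => 1 := by
  filter_upwards [height_act_near hz] with w hw
  refine cutH_eq_one hO1 hq hw.1 fun γ => ?_
  have h1 := hw.2 γ.1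
  have h2 := h γ
  linarith

lemma contDiffOn_cutH (hO1 : ∀ x ∈ O, x ≠ 0 → 1 ≤ ‖x‖) {q : ℝ → ℝ} {R : ℝ} (hR : 3 ≤ R)
    (hq : ∀ u ≤ R, q u = 1) (hqd : ContDiff ℝ 1 q) : ContDiffOn ℝ 1 (cutH O hO q) U := by
  intro z hz
  apply ContDiffAt.contDiffWithinAt
  by_cases hex : ∃ γ : arith O hO, 2 < height (act (mat γ.1) z)
  · obtain ⟨γ, hγ⟩ := hex
    have h1 : ContDiffAt ℝ 1 (fun w => q (height (act (mat γ.1) w))) z :=
      hqd.contDiffAt.comp z ((contDiff_height.of_le le_top).contDiffAt.comp z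
        (contDiffAt_act γ.1 hz))
    exact h1.congr_of_eventuallyEq (cutH_local hO1 q γ hz hγ)
  · push Not at hex
    exact contDiffAt_const.congr_of_eventuallyEq (cutH_local_one hO1 hR hq hz hex)

lemma normL_dheight (z : ℂ × ℂ) : normL z (dheight z) = height z ^ 2 := by
  unfold normL
  simp only [dheight_apply]
  simp

lemma normL_fderiv_cutH (hO1 : ∀ x ∈ O, x ≠ 0 → 1 ≤ ‖x‖) {q : ℝ → ℝ} {R C : ℝ} (hR : 3 ≤ R)
    (hq : ∀ u ≤ R, q u = 1) (hqd : ContDiff ℝ 1 q)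
    (hC : ∀ u, u ^ 2 * deriv q u ^ 2 ≤ C) {z : ℂ × ℂ} (hz : z ∈ U) :
    (normL z (fderiv ℝ (cutH O hO q) z) ≤ C) ∧
    ((∀ γ : arith O hO, height (act (mat γ.1) z) < R) →
      fderiv ℝ (cutH O hO q) z = 0) := by
  have hC0 : 0 ≤ C := le_trans (by positivity) (hC 0)
  by_cases hex : ∃ γ : arith O hO, 2 < height (act (mat γ.1) z)
  · obtain ⟨γ, hγ⟩ := hex
    have h1 := (cutH_local hO1 q γ hz hγ).fderiv_eq (𝕜 := ℝ)
    have h2' : HasDerivAt q (deriv q (height (act (mat γ.1) z))) (height (act (mat γ.1) z)) :=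
      ((hqd.differentiable (by norm_num)).differentiableAt
        (x := height (act (mat γ.1) z))).hasDerivAt
    have h2 : HasFDerivAt (𝕜 := ℝ) (fun w : ℂ × ℂ => q (height w))
        (deriv q (height (act (mat γ.1) z)) • dheight (act (mat γ.1) z)) (act (mat γ.1) z) :=
      h2'.comp_hasFDerivAt _ (hasFDerivAt_height _)
    have h3 := (fderiv_comp_act (φ := fun w => q (height w)) γ.1 hz h2.differentiableAt).fderiv
    rw [h2.fderiv] at h3
    rw [h1, h3]
    constructor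
    · rw [normL_comp γ.1 hz, normL_smul, normL_dheight]
      have := hC (height (act (mat γ.1) z))
      linarith
    · intro h
      have h4 : deriv q (height (act (mat γ.1) z)) = 0 := by
        have h5 : q =ᶠ[𝓝 (height (act (mat γ.1) z))] fun _ => 1 := by
          filter_upwards [gt_mem_nhds (h γ)] with u hu
          exact hq u hu.le
        rw [h5.deriv_eq]
        simp
      rw [h4, zero_smul]
      simp
  · push Not at hex
    have h1 := (cutH_local_one hO1 hR hq hz hex).fderiv_eq (𝕜 := ℝ)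
    rw [h1]
    simp only [fderiv_fun_const, Pi.zero_apply, normL_zero]
    exact ⟨hC0, fun _ => trivial⟩

end group

end

end Pool.Agent.Lib.H56.Picard
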