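import Pool.Agent.Lib.H56.Picard.Green4

/-!
# Green's identity, part 5: the test function and the unfolded identities
-/

namespace Pool.Agent.Lib.H56.Picard

open Matrix MeasureTheory Topology

noncomputable section

/-- The height cut-off: `1` for `u ≤ R`, `0` for `u ≥ 2R`. -/
def qR (R u : ℝ) : ℝ := Real.smoothTransition (2 - u / R)

lemma qR_mem (R u : ℝ) : qR R u ∈ Set.Icc (0 : ℝ) 1 :=
  ⟨Real.smoothTransition.nonneg _, Real.smoothTransition.le_one _⟩

lemma qR_eq_one {R : ℝ} (hR : 0 < R) {u : ℝ} (hu : u ≤ R) : qR R u = 1 := by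
  apply Real.smoothTransition.one_of_one_le
  have : u / R ≤ 1 := (div_le_one hR).mpr hu
  linarith

lemma qR_eq_zero {R : ℝ} (hR : 0 < R) {u : ℝ} (hu : 2 * R ≤ u) : qR R u = 0 := by
  apply Real.smoothTransition.zero_of_nonpos
  have : 2 ≤ u / R := by rw [le_div_iff₀ hR]; exact hu
  linarith

lemma contDiff_qR (R : ℝ) : ContDiff ℝ 1 (qR R) := by
  have h : ContDiff ℝ 1 Real.smoothTransition := Real.smoothTransition.contDiff (n := 1)
  exact h.comp (contDiff_const.sub (contDiff_id.div_const R))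

lemma exists_bound_deriv_qR : ∃ C : ℝ, ∀ R : ℝ, 0 < R → ∀ u, u ^ 2 * deriv (qR R) u ^ 2 ≤ C := by
  have hs : ContDiff ℝ 1 Real.smoothTransition := Real.smoothTransition.contDiff (n := 1)
  have hcont : Continuous (deriv Real.smoothTransition) := hs.continuous_deriv (by norm_num)
  obtain ⟨C, hC⟩ := (isCompact_Icc (a := (0 : ℝ)) (b := 1)).exists_bound_of_continuousOn
    hcont.continuousOn
  refine ⟨4 * C ^ 2, fun R hR u => ?_⟩
  have hd : deriv (qR R) u = deriv Real.smoothTransition (2 - u / R) * (-(1 / R)) := by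
    have h1 : HasDerivAt (fun u : ℝ => 2 - u / R) (-(1 / R)) u := by
      have := ((hasDerivAt_id u).div_const R).const_sub 2
      simpa using this
    have h2 : HasDerivAt Real.smoothTransition (deriv Real.smoothTransition (2 - u / R))
        (2 - u / R) := ((hs.differentiable (by norm_num)).differentiableAt).hasDerivAt
    exact (h2.comp u h1).deriv
  rw [hd]
  have h0 : u ^ 2 * (deriv Real.smoothTransition (2 - u / R) * (-(1 / R))) ^ 2 =
      (u / R) ^ 2 * deriv Real.smoothTransition (2 - u / R) ^ 2 := by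
    field_simp
  rw [h0]
  rcases lt_or_ge (u / R) 1 with h1 | h1
  · have : deriv Real.smoothTransition (2 - u / R) = 0 := by
      have h5 : Real.smoothTransition =ᶠ[𝓝 (2 - u / R)] fun _ => 1 := by
        filter_upwards [lt_mem_nhds (show 1 < 2 - u / R by linarith)] with t ht
        exact Real.smoothTransition.one_of_one_le ht.le
      rw [h5.deriv_eq]
      simp
    rw [this]
    have h6 : 0 ≤ C ^ 2 := by positivity
    simpa using h6
  · rcases lt_or_ge 2 (u / R) with h2 | h2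
    · have : deriv Real.smoothTransition (2 - u / R) = 0 := by
        have h5 : Real.smoothTransition =ᶠ[𝓝 (2 - u / R)] fun _ => 0 := by
          filter_upwards [gt_mem_nhds (show 2 - u / R < 0 by linarith)] with t ht
          exact Real.smoothTransition.zero_of_nonpos ht.le
        rw [h5.deriv_eq]
        simp
      rw [this]
      have h6 : 0 ≤ C ^ 2 := by positivity
      simpa using h6
    · have h3 := hC (2 - u / R) ⟨by linarith, by linarith⟩
      rw [Real.norm_eq_abs] at h3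
      have h4 : deriv Real.smoothTransition (2 - u / R) ^ 2 ≤ C ^ 2 := by
        rw [← sq_abs]
        exact pow_le_pow_left₀ (abs_nonneg _) h3 2
      have h5 : (u / R) ^ 2 ≤ 4 := by nlinarith
      calc (u / R) ^ 2 * deriv Real.smoothTransition (2 - u / R) ^ 2 ≤ 4 * C ^ 2 := by
            gcongr
        _ = _ := rfl

section group

variable {O : Subring ℂ} {hO : ∀ x ∈ O, star x ∈ O}

lemma countable_arith (hOd : ∀ B : ℝ, {x : ℂ | x ∈ O ∧ ‖x‖ ≤ B}.Finite) :
    Countable (arith O hO) := by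
  rw [← Set.countable_univ_iff]
  have h1 : (Set.univ : Set (arith O hO)) ⊆ ⋃ n : ℕ, {γ | ∀ i j, ‖mat γ.1 i j‖ ≤ n} := by
    intro γ _
    rw [Set.mem_iUnion]
    obtain ⟨n, hn⟩ := exists_nat_ge (∑ i : Fin 3, ∑ j : Fin 3, ‖mat γ.1 i j‖)
    refine ⟨n, fun i j => le_trans ?_ hn⟩
    have h2 : ‖mat γ.1 i j‖ ≤ ∑ j : Fin 3, ‖mat γ.1 i j‖ :=
      Finset.single_le_sum (f := fun j => ‖mat γ.1 i j‖) (fun _ _ => norm_nonneg _)
        (Finset.mem_univ j)
    have h3 : ∑ j : Fin 3, ‖mat γ.1 i j‖ ≤ ∑ i : Fin 3, ∑ j : Fin 3, ‖mat γ.1 i j‖ :=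
      Finset.single_le_sum (f := fun i => ∑ j : Fin 3, ‖mat γ.1 i j‖)
        (fun _ _ => Finset.sum_nonneg fun _ _ => norm_nonneg _) (Finset.mem_univ i)
    exact h2.trans h3
  exact (Set.countable_iUnion fun n : ℕ => (finite_entries (hO := hO) hOd n).countable).mono h1

/-- Existence of the test function whose periodisation is the square of the invariant cut-off. -/
lemma exists_test (hOd : ∀ B : ℝ, {x : ℂ | x ∈ O ∧ ‖x‖ ≤ B}.Finite)
    (hO1 : ∀ x ∈ O, x ≠ 0 → 1 ≤ ‖x‖)
    (hcov : ∀ R : ℝ, ∃ K : Set (ℂ × ℂ), IsCompact K ∧ K ⊆ U ∧ ∀ z ∈ U,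
      (∀ γ : arith O hO, height (act (mat γ.1) z) ≤ R) → ∃ γ : arith O hO, act (mat γ.1) z ∈ K)
    {R : ℝ} (hR : 3 ≤ R) :
    ∃ h : ℂ × ℂ → ℝ, ContDiff ℝ 1 h ∧ HasCompactSupport h ∧ tsupport h ⊆ U ∧ (∀ z, 0 ≤ h z) ∧
      ∀ z ∈ U, Per O hO h z = cutH O hO (qR R) z ^ 2 := by
  have hR0 : 0 < R := by linarith
  obtain ⟨K, hK, hKU, hKc⟩ := hcov (2 * R)
  obtain ⟨V, hVo, hKV, hVU, hVc⟩ := exists_open_between_and_isCompact_closure hK isOpen_U hKU
  obtain ⟨χ, hχs, hχd, hχr⟩ := hVo.exists_contDiff_support_eq (n := 1)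
  have hχd' : ContDiff ℝ 1 χ := hχd
  have hχt : tsupport χ = closure V := by rw [tsupport, hχs]
  have hχc : HasCompactSupport χ := by rw [HasCompactSupport, hχt]; exact hVc
  have hχU : tsupport χ ⊆ U := by rw [hχt]; exact hVU
  have hχ0 : ∀ z, 0 ≤ χ z := fun z => (hχr ⟨z, rfl⟩).1
  have hηd : ContDiffOn ℝ 1 (cutH O hO (qR R)) U :=
    contDiffOn_cutH hO1 hR (fun u hu => qR_eq_one hR0 hu) (contDiff_qR R)
  have hPd : ContDiffOn ℝ 1 (Per O hO χ) U := contDiffOn_per hOd hχd' hχc hχU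
  -- positivity
  have hpos : ∀ z ∈ U, Per O hO χ z = 0 → ∃ γ : arith O hO, 2 * R < height (act (mat γ.1) z) := by
    intro z hz h0
    by_contra hcon
    push Not at hcon
    obtain ⟨γ, hγ⟩ := hKc z hz hcon
    obtain ⟨S, hS, hS1, -⟩ := fderiv_per (hO := hO) hOd hχd' hχc hχU hz
    have h1 : 0 < χ (act (mat γ.1) z) := by
      have h2 : act (mat γ.1) z ∈ Function.support χ := by rw [hχs]; exact hKV hγ
      exact lt_of_le_of_ne (hχ0 _) (Ne.symm h2)
    have h3 : γ ∈ S := by
      by_contra hγS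
      exact hS γ hγS (subset_tsupport _ (by rw [hχs]; exact hKV hγ))
    have h4 : 0 < ∑ γ ∈ S, χ (act (mat γ.1) z) :=
      Finset.sum_pos' (fun _ _ => hχ0 _) ⟨γ, h3, h1⟩
    rw [← hS1, h0] at h4
    exact lt_irrefl _ h4
  have hη0 : ∀ z ∈ U, Per O hO χ z = 0 → cutH O hO (qR R) =ᶠ[𝓝 z] fun _ => 0 := by
    intro z hz h0
    obtain ⟨γ, hγ⟩ := hpos z hz h0
    have hcont : ContinuousAt (fun w => height (act (mat γ.1) w)) z :=
      continuous_height.continuousAt.comp (contDiffAt_act γ.1 hz).continuousAt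
    filter_upwards [isOpen_U.mem_nhds hz, hcont.eventually_const_lt hγ] with w hw hw2
    rw [cutH_eq hO1 (qR R) γ hw (by linarith), qR_eq_zero hR0 hw2.le]
  set G : ℂ × ℂ → ℝ := fun z => cutH O hO (qR R) z ^ 2 / Per O hO χ z with hG
  have hGd : ContDiffOn ℝ 1 G U := by
    intro z hz
    apply ContDiffAt.contDiffWithinAt
    by_cases h0 : Per O hO χ z = 0
    · have h1 : G =ᶠ[𝓝 z] fun _ => 0 := by
        filter_upwards [hη0 z hz h0] with w hw
        simp only [hG, hw]
        simp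
      exact contDiffAt_const.congr_of_eventuallyEq h1
    · exact ((hηd.contDiffAt (isOpen_U.mem_nhds hz)).pow 2).div
        (hPd.contDiffAt (isOpen_U.mem_nhds hz)) h0
  have hP0 : ∀ z, 0 ≤ Per O hO χ z := fun z => tsum_nonneg fun _ => hχ0 _
  refine ⟨fun z => χ z * G z, contDiff_mul_of_tsupport hχd' hχU hGd, hχc.mul_right,
    (tsupport_mul_subset_left).trans hχU, ?_, ?_⟩
  · intro z
    exact mul_nonneg (hχ0 z) (div_nonneg (sq_nonneg _) (hP0 z))
  · intro z hz
    have h1 : Per O hO (fun z => χ z * G z) z = Per O hO χ z * G z := by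
      unfold Per
      rw [← tsum_mul_right]
      refine tsum_congr fun γ => ?_
      simp only [hG]
      rw [cutH_act hO1 (qR R) γ hz, per_act χ γ hz]
    rw [h1]
    by_cases h0 : Per O hO χ z = 0
    · rw [h0, (hη0 z hz h0).eq_of_nhds]
      simp
    · simp only [hG]
      field_simp

lemma continuousOn_normL {g : ℂ × ℂ → ℝ} (hg : ContDiffOn ℝ 1 g U) :
    ContinuousOn (fun z => normL z (fderiv ℝ g z)) U := by
  have h1 : ContinuousOn (fderiv ℝ g) U := hg.continuousOn_fderiv_of_isOpen isOpen_U (by norm_num)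
  have h2 : ∀ i : Fin 4, ContinuousOn (fun z => fderiv ℝ g z (fr i z)) U := fun i =>
    h1.clm_apply (continuous_fr i).continuousOn
  have h3 : ∀ i : Fin 4, Continuous (fun z => wt i (height z)) := by
    intro i
    fin_cases i
    · exact continuous_height.pow 2
    · exact continuous_height.pow 2
    · exact continuous_height.div_const 4
    · exact continuous_height.div_const 4
  have e : (fun z => normL z (fderiv ℝ g z)) = fun z => ∑ i : Fin 4,
      wt i (height z) * (fderiv ℝ g z (fr i z) * fderiv ℝ g z (fr i z)) := by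
    funext z
    rw [← Bf_self]
    rfl
  rw [e]
  exact continuousOn_finsetSum _ fun i _ => (h3 i).continuousOn.mul ((h2 i).mul (h2 i))

lemma continuousOn_Bf {g h : ℂ × ℂ → ℝ} (hg : ContDiffOn ℝ 1 g U) (hh : ContDiffOn ℝ 1 h U) :
    ContinuousOn (fun z => Bf z (fderiv ℝ h z) (fderiv ℝ g z)) U := by
  have h1 : ContinuousOn (fderiv ℝ g) U := hg.continuousOn_fderiv_of_isOpen isOpen_U (by norm_num)
  have h1' : ContinuousOn (fderiv ℝ h) U := hh.continuousOn_fderiv_of_isOpen isOpen_U (by norm_num)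
  have h2 : ∀ i : Fin 4, ContinuousOn (fun z => fderiv ℝ g z (fr i z)) U := fun i =>
    h1.clm_apply (continuous_fr i).continuousOn
  have h2' : ∀ i : Fin 4, ContinuousOn (fun z => fderiv ℝ h z (fr i z)) U := fun i =>
    h1'.clm_apply (continuous_fr i).continuousOn
  have h3 : ∀ i : Fin 4, Continuous (fun z => wt i (height z)) := by
    intro i
    fin_cases i
    · exact continuous_height.pow 2
    · exact continuous_height.pow 2
    · exact continuous_height.div_const 4
    · exact continuous_height.div_const 4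
  exact continuousOn_finsetSum _ fun i _ => (h3 i).continuousOn.mul ((h2' i).mul (h2 i))

lemma continuous_restrict {φ : ℂ × ℂ → ℝ} (hφ : ContinuousOn φ U) :
    Continuous fun z : X => φ z.1 :=
  continuousOn_iff_continuous_domRestrict.mp hφ

/-- Integrability of the unfolded integrand. -/
lemma unfold_integrable {G : Type*} [Group G] [Countable G] [MulAction G X]
    [MeasurableConstSMul G X] [SMulInvariantMeasure G X mu] {w : X → ENNReal} (hw : Measurable w)
    {c : ENNReal} (hc : c ≠ ⊤) (hwc : ∀ᵐ z ∂mu, ∑' γ : G, w (γ • z) = c) {Φ Ψ : X → ℝ}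
    (hΦ : Integrable Φ mu) (hΦm : Measurable Φ) (hΨm : Measurable Ψ)
    (hsum : ∀ z, ∑' γ : G, Φ (γ • z) = Ψ z) : Integrable (fun z => (w z).toReal * Ψ z) mu := by
  refine ⟨(hw.ennreal_toReal.mul hΨm).aestronglyMeasurable, ?_⟩
  have h1 : ∫⁻ z, ‖(w z).toReal * Ψ z‖ₑ ∂mu ≤ ∫⁻ z, w z * ∑' γ : G, ‖Φ (γ • z)‖ₑ ∂mu := by
    refine lintegral_mono fun z => ?_
    rw [enorm_mul, ← hsum z]
    gcongr
    · rw [Real.enorm_of_nonneg ENNReal.toReal_nonneg]
      exact ENNReal.ofReal_toReal_le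
    · exact enorm_tsum_le_tsum_enorm
  rw [← unfold_lintegral hw hwc hΦm.enorm] at h1
  exact lt_of_le_of_lt h1 (ENNReal.mul_lt_top hc.lt_top hΦ.2)

end group

end

end Pool.Agent.Lib.H56.Picard
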