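import Pool.Agent.Lib.H56.Picard.Green5

/-!
# Green's identity, part 6: the energy inequality for eigenfunctions
-/

namespace Pool.Agent.Lib.H56.Picard

open Matrix MeasureTheory Topology

noncomputable section

section group

variable {O : Subring ℂ} {hO : ∀ x ∈ O, star x ∈ O}

/-- Unfolding of an invariant function against a test function. -/
lemma unf_inv (hOd : ∀ B : ℝ, {x : ℂ | x ∈ O ∧ ‖x‖ ≤ B}.Finite)
    {w : X → ENNReal} (hw : Measurable w) {c : ENNReal} (hc : c ≠ ⊤)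
    (hwc : ∀ᵐ z ∂mu, ∑' γ : arith O hO, w (γ • z) = c)
    {h η E : ℂ × ℂ → ℝ} (hh : ContDiff ℝ 1 h) (hcs : HasCompactSupport h) (hs : tsupport h ⊆ U)
    (hη : ContDiffOn ℝ 1 η U) (hP : ∀ z ∈ U, Per O hO h z = η z ^ 2) (hE : ContinuousOn E U)
    (hEinv : ∀ γ : arith O hO, ∀ z ∈ U, E (act (mat γ.1) z) = E z) :
    Integrable (fun z : X => h z.1 * E z.1) mu ∧
    Integrable (fun z : X => (w z).toReal * (η z.1 ^ 2 * E z.1)) mu ∧
    c.toReal * ∫ z : X, h z.1 * E z.1 ∂mu = ∫ z : X, (w z).toReal * (η z.1 ^ 2 * E z.1) ∂mu := by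
  have := countable_arith (hO := hO) hOd
  have hcont : ContinuousOn (fun z => h z * E z) U := hh.continuous.continuousOn.mul hE
  have hint : Integrable (fun z : X => h z.1 * E z.1) mu := by
    refine integrable_mu (φ := fun z => h z * E z) hcs hs hcont fun z _ hz => ?_
    rw [image_eq_zero_of_notMem_tsupport hz, zero_mul]
  have hm : Measurable (fun z : X => h z.1 * E z.1) := (continuous_restrict hcont).measurable
  have hsum : ∀ z : X, ∑' γ : arith O hO, (fun z : X => h z.1 * E z.1) (γ • z) =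
      η z.1 ^ 2 * E z.1 := by
    intro z
    have h1 : ∀ γ : arith O hO, h (γ • z : X).1 * E (γ • z : X).1 =
        h (act (mat γ.1) z.1) * E z.1 := by
      intro γ
      have h2 : (γ • z : X).1 = act (mat γ.1) z.1 := rfl
      rw [h2, hEinv γ z.1 z.2]
    simp only [h1]
    rw [tsum_mul_right, ← hP z.1 z.2]
    rfl
  have hm2 : Measurable (fun z : X => η z.1 ^ 2 * E z.1) :=
    (continuous_restrict ((hη.continuousOn.pow 2).mul hE)).measurable
  refine ⟨hint, unfold_integrable hw hc hwc hint hm hm2 hsum, ?_⟩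
  rw [unfold_integral hw hc hwc hint hm]
  simp only [hsum]

/-- Unfolding of the first order term. -/
lemma unf_grad (hOd : ∀ B : ℝ, {x : ℂ | x ∈ O ∧ ‖x‖ ≤ B}.Finite)
    {w : X → ENNReal} (hw : Measurable w) {c : ENNReal} (hc : c ≠ ⊤)
    (hwc : ∀ᵐ z ∂mu, ∑' γ : arith O hO, w (γ • z) = c)
    {h η f g : ℂ × ℂ → ℝ} (hh : ContDiff ℝ 1 h) (hcs : HasCompactSupport h) (hs : tsupport h ⊆ U)
    (hη : ContDiffOn ℝ 1 η U) (hP : ∀ z ∈ U, Per O hO h z = η z ^ 2)
    (hf : ContDiffOn ℝ 1 f U) (hg : ContDiffOn ℝ 1 g U)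
    (hfinv : ∀ γ : arith O hO, ∀ z ∈ U, f (act (mat γ.1) z) = f z)
    (hginv : ∀ γ : arith O hO, ∀ z ∈ U, g (act (mat γ.1) z) = g z) :
    Integrable (fun z : X => f z.1 * Bf z.1 (fderiv ℝ h z.1) (fderiv ℝ g z.1)) mu ∧
    Integrable (fun z : X => (w z).toReal *
      (2 * η z.1 * (f z.1 * Bf z.1 (fderiv ℝ η z.1) (fderiv ℝ g z.1)))) mu ∧
    c.toReal * ∫ z : X, f z.1 * Bf z.1 (fderiv ℝ h z.1) (fderiv ℝ g z.1) ∂mu =
      ∫ z : X, (w z).toReal *
        (2 * η z.1 * (f z.1 * Bf z.1 (fderiv ℝ η z.1) (fderiv ℝ g z.1))) ∂mu := by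
  have := countable_arith (hO := hO) hOd
  have hcont : ContinuousOn (fun z => f z * Bf z (fderiv ℝ h z) (fderiv ℝ g z)) U :=
    hf.continuousOn.mul (continuousOn_Bf hg hh.contDiffOn)
  have hint : Integrable (fun z : X => f z.1 * Bf z.1 (fderiv ℝ h z.1) (fderiv ℝ g z.1)) mu := by
    refine integrable_mu (φ := fun z => f z * Bf z (fderiv ℝ h z) (fderiv ℝ g z)) hcs hs hcont
      fun z _ hz => ?_
    have h0 : h =ᶠ[𝓝 z] 0 := notMem_tsupport_iff_eventuallyEq.mp hz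
    rw [h0.fderiv_eq]
    simp [Pi.zero_def, Bf_zero_left]
  have hm : Measurable (fun z : X => f z.1 * Bf z.1 (fderiv ℝ h z.1) (fderiv ℝ g z.1)) :=
    (continuous_restrict hcont).measurable
  have hsum : ∀ z : X, ∑' γ : arith O hO,
      (fun z : X => f z.1 * Bf z.1 (fderiv ℝ h z.1) (fderiv ℝ g z.1)) (γ • z) =
      2 * η z.1 * (f z.1 * Bf z.1 (fderiv ℝ η z.1) (fderiv ℝ g z.1)) := by
    intro z
    have h1 := tsum_Bf (hO := hO) hOd hh hcs hs hg hfinv hginv z.2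
    have h2 : fderiv ℝ (Per O hO h) z.1 = (2 * η z.1) • fderiv ℝ η z.1 := by
      have h3 : Per O hO h =ᶠ[𝓝 z.1] fun z => η z ^ 2 := by
        filter_upwards [isOpen_U.mem_nhds z.2] with v hv
        exact hP v hv
      rw [h3.fderiv_eq]
      have h4 := ((hη.contDiffAt (isOpen_U.mem_nhds z.2)).differentiableAt (by norm_num)).hasFDerivAt
      have h5 := (h4.pow 2).fderiv
      rw [h5]
      simp
    rw [h2, Bf_smul_left] at h1
    refine Eq.trans h1 ?_
    ring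
  have hm2 : Measurable (fun z : X =>
      2 * η z.1 * (f z.1 * Bf z.1 (fderiv ℝ η z.1) (fderiv ℝ g z.1))) :=
    (continuous_restrict (φ := fun z => 2 * η z * (f z * Bf z (fderiv ℝ η z) (fderiv ℝ g z)))
      ((continuousOn_const.mul hη.continuousOn).mul
        (hf.continuousOn.mul (continuousOn_Bf hg hη)))).measurable
  refine ⟨hint, unfold_integrable hw hc hwc hint hm hm2 hsum, ?_⟩
  rw [unfold_integral hw hc hwc hint hm]
  simp only [hsum]

/-- Weak identity with an extra smooth factor. -/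
lemma green_mul {f g h : ℂ × ℂ → ℝ} (hf : ContDiffOn ℝ 1 f U) (hg : ContDiffOn ℝ 2 g U)
    (hh : ContDiff ℝ 1 h) (hc : HasCompactSupport h) (hs : tsupport h ⊆ U)
    (hl : ContinuousOn (lapR g) U) :
    ∫ z : X, h z.1 * (f z.1 * lapR g z.1) ∂mu +
      (∫ z : X, f z.1 * Bf z.1 (fderiv ℝ h z.1) (fderiv ℝ g z.1) ∂mu +
      ∫ z : X, h z.1 * Bf z.1 (fderiv ℝ f z.1) (fderiv ℝ g z.1) ∂mu) = 0 := by
  have hg1 : ContDiffOn ℝ 1 g U := hg.of_le (by norm_num)
  have h1 := green_mu hg (contDiff_mul_of_tsupport hh hs hf) (hc.mul_right)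
    ((tsupport_mul_subset_left).trans hs)
  have i1 : Integrable (fun z : X => h z.1 * (f z.1 * lapR g z.1)) mu := by
    refine integrable_mu (φ := fun z => h z * (f z * lapR g z)) hc hs
      (hh.continuous.continuousOn.mul (hf.continuousOn.mul hl)) fun z _ hz => ?_
    rw [image_eq_zero_of_notMem_tsupport hz, zero_mul]
  have i2 : Integrable (fun z : X => f z.1 * Bf z.1 (fderiv ℝ h z.1) (fderiv ℝ g z.1)) mu := by
    refine integrable_mu (φ := fun z => f z * Bf z (fderiv ℝ h z) (fderiv ℝ g z)) hc hs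
      (hf.continuousOn.mul (continuousOn_Bf hg1 hh.contDiffOn)) fun z _ hz => ?_
    have h0 : h =ᶠ[𝓝 z] 0 := notMem_tsupport_iff_eventuallyEq.mp hz
    rw [h0.fderiv_eq]
    simp [Pi.zero_def, Bf_zero_left]
  have i3 : Integrable (fun z : X => h z.1 * Bf z.1 (fderiv ℝ f z.1) (fderiv ℝ g z.1)) mu := by
    refine integrable_mu (φ := fun z => h z * Bf z (fderiv ℝ f z) (fderiv ℝ g z)) hc hs
      (hh.continuous.continuousOn.mul (continuousOn_Bf hg1 hf)) fun z _ hz => ?_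
    rw [image_eq_zero_of_notMem_tsupport hz, zero_mul]
  have i23 : Integrable (fun z : X => f z.1 * Bf z.1 (fderiv ℝ h z.1) (fderiv ℝ g z.1) +
      h z.1 * Bf z.1 (fderiv ℝ f z.1) (fderiv ℝ g z.1)) mu := i2.add i3
  rw [← integral_add i2 i3, ← integral_add i1 i23]
  refine Eq.trans (integral_congr_ae (Filter.Eventually.of_forall fun z => ?_)) h1
  have h2 : fderiv ℝ (fun z => h z * f z) z.1 = f z.1 • fderiv ℝ h z.1 + h z.1 • fderiv ℝ f z.1 := by
    refine ContinuousLinearMap.ext fun v => ?_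
    rw [fderiv_mul_of_tsupport hh hs hf]
    simp
    ring
  simp only
  rw [h2, Bf_add_left, Bf_smul_left, Bf_smul_left]
  ring

end group

/-- A pointwise Young inequality. -/
lemma young_aux {η x P Q ε : ℝ} (hε : 0 < ε) (hP : 0 ≤ P) (hQ : 0 ≤ Q) (hx : x ^ 2 ≤ P * Q) :
    |2 * η * x| ≤ ε * (η ^ 2 * Q) + P / ε := by
  have h0 : 0 ≤ ε * (η ^ 2 * Q) + P / ε := by positivity
  apply abs_le_of_sq_le_sq _ h0
  have h1 : (2 * η * x) ^ 2 ≤ 4 * η ^ 2 * (P * Q) := by
    calc (2 * η * x) ^ 2 = 4 * η ^ 2 * x ^ 2 := by ring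
      _ ≤ 4 * η ^ 2 * (P * Q) := by gcongr
  have h2 : (ε * (η ^ 2 * Q) + P / ε) ^ 2 - 4 * η ^ 2 * (P * Q) =
      (ε * (η ^ 2 * Q) - P / ε) ^ 2 := by
    field_simp
    ring
  nlinarith [sq_nonneg (ε * (η ^ 2 * Q) - P / ε)]

end

end Pool.Agent.Lib.H56.Picard
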