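import Pool.Agent.Lib.H56.Picard.Green6

/-!
# Green's identity, part 7: the limit
-/

namespace Pool.Agent.Lib.H56.Picard

open Matrix MeasureTheory Topology

noncomputable section

section group

variable {O : Subring ℂ} {hO : ∀ x ∈ O, star x ∈ O}

lemma Bf_invariant {f g : ℂ × ℂ → ℝ} (hf : ContDiffOn ℝ 1 f U) (hg : ContDiffOn ℝ 1 g U)
    (hfinv : ∀ γ : arith O hO, ∀ z ∈ U, f (act (mat γ.1) z) = f z)
    (hginv : ∀ γ : arith O hO, ∀ z ∈ U, g (act (mat γ.1) z) = g z) (γ : arith O hO) (z : ℂ × ℂ)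
    (hz : z ∈ U) :
    Bf (act (mat γ.1) z) (fderiv ℝ f (act (mat γ.1) z)) (fderiv ℝ g (act (mat γ.1) z)) =
      Bf z (fderiv ℝ f z) (fderiv ℝ g z) := by
  rw [fderiv_invariant hf hfinv γ hz, fderiv_invariant hg hginv γ hz, Bf_comp γ.1 hz]

/-- The unfolded weak identity for a pair of invariant functions. -/
lemma green_pair (hOd : ∀ B : ℝ, {x : ℂ | x ∈ O ∧ ‖x‖ ≤ B}.Finite)
    {w : X → ENNReal} (hw : Measurable w) {c : ENNReal} (hc : c ≠ ⊤)
    (hwc : ∀ᵐ z ∂mu, ∑' γ : arith O hO, w (γ • z) = c)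
    {h η : ℂ × ℂ → ℝ} (hh : ContDiff ℝ 1 h) (hcs : HasCompactSupport h) (hs : tsupport h ⊆ U)
    (hη : ContDiffOn ℝ 1 η U) (hP : ∀ z ∈ U, Per O hO h z = η z ^ 2)
    {f g k l : ℂ × ℂ → ℝ} (hf : ContDiffOn ℝ 2 f U) (hg : ContDiffOn ℝ 2 g U)
    (hk : ContDiffOn ℝ 2 k U) (hl : ContDiffOn ℝ 2 l U)
    (hfinv : ∀ γ : arith O hO, ∀ z ∈ U, f (act (mat γ.1) z) = f z)
    (hginv : ∀ γ : arith O hO, ∀ z ∈ U, g (act (mat γ.1) z) = g z)
    (hkinv : ∀ γ : arith O hO, ∀ z ∈ U, k (act (mat γ.1) z) = k z)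
    (hlinv : ∀ γ : arith O hO, ∀ z ∈ U, l (act (mat γ.1) z) = l z)
    {p q : ℝ} (hlap : ∀ z ∈ U, lapR g z = -(p * k z + q * l z)) :
    -(p * ∫ z : X, (w z).toReal * (η z.1 ^ 2 * (f z.1 * k z.1)) ∂mu +
      q * ∫ z : X, (w z).toReal * (η z.1 ^ 2 * (f z.1 * l z.1)) ∂mu) +
    ∫ z : X, (w z).toReal *
        (2 * η z.1 * (f z.1 * Bf z.1 (fderiv ℝ η z.1) (fderiv ℝ g z.1))) ∂mu +
    ∫ z : X, (w z).toReal * (η z.1 ^ 2 * Bf z.1 (fderiv ℝ f z.1) (fderiv ℝ g z.1)) ∂mu = 0 := by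
  have hf1 : ContDiffOn ℝ 1 f U := hf.of_le (by norm_num)
  have hg1 : ContDiffOn ℝ 1 g U := hg.of_le (by norm_num)
  have hlc : ContinuousOn (lapR g) U := by
    have : ContinuousOn (fun z => -(p * k z + q * l z)) U :=
      ((continuousOn_const.mul hk.continuousOn).add (continuousOn_const.mul hl.continuousOn)).neg
    exact this.congr hlap
  have h0 := green_mul hf1 hg hh hcs hs hlc
  obtain ⟨i1, -, e1⟩ := unf_inv hOd hw hc hwc hh hcs hs hη hP
    (E := fun z => f z * k z) (hf.continuousOn.mul hk.continuousOn)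
    (fun γ z hz => by rw [hfinv γ z hz, hkinv γ z hz])
  obtain ⟨i2, -, e2⟩ := unf_inv hOd hw hc hwc hh hcs hs hη hP
    (E := fun z => f z * l z) (hf.continuousOn.mul hl.continuousOn)
    (fun γ z hz => by rw [hfinv γ z hz, hlinv γ z hz])
  obtain ⟨-, -, e3⟩ := unf_inv hOd hw hc hwc hh hcs hs hη hP
    (E := fun z => Bf z (fderiv ℝ f z) (fderiv ℝ g z)) (continuousOn_Bf hg1 hf1)
    (Bf_invariant hf1 hg1 hfinv hginv)
  obtain ⟨-, -, e4⟩ := unf_grad hOd hw hc hwc hh hcs hs hη hP hf1 hg1 hfinv hginv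
  rw [← e1, ← e2, ← e3, ← e4]
  have h1 : ∫ z : X, h z.1 * (f z.1 * lapR g z.1) ∂mu =
      -(p * ∫ z : X, h z.1 * (f z.1 * k z.1) ∂mu + q * ∫ z : X, h z.1 * (f z.1 * l z.1) ∂mu) := by
    rw [← integral_const_mul, ← integral_const_mul, ← integral_add (i1.const_mul p)
      (i2.const_mul q), ← integral_neg]
    refine integral_congr_ae (Filter.Eventually.of_forall fun z => ?_)
    simp only
    rw [hlap z.1 z.2]
    ring
  rw [h1] at h0
  linear_combination c.toReal * h0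

/-- Points with a translate of height at least `R`. -/
def TR (O : Subring ℂ) (hO : ∀ x ∈ O, star x ∈ O) (R : ℝ) : Set (ℂ × ℂ) :=
  {z | ∃ γ : arith O hO, R ≤ height (act (mat γ.1) z)}

lemma measurableSet_TR (hOd : ∀ B : ℝ, {x : ℂ | x ∈ O ∧ ‖x‖ ≤ B}.Finite) (R : ℝ) :
    MeasurableSet (Subtype.val ⁻¹' (TR O hO R) : Set X) := by
  have := countable_arith (hO := hO) hOd
  have e : (Subtype.val ⁻¹' (TR O hO R) : Set X) =
      ⋃ γ : arith O hO, {z : X | R ≤ height (γ • z : X).1} := by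
    ext z
    simp only [TR, Set.mem_preimage, Set.mem_ofPred_eq, Set.mem_iUnion]
    rfl
  rw [e]
  refine MeasurableSet.iUnion fun γ => ?_
  have h1 : Measurable fun z : X => height (γ • z : X).1 :=
    (continuous_height.measurable.comp measurable_subtype_coe).comp (measurable_const_smul γ)
  exact measurableSet_le measurable_const h1

lemma height_bounded (hO1 : ∀ x ∈ O, x ≠ 0 → 1 ≤ ‖x‖) {z : ℂ × ℂ} (hz : z ∈ U) :
    ∃ M : ℝ, ∀ γ : arith O hO, height (act (mat γ.1) z) < M := by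
  by_cases hex : ∃ γ : arith O hO, 2 < height (act (mat γ.1) z)
  · obtain ⟨γ, hγ⟩ := hex
    refine ⟨height (act (mat γ.1) z) + 1, fun δ => ?_⟩
    by_cases hδ : 2 < height (act (mat δ.1) z)
    · rw [height_unique hO1 γ δ hz hγ hδ]
      linarith
    · push Not at hδ
      linarith
  · push Not at hex
    exact ⟨3, fun γ => lt_of_le_of_lt (hex γ) (by norm_num)⟩

/-- The two inequalities at a fixed cut-off. -/
lemma green_fixed (hOd : ∀ B : ℝ, {x : ℂ | x ∈ O ∧ ‖x‖ ≤ B}.Finite)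
    (hO1 : ∀ x ∈ O, x ≠ 0 → 1 ≤ ‖x‖)
    (hcov : ∀ R : ℝ, ∃ K : Set (ℂ × ℂ), IsCompact K ∧ K ⊆ U ∧ ∀ z ∈ U,
      (∀ γ : arith O hO, height (act (mat γ.1) z) ≤ R) → ∃ γ : arith O hO, act (mat γ.1) z ∈ K)
    {w : X → ENNReal} (hw : Measurable w) {c : ENNReal} (hc : c ≠ ⊤)
    (hwc : ∀ᵐ z ∂mu, ∑' γ : arith O hO, w (γ • z) = c)
    {f g : ℂ × ℂ → ℝ} (hf : ContDiffOn ℝ 2 f U) (hg : ContDiffOn ℝ 2 g U)
    (hfinv : ∀ γ : arith O hO, ∀ z ∈ U, f (act (mat γ.1) z) = f z)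
    (hginv : ∀ γ : arith O hO, ∀ z ∈ U, g (act (mat γ.1) z) = g z)
    {a b : ℝ} (hlf : ∀ z ∈ U, lapR f z = -(a * f z - b * g z))
    (hlg : ∀ z ∈ U, lapR g z = -(a * g z + b * f z))
    (hL2 : Integrable (fun z : X => (w z).toReal * (f z.1 ^ 2 + g z.1 ^ 2)) mu)
    {C : ℝ} (hC : ∀ R : ℝ, 0 < R → ∀ u, u ^ 2 * deriv (qR R) u ^ 2 ≤ C)
    {R ε : ℝ} (hR : 3 ≤ R) (hε : 0 < ε) :
    let η := cutH O hO (qR R)
    let D := ∫ z : X, (w z).toReal * (η z.1 ^ 2 *
      (normL z.1 (fderiv ℝ f z.1) + normL z.1 (fderiv ℝ g z.1))) ∂mu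
    let A := ∫ z : X, (w z).toReal * (η z.1 ^ 2 * (f z.1 ^ 2 + g z.1 ^ 2)) ∂mu
    let δ := ∫ z : X, (Subtype.val ⁻¹' (TR O hO R) : Set X).indicator
      (fun z : X => (w z).toReal * (f z.1 ^ 2 + g z.1 ^ 2)) z ∂mu
    Integrable (fun z : X => (w z).toReal * (η z.1 ^ 2 *
      (normL z.1 (fderiv ℝ f z.1) + normL z.1 (fderiv ℝ g z.1)))) mu ∧
    D ≤ a * A + (ε * D + C / ε * δ) ∧ |b| * A ≤ ε * D + C / ε * δ := by
  intro η D A δ
  have hR0 : 0 < R := by linarith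
  have hC0 : 0 ≤ C := le_trans (by positivity) (hC R hR0 0)
  obtain ⟨h, hh, hcs, hs, h0, hP⟩ := exists_test (hO := hO) hOd hO1 hcov hR
  have hη : ContDiffOn ℝ 1 η U :=
    contDiffOn_cutH hO1 hR (fun u hu => qR_eq_one hR0 hu) (contDiff_qR R)
  have hf1 : ContDiffOn ℝ 1 f U := hf.of_le (by norm_num)
  have hg1 : ContDiffOn ℝ 1 g U := hg.of_le (by norm_num)
  have hηm := fun z : ℂ × ℂ => cutH_mem (hO := hO) (qR R) (qR_mem R) z
  -- pair identities
  have p11 := green_pair hOd hw hc hwc hh hcs hs hη hP hf hf hf hg hfinv hfinv hfinv hginv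
    (p := a) (q := -b) (fun z hz => by rw [hlf z hz]; ring)
  have p22 := green_pair hOd hw hc hwc hh hcs hs hη hP hg hg hf hg hginv hginv hfinv hginv
    (p := b) (q := a) (fun z hz => by rw [hlg z hz]; ring)
  have p21 := green_pair hOd hw hc hwc hh hcs hs hη hP hg hf hf hg hginv hfinv hfinv hginv
    (p := a) (q := -b) (fun z hz => by rw [hlf z hz]; ring)
  have p12 := green_pair hOd hw hc hwc hh hcs hs hη hP hf hg hf hg hfinv hginv hfinv hginv
    (p := b) (q := a) (fun z hz => by rw [hlg z hz]; ring)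
  -- integrability
  obtain ⟨-, iff', -⟩ := unf_inv hOd hw hc hwc hh hcs hs hη hP
    (E := fun z => f z * f z) (hf.continuousOn.mul hf.continuousOn)
    (fun γ z hz => by rw [hfinv γ z hz])
  obtain ⟨-, igg, -⟩ := unf_inv hOd hw hc hwc hh hcs hs hη hP
    (E := fun z => g z * g z) (hg.continuousOn.mul hg.continuousOn)
    (fun γ z hz => by rw [hginv γ z hz])
  obtain ⟨-, dff, -⟩ := unf_inv hOd hw hc hwc hh hcs hs hη hP
    (E := fun z => Bf z (fderiv ℝ f z) (fderiv ℝ f z)) (continuousOn_Bf hf1 hf1)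
    (Bf_invariant hf1 hf1 hfinv hfinv)
  obtain ⟨-, dgg, -⟩ := unf_inv hOd hw hc hwc hh hcs hs hη hP
    (E := fun z => Bf z (fderiv ℝ g z) (fderiv ℝ g z)) (continuousOn_Bf hg1 hg1)
    (Bf_invariant hg1 hg1 hginv hginv)
  obtain ⟨-, gff, -⟩ := unf_grad hOd hw hc hwc hh hcs hs hη hP hf1 hf1 hfinv hfinv
  obtain ⟨-, ggg, -⟩ := unf_grad hOd hw hc hwc hh hcs hs hη hP hg1 hg1 hginv hginv
  obtain ⟨-, gfg, -⟩ := unf_grad hOd hw hc hwc hh hcs hs hη hP hf1 hg1 hfinv hginv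
  obtain ⟨-, ggf, -⟩ := unf_grad hOd hw hc hwc hh hcs hs hη hP hg1 hf1 hginv hfinv
  have iD : Integrable (fun z : X => (w z).toReal * (η z.1 ^ 2 *
      (normL z.1 (fderiv ℝ f z.1) + normL z.1 (fderiv ℝ g z.1)))) mu := by
    refine (dff.add dgg).congr (Filter.Eventually.of_forall fun z => ?_)
    simp only [Pi.add_apply, Bf_self]
    ring
  have eD : D = ∫ z : X, (w z).toReal * (η z.1 ^ 2 * Bf z.1 (fderiv ℝ f z.1) (fderiv ℝ f z.1)) ∂mu +
      ∫ z : X, (w z).toReal * (η z.1 ^ 2 * Bf z.1 (fderiv ℝ g z.1) (fderiv ℝ g z.1)) ∂mu := by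
    rw [← integral_add dff dgg]
    refine integral_congr_ae (Filter.Eventually.of_forall fun z => ?_)
    simp only [Bf_self]
    ring
  have eA : A = ∫ z : X, (w z).toReal * (η z.1 ^ 2 * (f z.1 * f z.1)) ∂mu +
      ∫ z : X, (w z).toReal * (η z.1 ^ 2 * (g z.1 * g z.1)) ∂mu := by
    rw [← integral_add iff' igg]
    refine integral_congr_ae (Filter.Eventually.of_forall fun z => ?_)
    simp only
    ring
  have eP : ∫ z : X, (w z).toReal * (η z.1 ^ 2 * (f z.1 * g z.1)) ∂mu =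
      ∫ z : X, (w z).toReal * (η z.1 ^ 2 * (g z.1 * f z.1)) ∂mu := by
    refine integral_congr_ae (Filter.Eventually.of_forall fun z => ?_)
    simp only
    ring
  have eB : ∫ z : X, (w z).toReal * (η z.1 ^ 2 * Bf z.1 (fderiv ℝ f z.1) (fderiv ℝ g z.1)) ∂mu =
      ∫ z : X, (w z).toReal * (η z.1 ^ 2 * Bf z.1 (fderiv ℝ g z.1) (fderiv ℝ f z.1)) ∂mu := by
    refine integral_congr_ae (Filter.Eventually.of_forall fun z => ?_)
    simp only
    rw [Bf_comm]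
  set G1 := ∫ z : X, (w z).toReal *
    (2 * η z.1 * (f z.1 * Bf z.1 (fderiv ℝ η z.1) (fderiv ℝ f z.1))) ∂mu with hG1
  set G2 := ∫ z : X, (w z).toReal *
    (2 * η z.1 * (g z.1 * Bf z.1 (fderiv ℝ η z.1) (fderiv ℝ g z.1))) ∂mu with hG2
  set G3 := ∫ z : X, (w z).toReal *
    (2 * η z.1 * (f z.1 * Bf z.1 (fderiv ℝ η z.1) (fderiv ℝ g z.1))) ∂mu with hG3
  set G4 := ∫ z : X, (w z).toReal *
    (2 * η z.1 * (g z.1 * Bf z.1 (fderiv ℝ η z.1) (fderiv ℝ f z.1))) ∂mu with hG4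
  have eq1 : D = a * A - (G1 + G2) := by
    rw [eD, eA]
    linear_combination p11 + p22 - b * eP
  have eq2 : b * A = G3 - G4 := by
    rw [eA]
    linear_combination p21 - p12 + eB - a * eP
  -- pointwise bounds
  set T : Set X := Subtype.val ⁻¹' (TR O hO R) with hT
  have hTm : MeasurableSet T := measurableSet_TR hOd R
  have iT : Integrable (T.indicator (fun z : X => (w z).toReal * (f z.1 ^ 2 + g z.1 ^ 2))) mu :=
    hL2.indicator hTm
  have hbound : ∀ (z : X) (x : ℝ), x ^ 2 ≤ ((f z.1 ^ 2 + g z.1 ^ 2) * normL z.1 (fderiv ℝ η z.1)) *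
      (normL z.1 (fderiv ℝ f z.1) + normL z.1 (fderiv ℝ g z.1)) →
      |(w z).toReal * (2 * η z.1 * x)| ≤ ε * ((w z).toReal * (η z.1 ^ 2 *
        (normL z.1 (fderiv ℝ f z.1) + normL z.1 (fderiv ℝ g z.1)))) +
        C / ε * T.indicator (fun z : X => (w z).toReal * (f z.1 ^ 2 + g z.1 ^ 2)) z := by
    intro z x hx
    have hz := z.2
    have hn1 := normL_nonneg hz.le (fderiv ℝ f z.1)
    have hn2 := normL_nonneg hz.le (fderiv ℝ g z.1)
    have hn3 := normL_nonneg hz.le (fderiv ℝ η z.1)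
    have hy := young_aux (η := η z.1) hε (by positivity) (by positivity) hx
    obtain ⟨hc1, hc2⟩ := normL_fderiv_cutH (hO := hO) hO1 hR (fun u hu => qR_eq_one hR0 hu)
      (contDiff_qR R) (hC R hR0) hz
    have hw0 : 0 ≤ (w z).toReal := ENNReal.toReal_nonneg
    rw [abs_mul, abs_of_nonneg hw0]
    have h5 : (f z.1 ^ 2 + g z.1 ^ 2) * normL z.1 (fderiv ℝ η z.1) / ε ≤
        C / ε * T.indicator (fun z : X => f z.1 ^ 2 + g z.1 ^ 2) z := by
      by_cases hzT : z ∈ T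
      · rw [Set.indicator_of_mem hzT]
        rw [div_mul_eq_mul_div]
        have : (f z.1 ^ 2 + g z.1 ^ 2) * normL z.1 (fderiv ℝ η z.1) ≤
            C * (f z.1 ^ 2 + g z.1 ^ 2) := by
          rw [mul_comm C]
          exact mul_le_mul_of_nonneg_left hc1 (by positivity)
        gcongr
      · rw [Set.indicator_of_notMem hzT]
        have h6 : fderiv ℝ η z.1 = 0 := by
          apply hc2
          intro γ
          by_contra hcon
          push Not at hcon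
          exact hzT ⟨γ, hcon⟩
        rw [h6, normL_zero]
        simp
    have h7 : T.indicator (fun z : X => (w z).toReal * (f z.1 ^ 2 + g z.1 ^ 2)) z =
        (w z).toReal * T.indicator (fun z : X => f z.1 ^ 2 + g z.1 ^ 2) z := by
      by_cases hzT : z ∈ T
      · rw [Set.indicator_of_mem hzT, Set.indicator_of_mem hzT]
      · rw [Set.indicator_of_notMem hzT, Set.indicator_of_notMem hzT, mul_zero]
    rw [h7]
    calc (w z).toReal * |2 * η z.1 * x| ≤ (w z).toReal * (ε * (η z.1 ^ 2 *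
          (normL z.1 (fderiv ℝ f z.1) + normL z.1 (fderiv ℝ g z.1))) +
          (f z.1 ^ 2 + g z.1 ^ 2) * normL z.1 (fderiv ℝ η z.1) / ε) := by gcongr
      _ ≤ (w z).toReal * (ε * (η z.1 ^ 2 *
          (normL z.1 (fderiv ℝ f z.1) + normL z.1 (fderiv ℝ g z.1))) +
          C / ε * T.indicator (fun z : X => f z.1 ^ 2 + g z.1 ^ 2) z) := by gcongr
      _ = _ := by ring
  have iRHS : Integrable (fun z : X => ε * ((w z).toReal * (η z.1 ^ 2 *
        (normL z.1 (fderiv ℝ f z.1) + normL z.1 (fderiv ℝ g z.1)))) +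
        C / ε * T.indicator (fun z : X => (w z).toReal * (f z.1 ^ 2 + g z.1 ^ 2)) z) mu :=
    (iD.const_mul ε).add (iT.const_mul (C / ε))
  have eRHS : ∫ z : X, (ε * ((w z).toReal * (η z.1 ^ 2 *
        (normL z.1 (fderiv ℝ f z.1) + normL z.1 (fderiv ℝ g z.1)))) +
        C / ε * T.indicator (fun z : X => (w z).toReal * (f z.1 ^ 2 + g z.1 ^ 2)) z) ∂mu =
      ε * D + C / ε * δ := by
    rw [integral_add (iD.const_mul ε) (iT.const_mul (C / ε)), integral_const_mul,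
      integral_const_mul]
  have cs : ∀ (z : X) (s t x y : ℝ), s ^ 2 + t ^ 2 = f z.1 ^ 2 + g z.1 ^ 2 →
      x ^ 2 ≤ normL z.1 (fderiv ℝ η z.1) * normL z.1 (fderiv ℝ f z.1) →
      y ^ 2 ≤ normL z.1 (fderiv ℝ η z.1) * normL z.1 (fderiv ℝ g z.1) →
      (s * x + t * y) ^ 2 ≤ ((f z.1 ^ 2 + g z.1 ^ 2) * normL z.1 (fderiv ℝ η z.1)) *
      (normL z.1 (fderiv ℝ f z.1) + normL z.1 (fderiv ℝ g z.1)) := by
    intro z s t x y hst hx hy
    calc (s * x + t * y) ^ 2 ≤ (s ^ 2 + t ^ 2) * (x ^ 2 + y ^ 2) := by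
          nlinarith [sq_nonneg (s * y - t * x)]
      _ ≤ (s ^ 2 + t ^ 2) * (normL z.1 (fderiv ℝ η z.1) * normL z.1 (fderiv ℝ f z.1) +
          normL z.1 (fderiv ℝ η z.1) * normL z.1 (fderiv ℝ g z.1)) := by gcongr
      _ = _ := by rw [hst]; ring
  have hG12 : |G1 + G2| ≤ ε * D + C / ε * δ := by
    rw [← eRHS, hG1, hG2, ← integral_add gff ggg]
    refine (abs_integral_le_integral_abs).trans ?_
    refine integral_mono_of_nonneg (Filter.Eventually.of_forall fun z => abs_nonneg _) iRHS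
      (Filter.Eventually.of_forall fun z => ?_)
    simp only
    have hx : (w z).toReal * (2 * η z.1 * (f z.1 * Bf z.1 (fderiv ℝ η z.1) (fderiv ℝ f z.1))) +
        (w z).toReal * (2 * η z.1 * (g z.1 * Bf z.1 (fderiv ℝ η z.1) (fderiv ℝ g z.1))) =
        (w z).toReal * (2 * η z.1 * (f z.1 * Bf z.1 (fderiv ℝ η z.1) (fderiv ℝ f z.1) +
          g z.1 * Bf z.1 (fderiv ℝ η z.1) (fderiv ℝ g z.1))) := by ring
    rw [hx]
    exact hbound z _ (cs z _ _ _ _ rfl (Bf_sq_le z.2.le _ _) (Bf_sq_le z.2.le _ _))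
  have hG34 : |G3 - G4| ≤ ε * D + C / ε * δ := by
    rw [← eRHS, hG3, hG4, ← integral_sub gfg ggf]
    refine (abs_integral_le_integral_abs).trans ?_
    refine integral_mono_of_nonneg (Filter.Eventually.of_forall fun z => abs_nonneg _) iRHS
      (Filter.Eventually.of_forall fun z => ?_)
    simp only
    have hx : (w z).toReal * (2 * η z.1 * (f z.1 * Bf z.1 (fderiv ℝ η z.1) (fderiv ℝ g z.1))) -
        (w z).toReal * (2 * η z.1 * (g z.1 * Bf z.1 (fderiv ℝ η z.1) (fderiv ℝ f z.1))) =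
        (w z).toReal * (2 * η z.1 * (-g z.1 * Bf z.1 (fderiv ℝ η z.1) (fderiv ℝ f z.1) +
          f z.1 * Bf z.1 (fderiv ℝ η z.1) (fderiv ℝ g z.1))) := by ring
    rw [hx]
    exact hbound z _ (cs z _ _ _ _ (by ring) (Bf_sq_le z.2.le _ _) (Bf_sq_le z.2.le _ _))
  refine ⟨iD, ?_, ?_⟩
  · rw [abs_le] at hG12
    linarith [hG12.1]
  · have hA0 : 0 ≤ A := integral_nonneg fun z => by
      have : 0 ≤ (w z).toReal := ENNReal.toReal_nonneg
      positivity
    have h8 : |b| * A = |b * A| := by rw [abs_mul, abs_of_nonneg hA0]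
    rw [h8, eq2]
    exact hG34

end group

end

end Pool.Agent.Lib.H56.Picard
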